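import Mathlib

-- merged part: Pool.Agent.Work.MP_0a826e_ag.R.D
section
/-!
Definitions for the proof of the dynamical Manin-Mumford statement for regular polynomial
endomorphisms of the affine plane.
-/

namespace Pool.Agent.Work.MP_0a826e_ag.R

open MvPolynomial

variable {k : Type} [Field k]

abbrev A2 (k : Type) [Field k] := MvPolynomial (Fin 2) k

abbrev Pt (k : Type) := Fin 2 → k

/-- weight of an exponent vector -/
def wdeg (w : Fin 2 → ℕ) (m : Fin 2 →₀ ℕ) : ℕ := w 0 * m 0 + w 1 * m 1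

/-- the grading homomorphism `X i ↦ X i * T ^ (w i)` -/
noncomputable def Hw (w : Fin 2 → ℕ) : A2 k →ₐ[k] Polynomial (A2 k) :=
  aeval fun i => Polynomial.monomial (w i) (X i : A2 k)

/-- weighted degree -/
noncomputable def wt (w : Fin 2 → ℕ) (φ : A2 k) : ℕ := (Hw w φ).natDegree

/-- weighted homogeneous component -/
noncomputable def cmp (w : Fin 2 → ℕ) (n : ℕ) (φ : A2 k) : A2 k := (Hw w φ).coeff n

/-- weighted top form -/
noncomputable def top (w : Fin 2 → ℕ) (φ : A2 k) : A2 k := (Hw w φ).leadingCoeff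

/-- weighted homogeneous of weight `n` -/
def IsHom (w : Fin 2 → ℕ) (n : ℕ) (φ : A2 k) : Prop := ∀ m ∈ φ.support, wdeg w m = n

/-- the weights multiplied by `D` -/
def sw (D : ℕ) (w : Fin 2 → ℕ) : Fin 2 → ℕ := fun i => D * w i

/-- weighted scaling of a point -/
def act (w : Fin 2 → ℕ) (l : k) (u : Pt k) : Pt k := fun i => l ^ w i * u i

/-- the map of the plane given by two polynomials -/
noncomputable def ev (g : Fin 2 → A2 k) (u : Pt k) : Pt k := fun i => eval u (g i)

/-- composition `h ∘ g` of polynomial maps -/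
noncomputable def comp (h g : Fin 2 → A2 k) : Fin 2 → A2 k := fun i => aeval g (h i)

/-- iterates of a polynomial map -/
noncomputable def iter (f : Fin 2 → A2 k) : ℕ → Fin 2 → A2 k
  | 0 => X
  | n + 1 => comp f (iter f n)

/-- `g` has weighted degree at most `d` and `G` is its top part -/
structure Bnd (w : Fin 2 → ℕ) (d : ℕ) (g G : Fin 2 → A2 k) : Prop where
  le : ∀ i, wt w (g i) ≤ d * w i
  eq : ∀ i, G i = cmp w (d * w i) (g i)

/-- `g` is regular for the weights `w`, of degree `d`, with top part `G` -/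
structure Reg (w : Fin 2 → ℕ) (d : ℕ) (g G : Fin 2 → A2 k) : Prop where
  bnd : Bnd w d g G
  nz : ∀ u, ev G u = 0 → u = 0

/-- positive coprime weights -/
structure Pos (w : Fin 2 → ℕ) : Prop where
  pos : ∀ i, 0 < w i
  cop : Nat.Coprime (w 0) (w 1)

/-- same orbit of the weighted scaling action -/
def Cls (w : Fin 2 → ℕ) (u v : Pt k) : Prop := ∃ l : k, l ≠ 0 ∧ v = act w l u

/-- the form of weight `w 0 * w 1` vanishing on the class of `u` -/
noncomputable def lu (w : Fin 2 → ℕ) (u : Pt k) : A2 k :=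
  C (u 1 ^ w 0) * X 0 ^ w 1 - C (u 0 ^ w 1) * X 1 ^ w 0

/-- restriction to the line `y = 1` -/
noncomputable def dh (φ : A2 k) : Polynomial k := aeval ![Polynomial.X, 1] φ

/-- freeness of the monomials `b i` over the polynomials in `g` -/
def Fr {q : ℕ} (g : Fin 2 → A2 k) (b : Fin q → Fin 2 →₀ ℕ) : Prop :=
  ∀ h : Fin q → A2 k, ∑ i, aeval g (h i) * monomial (b i) (1 : k) = 0 → h = 0

/-- the monomials `b i` generate everything over the polynomials in `g` -/
def Sp {q : ℕ} (g : Fin 2 → A2 k) (b : Fin q → Fin 2 →₀ ℕ) : Prop :=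
  ∀ φ : A2 k, ∃ h : Fin q → A2 k, φ = ∑ i, aeval g (h i) * monomial (b i) (1 : k)

/-- the monomials `b i` span the quotient by the ideal of `G` -/
def SpMod {q : ℕ} (G : Fin 2 → A2 k) (b : Fin q → Fin 2 →₀ ℕ) : Prop :=
  ∀ φ : A2 k, ∃ (c : Fin q → k) (C0 C1 : A2 k),
    φ = ∑ i, monomial (b i) (c i) + C0 * G 0 + C1 * G 1

/-- `M` is the matrix of multiplication by `Φ` -/
def IsRep {q : ℕ} (g : Fin 2 → A2 k) (b : Fin q → Fin 2 →₀ ℕ) (Φ : A2 k)
    (M : Matrix (Fin q) (Fin q) (A2 k)) : Prop :=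
  ∀ i, Φ * monomial (b i) (1 : k) = ∑ j, aeval g (M i j) * monomial (b j) (1 : k)

/-- `R` is the norm of `Φ` -/
def IsNorm {q : ℕ} (g : Fin 2 → A2 k) (b : Fin q → Fin 2 →₀ ℕ) (Φ R : A2 k) : Prop :=
  ∃ M, IsRep g b Φ M ∧ R = M.det

/-- `Q` is an irreducible equation of the image of the curve `P = 0` under `g` -/
def Img (g : Fin 2 → A2 k) (P Q : A2 k) : Prop :=
  Irreducible Q ∧ ∀ z, eval z Q = 0 ↔ ∃ y, eval y P = 0 ∧ ev g y = z

/-- finite forward orbit -/
def Pre {X : Type} (φ : X → X) (x : X) : Prop := (Set.range fun n : ℕ => φ^[n] x).Finite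

/-- one nonzero polynomial vanishes on infinitely many images of the curve -/
def Concl (f : Fin 2 → A2 k) (P : A2 k) : Prop :=
  ∃ Q : A2 k, Q ≠ 0 ∧ ∀ K : ℕ, ∃ n, K ≤ n ∧ ∀ z, eval z P = 0 → eval ((ev f)^[n] z) Q = 0

/-- a counterexample -/
structure Bad (f : Fin 2 → A2 k) (P : A2 k) : Prop where
  irr : Irreducible P
  inf : {z | eval z P = 0 ∧ Pre (ev f) z}.Infinite
  nc : ¬ Concl f P

/-- an absolute value with a size parameter dominating the constants in `S` -/
structure Place (S : Finset k) where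
  v : AbsoluteValue k ℝ
  π : k
  one_le : 1 ≤ v π
  add_le : ∀ x y, v (x + y) ≤ v π * max (v x) (v y)
  bd : ∀ s ∈ S, v s ≤ v π

/-- the size parameter -/
def Place.A {S : Finset k} (p : Place S) : ℝ := p.v p.π

/-- uniformly bounded by a power of the size parameter -/
def Tame (S : Finset k) (x : k) : Prop := ∃ c : ℕ, ∀ p : Place S, p.v x ≤ p.A ^ c

/-- all coefficients are tame -/
def TameP (S : Finset k) (φ : A2 k) : Prop := ∀ m, Tame S (coeff m φ)

/-- weighted size bound -/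
def Bd {S : Finset k} (p : Place S) (w : Fin 2 → ℕ) (u : Pt k) (ρ : ℝ) : Prop :=
  ∀ i, p.v (u i) ≤ ρ ^ w i

/-- a height certificate -/
def Cert (S : Finset k) (B : ℕ) (β : k) : Prop :=
  ∃ γ : k, γ ≠ 0 ∧ ∃ s : ℕ, 1 ≤ s ∧
    ∀ p : Place S, p.v γ * (max 1 (p.v β)) ^ s ≤ p.A ^ (s * B)

/-- fixed by all automorphisms fixing `T` -/
def Inv (T : Finset k) (β : k) : Prop := ∀ σ : k ≃+* k, (∀ t ∈ T, σ t = t) → σ β = β

/-- the Northcott property -/
def MAL (k : Type) [Field k] : Prop :=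
  ∀ (T S : Finset k) (B : ℕ), {β | Inv T β ∧ Cert S B β}.Finite

/-- the product map `(p(x), q(y))` -/
noncomputable def prodMap (p q : Polynomial k) : Fin 2 → A2 k :=
  ![Polynomial.aeval (X 0 : A2 k) p, Polynomial.aeval (X 1 : A2 k) q]

/-- the coefficient of `y ^ j`, as a polynomial in `x` -/
noncomputable def edge (j : ℕ) (φ : A2 k) : Polynomial k := dh (cmp ![0, 1] j φ)

end Pool.Agent.Work.MP_0a826e_ag.R
end

-- merged part: Pool.Agent.Work.MP_0a826e_ag.R.M1
section
namespace Pool.Agent.Work.MP_0a826e_ag.R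

open MvPolynomial

variable {k : Type} [Field k]

open MeasureTheory

/-- the torus of radius two -/
noncomputable def tor {r : ℕ} (θ : Fin r → ℝ) : Fin r → ℂ := fun i => circleMap 0 2 (θ i)

/-- the measure on the angles -/
noncomputable def mu (r : ℕ) : Measure (Fin r → ℝ) :=
  Measure.pi fun _ => (ENNReal.ofReal (2 * Real.pi))⁻¹ • volume.restrict (Set.Ioc 0 (2 * Real.pi))

/-- the measure on one angle -/
noncomputable def M1_nu : Measure ℝ :=
  (ENNReal.ofReal (2 * Real.pi))⁻¹ • volume.restrict (Set.Ioc 0 (2 * Real.pi))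

instance M1_prob : IsProbabilityMeasure M1_nu :=
  ⟨by
    rw [M1_nu, Measure.smul_apply, Measure.restrict_apply_univ, Real.volume_Ioc, sub_zero,
      smul_eq_mul, ENNReal.inv_mul_cancel (ENNReal.ofReal_pos.2 Real.two_pi_pos).ne'
        ENNReal.ofReal_ne_top]⟩

theorem M1_mu (r : ℕ) : mu r = Measure.pi fun _ => M1_nu := rfl

instance (r : ℕ) : IsProbabilityMeasure (mu r) := by
  rw [M1_mu]
  infer_instance

/-- logarithmic Mahler measure on the torus of radius two -/
noncomputable def mah {r : ℕ} (a : MvPolynomial (Fin r) ℂ) : ℝ :=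
  ∫ θ, Real.log ‖eval (tor θ) a‖ ∂(mu r)

/-- one variable: `g.comp (C 2 * X)` or `g.scaleRoots`, `leadingCoeff_le_mahlerMeasure`,
`norm_coeff_le_choose_mul_mahlerMeasure`, `Polynomial.intervalIntegrable_mahlerMeasure` -/
theorem one_var (g : Polynomial ℂ) (hg : g ≠ 0) :
    IntervalIntegrable (fun θ => Real.log ‖g.eval (circleMap 0 2 θ)‖) volume 0 (2 * Real.pi) ∧
    Real.log ‖g.leadingCoeff‖ + g.natDegree * Real.log 2 ≤
      (2 * Real.pi)⁻¹ * ∫ θ in (0 : ℝ)..2 * Real.pi, Real.log ‖g.eval (circleMap 0 2 θ)‖ ∧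
    ∀ j, g.coeff j ≠ 0 → Real.log ‖g.coeff j‖ ≤ g.natDegree * Real.log 2 +
      (2 * Real.pi)⁻¹ * ∫ θ in (0 : ℝ)..2 * Real.pi, Real.log ‖g.eval (circleMap 0 2 θ)‖ := by
  have h2 : (2 : ℂ) ≠ 0 := two_ne_zero
  have ev : ∀ θ, (g.comp (Polynomial.C 2 * Polynomial.X)).eval (circleMap 0 1 θ) =
      g.eval (circleMap 0 2 θ) := fun θ => by
    simp [Polynomial.eval_comp, circleMap]
  have co : ∀ j, ‖(g.comp (Polynomial.C 2 * Polynomial.X)).coeff j‖ = ‖g.coeff j‖ * 2 ^ j :=
    fun j => by rw [Polynomial.comp_C_mul_X_coeff, norm_mul, norm_pow, Complex.norm_ofNat]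
  have nd : (g.comp (Polynomial.C 2 * Polynomial.X)).natDegree = g.natDegree := by
    rw [Polynomial.natDegree_comp, Polynomial.natDegree_C_mul_X _ h2, mul_one]
  have l0 : 0 < ‖g.leadingCoeff‖ := norm_pos_iff.2 (Polynomial.leadingCoeff_ne_zero.2 hg)
  have p0 : g.comp (Polynomial.C 2 * Polynomial.X) ≠ 0 := fun h => by
    have := co g.natDegree
    rw [h, Polynomial.coeff_zero, norm_zero] at this
    exact (mul_pos l0 (pow_pos two_pos _)).ne this
  have i := Polynomial.intervalIntegrable_mahlerMeasure (g.comp (Polynomial.C 2 * Polynomial.X))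
  have m := Polynomial.mahlerMeasure_def_of_ne_zero p0
  have a := Polynomial.leadingCoeff_le_mahlerMeasure (g.comp (Polynomial.C 2 * Polynomial.X))
  simp only [ev] at i m
  refine ⟨i, ?_, fun j hj => ?_⟩
  · rw [Polynomial.leadingCoeff, co, nd, m] at a
    rw [← Real.log_pow, ← Real.log_mul l0.ne' (by positivity)]
    exact (Real.log_le_iff_le_exp (mul_pos l0 (pow_pos two_pos _))).2 a
  · have b := Polynomial.norm_coeff_le_choose_mul_mahlerMeasure j
      (g.comp (Polynomial.C 2 * Polynomial.X))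
    rw [co, nd, m] at b
    have c : (g.natDegree.choose j : ℝ) ≤ 2 ^ g.natDegree := by
      exact_mod_cast Nat.choose_le_two_pow _ _
    rw [Real.log_le_iff_le_exp (norm_pos_iff.2 hj), Real.exp_add, ← Real.log_pow,
      Real.exp_log (by positivity)]
    refine le_trans (le_mul_of_one_le_right (norm_nonneg _) (one_le_pow₀ one_le_two)) (b.trans ?_)
    gcongr

theorem M1_mp (r : ℕ) : MeasurePreserving
    (fun z : (Fin r → ℝ) × ℝ => (Fin.cons z.2 z.1 : Fin (r + 1) → ℝ))
    ((mu r).prod M1_nu) (mu (r + 1)) := by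
  have h := ((measurePreserving_piFinSuccAbove (fun _ : Fin (r + 1) => M1_nu) 0).symm _).comp
    (Measure.measurePreserving_swap (μ := mu r) (ν := M1_nu))
  have e : (fun z : (Fin r → ℝ) × ℝ => (Fin.cons z.2 z.1 : Fin (r + 1) → ℝ)) =
      (MeasurableEquiv.piFinSuccAbove (fun _ : Fin (r + 1) => ℝ) 0).symm ∘ Prod.swap :=
    funext fun z => (Fin.insertNth_zero' z.2 z.1).symm
  rw [e]
  exact h

theorem M1_cont {r : ℕ} (a : MvPolynomial (Fin r) ℂ) : Continuous fun θ => eval (tor θ) a :=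
  (continuous_eval a).comp (continuous_pi fun i =>
    (continuous_circleMap 0 2).comp (continuous_apply i))

theorem M1_eval {r : ℕ} (a : MvPolynomial (Fin (r + 1)) ℂ) (t : ℝ) (θ : Fin r → ℝ) :
    eval (tor (Fin.cons t θ)) a =
      ((finSuccEquiv ℂ r a).map (eval (tor θ))).eval (circleMap 0 2 t) := by
  rw [← eval_eq_eval_mv_eval']
  congr 2
  funext i
  refine Fin.cases rfl (fun j => rfl) i

theorem M1_lc {r : ℕ} {a : MvPolynomial (Fin (r + 1)) ℂ} (ha : a ≠ 0) :
    (finSuccEquiv ℂ r a).leadingCoeff ≠ 0 :=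
  Polynomial.leadingCoeff_ne_zero.2 ((map_ne_zero_iff _ (finSuccEquiv ℂ r).injective).2 ha)

theorem M1_ne {R : Type} [CommRing R] {q : Polynomial R} {f : R →+* ℂ} (h : f q.leadingCoeff ≠ 0) :
    q.map f ≠ 0 := fun e => h (by
  rw [Polynomial.leadingCoeff, ← Polynomial.coeff_map, e, Polynomial.coeff_zero])

/-- induction on `r` with `finSuccEquiv` and `measurePreserving_piFinSuccAbove` -/
theorem ae_ne_zero {r : ℕ} (a : MvPolynomial (Fin r) ℂ) (ha : a ≠ 0) :
    ∀ᵐ θ ∂(mu r), eval (tor θ) a ≠ 0 := by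
  induction r with
  | zero =>
    refine Filter.Eventually.of_forall fun θ h => ha ?_
    rw [eq_C_of_isEmpty a] at h ⊢
    rw [eval_C] at h
    rw [h, C_0]
  | succ r ih =>
    have ho : IsOpen {θ : Fin (r + 1) → ℝ | eval (tor θ) a ≠ 0} :=
      isOpen_ne_fun (M1_cont a) continuous_const
    rw [← (M1_mp r).map_eq, ae_map_iff (M1_mp r).measurable.aemeasurable ho.measurableSet]
    refine (Measure.ae_prod_iff_ae_ae ((M1_mp r).measurable ho.measurableSet)).2 ?_
    filter_upwards [ih _ (M1_lc ha)] with θ hθ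
    have hc := ((Polynomial.rootSet_finite _ ℂ).subset fun z hz =>
      (Polynomial.mem_rootSet_of_ne (M1_ne hθ)).2 hz).countable.preimage_circleMap 0 two_ne_zero
    refine Measure.ae_smul_measure (ae_restrict_of_ae ?_) _
    filter_upwards [hc.ae_notMem volume] with t ht
    rw [M1_eval]
    exact ht

/-- The function is bounded above; apply Tonelli to `B - log ‖a‖ ≥ 0`, the inner integral being
at most `B - log ‖leading coefficient‖` by `one_var`. -/
theorem integrable_log {r : ℕ} (a : MvPolynomial (Fin r) ℂ) (ha : a ≠ 0) :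
    Integrable (fun θ => Real.log ‖eval (tor θ) a‖) (mu r) := by
  induction r with
  | zero => exact Integrable.of_finite
  | succ r ih =>
    have hm : Measurable fun θ => Real.log ‖eval (tor θ) a‖ := (M1_cont a).measurable.norm.log
    have hm' := (hm.comp (M1_mp r).measurable).aestronglyMeasurable (μ := (mu r).prod M1_nu)
    obtain ⟨B, hB⟩ := (isCompact_closedBall (0 : Fin (r + 1) → ℂ) 2).exists_bound_of_continuousOn
      (continuous_eval a).continuousOn
    have hb : ∀ θ, ‖eval (tor θ) a‖ ≤ B := fun θ => hB _ (mem_closedBall_zero_iff.2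
      ((pi_norm_le_iff_of_nonneg zero_le_two).2 fun i => by simp [tor]))
    have B0 : 0 ≤ B := (norm_nonneg _).trans (hb 0)
    have int : ∀ θ, eval (tor θ) (finSuccEquiv ℂ r a).leadingCoeff ≠ 0 →
        Integrable (fun t => Real.log ‖eval (tor (Fin.cons t θ)) a‖) M1_nu := fun θ hθ => by
      simp only [M1_eval]
      exact Integrable.smul_measure (one_var _ (M1_ne hθ)).1.1
        (ENNReal.inv_ne_top.2 (ENNReal.ofReal_pos.2 Real.two_pi_pos).ne')
    rw [← (M1_mp r).integrable_comp hm.aestronglyMeasurable, integrable_prod_iff hm']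
    refine ⟨(ae_ne_zero _ (M1_lc ha)).mono int,
      ((integrable_const (2 * B)).sub (ih _ (M1_lc ha))).mono' hm'.norm.integral_prod_right' ?_⟩
    filter_upwards [ae_ne_zero _ (M1_lc ha)] with θ hθ
    rw [Real.norm_of_nonneg (integral_nonneg fun _ => norm_nonneg _)]
    have h1 : ∫ t, ‖Real.log ‖eval (tor (Fin.cons t θ)) a‖‖ ∂M1_nu ≤
        ∫ t, (2 * B - Real.log ‖eval (tor (Fin.cons t θ)) a‖) ∂M1_nu :=
      integral_mono (int θ hθ).norm ((integrable_const _).sub (int θ hθ)) fun t => by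
        have := (Real.log_le_self (norm_nonneg _)).trans (hb (Fin.cons t θ))
        exact abs_le.2 ⟨by linarith, by linarith⟩
    refine le_trans h1 ?_
    rw [integral_sub (integrable_const _) (int θ hθ), integral_const, probReal_univ, one_smul]
    have h2 := (one_var _ (M1_ne hθ)).2.1
    rw [Polynomial.leadingCoeff_map_of_leadingCoeff_ne_zero _ hθ] at h2
    have h3 : ∫ t, Real.log ‖eval (tor (Fin.cons t θ)) a‖ ∂M1_nu = (2 * Real.pi)⁻¹ *
        ∫ t in (0 : ℝ)..2 * Real.pi,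
          Real.log ‖((finSuccEquiv ℂ r a).map (eval (tor θ))).eval (circleMap 0 2 t)‖ := by
      simp only [M1_eval]
      rw [M1_nu, integral_smul_measure, intervalIntegral.integral_of_le Real.two_pi_pos.le,
        ENNReal.toReal_inv, ENNReal.toReal_ofReal Real.two_pi_pos.le, smul_eq_mul]
    have h4 : 0 ≤ (((finSuccEquiv ℂ r a).map (eval (tor θ))).natDegree : ℝ) * Real.log 2 := by
      positivity
    simp only [Pi.sub_apply]
    linarith

end Pool.Agent.Work.MP_0a826e_ag.R
end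

-- merged part: Pool.Agent.Work.MP_0a826e_ag.R.M2
section
namespace Pool.Agent.Work.MP_0a826e_ag.R

open MvPolynomial

variable {k : Type} [Field k]

open MeasureTheory

theorem M2_inner {r : ℕ} (a : MvPolynomial (Fin (r + 1)) ℂ) (θ : Fin r → ℝ) :
    ∫ t, Real.log ‖eval (tor (Fin.cons t θ)) a‖ ∂M1_nu = (2 * Real.pi)⁻¹ *
      ∫ t in (0 : ℝ)..2 * Real.pi,
        Real.log ‖((finSuccEquiv ℂ r a).map (eval (tor θ))).eval (circleMap 0 2 t)‖ := by
  simp only [M1_eval]
  rw [M1_nu, integral_smul_measure, intervalIntegral.integral_of_le Real.two_pi_pos.le,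
    ENNReal.toReal_inv, ENNReal.toReal_ofReal Real.two_pi_pos.le, smul_eq_mul]

theorem M2_fubini {r : ℕ} (a : MvPolynomial (Fin (r + 1)) ℂ) (ha : a ≠ 0) :
    Integrable (fun θ : Fin r → ℝ => ∫ t, Real.log ‖eval (tor (Fin.cons t θ)) a‖ ∂M1_nu) (mu r) ∧
      mah a = ∫ θ, (∫ t, Real.log ‖eval (tor (Fin.cons t θ)) a‖ ∂M1_nu) ∂(mu r) := by
  have hm : Measurable fun θ => Real.log ‖eval (tor θ) a‖ := (M1_cont a).measurable.norm.log
  have hi := ((M1_mp r).integrable_comp hm.aestronglyMeasurable).2 (integrable_log a ha)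
  refine ⟨hi.integral_prod_left, ?_⟩
  unfold mah
  rw [← (M1_mp r).map_eq, integral_map (M1_mp r).measurable.aemeasurable hm.aestronglyMeasurable]
  exact integral_prod _ hi

/-- Fubini and `one_var`; for almost every `θ'` the leading coefficient and the `j`-th
coefficient do not vanish at `tor θ'`. -/
theorem mah_succ {r : ℕ} (a : MvPolynomial (Fin (r + 1)) ℂ) (ha : a ≠ 0) :
    mah (finSuccEquiv ℂ r a).leadingCoeff + (finSuccEquiv ℂ r a).natDegree * Real.log 2 ≤ mah a ∧
    ∀ j, (finSuccEquiv ℂ r a).coeff j ≠ 0 →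
      mah ((finSuccEquiv ℂ r a).coeff j) ≤ (finSuccEquiv ℂ r a).natDegree * Real.log 2 + mah a := by
  obtain ⟨hi, he⟩ := M2_fubini a ha
  have hlc := M1_lc ha
  refine ⟨?_, fun j hj => ?_⟩
  · have h1 : ∫ θ, (Real.log ‖eval (tor θ) (finSuccEquiv ℂ r a).leadingCoeff‖ +
        (finSuccEquiv ℂ r a).natDegree * Real.log 2) ∂(mu r) ≤ mah a := by
      rw [he]
      refine integral_mono_ae ((integrable_log _ hlc).add (integrable_const _)) hi ?_
      filter_upwards [ae_ne_zero _ hlc] with θ hθ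
      have h2 := (one_var _ (M1_ne hθ)).2.1
      rw [Polynomial.leadingCoeff_map_of_leadingCoeff_ne_zero _ hθ,
        Polynomial.natDegree_map_of_leadingCoeff_ne_zero _ hθ] at h2
      rw [M2_inner]
      exact h2
    rw [integral_add (integrable_log _ hlc) (integrable_const _), integral_const, probReal_univ,
      one_smul] at h1
    exact h1
  · have h1 : mah ((finSuccEquiv ℂ r a).coeff j) ≤
        ∫ θ, ((finSuccEquiv ℂ r a).natDegree * Real.log 2 +
          ∫ t, Real.log ‖eval (tor (Fin.cons t θ)) a‖ ∂M1_nu) ∂(mu r) := by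
      refine integral_mono_ae (integrable_log _ hj) ((integrable_const _).add hi) ?_
      filter_upwards [ae_ne_zero _ hlc, ae_ne_zero _ hj] with θ hθ hθ'
      have h2 := (one_var _ (M1_ne hθ)).2.2 j (by rw [Polynomial.coeff_map]; exact hθ')
      rw [Polynomial.coeff_map, Polynomial.natDegree_map_of_leadingCoeff_ne_zero _ hθ] at h2
      rw [M2_inner]
      exact h2
    rw [integral_add (integrable_const _) hi, integral_const, probReal_univ, one_smul, ← he] at h1
    exact h1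

theorem mah_mul {r : ℕ} {a b : MvPolynomial (Fin r) ℂ} (ha : a ≠ 0) (hb : b ≠ 0) :
    mah (a * b) = mah a + mah b := by
  unfold mah
  rw [← integral_add (integrable_log a ha) (integrable_log b hb)]
  refine integral_congr_ae ?_
  filter_upwards [ae_ne_zero a ha, ae_ne_zero b hb] with θ h1 h2
  rw [map_mul, norm_mul, Real.log_mul (norm_ne_zero_iff.2 h1) (norm_ne_zero_iff.2 h2)]

theorem M2_map {r : ℕ} (a : MvPolynomial (Fin (r + 1)) ℤ) :
    finSuccEquiv ℂ r (map (Int.castRingHom ℂ) a) =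
      (finSuccEquiv ℤ r a).map (map (Int.castRingHom ℂ)) := by
  ext j m
  rw [Polynomial.coeff_map, finSuccEquiv_coeff_coeff, coeff_map, coeff_map,
    finSuccEquiv_coeff_coeff]

theorem M2_inj (r : ℕ) : Function.Injective
    (map (Int.castRingHom ℂ) : MvPolynomial (Fin r) ℤ → MvPolynomial (Fin r) ℂ) :=
  map_injective _ (Int.castRingHom ℂ).injective_int

theorem M2_ne {r : ℕ} {a : MvPolynomial (Fin r) ℤ} (ha : a ≠ 0) :
    map (Int.castRingHom ℂ) a ≠ 0 :=
  (map_ne_zero_iff _ (M2_inj r)).2 ha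

theorem M2_zero (c : ℤ) :
    mah (map (Int.castRingHom ℂ) (C c : MvPolynomial (Fin 0) ℤ)) = Real.log |(c : ℝ)| := by
  unfold mah
  simp

theorem M2_lc {r : ℕ} (a : MvPolynomial (Fin (r + 1)) ℤ) :
    (finSuccEquiv ℂ r (map (Int.castRingHom ℂ) a)).leadingCoeff =
      map (Int.castRingHom ℂ) (finSuccEquiv ℤ r a).leadingCoeff := by
  rw [M2_map, Polynomial.leadingCoeff_map_of_injective (M2_inj r)]

theorem M2_deg {r : ℕ} (a : MvPolynomial (Fin (r + 1)) ℤ) :
    (finSuccEquiv ℂ r (map (Int.castRingHom ℂ) a)).natDegree = (finSuccEquiv ℤ r a).natDegree := by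
  rw [M2_map, Polynomial.natDegree_map_eq_of_injective (M2_inj r)]

theorem M2_lc_ne {r : ℕ} {a : MvPolynomial (Fin (r + 1)) ℤ} (ha : a ≠ 0) :
    (finSuccEquiv ℤ r a).leadingCoeff ≠ 0 :=
  Polynomial.leadingCoeff_ne_zero.2 ((map_ne_zero_iff _ (finSuccEquiv ℤ r).injective).2 ha)

theorem mah_nonneg {r : ℕ} (a : MvPolynomial (Fin r) ℤ) (ha : a ≠ 0) :
    0 ≤ mah (map (Int.castRingHom ℂ) a) := by
  induction r with
  | zero =>
    have hc : coeff 0 a ≠ 0 := fun h => ha (by rw [eq_C_of_isEmpty a, h, C_0])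
    rw [eq_C_of_isEmpty a, M2_zero]
    refine Real.log_nonneg ?_
    exact_mod_cast Int.one_le_abs hc
  | succ r ih =>
    have h1 := (mah_succ _ (M2_ne ha)).1
    rw [M2_lc] at h1
    have h2 := ih _ (M2_lc_ne ha)
    have h3 : 0 ≤ ((finSuccEquiv ℂ r (map (Int.castRingHom ℂ) a)).natDegree : ℝ) * Real.log 2 := by
      positivity
    linarith

theorem mah_finite (r : ℕ) (B : ℝ) :
    {a : MvPolynomial (Fin r) ℤ | a ≠ 0 ∧ mah (map (Int.castRingHom ℂ) a) ≤ B}.Finite := by
  induction r generalizing B with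
  | zero =>
    refine ((Set.finite_Icc (-⌈Real.exp B⌉) ⌈Real.exp B⌉).image
      (fun c : ℤ => (C c : MvPolynomial (Fin 0) ℤ))).subset ?_
    rintro a ⟨ha, hB⟩
    have hc : coeff 0 a ≠ 0 := fun h => ha (by rw [eq_C_of_isEmpty a, h, C_0])
    refine ⟨coeff 0 a, ?_, (eq_C_of_isEmpty a).symm⟩
    rw [eq_C_of_isEmpty a, M2_zero,
      Real.log_le_iff_le_exp (abs_pos.2 (Int.cast_ne_zero.2 hc))] at hB
    have h1 : |((coeff 0 a : ℤ) : ℝ)| ≤ (⌈Real.exp B⌉ : ℤ) := hB.trans (Int.le_ceil _)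
    rw [Set.mem_Icc, ← abs_le]
    exact_mod_cast h1
  | succ r ih =>
    have hl : 0 < Real.log 2 := Real.log_pos one_lt_two
    have key : ∀ a : MvPolynomial (Fin (r + 1)) ℤ, a ≠ 0 → mah (map (Int.castRingHom ℂ) a) ≤ B →
        ((finSuccEquiv ℤ r a).natDegree : ℝ) * Real.log 2 ≤ B := by
      intro a ha hB
      have h1 := (mah_succ _ (M2_ne ha)).1
      rw [M2_lc, M2_deg] at h1
      have h2 := mah_nonneg _ (M2_lc_ne ha)
      linarith
    have key2 : ∀ a : MvPolynomial (Fin (r + 1)) ℤ, a ≠ 0 → mah (map (Int.castRingHom ℂ) a) ≤ B →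
        (finSuccEquiv ℤ r a).natDegree ≤ ⌈B / Real.log 2⌉₊ := by
      intro a ha hB
      have h1 := (le_div_iff₀ hl).2 (key a ha hB)
      exact_mod_cast h1.trans (Nat.le_ceil _)
    refine Set.Finite.of_finite_image
      (f := fun a (j : Fin (⌈B / Real.log 2⌉₊ + 1)) => (finSuccEquiv ℤ r a).coeff j)
      ((Set.Finite.pi' fun _ => (ih (2 * B)).insert 0).subset ?_) ?_
    · rintro _ ⟨a, ⟨ha, hB⟩, rfl⟩ j
      by_cases hj : (finSuccEquiv ℤ r a).coeff j = 0
      · exact Or.inl hj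
      · refine Or.inr ⟨hj, ?_⟩
        have h1 := (mah_succ _ (M2_ne ha)).2 j (by
          rw [M2_map, Polynomial.coeff_map]; exact M2_ne hj)
        rw [M2_deg, M2_map, Polynomial.coeff_map] at h1
        have h2 := key a ha hB
        linarith
    · rintro a ⟨ha, hB⟩ b ⟨hb, hB'⟩ h
      apply (finSuccEquiv ℤ r).injective
      refine Polynomial.ext fun j => ?_
      by_cases hj : j < ⌈B / Real.log 2⌉₊ + 1
      · exact congrFun h ⟨j, hj⟩
      · have h1 := key2 a ha hB
        have h2 := key2 b hb hB'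
        rw [Polynomial.coeff_eq_zero_of_natDegree_lt (by omega),
          Polynomial.coeff_eq_zero_of_natDegree_lt (by omega)]

/-- `MvPolynomial (Fin r) ℤ` is countable, so evaluation is injective almost everywhere. -/
theorem exists_mahler (r : ℕ) :
    ∃ m : MvPolynomial (Fin r) ℤ → ℝ,
      (∀ a b, a ≠ 0 → b ≠ 0 → m (a * b) = m a + m b) ∧ (∀ a, a ≠ 0 → 0 ≤ m a) ∧
      (∀ B : ℝ, {a | a ≠ 0 ∧ m a ≤ B}.Finite) ∧
      ∀ (a b : MvPolynomial (Fin r) ℤ) (c : ℝ), a ≠ 0 → b ≠ 0 →
        (∀ t : Fin r → ℂ, (∀ i, ‖t i‖ = 2) →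
          Function.Injective (eval₂Hom (Int.castRingHom ℂ) t) →
          ‖eval₂Hom (Int.castRingHom ℂ) t a‖ ≤
            Real.exp c * ‖eval₂Hom (Int.castRingHom ℂ) t b‖) → m a ≤ c + m b := by
  refine ⟨fun a => mah (map (Int.castRingHom ℂ) a), fun a b ha hb => ?_, mah_nonneg,
    mah_finite r, fun a b c ha hb h => ?_⟩
  · simp only [map_mul]
    exact mah_mul (M2_ne ha) (M2_ne hb)
  · have : Countable (MvPolynomial (Fin r) ℤ) :=
      (AddMonoidAlgebra.coeff_injective (R := ℤ) (M := Fin r →₀ ℕ)).countable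
    have hall : ∀ᵐ θ ∂(mu r), ∀ e : MvPolynomial (Fin r) ℤ, e ≠ 0 →
        eval (tor θ) (map (Int.castRingHom ℂ) e) ≠ 0 := by
      refine ae_all_iff.2 fun e => ?_
      by_cases he : e = 0
      · exact Filter.Eventually.of_forall fun θ h => absurd he h
      · filter_upwards [ae_ne_zero _ (M2_ne he)] with θ hθ _
        exact hθ
    have h1 : mah (map (Int.castRingHom ℂ) a) ≤
        ∫ θ, (c + Real.log ‖eval (tor θ) (map (Int.castRingHom ℂ) b)‖) ∂(mu r) := by
      refine integral_mono_ae (integrable_log _ (M2_ne ha))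
        ((integrable_const _).add (integrable_log _ (M2_ne hb))) ?_
      filter_upwards [hall] with θ hθ
      have h2 := h (tor θ) (fun i => by simp [tor]) ((injective_iff_map_eq_zero _).2 fun e he => by
        by_contra h0
        refine hθ e h0 ?_
        rw [eval_map]
        exact he)
      rw [coe_eval₂Hom, ← eval_map, ← eval_map] at h2
      have h3 := norm_pos_iff.2 (hθ a ha)
      have h4 := norm_pos_iff.2 (hθ b hb)
      have h5 := Real.log_le_log h3 h2
      rw [Real.log_mul (Real.exp_pos c).ne' h4.ne', Real.log_exp] at h5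
      exact h5
    rw [integral_add (integrable_const _) (integrable_log _ (M2_ne hb)), integral_const,
      probReal_univ, one_smul] at h1
    exact h1

end Pool.Agent.Work.MP_0a826e_ag.R
end

-- merged part: Pool.Agent.Work.MP_0a826e_ag.R.M3
section
namespace Pool.Agent.Work.MP_0a826e_ag.R

open MvPolynomial

variable {k : Type} [Field k]

theorem M3_ext (K L E : Type) [Field K] [Field L] [Algebra K L] [Algebra.IsAlgebraic K L]
    [NontriviallyNormedField E] [IsUltrametricDist E] [CompleteSpace E] (j : K →+* E) :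
    ∃ u : AbsoluteValue L ℝ, IsNonarchimedean u ∧ ∀ x, u (algebraMap K L x) = ‖j x‖ := by
  let _ : Algebra K (AlgebraicClosure E) := ((algebraMap E (AlgebraicClosure E)).comp j).toAlgebra
  let f : L →ₐ[K] AlgebraicClosure E := IsAlgClosed.lift
  have na : ∀ x y : L, spectralNorm E _ (f (x + y)) ≤
      max (spectralNorm E _ (f x)) (spectralNorm E _ (f y)) := fun x y => by
    rw [map_add]
    exact isNonarchimedean_spectralNorm _ _
  refine ⟨⟨⟨fun x => spectralNorm E _ (f x), fun x y => ?_⟩, fun x => spectralNorm_nonneg _,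
    fun x => ?_, fun x y => ?_⟩, na, fun x => ?_⟩
  · rw [map_mul]
    exact spectralAlgNorm_mul _ _
  · exact (map_eq_zero_iff_eq_zero (spectralMulAlgNorm E (AlgebraicClosure E))).trans
      (map_eq_zero f)
  · exact (na x y).trans (max_le_add_of_nonneg (spectralNorm_nonneg _) (spectralNorm_nonneg _))
  · show spectralNorm E _ (f (algebraMap K L x)) = _
    rw [f.commutes]
    exact spectralNorm_extends (j x)

/-- Complete `WithAbs v`, take the algebraic closure of the completion with `spectralNorm`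
(`spectralNorm.normedField`, `spectralMulAlgNorm`), and embed `L` by `IsAlgClosed.lift`. -/
theorem exists_ext (K L : Type) [Field K] [Field L] [Algebra K L] [Algebra.IsAlgebraic K L]
    (v : AbsoluteValue K ℝ) (hv : IsNonarchimedean v) (hnt : ∃ x, 1 < v x) :
    ∃ u : AbsoluteValue L ℝ, IsNonarchimedean u ∧ ∀ x, u (algebraMap K L x) = v x := by
  have e : ∀ x : K, ‖((WithAbs.toAbs v x : WithAbs v) : v.Completion)‖ = v x := fun x =>
    UniformSpace.Completion.norm_coe _
  let _ : NontriviallyNormedField v.Completion :=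
    { (inferInstance : NormedField v.Completion) with
      non_trivial := hnt.elim fun x hx => ⟨_, hx.trans_eq (e x).symm⟩ }
  have : IsUltrametricDist v.Completion := by
    refine IsUltrametricDist.isUltrametricDist_of_isNonarchimedean_norm fun x y => ?_
    refine UniformSpace.Completion.induction_on₂ x y (isClosed_le (by fun_prop) (by fun_prop))
      fun a b => ?_
    rw [← UniformSpace.Completion.coe_add, UniformSpace.Completion.norm_coe,
      UniformSpace.Completion.norm_coe, UniformSpace.Completion.norm_coe]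
    exact hv a.ofAbs b.ofAbs
  obtain ⟨u, h1, h2⟩ := M3_ext K L v.Completion
    (UniformSpace.Completion.coeRingHom.comp (WithAbs.equiv v).symm.toRingHom)
  exact ⟨u, h1, fun x => (h2 x).trans (e x)⟩

open Classical in
/-- the adic valuation on the ring -/
noncomputable def M3_val {R : Type} [CommRing R] [IsDomain R] [UniqueFactorizationMonoid R] {π : R}
    (hπ : Prime π) : Valuation R NNReal where
  toFun a := if a = 0 then 0 else 2⁻¹ ^ multiplicity π a
  map_zero' := if_pos rfl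
  map_one' := by
    rw [if_neg one_ne_zero, multiplicity_eq_zero.2 hπ.not_dvd_one, pow_zero]
  map_mul' a b := by
    by_cases ha : a = 0
    · simp [ha]
    by_cases hb : b = 0
    · simp [hb]
    rw [if_neg ha, if_neg hb, if_neg (mul_ne_zero ha hb), ← pow_add,
      multiplicity_mul hπ (.of_prime_left hπ (mul_ne_zero ha hb))]
  map_add_le_max' a b := by
    by_cases ha : a = 0
    · simp [ha]
    by_cases hb : b = 0
    · simp [hb]
    by_cases hab : a + b = 0
    · simp [hab]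
    rw [if_neg ha, if_neg hb, if_neg hab]
    have key : ∀ n, π ^ n ∣ a → π ^ n ∣ b → (2⁻¹ : NNReal) ^ multiplicity π (a + b) ≤ 2⁻¹ ^ n :=
      fun n h1 h2 => pow_le_pow_of_le_one zero_le (inv_le_one_of_one_le₀ one_le_two)
        ((FiniteMultiplicity.of_prime_left hπ hab).le_multiplicity_of_pow_dvd (h1.add h2))
    rcases le_total (multiplicity π a) (multiplicity π b) with h | h
    · exact le_max_of_le_left (key _ (pow_multiplicity_dvd _ _) (pow_dvd_of_le_multiplicity h))
    · exact le_max_of_le_right (key _ (pow_dvd_of_le_multiplicity h) (pow_multiplicity_dvd _ _))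

theorem M3_val_ne {R : Type} [CommRing R] [IsDomain R] [UniqueFactorizationMonoid R] {π : R}
    (hπ : Prime π) {a : R} (ha : a ≠ 0) : M3_val hπ a = 2⁻¹ ^ multiplicity π a := if_neg ha

/-- `a ↦ 2 ^ (- multiplicity π a)`, extended to fractions -/
theorem exists_adic (R K : Type) [CommRing R] [IsDomain R] [UniqueFactorizationMonoid R] [Field K]
    [Algebra R K] [IsFractionRing R K] {π : R} (hπ : Prime π) :
    ∃ v : AbsoluteValue K ℝ, IsNonarchimedean v ∧ (∀ a : R, v (algebraMap R K a) ≤ 1) ∧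
      ∀ a : R, v (algebraMap R K a) < 1 ↔ π ∣ a := by
  have hS : nonZeroDivisors R ≤ (M3_val hπ).supp.primeCompl := fun a ha h => by
    have h' : M3_val hπ a = 0 := h
    rw [M3_val_ne hπ (nonZeroDivisors.ne_zero ha)] at h'
    exact absurd h' (by positivity)
  let w := (M3_val hπ).extendToLocalization hS K
  have e : ∀ a : R, w (algebraMap R K a) = M3_val hπ a :=
    (M3_val hπ).extendToLocalization_apply_map_apply hS K
  have na : ∀ x y : K, (w (x + y) : ℝ) ≤ max (w x : ℝ) (w y) := fun x y => by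
    exact_mod_cast w.map_add x y
  refine ⟨⟨⟨fun x => w x, fun x y => by rw [map_mul, NNReal.coe_mul]⟩, fun x => (w x).2,
    fun x => NNReal.coe_eq_zero.trans w.zero_iff,
    fun x y => (na x y).trans (max_le_add_of_nonneg (w x).2 (w y).2)⟩, na, fun a => ?_,
    fun a => ?_⟩
  · show (w (algebraMap R K a) : ℝ) ≤ 1
    rw [e]
    by_cases ha : a = 0
    · simp [ha]
    rw [M3_val_ne hπ ha, NNReal.coe_le_one]
    exact pow_le_one₀ zero_le (inv_le_one_of_one_le₀ one_le_two)
  · show (w (algebraMap R K a) : ℝ) < 1 ↔ _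
    rw [e]
    by_cases ha : a = 0
    · simp [ha]
    rw [M3_val_ne hπ ha, NNReal.coe_lt_one, ← multiplicity_ne_zero]
    refine ⟨fun h e => ?_, pow_lt_one₀ zero_le (inv_lt_one_of_one_lt₀ one_lt_two)⟩
    rw [e, pow_zero] at h
    exact h.false

/-- `x = a / b` in lowest terms (`IsFractionRing.num`, `den`); a prime factor of `b` gives an
absolute value with `v x > 1`. -/
theorem mem_of_abs (R K L : Type) [CommRing R] [IsDomain R] [UniqueFactorizationMonoid R]
    [Field K] [Algebra R K] [IsFractionRing R K] [Field L] [Algebra K L] [Algebra.IsAlgebraic K L]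
    (x : K) (h : ∀ u : AbsoluteValue L ℝ, IsNonarchimedean u →
      (∀ a : R, u (algebraMap K L (algebraMap R K a)) ≤ 1) → u (algebraMap K L x) ≤ 1) :
    ∃ a : R, algebraMap R K a = x := by
  by_cases hu : IsUnit (IsFractionRing.den R x : R)
  · exact IsFractionRing.isInteger_of_isUnit_den hu
  have h0 : (IsFractionRing.den R x : R) ≠ 0 := nonZeroDivisors.coe_ne_zero _
  obtain ⟨π, hπ, hd⟩ := WfDvdMonoid.exists_irreducible_factor hu h0
  obtain ⟨v, v1, v2, v3⟩ := exists_adic R K hπ.prime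
  have hx : 1 < v x := by
    have a1 : 1 ≤ v (algebraMap R K (IsFractionRing.num R x)) := not_lt.1 fun q =>
      hπ.not_isUnit (IsFractionRing.num_den_reduced R x ((v3 _).1 q) hd)
    have a2 : 0 < v (algebraMap R K (IsFractionRing.den R x)) :=
      v.pos ((map_ne_zero_iff _ (IsFractionRing.injective R K)).2 h0)
    rw [← IsFractionRing.mk'_num_den' R x, map_div₀, one_lt_div a2]
    exact ((v3 _).2 hd).trans_le a1
  obtain ⟨u, u1, u2⟩ := exists_ext K L v v1 ⟨x, hx⟩
  exact absurd ((u2 x).symm.trans_le (h u u1 fun a => (u2 _).trans_le (v2 a))) (not_le.2 hx)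

theorem M3_sum {L ι : Type} [Field L] {u : AbsoluteValue L ℝ} (hu : IsNonarchimedean u)
    (s : Finset ι) {f : ι → L} {B : ℝ} (hB : 0 ≤ B) (h : ∀ i ∈ s, u (f i) ≤ B) :
    u (∑ i ∈ s, f i) ≤ B :=
  Finset.sum_induction f (fun y => u y ≤ B) (fun a b ha hb => (hu a b).trans (max_le ha hb))
    (u.map_zero.trans_le hB) h

/-- root bound for a monic polynomial -/
theorem abs_root_le {L : Type} [Field L] (u : AbsoluteValue L ℝ) (g : Polynomial L) (hg : g.Monic)
    {x : L} (hx : g.eval x = 0) {B : ℝ} (hB : 1 ≤ B) (h : ∀ i, u (g.coeff i) ≤ B) :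
    u x ≤ (g.natDegree + 1) * B ∧ (IsNonarchimedean u → u x ≤ B) := by
  have B0 : 0 ≤ B := zero_le_one.trans hB
  have n0 : (0 : ℝ) ≤ g.natDegree := Nat.cast_nonneg _
  by_cases h1 : u x ≤ 1
  · exact ⟨h1.trans (by nlinarith), fun _ => h1.trans hB⟩
  have h1' : 1 < u x := not_le.1 h1
  obtain ⟨n, hn⟩ : ∃ n, g.natDegree = n + 1 := Nat.exists_eq_succ_of_ne_zero fun e => by
    rw [hg.natDegree_eq_zero.1 e, Polynomial.eval_one] at hx
    exact one_ne_zero hx
  have e : u x ^ n * u x = u (∑ i ∈ Finset.range (n + 1), g.coeff i * x ^ i) := by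
    rw [Polynomial.eval_eq_sum_range, Finset.sum_range_succ, hg.coeff_natDegree, hn,
      one_mul] at hx
    rw [eq_neg_of_add_eq_zero_left hx, u.map_neg, map_pow, pow_succ]
  have t : ∀ i ∈ Finset.range (n + 1), u (g.coeff i * x ^ i) ≤ u x ^ n * B := fun i hi => by
    rw [map_mul, map_pow, mul_comm]
    exact mul_le_mul (pow_le_pow_right₀ h1'.le (Nat.lt_succ_iff.1 (Finset.mem_range.1 hi)))
      (h i) (u.nonneg _) (by positivity)
  have p : 0 < u x ^ n := by positivity
  refine ⟨?_, fun hu => le_of_mul_le_mul_left (e.trans_le (M3_sum hu _ (by positivity) t)) p⟩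
  have := e.trans_le ((u.sum_le _ _).trans (Finset.sum_le_card_nsmul _ _ _ t))
  rw [Finset.card_range, nsmul_eq_mul, mul_left_comm, ← hn] at this
  have := le_of_mul_le_mul_left this p
  linarith

theorem M3_step {L : Type} [Field L] (u : AbsoluteValue L ℝ) (p : Polynomial L) (a : L) {B : ℝ}
    (h : ∀ j, u (p.coeff j) ≤ B) (j : ℕ) : ∃ y z : L,
      ((Polynomial.X - Polynomial.C a) * p).coeff j = y + z ∧ u y ≤ max 1 (u a) * B ∧
        u z ≤ max 1 (u a) * B := by
  have B0 : 0 ≤ B := (u.nonneg _).trans (h 0)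
  have m0 : 0 ≤ max 1 (u a) := le_max_of_le_left zero_le_one
  have t : ∀ j, u (-(a * p.coeff j)) ≤ max 1 (u a) * B := fun j => by
    rw [u.map_neg, map_mul]
    exact mul_le_mul (le_max_right _ _) (h j) (u.nonneg _) m0
  rcases j with _ | j
  · exact ⟨0, _, by simp, u.map_zero.trans_le (mul_nonneg m0 B0), t 0⟩
  · exact ⟨_, _, by rw [Polynomial.coeff_X_sub_C_mul, sub_eq_add_neg],
      (h j).trans (le_mul_of_one_le_left B0 (le_max_left _ _)), t (j + 1)⟩

/-- coefficients of `∏ (X - x i)` -/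
theorem abs_coeff_prod_le {L ι : Type} [Field L] (u : AbsoluteValue L ℝ) (s : Finset ι)
    (x : ι → L) (j : ℕ) :
    u ((∏ i ∈ s, (Polynomial.X - Polynomial.C (x i))).coeff j) ≤
        2 ^ s.card * ∏ i ∈ s, max 1 (u (x i)) ∧
      (IsNonarchimedean u → u ((∏ i ∈ s, (Polynomial.X - Polynomial.C (x i))).coeff j) ≤
        ∏ i ∈ s, max 1 (u (x i))) := by
  classical
  have one : ∀ j, u ((1 : Polynomial L).coeff j) ≤ 1 := fun j => by
    rw [Polynomial.coeff_one]
    split <;> simp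
  constructor
  · induction s using Finset.induction_on generalizing j with
    | empty => simpa using one j
    | insert i s hi ih =>
      rw [Finset.prod_insert hi, Finset.prod_insert hi, Finset.card_insert_of_notMem hi]
      obtain ⟨y, z, e, hy, hz⟩ := M3_step u _ (x i) ih j
      rw [e]
      refine (u.add_le y z).trans ((add_le_add hy hz).trans_eq ?_)
      ring
  · intro hu
    induction s using Finset.induction_on generalizing j with
    | empty => simpa using one j
    | insert i s hi ih =>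
      rw [Finset.prod_insert hi, Finset.prod_insert hi]
      obtain ⟨y, z, e, hy, hz⟩ := M3_step u _ (x i) ih j
      rw [e]
      exact (hu y z).trans (max_le hy hz)

end Pool.Agent.Work.MP_0a826e_ag.R
end

-- merged part: Pool.Agent.Work.MP_0a826e_ag.R.M4
section
namespace Pool.Agent.Work.MP_0a826e_ag.R

open MvPolynomial

variable {k : Type} [Field k]

/-- the rational function field in `r` variables over the rationals -/
abbrev K0 (r : ℕ) := FractionRing (MvPolynomial (Fin r) ℤ)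

variable {r : ℕ} [Algebra (K0 r) k]

/-- the nonarchimedean absolute values that are at most one on `ℤ[t]` -/
def NA (r : ℕ) [Algebra (K0 r) k] (u : AbsoluteValue k ℝ) : Prop :=
  IsNonarchimedean u ∧
    ∀ a : MvPolynomial (Fin r) ℤ, u (algebraMap (K0 r) k (algebraMap _ (K0 r) a)) ≤ 1

/-- the complex embeddings sending the variables to the circle of radius two -/
def AE (r : ℕ) [Algebra (K0 r) k] (φ : k →+* ℂ) : Prop :=
  ∀ i : Fin r,
    ‖φ (algebraMap (K0 r) k (algebraMap (MvPolynomial (Fin r) ℤ) (K0 r) (X i)))‖ = 2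

/-- the absolute value of a complex embedding -/
noncomputable def M4_abs (φ : k →+* ℂ) : AbsoluteValue k ℝ where
  toFun x := ‖φ x‖
  map_mul' x y := by rw [map_mul, norm_mul]
  nonneg' x := norm_nonneg _
  eq_zero' x := by simp
  add_le' x y := by rw [map_add]; exact norm_add_le _ _

theorem M4_abs_apply (φ : k →+* ℂ) (x : k) : M4_abs φ x = ‖φ x‖ := rfl

/-- an injective evaluation extends to `k` -/
theorem M4_ext [Algebra.IsAlgebraic (K0 r) k] (t : Fin r → ℂ)
    (ht : Function.Injective (eval₂Hom (Int.castRingHom ℂ) t)) :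
    ∃ φ : k →+* ℂ, ∀ a : MvPolynomial (Fin r) ℤ,
      φ (algebraMap (K0 r) k (algebraMap _ (K0 r) a)) = eval₂Hom (Int.castRingHom ℂ) t a := by
  let ψ : K0 r →+* ℂ := IsFractionRing.lift ht
  let : Algebra (K0 r) ℂ := ψ.toAlgebra
  let φ : k →ₐ[K0 r] ℂ := IsAlgClosed.lift
  refine ⟨φ.toRingHom, fun a => ?_⟩
  have h1 : φ (algebraMap (K0 r) k (algebraMap _ (K0 r) a)) = ψ (algebraMap _ (K0 r) a) :=
    φ.commutes _
  exact h1.trans (IsFractionRing.lift_algebraMap ht a)

/-- an integer polynomial is bounded on the torus -/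
theorem M4_bdd (a : MvPolynomial (Fin r) ℤ) :
    ∃ c : ℝ, ∀ φ : k →+* ℂ, AE r φ → ‖φ (algebraMap (K0 r) k (algebraMap _ (K0 r) a))‖ ≤ c := by
  induction a using MvPolynomial.induction_on with
  | C n => exact ⟨‖(n : ℂ)‖, fun φ _ => by simp⟩
  | add p q hp hq =>
    obtain ⟨c, hc⟩ := hp
    obtain ⟨d, hd⟩ := hq
    refine ⟨c + d, fun φ hφ => ?_⟩
    rw [map_add, map_add, map_add]
    exact (norm_add_le _ _).trans (add_le_add (hc φ hφ) (hd φ hφ))
  | mul_X p i hp =>
    obtain ⟨c, hc⟩ := hp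
    refine ⟨c * 2, fun φ hφ => ?_⟩
    rw [map_mul, map_mul, map_mul, norm_mul, hφ i]
    exact mul_le_mul_of_nonneg_right (hc φ hφ) zero_le_two

theorem M4_unif {ι : Type} (T : Finset ι) (x : ι → k)
    (h : ∀ i ∈ T, ∃ c : ℝ, ∀ φ : k →+* ℂ, AE r φ → ‖φ (x i)‖ ≤ c) :
    ∃ c : ℝ, 1 ≤ c ∧ ∀ i ∈ T, ∀ φ : k →+* ℂ, AE r φ → ‖φ (x i)‖ ≤ c := by
  choose! c hc using h
  obtain ⟨M, hM⟩ := (T.finite_toSet.image c).bddAbove
  exact ⟨max 1 M, le_max_left _ _, fun i hi φ hφ =>
    (hc i hi φ hφ).trans ((hM ⟨i, hi, rfl⟩).trans (le_max_right _ _))⟩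

/-- the two bounds for a root of a monic polynomial over `ℤ[t]` -/
theorem M4_int {x : k} (p : Polynomial (MvPolynomial (Fin r) ℤ)) (hp : p.Monic)
    (hx : p.eval₂ ((algebraMap (K0 r) k).comp (algebraMap _ (K0 r))) x = 0) :
    (∀ u : AbsoluteValue k ℝ, NA r u → u x ≤ 1) ∧
      ∃ c : ℝ, ∀ φ : k →+* ℂ, AE r φ → ‖φ x‖ ≤ c := by
  rw [← Polynomial.eval_map] at hx
  refine ⟨fun u hu => (abs_root_le u _ (hp.map _) hx le_rfl fun i => ?_).2 hu.1, ?_⟩
  · rw [Polynomial.coeff_map]
    exact hu.2 _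
  · obtain ⟨c, hc, h⟩ := M4_unif (r := r) p.support
      (fun i => algebraMap (K0 r) k (algebraMap _ (K0 r) (p.coeff i))) fun i _ => M4_bdd _
    refine ⟨_, fun φ hφ => (abs_root_le (M4_abs φ) _ (hp.map _) hx hc fun i => ?_).1⟩
    rw [Polynomial.coeff_map, M4_abs_apply]
    by_cases hi : i ∈ p.support
    · exact h i hi φ hφ
    · rw [Polynomial.notMem_support_iff.1 hi, map_zero, map_zero, norm_zero]
      exact zero_le_one.trans hc

/-- Northcott over `K0 r`.  Write `e = a / b` in lowest terms.  `mem_of_abs` gives `Γ ∈ ℤ[t]` and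
`Γ * e ^ s ∈ ℤ[t]`, so `b ^ s ∣ Γ`.  An injective evaluation `ℤ[t] → ℂ` extends to `K0 r`
(`IsFractionRing.lift`) and to `k` (`IsAlgClosed.lift`).  Then `s * m b ≤ m Γ ≤ s * log B` and
`m Γ + s * m a ≤ s * log B + s * m b`. -/
theorem north [Algebra.IsAlgebraic (K0 r) k] (B : ℝ) (hB : 1 ≤ B) :
    {e : K0 r | ∃ (Γ : K0 r) (s : ℕ), Γ ≠ 0 ∧ 1 ≤ s ∧
      (∀ u : AbsoluteValue k ℝ, NA r u →
        u (algebraMap (K0 r) k Γ) * (max 1 (u (algebraMap (K0 r) k e))) ^ s ≤ 1) ∧
      ∀ φ : k →+* ℂ, AE r φ →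
        ‖φ (algebraMap (K0 r) k Γ)‖ * (max 1 ‖φ (algebraMap (K0 r) k e)‖) ^ s ≤ B ^ s}.Finite := by
  obtain ⟨m, hmul, hpos, hfin, hle⟩ := exists_mahler r
  have h1 : m 1 = 0 := by
    have := hmul 1 1 one_ne_zero one_ne_zero
    rw [one_mul] at this
    linarith
  have hpow : ∀ a, a ≠ 0 → ∀ s : ℕ, m (a ^ s) = s * m a := by
    intro a ha s
    induction s with
    | zero => simp [h1]
    | succ s ih => rw [pow_succ, hmul _ _ (pow_ne_zero _ ha) ha, ih]; push_cast; ring
  have hup : ∀ (g : MvPolynomial (Fin r) ℤ) (s : ℕ), g ≠ 0 →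
      (∀ φ : k →+* ℂ, AE r φ → ‖φ (algebraMap (K0 r) k (algebraMap _ (K0 r) g))‖ ≤ B ^ s) →
      m g ≤ s * Real.log B := by
    intro g s hg h
    have := hle g 1 (s * Real.log B) hg one_ne_zero fun t ht hinj => by
      obtain ⟨φ, hφ⟩ := M4_ext (k := k) t hinj
      rw [map_one, norm_one, mul_one, ← hφ, ← Real.log_pow,
        Real.exp_log (pow_pos (zero_lt_one.trans_le hB) s)]
      refine h φ fun i => ?_
      rw [hφ, eval₂Hom_X', ht]
    rwa [h1, add_zero] at this
  have hdiv : ∀ (a h : MvPolynomial (Fin r) ℤ) (s : ℕ), 1 ≤ s → a ≠ 0 → h ≠ 0 →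
      m (a ^ s * h) ≤ s * Real.log B → m a ≤ Real.log B := by
    intro a h s hs ha hh e
    rw [hmul _ _ (pow_ne_zero _ ha) hh, hpow a ha] at e
    have := hpos h hh
    have hs' : (0 : ℝ) < s := by exact_mod_cast hs
    exact le_of_mul_le_mul_left (by linarith) hs'
  have inj := IsFractionRing.injective (MvPolynomial (Fin r) ℤ) (K0 r)
  refine (((hfin (Real.log B)).image2 (fun a b => algebraMap _ (K0 r) a / algebraMap _ (K0 r) b)
    (hfin (Real.log B))).insert 0).subset ?_
  rintro e ⟨Γ, s, hΓ, hs, hu, hφ⟩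
  obtain ⟨g, rfl⟩ := mem_of_abs (MvPolynomial (Fin r) ℤ) (K0 r) k Γ fun u a b =>
    (le_mul_of_one_le_right (u.nonneg _) (one_le_pow₀ (le_max_left _ _))).trans (hu u ⟨a, b⟩)
  obtain ⟨g', hg'⟩ := mem_of_abs (MvPolynomial (Fin r) ℤ) (K0 r) k
    (algebraMap _ (K0 r) g * e ^ s) fun u a b => by
      rw [map_mul, map_pow, map_mul, map_pow]
      exact (mul_le_mul_of_nonneg_left (pow_le_pow_left₀ (u.nonneg _) (le_max_right _ _) s)
        (u.nonneg _)).trans (hu u ⟨a, b⟩)
  have hg : g ≠ 0 := fun e => hΓ (by rw [e, map_zero])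
  by_cases he : e = 0
  · exact .inl he
  have hrel := IsFractionRing.num_den_reduced (MvPolynomial (Fin r) ℤ) e
  have hab := IsFractionRing.mk'_num_den' (MvPolynomial (Fin r) ℤ) e
  have hb : ((IsFractionRing.den (MvPolynomial (Fin r) ℤ) e : _) : MvPolynomial (Fin r) ℤ) ≠ 0 :=
    nonZeroDivisors.ne_zero (IsFractionRing.den _ e).2
  generalize IsFractionRing.num (MvPolynomial (Fin r) ℤ) e = a at hrel hab
  generalize ((IsFractionRing.den (MvPolynomial (Fin r) ℤ) e : _) : MvPolynomial (Fin r) ℤ) = b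
    at hrel hab hb
  have hb' : algebraMap _ (K0 r) b ≠ 0 := fun e => hb (inj (by rw [e, map_zero]))
  have ha : a ≠ 0 := fun e => he (by rw [← hab, e, map_zero, zero_div])
  have key : g' * b ^ s = g * a ^ s := inj (by
    rw [map_mul, map_mul, map_pow, map_pow, hg', ← hab, div_pow, mul_assoc,
      div_mul_cancel₀ _ (pow_ne_zero _ hb')])
  obtain ⟨h, rfl⟩ : b ^ s ∣ g :=
    (hrel.symm.pow (m := s) (n := s)).dvd_of_dvd_mul_right ⟨g', by rw [← key, mul_comm]⟩
  have hh : h ≠ 0 := right_ne_zero_of_mul hg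
  have e2 : g' = a ^ s * h := mul_right_cancel₀ (pow_ne_zero s hb) (by rw [key]; ring)
  refine .inr ⟨a, ⟨ha, hdiv a h s hs ha hh ?_⟩, b, ⟨hb, hdiv b h s hs hb hh ?_⟩, hab⟩
  · refine hup _ s (mul_ne_zero (pow_ne_zero _ ha) hh) fun φ hφ' => ?_
    rw [← e2, hg', map_mul, map_pow, map_mul, map_pow, norm_mul, norm_pow]
    exact (mul_le_mul_of_nonneg_left (pow_le_pow_left₀ (norm_nonneg _) (le_max_right _ _) s)
      (norm_nonneg _)).trans (hφ φ hφ')
  · exact hup _ s hg fun φ hφ' =>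
      (le_mul_of_one_le_right (norm_nonneg _) (one_le_pow₀ (le_max_left _ _))).trans (hφ φ hφ')

/-- A common denominator `ρ` making all elements of `S` integral over `ℤ[t]`
(`IsAlgebraic.exists_integral_multiple` or `exists_integral_multiples`), `abs_root_le`, and the
bound of a fixed integer polynomial on the torus. -/
theorem exists_den [Algebra.IsAlgebraic (K0 r) k] (S : Finset k) :
    ∃ (ρ : MvPolynomial (Fin r) ℤ) (B : ℝ), ρ ≠ 0 ∧ 1 ≤ B ∧
      (∀ u : AbsoluteValue k ℝ, NA r u → ∀ s ∈ S,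
        u (algebraMap (K0 r) k (algebraMap _ (K0 r) ρ)) * u s ≤ 1) ∧
      ∀ φ : k →+* ℂ, AE r φ → ‖φ (algebraMap (K0 r) k (algebraMap _ (K0 r) ρ))‖ ≤ B ∧
        ∀ s ∈ S, ‖φ (algebraMap (K0 r) k (algebraMap _ (K0 r) ρ))‖ * ‖φ s‖ ≤ B := by
  let : Algebra (MvPolynomial (Fin r) ℤ) k :=
    ((algebraMap (K0 r) k).comp (algebraMap _ (K0 r))).toAlgebra
  have : IsScalarTower (MvPolynomial (Fin r) ℤ) (K0 r) k := .of_algebraMap_eq' rfl
  have : Algebra.IsAlgebraic (MvPolynomial (Fin r) ℤ) k :=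
    (IsFractionRing.comap_isAlgebraic_iff (K := K0 r)).2 inferInstance
  obtain ⟨ρ, hρ, h⟩ := Algebra.IsAlgebraic.exists_integral_multiples (MvPolynomial (Fin r) ℤ) S
  have h' : ∀ s ∈ S, (∀ u : AbsoluteValue k ℝ, NA r u →
      u (algebraMap (K0 r) k (algebraMap _ (K0 r) ρ) * s) ≤ 1) ∧ ∃ c : ℝ, ∀ φ : k →+* ℂ, AE r φ →
        ‖φ (algebraMap (K0 r) k (algebraMap _ (K0 r) ρ) * s)‖ ≤ c := by
    intro s hs
    obtain ⟨p, hp, hx⟩ := h s hs
    exact M4_int p hp hx
  obtain ⟨c, hc, h1⟩ := M4_unif (r := r) S _ fun s hs => (h' s hs).2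
  obtain ⟨d, hd⟩ := M4_bdd (k := k) ρ
  refine ⟨ρ, max c d, hρ, hc.trans (le_max_left _ _), fun u hu s hs => ?_,
    fun φ hφ => ⟨(hd φ hφ).trans (le_max_right _ _), fun s hs => ?_⟩⟩
  · rw [← map_mul]
    exact (h' s hs).1 u hu
  · rw [← norm_mul, ← map_mul]
    exact (h1 s hs φ hφ).trans (le_max_left _ _)

/-- From a certificate to the two families of absolute values: take `π ∈ {1} ∪ S` of maximal
absolute value (twice that in the complex case), so that `u ρ * A ≤ 1`, resp. `≤ 2 * B`;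
replace `γ` by `γ * ρ ^ (s * B0)`. -/
theorem cert_abs [Algebra.IsAlgebraic (K0 r) k] (S : Finset k) (B0 : ℕ) :
    ∃ B : ℝ, 1 ≤ B ∧ ∀ β : k, Cert S B0 β → ∃ (γ : k) (s : ℕ), γ ≠ 0 ∧ 1 ≤ s ∧
      (∀ u : AbsoluteValue k ℝ, NA r u → u γ * (max 1 (u β)) ^ s ≤ 1) ∧
      ∀ φ : k →+* ℂ, AE r φ → ‖φ γ‖ * (max 1 ‖φ β‖) ^ s ≤ B ^ s := by
  classical
  obtain ⟨ρ, B, hρ, hB, hu, hφ⟩ := exists_den (r := r) (insert 1 S)
  have hρ' : algebraMap (K0 r) k (algebraMap _ (K0 r) ρ) ≠ 0 :=
    (map_ne_zero _).2 ((map_ne_zero_iff _ (IsFractionRing.injective _ (K0 r))).2 hρ)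
  generalize algebraMap (K0 r) k (algebraMap _ (K0 r) ρ) = δ at hu hφ hρ'
  have key : ∀ (p : Place S) (γ β : k) (s : ℕ) (c : ℝ),
      p.v γ * (max 1 (p.v β)) ^ s ≤ p.A ^ (s * B0) → p.v δ * p.A ≤ c →
      p.v (γ * δ ^ (s * B0)) * (max 1 (p.v β)) ^ s ≤ c ^ (s * B0) := by
    intro p γ β s c h1 h2
    rw [map_mul, map_pow, mul_right_comm]
    refine (mul_le_mul_of_nonneg_right h1 (pow_nonneg (p.v.nonneg _) _)).trans ?_
    rw [← mul_pow, mul_comm p.A]
    exact pow_le_pow_left₀ (mul_nonneg (p.v.nonneg _) (p.v.nonneg _)) h2 _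
  refine ⟨(2 * B) ^ B0, one_le_pow₀ (by linarith), ?_⟩
  rintro β ⟨γ, hγ, s, hs, h⟩
  refine ⟨γ * δ ^ (s * B0), s, mul_ne_zero hγ (pow_ne_zero _ hρ'), hs, fun u hu' => ?_,
    fun φ hφ' => ?_⟩
  · obtain ⟨π, hπ, hm⟩ := (insert 1 S).exists_max_image u (Finset.insert_nonempty _ _)
    have h1 : 1 ≤ u π := by simpa using hm 1 (Finset.mem_insert_self _ _)
    let p : Place S := ⟨u, π, h1, fun x y => (hu'.1 x y).trans
      (le_mul_of_one_le_left (le_max_of_le_left (u.nonneg _)) h1),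
      fun t ht => hm t (Finset.mem_insert_of_mem ht)⟩
    simpa using key p γ β s 1 (h p) (hu u hu' π hπ)
  · obtain ⟨π, hπ, hm⟩ := (insert 1 S).exists_max_image (M4_abs φ) (Finset.insert_nonempty _ _)
    have h1 : 1 ≤ M4_abs φ π := by simpa using hm 1 (Finset.mem_insert_self _ _)
    have h2 : M4_abs φ (2 * π) = 2 * M4_abs φ π := by
      rw [map_mul, M4_abs_apply φ 2, map_ofNat, Complex.norm_ofNat]
    let p : Place S := ⟨M4_abs φ, 2 * π, by rw [h2]; linarith, fun x y => by
        have a1 := (M4_abs φ).add_le x y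
        have a2 := le_max_left (M4_abs φ x) (M4_abs φ y)
        have a3 := le_max_right (M4_abs φ x) (M4_abs φ y)
        have a4 := le_mul_of_one_le_left (((M4_abs φ).nonneg x).trans a2) h1
        rw [h2, mul_assoc]
        linarith,
      fun t ht => by
        have := hm t (Finset.mem_insert_of_mem ht)
        rw [h2]
        linarith⟩
    have := key p γ β s (2 * B) (h p) (by
      change M4_abs φ δ * M4_abs φ (2 * π) ≤ 2 * B
      rw [h2, mul_left_comm]
      exact mul_le_mul_of_nonneg_left ((hφ φ hφ').2 π hπ) zero_le_two)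
    rwa [mul_comm s B0, pow_mul (2 * B), mul_comm B0 s] at this

end Pool.Agent.Work.MP_0a826e_ag.R
end

-- merged part: Pool.Agent.Work.MP_0a826e_ag.R.M5
section
namespace Pool.Agent.Work.MP_0a826e_ag.R

open MvPolynomial

variable {k : Type} [Field k]

variable {r : ℕ} [Algebra (K0 r) k]

theorem M5_galois [IsAlgClosed k] [CharZero k] [Algebra.IsAlgebraic (K0 r) k] :
    IsGalois (K0 r) k :=
  haveI : IsAlgClosure (K0 r) k := ⟨inferInstance, inferInstance⟩
  IsAlgClosure.isGalois (K0 r) k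

/-- an automorphism of the large field permutes the conjugates -/
theorem M5_perm {F M : Type} [Field F] [Algebra F k] [CommMonoid M] (K : IntermediateField F k)
    [FiniteDimensional F K] [Normal F K] (β : K) (σ : k ≃ₐ[F] k) (f : k → M) :
    ∏ τ : K ≃ₐ[F] K, f (σ (τ β : K)) = ∏ τ : K ≃ₐ[F] K, f (τ β : K) := by
  refine Fintype.prod_equiv (Equiv.mulLeft (σ.restrictNormal K)) _ _ fun τ => ?_
  rw [← AlgEquiv.restrictNormal_apply K σ]
  rfl

theorem M5_key {F : Type} [Field F] [Algebra F k] [Normal F k] (K : IntermediateField F k)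
    [FiniteDimensional F K] [Normal F K] (β : K) {γ : k} (hγ : γ ≠ 0) (s : ℕ) :
    ∃ (Γ : F) (n : ℕ), Γ ≠ 0 ∧ 1 ≤ n ∧ ∀ (v : AbsoluteValue k ℝ) (C : ℝ),
      (∀ σ : k ≃ₐ[F] k, v (σ γ) * (max 1 (v (σ β))) ^ s ≤ C ^ s) →
      v (algebraMap F k Γ) * (∏ τ : K ≃ₐ[F] K, max 1 (v (τ β : K))) ^ (s * n) ≤
        (C ^ Fintype.card (K ≃ₐ[F] K)) ^ (s * n) := by
  set g : k := ∏ τ : K ≃ₐ[F] K, τ.liftNormal k γ with hg
  have g0 : g ≠ 0 := Finset.prod_ne_zero_iff.2 fun τ _ => by simpa using hγ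
  have gi : IsIntegral F g := Normal.isIntegral inferInstance g
  have sp : ((minpoly F g).map (algebraMap F k)).Splits := Normal.splits inferInstance g
  have mo := (minpoly.monic gi).map (algebraMap F k)
  refine ⟨(minpoly F g).coeff 0, (minpoly F g).natDegree, minpoly.coeff_zero_ne_zero gi g0,
    minpoly.natDegree_pos gi, fun v C h => ?_⟩
  set P : ℝ := ∏ τ : K ≃ₐ[F] K, max 1 (v (τ β : K)) with hP
  have P0 : 0 ≤ P := Finset.prod_nonneg fun _ _ => le_max_of_le_left zero_le_one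
  have one : ∀ σ : k ≃ₐ[F] k, v (σ g) * P ^ s ≤ (C ^ Fintype.card (K ≃ₐ[F] K)) ^ s := fun σ => by
    rw [hP, ← M5_perm K β σ fun x => max 1 (v x), hg, map_prod, map_prod, ← Finset.prod_pow,
      ← Finset.prod_mul_distrib, ← pow_mul, mul_comm (Fintype.card _), pow_mul,
      ← Finset.card_univ, ← Finset.prod_const]
    refine Finset.prod_le_prod (fun _ _ => by positivity) fun τ _ => ?_
    have e : τ.liftNormal k β = (τ β : K) := τ.liftNormal_commutes k β
    simpa [e] using h (σ * τ.liftNormal k)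
  have all : ∀ m : Multiset k, (∀ x ∈ m, ∃ σ : k ≃ₐ[F] k, σ g = x) →
      v m.prod * P ^ (s * m.card) ≤ (C ^ Fintype.card (K ≃ₐ[F] K)) ^ (s * m.card) := by
    intro m
    induction m using Multiset.induction_on with
    | empty => simp
    | cons a m ih =>
      intro hm
      obtain ⟨σ, rfl⟩ := hm a (Multiset.mem_cons_self _ _)
      have i := ih fun x hx => hm x (Multiset.mem_cons_of_mem hx)
      rw [Multiset.prod_cons, Multiset.card_cons, map_mul, mul_add, mul_one, pow_add, pow_add,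
        mul_comm (v _), mul_mul_mul_comm]
      exact mul_le_mul i (one σ) (by positivity) (le_trans (by positivity) i)
  have := all ((minpoly F g).map (algebraMap F k)).roots fun x hx =>
    minpoly.exists_algEquiv_of_root' gi.isAlgebraic (by
      rw [Polynomial.aeval_def, Polynomial.eval₂_eq_eval_map]
      exact (Polynomial.mem_roots mo.ne_zero).1 hx)
  rw [← sp.natDegree_eq_card_roots, Polynomial.natDegree_map] at this
  rwa [← Polynomial.coeff_map, sp.coeff_zero_eq_prod_roots_of_monic mo, map_mul, map_pow,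
    AbsoluteValue.map_neg, map_one, one_pow, one_mul]

/-- the absolute value of a complex embedding -/
noncomputable def M5_abs (φ : k →+* ℂ) : AbsoluteValue k ℝ :=
  (NormedField.toAbsoluteValue ℂ).comp φ.injective

theorem M5_abs_apply (φ : k →+* ℂ) (x : k) : M5_abs φ x = ‖φ x‖ := rfl

/-- Norm from a finite Galois extension `L` of `K0 r` containing `γ` and `K`: the families `NA`
and `AE` are stable under composition with automorphisms of `k` over `K0 r`, and every
`σ ∈ Gal(L / K0 r)` lifts to `k` (`AlgEquiv.liftNormal`).  `Γ = ∏_σ σ γ` lies in `K0 r`.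
The restriction `Gal(L) → Gal(K)` is a surjective group homomorphism, so its fibres have a common
size `h`, and `∏_σ F (σ β) = ∏_τ F (τ β) ^ h`. -/
theorem norm_down [IsAlgClosed k] [CharZero k] [Algebra.IsAlgebraic (K0 r) k]
    (K : IntermediateField (K0 r) k) [FiniteDimensional (K0 r) K] [IsGalois (K0 r) K] (β : K)
    {γ : k} {s : ℕ} (hγ : γ ≠ 0) (hs : 1 ≤ s) {B : ℝ} (hB : 1 ≤ B)
    (h1 : ∀ u : AbsoluteValue k ℝ, NA r u → u γ * (max 1 (u β)) ^ s ≤ 1)
    (h2 : ∀ φ : k →+* ℂ, AE r φ → ‖φ γ‖ * (max 1 ‖φ β‖) ^ s ≤ B ^ s) :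
    ∃ (Γ : K0 r) (s' : ℕ), Γ ≠ 0 ∧ 1 ≤ s' ∧
      (∀ u : AbsoluteValue k ℝ, NA r u → u (algebraMap (K0 r) k Γ) *
        (∏ τ : K ≃ₐ[K0 r] K, max 1 (u (τ β : K))) ^ s' ≤ 1) ∧
      ∀ φ : k →+* ℂ, AE r φ → ‖φ (algebraMap (K0 r) k Γ)‖ *
        (∏ τ : K ≃ₐ[K0 r] K, max 1 ‖φ (τ β : K)‖) ^ s' ≤
          (B ^ Fintype.card (K ≃ₐ[K0 r] K)) ^ s' := by
  have := M5_galois (r := r) (k := k)
  obtain ⟨Γ, n, h0, hn, h⟩ := M5_key K β hγ s
  refine ⟨Γ, s * n, h0, Nat.mul_pos hs hn, fun u hu => ?_, fun φ hφ => ?_⟩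
  · have := h u 1 fun σ => by
      rw [one_pow]
      refine h1 (u.comp (f := σ.toRingEquiv.toRingHom) σ.injective) ⟨fun x y => ?_, fun a => ?_⟩
      · change u (σ (x + y)) ≤ max (u (σ x)) (u (σ y))
        rw [map_add]
        exact hu.1 _ _
      · change u (σ _) ≤ 1
        rw [σ.commutes]
        exact hu.2 a
    simpa using this
  · refine h (M5_abs φ) B fun σ => h2 (φ.comp σ.toRingEquiv.toRingHom) fun i => ?_
    change ‖φ (σ _)‖ = 2
    rw [σ.commutes]
    exact hφ i

theorem exists_galois [IsAlgClosed k] [CharZero k] [Algebra.IsAlgebraic (K0 r) k] (T : Finset k) :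
    ∃ K : IntermediateField (K0 r) k, FiniteDimensional (K0 r) K ∧ IsGalois (K0 r) K ∧
      ∀ β, Inv T β → β ∈ K := by
  have := M5_galois (r := r) (k := k)
  let K := FiniteGaloisIntermediateField.adjoin (K0 r) (T : Set k)
  refine ⟨K.toIntermediateField, inferInstance, inferInstance, fun β hβ => ?_⟩
  rw [← InfiniteGalois.fixedField_fixingSubgroup K.toIntermediateField,
    IntermediateField.mem_fixedField_iff]
  exact fun σ hσ => hβ σ.toRingEquiv fun t ht =>
    (IntermediateField.mem_fixingSubgroup_iff _ _).1 hσ t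
      (FiniteGaloisIntermediateField.subset_adjoin (K0 r) (T : Set k) ht)

/-- The coefficients of `∏_τ (X - τ β)` lie in `K0 r`; by `abs_coeff_prod_le` and `north` they
lie in a finite set, so there are finitely many such polynomials and roots. -/
theorem mal_of (r : ℕ) (k : Type) [Field k] [IsAlgClosed k] [CharZero k] [Algebra (K0 r) k]
    [Algebra.IsAlgebraic (K0 r) k] : MAL k := by
  classical
  have := M5_galois (r := r) (k := k)
  intro T S B0
  obtain ⟨K, _, _, hK⟩ := exists_galois (r := r) T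
  obtain ⟨B, hB, hc⟩ := cert_abs (r := r) S B0
  set N := Fintype.card (K ≃ₐ[K0 r] K) with hN
  have hB' : (1 : ℝ) ≤ 2 ^ N * B ^ N :=
    one_le_mul_of_one_le_of_one_le (one_le_pow₀ one_le_two) (one_le_pow₀ hB)
  refine (Polynomial.bUnion_roots_finite (RingHom.id k) N
    ((north (r := r) (k := k) _ hB').image (algebraMap (K0 r) k))).subset ?_
  rintro β ⟨h1, h2⟩
  lift β to K using hK β h1
  obtain ⟨γ, s, g0, hs, c1, c2⟩ := hc β h2
  obtain ⟨Γ, s', G0, hs', d1, d2⟩ := norm_down K β g0 hs hB c1 c2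
  have mo : (∏ τ : K ≃ₐ[K0 r] K, (Polynomial.X - Polynomial.C ((τ β : K) : k))).Monic :=
    Polynomial.monic_prod_X_sub_C _ _
  have P1 : ∀ v : AbsoluteValue k ℝ, 1 ≤ ∏ τ : K ≃ₐ[K0 r] K, max 1 (v (τ β : K)) := fun v =>
    Finset.one_le_prod fun _ _ => le_max_left _ _
  simp only [Set.mem_iUnion]
  refine ⟨∏ τ : K ≃ₐ[K0 r] K, (Polynomial.X - Polynomial.C ((τ β : K) : k)), ⟨?_, fun j => ?_⟩, ?_⟩
  · rw [Polynomial.natDegree_finsetProd_X_sub_C_eq_card, Finset.card_univ]
  · obtain ⟨e, he⟩ := (InfiniteGalois.mem_range_algebraMap_iff_fixed (k := K0 r)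
      ((∏ τ : K ≃ₐ[K0 r] K, (Polynomial.X - Polynomial.C ((τ β : K) : k))).coeff j)).2 fun σ => by
        have := M5_perm K β σ fun x => Polynomial.X - Polynomial.C x
        conv_rhs => rw [← this]
        change σ.toRingEquiv.toRingHom _ = _
        rw [← Polynomial.coeff_map, Polynomial.map_prod]
        simp
    refine ⟨e, ⟨Γ, s', G0, hs', fun u hu => (mul_le_mul_of_nonneg_left ?_ (u.nonneg _)).trans
      (d1 u hu), fun φ hφ => ?_⟩, he⟩
    · refine pow_le_pow_left₀ (by positivity) (max_le (P1 u) ?_) _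
      rw [he]
      exact (abs_coeff_prod_le u _ _ j).2 hu.1
    · have a : max 1 ‖φ (algebraMap (K0 r) k e)‖ ≤
          2 ^ N * ∏ τ : K ≃ₐ[K0 r] K, max 1 ‖φ (τ β : K)‖ := by
        refine max_le (one_le_mul_of_one_le_of_one_le (one_le_pow₀ one_le_two)
          (P1 (M5_abs φ))) ?_
        rw [he]
        exact (abs_coeff_prod_le (M5_abs φ) _ _ j).1
      refine (mul_le_mul_of_nonneg_left (pow_le_pow_left₀ (by positivity) a _)
        (norm_nonneg _)).trans ?_
      rw [mul_pow, mul_pow, mul_left_comm]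
      exact mul_le_mul_of_nonneg_left (d2 φ hφ) (by positivity)
  · rw [Polynomial.map_id, Finset.mem_coe, Multiset.mem_toFinset, Polynomial.mem_roots mo.ne_zero,
      Polynomial.IsRoot, Polynomial.eval_prod]
    exact Finset.prod_eq_zero (Finset.mem_univ 1) (by simp)

/-- Take a maximal algebraically independent subfamily of `T` over `ℤ` and the algebraic closure
in `ℂ` of the field it generates. -/
theorem exists_subfield (T : Finset ℂ) :
    ∃ k : Subfield ℂ, (∀ t ∈ T, t ∈ k) ∧ IsAlgClosed k ∧ MAL k := by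
  obtain ⟨u, hu⟩ := (AlgebraicIndependent.matroid ℤ ℂ).exists_isBasis (T : Set ℂ)
  obtain ⟨ind, sub, alg⟩ := AlgebraicIndependent.matroid_isBasis_iff.1 hu
  have : Finite u := (T.finite_toSet.subset sub).to_subtype
  obtain ⟨r, ⟨e⟩⟩ := Finite.exists_equiv_fin u
  have hx : AlgebraicIndependent ℤ fun i : Fin r => (e.symm i : ℂ) := ind.comp _ e.symm.injective
  have hr : Set.range (fun i : Fin r => (e.symm i : ℂ)) = u :=
    (e.symm.surjective.range_comp Subtype.val).trans Subtype.range_coe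
  have inj : Function.Injective
      (aeval (R := ℤ) fun i : Fin r => (e.symm i : ℂ)).toRingHom := hx
  let _ : Algebra (K0 r) ℂ := (IsFractionRing.lift inj : K0 r →+* ℂ).toAlgebra
  have : IsAlgClosed (algebraicClosure (K0 r) ℂ) := IsAlgClosure.isAlgClosed (K0 r)
  refine ⟨(algebraicClosure (K0 r) ℂ).toSubfield, fun t ht => ?_, this,
    mal_of r (algebraicClosure (K0 r) ℂ)⟩
  have a := alg t ht
  rw [← hr] at a
  refine mem_algebraicClosure_iff.2 (a.ringHom_of_comp_eq
    ((algebraMap _ (K0 r)).comp hx.aevalEquiv.symm.toRingEquiv.toRingHom) (RingHom.id ℂ)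
    ((IsFractionRing.injective _ _).comp hx.aevalEquiv.symm.injective) ?_)
  ext y
  obtain ⟨p, rfl⟩ := hx.aevalEquiv.surjective y
  change IsFractionRing.lift inj (algebraMap _ (K0 r) (hx.aevalEquiv.symm (hx.aevalEquiv p))) = _
  rw [AlgEquiv.symm_apply_apply, IsFractionRing.lift_algebraMap]
  rfl

end Pool.Agent.Work.MP_0a826e_ag.R
end
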