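import Pool.Agent.Work.MP_0a826e_ag.R.M5

-- merged part: Pool.Agent.Work.MP_0a826e_ag.R.W1
section
namespace Pool.Agent.Work.MP_0a826e_ag.R

open MvPolynomial

variable {k : Type} [Field k]

variable {w : Fin 2 → ℕ} {φ ψ : A2 k} {n m' D : ℕ}

theorem wdeg_add (w : Fin 2 → ℕ) (a b : Fin 2 →₀ ℕ) : wdeg w (a + b) = wdeg w a + wdeg w b := by
  simp only [wdeg, Finsupp.add_apply]
  ring

theorem wdeg_sw (D : ℕ) (w : Fin 2 → ℕ) (a : Fin 2 →₀ ℕ) : wdeg (sw D w) a = D * wdeg w a := by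
  simp only [wdeg, sw]
  ring

theorem Hw_monomial (w : Fin 2 → ℕ) (a : Fin 2 →₀ ℕ) (c : k) :
    Hw w (monomial a c) = Polynomial.monomial (wdeg w a) (monomial a c) := by
  rw [Hw, aeval_monomial, Finsupp.prod_fintype _ _ fun _ => pow_zero _, monomial_eq,
    Finsupp.prod_fintype _ _ fun _ => pow_zero _, Fin.prod_univ_two, Fin.prod_univ_two,
    Polynomial.monomial_pow, Polynomial.monomial_pow, Polynomial.monomial_mul_monomial,
    Polynomial.algebraMap_apply, Polynomial.C_mul_monomial]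
  rfl

theorem coeff_cmp (w : Fin 2 → ℕ) (n : ℕ) (φ : A2 k) (a : Fin 2 →₀ ℕ) :
    coeff a (cmp w n φ) = if wdeg w a = n then coeff a φ else 0 := by
  induction φ using MvPolynomial.induction_on' with
  | monomial b c =>
    rw [cmp, Hw_monomial, Polynomial.coeff_monomial]
    by_cases e : b = a
    · rw [e]
      split <;> simp
    · split <;> simp [coeff_monomial, e]
  | add p q hp hq =>
    unfold cmp at hp hq ⊢
    rw [map_add, Polynomial.coeff_add, coeff_add, coeff_add, hp, hq]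
    split <;> simp

theorem wt_le_iff : wt w φ ≤ n ↔ ∀ a ∈ φ.support, wdeg w a ≤ n := by
  rw [wt, Polynomial.natDegree_le_iff_coeff_eq_zero]
  constructor
  · intro h a ha
    by_contra c
    have := coeff_cmp w (wdeg w a) φ a
    rw [if_pos rfl, cmp, h _ (not_le.1 c), coeff_zero] at this
    exact mem_support_iff.1 ha this.symm
  · intro h N hN
    ext a
    rw [← cmp, coeff_cmp, coeff_zero]
    split
    · by_contra c
      have := h a (mem_support_iff.2 c)
      omega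
    · rfl

theorem wdeg_le_wt {a : Fin 2 →₀ ℕ} (h : a ∈ φ.support) : wdeg w a ≤ wt w φ := by
  exact wt_le_iff.1 le_rfl a h

theorem top_eq_cmp (w : Fin 2 → ℕ) (φ : A2 k) : top w φ = cmp w (wt w φ) φ := rfl

theorem Hw_eq_zero : Hw w φ = 0 ↔ φ = 0 := by
  refine ⟨fun h => ?_, fun h => by rw [h, map_zero]⟩
  ext a
  have := coeff_cmp w (wdeg w a) φ a
  rw [if_pos rfl, cmp, h] at this
  exact this.symm

theorem top_ne_zero (h : φ ≠ 0) : top w φ ≠ 0 := by
  exact Polynomial.leadingCoeff_ne_zero.2 (mt Hw_eq_zero.1 h)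

theorem exists_wdeg_eq_wt (w : Fin 2 → ℕ) (h : φ ≠ 0) : ∃ a ∈ φ.support, wdeg w a = wt w φ := by
  obtain ⟨a, ha⟩ := ne_zero_iff.1 (top_ne_zero (w := w) h)
  rw [top_eq_cmp, coeff_cmp] at ha
  split at ha
  · exact ⟨a, mem_support_iff.2 ha, ‹_›⟩
  · exact absurd rfl ha

theorem wt_zero (w : Fin 2 → ℕ) : wt w (0 : A2 k) = 0 := by
  rw [wt, map_zero, Polynomial.natDegree_zero]

theorem wt_mul (hφ : φ ≠ 0) (hψ : ψ ≠ 0) : wt w (φ * ψ) = wt w φ + wt w ψ := by
  rw [wt, map_mul, Polynomial.natDegree_mul (mt Hw_eq_zero.1 hφ) (mt Hw_eq_zero.1 hψ)]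
  rfl

theorem wt_mul_le (w : Fin 2 → ℕ) (φ ψ : A2 k) : wt w (φ * ψ) ≤ wt w φ + wt w ψ := by
  rw [wt, map_mul]
  exact Polynomial.natDegree_mul_le

theorem top_mul (w : Fin 2 → ℕ) (φ ψ : A2 k) : top w (φ * ψ) = top w φ * top w ψ := by
  rw [top, map_mul, Polynomial.leadingCoeff_mul]
  rfl

theorem wt_pow (w : Fin 2 → ℕ) (φ : A2 k) (e : ℕ) : wt w (φ ^ e) = e * wt w φ := by
  rw [wt, map_pow, Polynomial.natDegree_pow]
  rfl

theorem top_pow (w : Fin 2 → ℕ) (φ : A2 k) (e : ℕ) : top w (φ ^ e) = top w φ ^ e := by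
  rw [top, map_pow, Polynomial.leadingCoeff_pow]
  rfl

theorem W1_C (w : Fin 2 → ℕ) (c : k) : Hw w (C c : A2 k) = Polynomial.C (C c) := by
  rw [Hw, aeval_C]
  rfl

theorem wt_C (w : Fin 2 → ℕ) (c : k) : wt w (C c : A2 k) = 0 := by
  rw [wt, W1_C, Polynomial.natDegree_C]

theorem top_C (w : Fin 2 → ℕ) (c : k) : top w (C c : A2 k) = C c := by
  rw [top, W1_C, Polynomial.leadingCoeff_C]

theorem wt_C_mul {c : k} (hc : c ≠ 0) (w : Fin 2 → ℕ) (φ : A2 k) : wt w (C c * φ) = wt w φ := by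
  rw [wt, map_mul, W1_C, Polynomial.natDegree_C_mul (C_ne_zero.2 hc)]
  rfl

theorem wt_monomial (w : Fin 2 → ℕ) (a : Fin 2 →₀ ℕ) {c : k} (hc : c ≠ 0) :
    wt w (monomial a c) = wdeg w a := by
  rw [wt, Hw_monomial, Polynomial.natDegree_monomial_eq _ (mt monomial_eq_zero.1 hc)]

theorem wt_monomial_le (w : Fin 2 → ℕ) (a : Fin 2 →₀ ℕ) (c : k) :
    wt w (monomial a c) ≤ wdeg w a := by
  rw [wt, Hw_monomial]
  exact Polynomial.natDegree_monomial_le _

theorem wt_X (w : Fin 2 → ℕ) (i : Fin 2) : wt w (X i : A2 k) = w i := by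
  rw [wt, Hw, aeval_X, Polynomial.natDegree_monomial_eq _ (X_ne_zero i)]

theorem wt_add_le (hφ : wt w φ ≤ n) (hψ : wt w ψ ≤ n) : wt w (φ + ψ) ≤ n := by
  rw [wt, map_add]
  exact Polynomial.natDegree_add_le_of_degree_le hφ hψ

theorem wt_sub_le (hφ : wt w φ ≤ n) (hψ : wt w ψ ≤ n) : wt w (φ - ψ) ≤ n := by
  rw [wt, map_sub]
  exact (Polynomial.natDegree_sub_le _ _).trans (max_le hφ hψ)

theorem wt_sum_le {ι : Type} (s : Finset ι) (x : ι → A2 k) (h : ∀ i ∈ s, wt w (x i) ≤ n) :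
    wt w (∑ i ∈ s, x i) ≤ n := by
  exact Finset.sum_induction x (fun y => wt w y ≤ n) (fun _ _ => wt_add_le)
    ((wt_zero w).trans_le n.zero_le) h

theorem cmp_eq_zero (h : wt w φ < n) : cmp w n φ = 0 := by
  exact Polynomial.coeff_eq_zero_of_natDegree_lt h

theorem le_wt_of_cmp_ne (h : cmp w n φ ≠ 0) : n ≤ wt w φ := by
  exact Polynomial.le_natDegree_of_ne_zero h

theorem cmp_zero (w : Fin 2 → ℕ) (n : ℕ) : cmp w n (0 : A2 k) = 0 := by
  rw [cmp, map_zero, Polynomial.coeff_zero]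

theorem cmp_add (w : Fin 2 → ℕ) (n : ℕ) (φ ψ : A2 k) :
    cmp w n (φ + ψ) = cmp w n φ + cmp w n ψ := by
  rw [cmp, map_add, Polynomial.coeff_add]
  rfl

theorem cmp_sub (w : Fin 2 → ℕ) (n : ℕ) (φ ψ : A2 k) :
    cmp w n (φ - ψ) = cmp w n φ - cmp w n ψ := by
  rw [cmp, map_sub, Polynomial.coeff_sub]
  rfl

theorem cmp_sum {ι : Type} (w : Fin 2 → ℕ) (n : ℕ) (s : Finset ι) (x : ι → A2 k) :
    cmp w n (∑ i ∈ s, x i) = ∑ i ∈ s, cmp w n (x i) := by
  rw [cmp, map_sum, Polynomial.finsetSum_coeff]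
  rfl

theorem cmp_C_mul (w : Fin 2 → ℕ) (n : ℕ) (c : k) (φ : A2 k) :
    cmp w n (C c * φ) = C c * cmp w n φ := by
  rw [cmp, map_mul, W1_C, Polynomial.coeff_C_mul]
  rfl

theorem cmp_mul_of_le (hφ : wt w φ ≤ m') (hψ : wt w ψ ≤ n) :
    cmp w (m' + n) (φ * ψ) = cmp w m' φ * cmp w n ψ := by
  rw [cmp, map_mul]
  exact Polynomial.coeff_mul_add_eq_of_natDegree_le hφ hψ

theorem sum_cmp (w : Fin 2 → ℕ) (φ : A2 k) :
    ∑ n ∈ Finset.range (wt w φ + 1), cmp w n φ = φ := by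
  ext a
  rw [coeff_sum]
  simp only [coeff_cmp, Finset.sum_ite_eq, Finset.mem_range]
  split
  · rfl
  · by_contra c
    have := wdeg_le_wt (w := w) (mem_support_iff.2 (Ne.symm c))
    omega

theorem wt_sub_cmp_le (h : wt w φ ≤ n + 1) : wt w (φ - cmp w (n + 1) φ) ≤ n := by
  refine wt_le_iff.2 fun a ha => ?_
  rw [mem_support_iff, coeff_sub, coeff_cmp] at ha
  split at ha
  · exact absurd (sub_self _) ha
  · have := wdeg_le_wt (w := w) (mem_support_iff.2 ((sub_zero _).symm.trans_ne ha))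
    omega

theorem isHom_cmp (w : Fin 2 → ℕ) (n : ℕ) (φ : A2 k) : IsHom w n (cmp w n φ) := by
  intro a ha
  rw [mem_support_iff, coeff_cmp] at ha
  by_contra c
  exact ha (if_neg c)

theorem isHom_top (w : Fin 2 → ℕ) (φ : A2 k) : IsHom w (wt w φ) (top w φ) := by
  exact isHom_cmp w _ φ

theorem isHom_iff : IsHom w n φ ↔ Hw w φ = Polynomial.monomial n φ := by
  constructor
  · intro h
    ext l a
    rw [← cmp, coeff_cmp, Polynomial.coeff_monomial]
    by_cases c : coeff a φ = 0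
    · split <;> split <;> simp [c]
    · rw [h a (mem_support_iff.2 c)]
      split <;> simp
  · intro h a ha
    by_contra c
    have := coeff_cmp w (wdeg w a) φ a
    rw [if_pos rfl, cmp, h, Polynomial.coeff_monomial, if_neg (Ne.symm c), coeff_zero] at this
    exact mem_support_iff.1 ha this.symm

theorem IsHom.cmp_self (h : IsHom w n φ) : cmp w n φ = φ := by
  rw [cmp, isHom_iff.1 h, Polynomial.coeff_monomial, if_pos rfl]

theorem IsHom.cmp_ne (h : IsHom w n φ) (hne : m' ≠ n) : cmp w m' φ = 0 := by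
  rw [cmp, isHom_iff.1 h, Polynomial.coeff_monomial, if_neg hne.symm]

theorem IsHom.wt_le (h : IsHom w n φ) : wt w φ ≤ n := by
  exact wt_le_iff.2 fun a ha => (h a ha).le

theorem IsHom.wt_eq (h : IsHom w n φ) (h0 : φ ≠ 0) : wt w φ = n := by
  rw [wt, isHom_iff.1 h, Polynomial.natDegree_monomial_eq _ h0]

theorem IsHom.top_eq (h : IsHom w n φ) : top w φ = φ := by
  rw [top, isHom_iff.1 h, Polynomial.leadingCoeff_monomial]

theorem isHom_zero (w : Fin 2 → ℕ) (n : ℕ) : IsHom w n (0 : A2 k) := by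
  exact isHom_iff.2 (by rw [map_zero, map_zero])

theorem isHom_C (w : Fin 2 → ℕ) (c : k) : IsHom w 0 (C c : A2 k) := by
  exact isHom_iff.2 (W1_C w c)

theorem isHom_X (w : Fin 2 → ℕ) (i : Fin 2) : IsHom w (w i) (X i : A2 k) := by
  exact isHom_iff.2 (aeval_X _ i)

theorem isHom_monomial (w : Fin 2 → ℕ) (a : Fin 2 →₀ ℕ) (c : k) :
    IsHom w (wdeg w a) (monomial a c) := by
  exact isHom_iff.2 (Hw_monomial w a c)

theorem IsHom.add (h : IsHom w n φ) (h' : IsHom w n ψ) : IsHom w n (φ + ψ) := by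
  exact isHom_iff.2 (by rw [map_add, map_add, isHom_iff.1 h, isHom_iff.1 h'])

theorem IsHom.sub (h : IsHom w n φ) (h' : IsHom w n ψ) : IsHom w n (φ - ψ) := by
  exact isHom_iff.2 (by rw [map_sub, map_sub, isHom_iff.1 h, isHom_iff.1 h'])

theorem IsHom.mul (h : IsHom w m' φ) (h' : IsHom w n ψ) : IsHom w (m' + n) (φ * ψ) := by
  exact isHom_iff.2 (by
    rw [map_mul, isHom_iff.1 h, isHom_iff.1 h', Polynomial.monomial_mul_monomial])

theorem IsHom.C_mul (h : IsHom w n φ) (c : k) : IsHom w n (C c * φ) := by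
  exact zero_add n ▸ (isHom_C w c).mul h

theorem IsHom.pow (h : IsHom w n φ) (e : ℕ) : IsHom w (e * n) (φ ^ e) := by
  exact isHom_iff.2 (by rw [map_pow, isHom_iff.1 h, Polynomial.monomial_pow, mul_comm])

theorem isHom_prod {ι : Type} (s : Finset ι) (x : ι → A2 k) (h : ∀ i ∈ s, IsHom w n (x i)) :
    IsHom w (s.card * n) (∏ i ∈ s, x i) := by
  induction s using Finset.cons_induction with
  | empty => simpa using isHom_C w (1 : k)
  | cons i s hi ih =>
    rw [Finset.prod_cons, Finset.card_cons, add_mul, one_mul, add_comm]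
    exact (h i (Finset.mem_cons_self _ _)).mul (ih fun j hj => h j (Finset.mem_cons_of_mem hj))

theorem cmp_mul_hom (h : IsHom w n ψ) (φ : A2 k) (l : ℕ) :
    cmp w l (φ * ψ) = if n ≤ l then cmp w (l - n) φ * ψ else 0 := by
  rw [cmp, map_mul, isHom_iff.1 h, ← Polynomial.C_mul_X_pow_eq_monomial, ← mul_assoc,
    Polynomial.coeff_mul_X_pow', Polynomial.coeff_mul_C]
  rfl

theorem eval_act (w : Fin 2 → ℕ) (l : k) (u : Pt k) (φ : A2 k) :
    eval (act w l u) φ = Polynomial.eval l ((Hw w φ).map (eval u)) := by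
  induction φ using MvPolynomial.induction_on with
  | C c => simp
  | add p q hp hq => simp [hp, hq]
  | mul_X p i hp =>
    rw [map_mul, map_mul, Polynomial.map_mul, Polynomial.eval_mul, hp, Hw, aeval_X]
    simp [act, mul_comm]

theorem IsHom.eval_act_eq (h : IsHom w n φ) (l : k) (u : Pt k) :
    eval (act w l u) φ = l ^ n * eval u φ := by
  rw [eval_act, isHom_iff.1 h, Polynomial.map_monomial, Polynomial.eval_monomial, mul_comm]

theorem W1_sw (D : ℕ) (w : Fin 2 → ℕ) (φ : A2 k) :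
    Hw (sw D w) φ = Polynomial.expand (A2 k) D (Hw w φ) := by
  induction φ using MvPolynomial.induction_on' with
  | monomial b c => rw [Hw_monomial, Hw_monomial, Polynomial.expand_monomial, wdeg_sw, mul_comm]
  | add p q hp hq => rw [map_add, map_add, map_add, hp, hq]

theorem wt_sw (D : ℕ) (w : Fin 2 → ℕ) (φ : A2 k) : wt (sw D w) φ = D * wt w φ := by
  rw [wt, W1_sw, Polynomial.natDegree_expand, mul_comm]
  rfl

theorem cmp_sw (hD : 1 ≤ D) (w : Fin 2 → ℕ) (n : ℕ) (φ : A2 k) :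
    cmp (sw D w) (D * n) φ = cmp w n φ := by
  rw [cmp, W1_sw, Polynomial.coeff_expand_mul' hD]
  rfl

theorem top_sw (hD : 1 ≤ D) (w : Fin 2 → ℕ) (φ : A2 k) : top (sw D w) φ = top w φ := by
  rw [top_eq_cmp, wt_sw, cmp_sw hD, top_eq_cmp]

theorem totalDegree_le_wt (hw : ∀ i, 0 < w i) (φ : A2 k) : φ.totalDegree ≤ wt w φ := by
  refine Finset.sup_le fun a ha => le_trans ?_ (wdeg_le_wt ha)
  rw [Finsupp.sum_fintype _ _ fun _ => rfl, Fin.sum_univ_two]
  exact add_le_add (Nat.le_mul_of_pos_left _ (hw 0)) (Nat.le_mul_of_pos_left _ (hw 1))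

theorem eq_C_of_wt_eq_zero (hw : ∀ i, 0 < w i) (h : wt w φ = 0) : φ = C (coeff 0 φ) := by
  exact totalDegree_eq_zero_iff_eq_C.1 (Nat.le_zero.1 (h ▸ totalDegree_le_wt hw φ))

end Pool.Agent.Work.MP_0a826e_ag.R
end

-- merged part: Pool.Agent.Work.MP_0a826e_ag.R.W2
section
namespace Pool.Agent.Work.MP_0a826e_ag.R

open MvPolynomial

variable {k : Type} [Field k]

variable {w : Fin 2 → ℕ} {φ : A2 k} {n D E d : ℕ} {f F g G h H : Fin 2 → A2 k}

theorem pos_one : Pos ![1, 1] := by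
  exact ⟨fun i => by fin_cases i <;> simp, by simp⟩

theorem eval_aeval_ev (u : Pt k) (g : Fin 2 → A2 k) (φ : A2 k) :
    eval u (aeval g φ) = eval (ev g u) φ := by
  induction φ using MvPolynomial.induction_on with
  | C c => simp
  | add p q hp hq => simp only [map_add, hp, hq]
  | mul_X p i hp => simp only [map_mul, hp, aeval_X, eval_X, ev]

theorem ev_comp (h g : Fin 2 → A2 k) (u : Pt k) : ev (comp h g) u = ev h (ev g u) := by
  funext i
  exact eval_aeval_ev u g (h i)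

theorem ev_X (u : Pt k) : ev (X : Fin 2 → A2 k) u = u := by
  funext i
  exact eval_X i

theorem ev_iter (f : Fin 2 → A2 k) (n : ℕ) : ev (iter f n) = (ev f)^[n] := by
  funext u
  induction n with
  | zero => exact ev_X u
  | succ n ih => rw [iter, ev_comp, ih, Function.iterate_succ_apply']

theorem aeval_comp (h g : Fin 2 → A2 k) (φ : A2 k) :
    aeval (comp h g) φ = aeval g (aeval h φ) := by
  induction φ using MvPolynomial.induction_on with
  | C c => simp
  | add p q hp hq => simp only [map_add, hp, hq]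
  | mul_X p i hp => simp only [map_mul, hp, aeval_X, comp]

theorem W2_pow {m : ℕ} (h : wt w φ ≤ m) (e : ℕ) :
    wt w (φ ^ e) ≤ e * m ∧ cmp w (e * m) (φ ^ e) = cmp w m φ ^ e := by
  refine ⟨(wt_pow w φ e).trans_le (Nat.mul_le_mul_left _ h), ?_⟩
  induction e with
  | zero =>
    rw [zero_mul, pow_zero, pow_zero]
    exact (isHom_C w 1).cmp_self
  | succ e ih =>
    rw [Nat.succ_mul, pow_succ, pow_succ,
      cmp_mul_of_le ((wt_pow w φ e).trans_le (Nat.mul_le_mul_left _ h)) h, ih]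

theorem W2_aeval (g : Fin 2 → A2 k) (a : Fin 2 →₀ ℕ) (c : k) :
    aeval g (monomial a c : A2 k) = C c * (g 0 ^ a 0 * g 1 ^ a 1) := by
  rw [aeval_monomial, Finsupp.prod_fintype _ _ fun _ => pow_zero _, Fin.prod_univ_two,
    algebraMap_eq]

theorem W2_mon (hb : Bnd w D g G) (a : Fin 2 →₀ ℕ) (c : k) :
    wt w (aeval g (monomial a c : A2 k)) ≤ wdeg (sw D w) a ∧
      cmp w (wdeg (sw D w) a) (aeval g (monomial a c : A2 k)) = aeval G (monomial a c : A2 k) := by
  have e : wdeg (sw D w) a = a 0 * (D * w 0) + a 1 * (D * w 1) := by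
    simp only [wdeg, sw]
    ring
  have h0 := W2_pow (hb.le 0) (a 0)
  have h1 := W2_pow (hb.le 1) (a 1)
  rw [e, W2_aeval, W2_aeval, cmp_C_mul, cmp_mul_of_le h0.1 h1.1, h0.2, h1.2, hb.eq 0, hb.eq 1]
  refine ⟨(wt_mul_le _ _ _).trans ?_, rfl⟩
  rw [wt_C, zero_add]
  exact (wt_mul_le _ _ _).trans (Nat.add_le_add h0.1 h1.1)

/-- induction on monomials: `wt (g0^a g1^b) ≤ D * wdeg`, use `cmp_mul_of_le`. -/
theorem Bnd.aeval_le (hb : Bnd w D g G) (hφ : wt (sw D w) φ ≤ n) :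
    wt w (aeval g φ) ≤ n ∧ cmp w n (aeval g φ) = aeval G (cmp (sw D w) n φ) := by
  have hs : ∀ a ∈ φ.support, wdeg (sw D w) a ≤ n := wt_le_iff.1 hφ
  rw [φ.as_sum, map_sum, cmp_sum, cmp_sum, map_sum]
  refine ⟨wt_sum_le _ _ fun a ha => (W2_mon hb a _).1.trans (hs a ha),
    Finset.sum_congr rfl fun a ha => ?_⟩
  rcases (hs a ha).eq_or_lt with e | e
  · rw [← e, (W2_mon hb a _).2, (isHom_monomial _ a _).cmp_self]
  · rw [cmp_eq_zero ((W2_mon hb a _).1.trans_lt e), (isHom_monomial _ a _).cmp_ne e.ne', map_zero]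

theorem Bnd.isHom (hb : Bnd w D g G) (i : Fin 2) : IsHom w (D * w i) (G i) := by
  rw [hb.eq i]
  exact isHom_cmp _ _ _

theorem Bnd.toTop (hb : Bnd w D g G) : Bnd w D G G := by
  exact ⟨fun i => (hb.isHom i).wt_le, fun i => (hb.isHom i).cmp_self.symm⟩

theorem Reg.toTop (hb : Reg w D g G) : Reg w D G G := by
  exact ⟨hb.bnd.toTop, hb.nz⟩

theorem bnd_of_isHom (hG : ∀ i, IsHom w (D * w i) (G i)) : Bnd w D G G := by
  exact ⟨fun i => (hG i).wt_le, fun i => (hG i).cmp_self.symm⟩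

theorem Bnd.of_comp (hg : Bnd w D g G) (hD : 1 ≤ D) (hh : Bnd w E h H) :
    Bnd w (E * D) (comp h g) (comp H G) := by
  have e : ∀ i, E * D * w i = D * (E * w i) := fun i => by ring
  have k1 : ∀ i, wt (sw D w) (h i) ≤ D * (E * w i) := fun i => by
    rw [wt_sw]
    exact Nat.mul_le_mul_left _ (hh.le i)
  refine ⟨fun i => e i ▸ (hg.aeval_le (k1 i)).1, fun i => ?_⟩
  rw [e, comp, comp, (hg.aeval_le (k1 i)).2, cmp_sw hD, hh.eq i]

theorem Reg.of_comp (hg : Reg w D g G) (hD : 1 ≤ D) (hh : Reg w E h H) :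
    Reg w (E * D) (comp h g) (comp H G) := by
  exact ⟨hg.bnd.of_comp hD hh.bnd, fun u hu => hg.nz u (hh.nz _ (by rwa [ev_comp] at hu))⟩

theorem reg_X (w : Fin 2 → ℕ) : Reg w 1 (X : Fin 2 → A2 k) X := by
  refine ⟨bnd_of_isHom fun i => ?_, fun u hu => by rwa [ev_X] at hu⟩
  rw [one_mul]
  exact isHom_X w i

theorem Bnd.of_iter (hf : Bnd w d f F) (hd : 1 ≤ d) (n : ℕ) :
    Bnd w (d ^ n) (iter f n) (iter F n) := by
  induction n with
  | zero => exact (reg_X w).bnd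
  | succ n ih =>
    rw [pow_succ']
    exact ih.of_comp (Nat.one_le_pow _ _ hd) hf

theorem Reg.of_iter (hf : Reg w d f F) (hd : 1 ≤ d) (n : ℕ) :
    Reg w (d ^ n) (iter f n) (iter F n) := by
  induction n with
  | zero => exact reg_X w
  | succ n ih =>
    rw [pow_succ']
    exact ih.of_comp (Nat.one_le_pow _ _ hd) hf

theorem IsHom.aeval_top (hφ : IsHom w n φ) (hb : Bnd w D g G) (hD : 1 ≤ D) :
    IsHom w (D * n) (aeval G φ) := by
  have k1 : wt (sw D w) φ ≤ D * n := by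
    rw [wt_sw]
    exact Nat.mul_le_mul_left _ hφ.wt_le
  have k2 := (hb.toTop.aeval_le k1).2
  rw [cmp_sw hD, hφ.cmp_self] at k2
  rw [← k2]
  exact isHom_cmp _ _ _

theorem Bnd.ev_act (hb : Bnd w D g G) (l : k) (u : Pt k) :
    ev G (act w l u) = act w (l ^ D) (ev G u) := by
  funext i
  show eval (act w l u) (G i) = (l ^ D) ^ w i * eval u (G i)
  rw [(hb.isHom i).eval_act_eq, pow_mul]

theorem Bnd.iterate_act (hb : Bnd w d f F) (l : k) (u : Pt k) (n : ℕ) :
    (ev F)^[n] (act w l u) = act w (l ^ d ^ n) ((ev F)^[n] u) := by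
  induction n with
  | zero => simp
  | succ n ih =>
    rw [Function.iterate_succ_apply', Function.iterate_succ_apply', ih, hb.ev_act, ← pow_mul,
      pow_succ]

theorem Reg.iterate_ne_zero (hb : Reg w d f F) {u : Pt k} (hu : u ≠ 0) (n : ℕ) :
    (ev F)^[n] u ≠ 0 := by
  induction n with
  | zero => exact hu
  | succ n ih =>
    rw [Function.iterate_succ_apply']
    exact fun h => ih (hb.nz _ h)

theorem act_act (w : Fin 2 → ℕ) (l l' : k) (u : Pt k) :
    act w l (act w l' u) = act w (l * l') u := by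
  funext i
  simp only [act, mul_pow, mul_assoc]

theorem act_one (w : Fin 2 → ℕ) (u : Pt k) : act w 1 u = u := by
  funext i
  simp only [act, one_pow, one_mul]

theorem act_ne_zero (w : Fin 2 → ℕ) {l : k} (hl : l ≠ 0) {u : Pt k} (hu : u ≠ 0) :
    act w l u ≠ 0 := by
  intro h
  refine hu (funext fun i => ?_)
  exact (mul_eq_zero.1 (congrFun h i)).resolve_left (pow_ne_zero _ hl)

theorem Cls.refl (w : Fin 2 → ℕ) (u : Pt k) : Cls w u u := by
  exact ⟨1, one_ne_zero, (act_one w u).symm⟩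

theorem Cls.symm {u v : Pt k} (h : Cls w u v) : Cls w v u := by
  obtain ⟨l, hl, rfl⟩ := h
  exact ⟨l⁻¹, inv_ne_zero hl, by rw [act_act, inv_mul_cancel₀ hl, act_one]⟩

theorem Cls.trans {u v z : Pt k} (h : Cls w u v) (h' : Cls w v z) : Cls w u z := by
  obtain ⟨l, hl, rfl⟩ := h
  obtain ⟨l', hl', rfl⟩ := h'
  exact ⟨l' * l, mul_ne_zero hl' hl, act_act _ _ _ _⟩

theorem Cls.ne_zero {u v : Pt k} (h : Cls w u v) (hu : u ≠ 0) : v ≠ 0 := by
  obtain ⟨l, hl, rfl⟩ := h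
  exact act_ne_zero w hl hu

theorem Cls.map (hb : Bnd w D g G) {u v : Pt k} (h : Cls w u v) : Cls w (ev G u) (ev G v) := by
  obtain ⟨l, hl, rfl⟩ := h
  exact ⟨l ^ D, pow_ne_zero _ hl, hb.ev_act l u⟩

theorem Cls.iterate (hb : Bnd w d f F) {u v : Pt k} (h : Cls w u v) (n : ℕ) :
    Cls w ((ev F)^[n] u) ((ev F)^[n] v) := by
  obtain ⟨l, hl, rfl⟩ := h
  exact ⟨l ^ d ^ n, pow_ne_zero _ hl, hb.iterate_act l u n⟩

theorem Cls.eval_eq_zero {u v : Pt k} (h : Cls w u v) (hφ : IsHom w n φ) :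
    eval u φ = 0 ↔ eval v φ = 0 := by
  obtain ⟨l, hl, rfl⟩ := h
  rw [hφ.eval_act_eq, mul_eq_zero, or_iff_right (pow_ne_zero _ hl)]

/-- every nonzero point is in the class of some `(z, 1)` or of `(1, 0)` -/
theorem exists_cls [IsAlgClosed k] (hw : ∀ i, 0 < w i) {u : Pt k} (hu : u ≠ 0) :
    (∃ z : k, Cls w ![z, 1] u) ∨ Cls w ![1, 0] u := by
  by_cases h1 : u 1 = 0
  · have h0 : u 0 ≠ 0 := fun h0 => hu (funext fun i => by fin_cases i <;> assumption)
    obtain ⟨l, hl⟩ := IsAlgClosed.exists_pow_nat_eq (u 0) (hw 0)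
    refine Or.inr ⟨l, fun e => h0 ?_, funext fun i => ?_⟩
    · rw [← hl, e, zero_pow (hw 0).ne']
    · fin_cases i <;> simp [act, hl, h1]
  · obtain ⟨l, hl⟩ := IsAlgClosed.exists_pow_nat_eq (u 1) (hw 1)
    have h0 : l ≠ 0 := fun e => h1 (by rw [← hl, e, zero_pow (hw 1).ne'])
    refine Or.inl ⟨u 0 / l ^ w 0, l, h0, funext fun i => ?_⟩
    fin_cases i
    · exact (mul_div_cancel₀ _ (pow_ne_zero _ h0)).symm
    · simp [act, hl]

/-- a class meets the line `y = 1` in a finite set -/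
theorem finite_cls (hw : ∀ i, 0 < w i) (u : Pt k) : {z : k | Cls w u ![z, 1]}.Finite := by
  classical
  refine ((Polynomial.nthRoots (w 1) (u 1)⁻¹).toFinset.finite_toSet.image
    fun l => l ^ w 0 * u 0).subset ?_
  rintro z ⟨l, -, hl⟩
  refine ⟨l, ?_, (congrFun hl 0).symm⟩
  rw [Finset.mem_coe, Multiset.mem_toFinset, Polynomial.mem_nthRoots (hw 1)]
  exact eq_inv_of_mul_eq_one_left (congrFun hl 1).symm

theorem eval_dh (φ : A2 k) (z : k) : (dh φ).eval z = eval ![z, 1] φ := by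
  unfold dh
  induction φ using MvPolynomial.induction_on with
  | C c => simp
  | add p q hp hq => simp only [map_add, Polynomial.eval_add, hp, hq]
  | mul_X p i hp =>
    rw [map_mul, map_mul, Polynomial.eval_mul, hp, aeval_X, eval_X]
    fin_cases i <;> simp

theorem dh_monomial (a : Fin 2 →₀ ℕ) (c : k) :
    dh (monomial a c : A2 k) = Polynomial.monomial (a 0) c := by
  rw [dh, aeval_monomial, Finsupp.prod_fintype _ _ fun _ => pow_zero _, Fin.prod_univ_two]
  simp [Polynomial.C_mul_X_pow_eq_monomial]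

theorem W2_coeff (φ : A2 k) (i : ℕ) :
    (dh φ).coeff i = ∑ a ∈ φ.support, if a 0 = i then coeff a φ else 0 := by
  have e : dh φ = ∑ a ∈ φ.support, dh (monomial a (coeff a φ)) := by
    conv_lhs => rw [φ.as_sum]
    exact map_sum _ _ _
  rw [e, Polynomial.finsetSum_coeff]
  exact Finset.sum_congr rfl fun a _ => by rw [dh_monomial, Polynomial.coeff_monomial]

theorem W2_eq (hb : 0 < w 1) {a b : Fin 2 →₀ ℕ} (h : wdeg w a = wdeg w b) (h0 : a 0 = b 0) :
    a = b := by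
  unfold wdeg at h
  rw [h0, Nat.add_right_inj, Nat.mul_right_inj hb.ne'] at h
  ext i
  fin_cases i
  · exact h0
  · exact h



theorem exists_of_coeff_dh {i : ℕ} (hi : (dh φ).coeff i ≠ 0) : ∃ a ∈ φ.support, a 0 = i := by
  rw [W2_coeff] at hi
  obtain ⟨a, ha, h⟩ := Finset.exists_ne_zero_of_sum_ne_zero hi
  exact ⟨a, ha, by_contra fun e => h (if_neg e)⟩

theorem IsHom.coeff_dh (hφ : IsHom w n φ) (hb : 0 < w 1) {a : Fin 2 →₀ ℕ} (ha : wdeg w a = n) :
    (dh φ).coeff (a 0) = coeff a φ := by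
  rw [W2_coeff, Finset.sum_eq_single a, if_pos rfl]
  · exact fun b hb' hne => if_neg fun e => hne (W2_eq hb ((hφ b hb').trans ha.symm) e)
  · intro h
    rw [if_pos rfl, notMem_support_iff.1 h]

theorem IsHom.dh_ne_zero (hφ : IsHom w n φ) (hb : 0 < w 1) (h0 : φ ≠ 0) : dh φ ≠ 0 := by
  obtain ⟨a, ha⟩ := support_nonempty.2 h0
  intro h
  have := hφ.coeff_dh hb (hφ a ha)
  rw [h, Polynomial.coeff_zero] at this
  exact mem_support_iff.1 ha this.symm

theorem IsHom.eq_monomial [IsAlgClosed k] (hφ : IsHom w n φ) (hb : 0 < w 1) (h0 : φ ≠ 0)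
    (hr : ∀ z : k, eval ![z, 1] φ = 0 → z = 0) : ∃ a c, c ≠ 0 ∧ φ = monomial a c := by
  obtain ⟨q, hq, hq'⟩ := Polynomial.exists_eq_pow_rootMultiplicity_mul_and_not_dvd (dh φ)
    (hφ.dh_ne_zero hb h0) 0
  generalize Polynomial.rootMultiplicity 0 (dh φ) = m at hq
  have hd : q.degree = 0 := by
    by_contra hd
    obtain ⟨z, hz⟩ := IsAlgClosed.exists_root q hd
    obtain rfl : z = 0 := hr z (by rw [← eval_dh, hq, Polynomial.eval_mul, hz.eq_zero, mul_zero])
    exact hq' (Polynomial.dvd_iff_isRoot.2 hz)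
  rw [Polynomial.eq_C_of_degree_eq_zero hd, Polynomial.C_0, sub_zero, mul_comm] at hq
  have k1 : ∀ a ∈ φ.support, a 0 = m := fun a ha => by
    have := hφ.coeff_dh hb (hφ a ha)
    rw [hq, Polynomial.coeff_C_mul_X_pow] at this
    exact by_contra fun e => mem_support_iff.1 ha (this.symm.trans (if_neg e))
  obtain ⟨a, ha⟩ := support_nonempty.2 h0
  refine ⟨a, coeff a φ, mem_support_iff.1 ha, MvPolynomial.ext _ _ fun b => ?_⟩
  rw [coeff_monomial]
  split_ifs with e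
  · rw [e]
  · refine notMem_support_iff.1 fun hb' => e (W2_eq hb ((hφ a ha).trans (hφ b hb').symm) ?_)
    rw [k1 a ha, k1 b hb']

/-- a form of positive weight has a nonzero zero -/
theorem IsHom.exists_zero [IsAlgClosed k] (hφ : IsHom w n φ) (hw : ∀ i, 0 < w i) (hn : 1 ≤ n) :
    ∃ u : Pt k, u ≠ 0 ∧ eval u φ = 0 := by
  by_cases hd : (dh φ).degree = 0
  · refine ⟨![1, 0], fun e => one_ne_zero (congrFun e 0), ?_⟩
    rw [eval_eq']
    refine Finset.sum_eq_zero fun a ha => ?_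
    have k1 := hφ.coeff_dh (hw 1) (hφ a ha)
    rw [Polynomial.eq_C_of_degree_eq_zero hd, Polynomial.coeff_C] at k1
    have k2 : a 0 = 0 := by_contra fun e => mem_support_iff.1 ha (k1.symm.trans (if_neg e))
    have k3 : a 1 ≠ 0 := fun e => by
      have := hφ a ha
      rw [wdeg, k2, e] at this
      omega
    simp [Fin.prod_univ_two, k3]
  · obtain ⟨z, hz⟩ := IsAlgClosed.exists_root _ hd
    exact ⟨![z, 1], fun e => one_ne_zero (congrFun e 1), (eval_dh φ z).symm.trans hz⟩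

end Pool.Agent.Work.MP_0a826e_ag.R
end

-- merged part: Pool.Agent.Work.MP_0a826e_ag.R.Z
section
namespace Pool.Agent.Work.MP_0a826e_ag.R

open MvPolynomial

variable {k : Type} [Field k]

variable {P Q R φ : A2 k}

theorem Z_eval (z : Pt k) (φ : A2 k) :
    eval z φ = ((Polynomial.Bivariate.equivMvPolynomial k).symm φ).evalEval (z 0) (z 1) := by
  have h : (aeval z : A2 k →ₐ[k] k) = (Polynomial.aevalAeval (z 0) (z 1)).comp
      ((Polynomial.Bivariate.equivMvPolynomial k).symm : A2 k →ₐ[k] _) := by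
    ext i
    fin_cases i <;> simp
  have h2 := DFunLike.congr_fun h φ
  rw [← Polynomial.coe_aevalAeval_eq_evalEval]
  simpa using h2

theorem Z_elim {p q : Polynomial (Polynomial k)} (hp : Irreducible p) (hq : ¬ p ∣ q) :
    ∃ r : Polynomial k, r ≠ 0 ∧ ∀ x y : k, p.evalEval x y = 0 → q.evalEval x y = 0 →
      r.eval x = 0 := by
  by_cases hn : p.natDegree = 0
  · refine ⟨p.coeff 0, ?_, fun x y h1 _ => ?_⟩
    · intro h0
      apply hp.ne_zero
      rw [Polynomial.eq_C_of_natDegree_eq_zero hn, h0, map_zero]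
    · rw [Polynomial.eq_C_of_natDegree_eq_zero hn, Polynomial.evalEval_C] at h1
      exact h1
  · have hprim := hp.isPrimitive hn
    have hi := (hprim.irreducible_iff_irreducible_map_fraction_map
      (K := FractionRing (Polynomial k))).1 hp
    have hc : IsCoprime (p.map (algebraMap (Polynomial k) (FractionRing (Polynomial k))))
        (q.map (algebraMap (Polynomial k) (FractionRing (Polynomial k)))) := by
      rw [hi.coprime_iff_not_dvd]
      exact fun h => hq (hprim.dvd_of_fraction_map_dvd_fraction_map h)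
    have hinj := IsFractionRing.injective (Polynomial k) (FractionRing (Polynomial k))
    refine ⟨Polynomial.resultant p q, ?_, fun x y h1 h2 => ?_⟩
    · intro h0
      have := Polynomial.resultant_ne_zero _ _ hc
      rw [Polynomial.natDegree_map_eq_of_injective hinj,
        Polynomial.natDegree_map_eq_of_injective hinj, Polynomial.resultant_map_map,
        h0, map_zero] at this
      exact this rfl
    · obtain ⟨a, b, -, -, hab⟩ := Polynomial.exists_mul_add_mul_eq_C_resultant p q le_rfl le_rfl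
        (Or.inl hn)
      have h3 := congrArg (Polynomial.evalEval x y) hab
      rw [Polynomial.evalEval_add, Polynomial.evalEval_mul, Polynomial.evalEval_mul, h1, h2,
        Polynomial.evalEval_C] at h3
      simpa using h3.symm

theorem isUnit_iff_C : IsUnit φ ↔ ∃ c : k, c ≠ 0 ∧ φ = C c := by
  rw [isUnit_iff_eq_C_of_isReduced]
  simp only [isUnit_iff_ne_zero]

/-- Nullstellensatz for an irreducible curve -/
theorem dvd_of_vanish [IsAlgClosed k] (hP : Irreducible P)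
    (h : ∀ z, eval z P = 0 → eval z Q = 0) : P ∣ Q := by
  have h1 : Q ∈ vanishingIdeal k (zeroLocus k (Ideal.span {P})) := by
    rw [mem_vanishingIdeal_iff]
    intro x hx
    have := (mem_zeroLocus_iff.1 hx) P (Ideal.subset_span rfl)
    simpa using h x (by simpa using this)
  rw [vanishingIdeal_zeroLocus_eq_radical] at h1
  obtain ⟨n, hn⟩ := h1
  rw [Ideal.mem_span_singleton] at hn
  exact hP.prime.dvd_of_dvd_pow hn

/-- View `φ` as a polynomial in one variable of positive degree over `k[other]`; the leading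
coefficient has finitely many zeros. -/
theorem zeros_infinite [IsAlgClosed k] (h : ¬ IsUnit φ) : {z : Pt k | eval z φ = 0}.Infinite := by
  set p := (Polynomial.Bivariate.equivMvPolynomial k).symm φ with hp
  have hu : ¬ IsUnit p := fun hu => h (by
    have := hu.map (Polynomial.Bivariate.equivMvPolynomial k)
    simpa [hp] using this)
  by_cases hn : p.natDegree = 0
  · have hpc := Polynomial.eq_C_of_natDegree_eq_zero hn
    have hx : ∃ x : k, (p.coeff 0).eval x = 0 := by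
      by_cases h0 : p.coeff 0 = 0
      · exact ⟨0, by rw [h0, Polynomial.eval_zero]⟩
      · have hd : (p.coeff 0).degree ≠ 0 := by
          intro hd
          apply hu
          rw [hpc]
          exact (Polynomial.isUnit_iff_degree_eq_zero.2 hd).map Polynomial.C
        exact IsAlgClosed.exists_root _ hd
    obtain ⟨x, hx⟩ := hx
    refine Set.infinite_of_injective_forall_mem (f := fun y : k => (![x, y] : Pt k))
      (fun a b hab => by simpa using congrFun hab 1) fun y => ?_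
    show eval _ φ = 0
    rw [Z_eval, ← hp, hpc, Polynomial.evalEval_C]
    simpa using hx
  · have hl : p.leadingCoeff ≠ 0 := by
      intro h0
      rw [Polynomial.leadingCoeff_eq_zero] at h0
      exact hn (by rw [h0, Polynomial.natDegree_zero])
    have hfin : {x : k | p.leadingCoeff.IsRoot x}.Finite := Polynomial.finite_setOfPred_isRoot hl
    refine Set.Infinite.of_image (fun z : Pt k => z 0) (hfin.infinite_compl.mono fun x hx => ?_)
    have hx' : Polynomial.evalRingHom x p.leadingCoeff ≠ 0 := hx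
    have hd : (p.map (Polynomial.evalRingHom x)).degree ≠ 0 := by
      rw [Polynomial.degree_map_eq_of_leadingCoeff_ne_zero _ hx']
      intro hd
      exact hn (Polynomial.natDegree_eq_zero_iff_degree_le_zero.2 hd.le)
    obtain ⟨y, hy⟩ := IsAlgClosed.exists_root _ hd
    refine ⟨![x, y], ?_, rfl⟩
    show eval _ φ = 0
    rw [Z_eval, ← hp, ← Polynomial.map_evalRingHom_eval]
    simpa using hy

/-- weak Bezout: two coprime plane curves meet in a finite set.  For each variable there is a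
nonzero polynomial in that variable alone in the ideal `(P, Q)` (Gauss lemma over `k(x)`, or
Krull dimension, or resultants). -/
theorem finite_common (hP : Irreducible P) (h : ¬ P ∣ Q) :
    {z : Pt k | eval z P = 0 ∧ eval z Q = 0}.Finite := by
  set e := (Polynomial.Bivariate.equivMvPolynomial k).symm with he
  have hp : Irreducible (e P) := (MulEquiv.irreducible_iff e).2 hP
  have hq : ¬ e P ∣ e Q := fun hd => h ((map_dvd_iff e).1 hd)
  have hp' : Irreducible (Polynomial.Bivariate.swap (e P)) :=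
    (MulEquiv.irreducible_iff Polynomial.Bivariate.swap).2 hp
  have hq' : ¬ Polynomial.Bivariate.swap (e P) ∣ Polynomial.Bivariate.swap (e Q) :=
    fun hd => hq ((map_dvd_iff Polynomial.Bivariate.swap).1 hd)
  obtain ⟨r, hr, h1⟩ := Z_elim hp hq
  obtain ⟨r', hr', h2⟩ := Z_elim hp' hq'
  have hsw : ∀ (x y : k) (p : Polynomial (Polynomial k)),
      (Polynomial.Bivariate.swap p).evalEval y x = p.evalEval x y := fun x y p => by
    rw [← Polynomial.coe_aevalAeval_eq_evalEval, ← Polynomial.coe_aevalAeval_eq_evalEval]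
    exact Polynomial.Bivariate.aevalAeval_swap y x p
  refine (((Polynomial.finite_setOfPred_isRoot hr).prod (Polynomial.finite_setOfPred_isRoot hr')).image
    fun a : k × k => (![a.1, a.2] : Pt k)).subset ?_
  rintro z ⟨hz1, hz2⟩
  rw [Z_eval] at hz1 hz2
  refine ⟨(z 0, z 1), ⟨h1 _ _ hz1 hz2, h2 _ (z 0) ?_ ?_⟩, ?_⟩
  · rw [hsw]; exact hz1
  · rw [hsw]; exact hz2
  · ext i
    fin_cases i <;> rfl

theorem dvd_of_infinite (hP : Irreducible P)
    (h : {z : Pt k | eval z P = 0 ∧ eval z Q = 0}.Infinite) : P ∣ Q := by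
  by_contra hn
  exact h (finite_common hP hn)

theorem eq_C_mul_of_dvd (hP : Irreducible P) (hQ : Irreducible Q) (h : P ∣ Q) :
    ∃ c : k, c ≠ 0 ∧ Q = C c * P := by
  obtain ⟨u, hu⟩ := hP.associated_of_dvd hQ h
  obtain ⟨c, hc, hcu⟩ := isUnit_iff_C.1 u.isUnit
  exact ⟨c, hc, by rw [← hu, hcu, mul_comm]⟩

theorem eq_C_mul_pow [IsAlgClosed k] (hQ : Irreducible Q) (hR : R ≠ 0)
    (h : ∀ z, eval z R = 0 → eval z Q = 0) : ∃ (c : k) (e : ℕ), c ≠ 0 ∧ R = C c * Q ^ e := by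
  induction R using WfDvdMonoid.induction_on_irreducible with
  | zero => exact absurd rfl hR
  | unit u hu =>
    obtain ⟨c, hc, hcu⟩ := isUnit_iff_C.1 hu
    exact ⟨c, 0, hc, by rw [hcu, pow_zero, mul_one]⟩
  | mul a i ha hi ih =>
    obtain ⟨c, e, hc, hce⟩ := ih ha fun z hz => h z (by rw [map_mul, hz, mul_zero])
    have hd : i ∣ Q := dvd_of_vanish hi fun z hz => h z (by rw [map_mul, hz, zero_mul])
    obtain ⟨c', hc', hi'⟩ := eq_C_mul_of_dvd hQ hi ((hi.associated_of_dvd hQ hd).symm.dvd)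
    refine ⟨c' * c, e + 1, mul_ne_zero hc' hc, ?_⟩
    rw [hce, hi', map_mul]
    ring

/-- some irreducible factor contains infinitely many of the given zeros -/
theorem exists_factor_infinite (hR : R ≠ 0) {Z : Set (Pt k)} (hZ : Z.Infinite)
    (h : ∀ z ∈ Z, eval z R = 0) :
    ∃ Q : A2 k, Irreducible Q ∧ Q ∣ R ∧ {z | z ∈ Z ∧ eval z Q = 0}.Infinite := by
  induction R using WfDvdMonoid.induction_on_irreducible generalizing Z with
  | zero => exact absurd rfl hR
  | unit u hu =>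
    obtain ⟨c, hc, hcu⟩ := isUnit_iff_C.1 hu
    obtain ⟨z, hz⟩ := hZ.nonempty
    have := h z hz
    rw [hcu, eval_C] at this
    exact absurd this hc
  | mul a i ha hi ih =>
    by_cases hf : {z | z ∈ Z ∧ eval z i = 0}.Infinite
    · exact ⟨i, hi, dvd_mul_right _ _, hf⟩
    · rw [Set.not_infinite] at hf
      obtain ⟨Q, hQ, hd, hinf⟩ := ih ha (hZ.sdiff hf) fun z hz => by
        have h1 := h z hz.1
        rw [map_mul] at h1
        exact (mul_eq_zero.1 h1).resolve_left fun h2 => hz.2 ⟨hz.1, h2⟩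
      exact ⟨Q, hQ, hd.mul_left _, hinf.mono fun z hz => ⟨hz.1.1, hz.2⟩⟩

/-- only finitely many zero sets of irreducible divisors: pigeonhole -/
theorem exists_assoc_of_dvd (hR : R ≠ 0) (Q : ℕ → A2 k) (hQ : ∀ n, Irreducible (Q n))
    (h : ∀ K : ℕ, ∃ n, K ≤ n ∧ Q n ∣ R) :
    ∃ m n, m < n ∧ ∃ c : k, c ≠ 0 ∧ Q n = C c * Q m := by
  classical
  have hS : {n : ℕ | Q n ∣ R}.Infinite := by
    refine Set.infinite_of_forall_exists_gt fun a => ?_
    obtain ⟨n, hn, hd⟩ := h (a + 1)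
    exact ⟨n, hd, hn⟩
  have hf : ∀ n, ∃ q : A2 k, Q n ∣ R →
      q ∈ UniqueFactorizationMonoid.factors R ∧ Associated (Q n) q := by
    intro n
    by_cases hd : Q n ∣ R
    · obtain ⟨q, hq, ha⟩ := UniqueFactorizationMonoid.exists_mem_factors_of_dvd hR (hQ n) hd
      exact ⟨q, fun _ => ⟨hq, ha⟩⟩
    · exact ⟨0, fun h' => absurd h' hd⟩
  choose f hf using hf
  obtain ⟨m, hm, n, hn, hmn, he⟩ := hS.exists_lt_map_eq_of_mapsTo (f := f)
    (t := ↑(UniqueFactorizationMonoid.factors R).toFinset)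
    (fun n hn => by simpa using (hf n hn).1) (Finset.finite_toSet _)
  refine ⟨m, n, hmn, eq_C_mul_of_dvd (hQ m) (hQ n) ?_⟩
  exact ((hf m hm).2.trans (he ▸ (hf n hn).2.symm)).dvd

theorem isRelPrime_of_zero [IsAlgClosed k]
    (h : ∀ z : Pt k, eval z P = 0 → eval z Q = 0 → z = 0) : IsRelPrime P Q := by
  intro d hP hQ
  by_contra hu
  refine zeros_infinite hu ((Set.finite_singleton (0 : Pt k)).subset fun z hz => ?_)
  obtain ⟨a, rfl⟩ := hP
  obtain ⟨b, hb⟩ := hQ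
  have hz' : eval z d = 0 := hz
  exact h z (by rw [map_mul, hz', zero_mul]) (by rw [hb, map_mul, hz', zero_mul])

end Pool.Agent.Work.MP_0a826e_ag.R
end

-- merged part: Pool.Agent.Work.MP_0a826e_ag.R.S1
section
namespace Pool.Agent.Work.MP_0a826e_ag.R

open MvPolynomial

variable {k : Type} [Field k]

variable {w : Fin 2 → ℕ} {D : ℕ} {G : Fin 2 → A2 k}

/-- Nullstellensatz: a power of each variable lies in the ideal of `G`. -/
theorem exists_pow_mem [IsAlgClosed k] (hG : ∀ u, ev G u = 0 → u = 0) :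
    ∃ e : ℕ, 1 ≤ e ∧ ∀ i : Fin 2, ∃ C0 C1 : A2 k, (X i : A2 k) ^ e = C0 * G 0 + C1 * G 1 := by
  have h1 : ∀ i : Fin 2, ∃ n : ℕ, ∃ C0 C1 : A2 k, (X i : A2 k) ^ n = C0 * G 0 + C1 * G 1 := by
    intro i
    have h2 : (X i : A2 k) ∈ vanishingIdeal k (zeroLocus k (Ideal.span {G 0, G 1})) := by
      rw [mem_vanishingIdeal_iff]
      intro x hx
      have h0 := (mem_zeroLocus_iff.1 hx) (G 0) (Ideal.subset_span (by simp))
      have h1 := (mem_zeroLocus_iff.1 hx) (G 1) (Ideal.subset_span (by simp))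
      have : x = 0 := hG x (by
        ext j
        fin_cases j
        · simpa [ev] using h0
        · simpa [ev] using h1)
      simp [this]
    rw [vanishingIdeal_zeroLocus_eq_radical] at h2
    obtain ⟨n, hn⟩ := h2
    obtain ⟨a, b, hab⟩ := Ideal.mem_span_pair.1 hn
    exact ⟨n, a, b, hab.symm⟩
  choose n C0 C1 hn using h1
  refine ⟨n 0 + n 1 + 1, by omega, fun i => ?_⟩
  obtain ⟨m, hm⟩ : ∃ m, n 0 + n 1 + 1 = m + n i := by
    refine ⟨n 0 + n 1 + 1 - n i, ?_⟩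
    fin_cases i <;> simp <;> omega
  refine ⟨X i ^ m * C0 i, X i ^ m * C1 i, ?_⟩
  rw [hm, pow_add, hn i]
  ring

/-- homogeneous certificate: multiply up to the common weight `W = w 0 * w 1 * B` and take the
component of weight `W` (`cmp_mul_hom`). -/
theorem exists_cert [IsAlgClosed k] {g : Fin 2 → A2 k} (hw : ∀ i, 0 < w i) (hg : Reg w D g G) :
    ∃ (W : ℕ) (e : Fin 2 → ℕ) (Cf : Fin 2 → Fin 2 → A2 k), 1 ≤ W ∧ (∀ i, e i * w i = W) ∧
      (∀ i, (X i : A2 k) ^ e i = Cf i 0 * G 0 + Cf i 1 * G 1) ∧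
      ∀ i j, Cf i j = 0 ∨ wt w (Cf i j) + D * w j ≤ W := by
  obtain ⟨e, he, hX⟩ := exists_pow_mem hg.nz
  have hw0 := hw 0
  have hw1 := hw 1
  let E : Fin 2 → ℕ := ![w 1 * e, w 0 * e]
  have hE : ∀ i, E i * w i = w 0 * w 1 * e := by
    intro i
    fin_cases i
    · show w 1 * e * w 0 = _
      ring
    · show w 0 * e * w 1 = _
      ring
  have hE' : ∀ i, ∃ m, E i = m + e := by
    intro i
    refine ⟨E i - e, ?_⟩
    have : e ≤ E i := by
      fin_cases i
      · exact Nat.le_mul_of_pos_left e hw1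
      · exact Nat.le_mul_of_pos_left e hw0
    omega
  have hX' : ∀ i : Fin 2, ∃ C0 C1 : A2 k, (X i : A2 k) ^ E i = C0 * G 0 + C1 * G 1 := by
    intro i
    obtain ⟨m, hm⟩ := hE' i
    obtain ⟨a, b, hab⟩ := hX i
    refine ⟨X i ^ m * a, X i ^ m * b, ?_⟩
    rw [hm, pow_add, hab]
    ring
  choose C0 C1 hC using hX'
  set W := w 0 * w 1 * e with hW
  let Cf : Fin 2 → Fin 2 → A2 k := fun i j =>
    if D * w j ≤ W then cmp w (W - D * w j) (![C0 i, C1 i] j) else 0
  refine ⟨W, E, Cf, Nat.mul_pos (Nat.mul_pos hw0 hw1) he, hE, fun i => ?_, fun i j => ?_⟩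
  · have h1 : IsHom w W ((X i : A2 k) ^ E i) := by
      rw [← hE i]
      exact (isHom_X w i).pow _
    rw [← h1.cmp_self, hC i, cmp_add, cmp_mul_hom (hg.bnd.isHom 0), cmp_mul_hom (hg.bnd.isHom 1)]
    simp only [Cf]
    congr 1
    · split_ifs <;> simp
    · split_ifs <;> simp
  · by_cases h : D * w j ≤ W
    · right
      have : wt w (Cf i j) ≤ W - D * w j := by
        simp only [Cf, if_pos h]
        exact (isHom_cmp _ _ _).wt_le
      omega
    · left
      simp only [Cf, if_neg h]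

/-- Descent, step 1: if the classes of the monomials are independent modulo `(G 0, G 1)` and
`G 0`, `G 1` are coprime, a relation with coefficients in `k[G 1]` modulo `G 0` is trivial
(induct on the degree with `Polynomial.divX`). -/
theorem free_mod {q : ℕ} (b : Fin q → Fin 2 →₀ ℕ) (hc : IsRelPrime (G 0) (G 1))
    (hi : ∀ (c : Fin q → k) (C0 C1 : A2 k),
      ∑ i, monomial (b i) (c i) = C0 * G 0 + C1 * G 1 → c = 0)
    (h : Fin q → Polynomial k)
    (hd : G 0 ∣ ∑ i, Polynomial.aeval (G 1) (h i) * monomial (b i) (1 : k)) : h = 0 := by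
  classical
  obtain ⟨n, hn⟩ : ∃ n, ∀ i, (h i).natDegree ≤ n :=
    ⟨Finset.univ.sup fun i => (h i).natDegree,
      fun i => Finset.le_sup (f := fun i => (h i).natDegree) (Finset.mem_univ i)⟩
  induction n using Nat.strong_induction_on generalizing h with
  | _ n ih =>
    have hs : ∑ i, Polynomial.aeval (G 1) (h i) * monomial (b i) (1 : k) =
        (∑ i, Polynomial.aeval (G 1) (h i).divX * monomial (b i) (1 : k)) * G 1 +
          ∑ i, monomial (b i) ((h i).coeff 0) := by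
      rw [Finset.sum_mul, ← Finset.sum_add_distrib]
      refine Finset.sum_congr rfl fun i _ => ?_
      conv_lhs => rw [← Polynomial.divX_mul_X_add (h i)]
      rw [map_add, map_mul, Polynomial.aeval_X, Polynomial.aeval_C, algebraMap_eq, add_mul,
        C_mul_monomial, mul_one]
      ring
    obtain ⟨a, ha⟩ := hd
    have hc0 : (fun i => (h i).coeff 0) = 0 := by
      refine hi _ a (-∑ i, Polynomial.aeval (G 1) (h i).divX * monomial (b i) (1 : k)) ?_
      rw [hs] at ha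
      linear_combination ha
    have hc0' : ∀ i, (h i).coeff 0 = 0 := fun i => congrFun hc0 i
    have hd' : G 0 ∣ ∑ i, Polynomial.aeval (G 1) (h i).divX * monomial (b i) (1 : k) := by
      refine hc.dvd_of_dvd_mul_right ⟨a, ?_⟩
      rw [← ha, hs]
      simp [hc0']
    rcases Nat.eq_zero_or_pos n with h0 | hpos
    · ext1 i
      rw [Polynomial.eq_C_of_natDegree_le_zero (show (h i).natDegree ≤ 0 from h0 ▸ hn i), hc0' i]
      simp
    · have := ih (n - 1) (by omega) (fun i => (h i).divX) hd' fun i => by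
        rw [Polynomial.natDegree_divX_eq_natDegree_tsub_one]
        exact Nat.sub_le_sub_right (hn i) 1
      ext1 i
      rw [← Polynomial.divX_mul_X_add (h i), hc0' i]
      simp [show (h i).divX = 0 from congrFun this i]

theorem S1_split (φ : A2 k) :
    φ = X 0 * φ.divMonomial (Finsupp.single 0 1) +
      Polynomial.aeval (X 1 : A2 k) (aeval ![(0 : Polynomial k), Polynomial.X] φ) := by
  have h1 : ∀ ψ : A2 k, (X 0 : A2 k) ∣
      ψ - Polynomial.aeval (X 1 : A2 k) (aeval ![(0 : Polynomial k), Polynomial.X] ψ) := by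
    intro ψ
    induction ψ using MvPolynomial.induction_on with
    | C a => simp
    | add p q hp hq =>
      have := dvd_add hp hq
      rw [map_add, map_add]
      convert this using 1
      ring
    | mul_X p i hp =>
      fin_cases i
      · simp
      · have := hp.mul_right (X 1)
        simp only [Fin.mk_one, map_mul, aeval_X, Matrix.cons_val_one, Matrix.cons_val_fin_one,
          Polynomial.aeval_X]
        convert this using 1
        ring
  obtain ⟨a, ha⟩ := h1 φ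
  have h2 : ∀ p : Polynomial k,
      (Polynomial.aeval (X 1 : A2 k) p).divMonomial (Finsupp.single 0 1) = 0 := by
    intro p
    induction p using Polynomial.induction_on' with
    | add p q hp hq => rw [map_add, add_divMonomial, hp, hq, add_zero]
    | monomial n c =>
      ext m
      rw [Polynomial.aeval_monomial, algebraMap_eq, X_pow_eq_monomial, C_mul_monomial,
        coeff_divMonomial, coeff_monomial, coeff_zero, if_neg]
      intro hm
      have := DFunLike.congr_fun hm 0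
      simp at this
      omega
  have h3 : φ = X 0 * a +
      Polynomial.aeval (X 1 : A2 k) (aeval ![(0 : Polynomial k), Polynomial.X] φ) := by
    linear_combination ha
  have h4 : φ.divMonomial (Finsupp.single 0 1) = a := by
    conv_lhs => rw [h3]
    rw [add_divMonomial, h2, add_zero, X_mul_divMonomial]
  rw [h4]
  exact h3

theorem S1_deg {φ : A2 k} {n : ℕ} (h : ∀ m ∈ φ.support, m 0 < n + 1) :
    ∀ m ∈ (φ.divMonomial (Finsupp.single 0 1)).support, m 0 < n := by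
  intro m hm
  rw [mem_support_iff, coeff_divMonomial] at hm
  have := h _ (mem_support_iff.2 hm)
  simp at this
  omega

/-- Descent, step 2: write `h i = h i (0, Y) + X 0 * h' i` and induct on the degree in `X 0`. -/
theorem fr_of_indep {q : ℕ} (b : Fin q → Fin 2 →₀ ℕ) (hc : IsRelPrime (G 0) (G 1))
    (h0 : G 0 ≠ 0)
    (hi : ∀ (c : Fin q → k) (C0 C1 : A2 k),
      ∑ i, monomial (b i) (c i) = C0 * G 0 + C1 * G 1 → c = 0) : Fr G b := by
  classical
  intro h hh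
  obtain ⟨n, hn⟩ : ∃ n, ∀ i, ∀ m ∈ (h i).support, m 0 < n := by
    refine ⟨(Finset.univ.sup fun i => (h i).totalDegree) + 1, fun i m hm => ?_⟩
    have h1 : m 0 ≤ (h i).totalDegree :=
      (monomial_le_degreeOf 0 hm).trans (degreeOf_le_totalDegree _ _)
    have h2 := Finset.le_sup (f := fun i => (h i).totalDegree) (Finset.mem_univ i)
    omega
  induction n generalizing h with
  | zero =>
    ext1 i
    by_contra hne
    obtain ⟨m, hm⟩ := support_nonempty.2 hne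
    exact absurd (hn i m hm) (Nat.not_lt_zero _)
  | succ n ih =>
    let r : Fin q → Polynomial k := fun i => aeval ![(0 : Polynomial k), Polynomial.X] (h i)
    let h' : Fin q → A2 k := fun i => (h i).divMonomial (Finsupp.single 0 1)
    have hs : ∑ i, aeval G (h i) * monomial (b i) (1 : k) =
        G 0 * (∑ i, aeval G (h' i) * monomial (b i) (1 : k)) +
          ∑ i, Polynomial.aeval (G 1) (r i) * monomial (b i) (1 : k) := by
      rw [Finset.mul_sum, ← Finset.sum_add_distrib]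
      refine Finset.sum_congr rfl fun i _ => ?_
      conv_lhs => rw [S1_split (h i)]
      rw [map_add, map_mul, aeval_X, ← Polynomial.aeval_algHom_apply, aeval_X]
      ring
    have hr : r = 0 := by
      refine free_mod b hc hi r ⟨-∑ i, aeval G (h' i) * monomial (b i) (1 : k), ?_⟩
      rw [hs] at hh
      linear_combination hh
    have hh' : ∑ i, aeval G (h' i) * monomial (b i) (1 : k) = 0 := by
      rw [hs, hr] at hh
      simpa [h0] using hh
    have h2 := ih h' hh' fun i => S1_deg (hn i)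
    ext1 i
    rw [S1_split (h i)]
    have e1 : (h i).divMonomial (Finsupp.single 0 1) = 0 := congrFun h2 i
    have e2 : aeval ![(0 : Polynomial k), Polynomial.X] (h i) = 0 := congrFun hr i
    rw [e1, e2]
    simp

/-- Choose among the monomials `x^i y^j`, `i, j < e`, a basis of the quotient by `(G 0, G 1)`.
`q > 0` because `G 0`, `G 1` vanish at the origin (they are forms of positive weight). -/
theorem exists_basis [IsAlgClosed k] {g : Fin 2 → A2 k} (hw : ∀ i, 0 < w i) (hD : 1 ≤ D)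
    (hg : Reg w D g G) :
    ∃ (q : ℕ) (b : Fin q → Fin 2 →₀ ℕ), 0 < q ∧ Fr G b ∧ SpMod G b := by
  classical
  obtain ⟨e, he, hX⟩ := exists_pow_mem hg.nz
  let I : Ideal (A2 k) := Ideal.span {G 0, G 1}
  let π : A2 k →ₐ[k] A2 k ⧸ I := Ideal.Quotient.mkₐ k I
  let v : (Fin 2 →₀ ℕ) → A2 k ⧸ I := fun m => π (monomial m 1)
  have hker : ∀ φ : A2 k, π φ = 0 ↔ ∃ C0 C1 : A2 k, φ = C0 * G 0 + C1 * G 1 := by
    intro φ
    rw [Ideal.Quotient.mkₐ_eq_mk, Ideal.Quotient.eq_zero_iff_mem, Ideal.mem_span_pair]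
    exact ⟨fun ⟨a, c, h⟩ => ⟨a, c, h.symm⟩, fun ⟨a, c, h⟩ => ⟨a, c, h.symm⟩⟩
  have hv : ∀ m, v m ≠ 0 → ∀ i, m i < e := by
    intro m hm i
    by_contra hlt
    apply hm
    obtain ⟨a, c, hac⟩ := hX i
    have h1 : (monomial m 1 : A2 k) = monomial (m - Finsupp.single i e) 1 * X i ^ e := by
      rw [X_pow_eq_monomial, monomial_mul, one_mul, tsub_add_cancel_of_le]
      rw [Finsupp.single_le_iff]
      omega
    refine (hker _).2 ⟨monomial (m - Finsupp.single i e) 1 * a,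
      monomial (m - Finsupp.single i e) 1 * c, ?_⟩
    rw [h1, hac]
    ring
  obtain ⟨κ, a, ha, hsp, hli⟩ := exists_linearIndependent' k v
  have hfin : Finite κ := by
    refine Finite.of_injective (fun x : κ => fun i : Fin 2 => (⟨a x i, hv _ (hli.ne_zero x) i⟩ :
      Fin e)) fun x y hxy => ha ?_
    ext i
    exact congrArg Fin.val (congrFun hxy i)
  have hF : Fintype κ := Fintype.ofFinite κ
  let σ := (Fintype.equivFin κ).symm
  let b : Fin (Fintype.card κ) → Fin 2 →₀ ℕ := fun i => a (σ i)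
  have hπ : ∀ c : Fin (Fintype.card κ) → k,
      π (∑ i, monomial (b i) (c i)) = ∑ i, c i • v (b i) := by
    intro c
    rw [map_sum]
    refine Finset.sum_congr rfl fun i _ => ?_
    rw [← map_smul, smul_monomial, smul_eq_mul, mul_one]
  have hli' : LinearIndependent k fun i => v (b i) := hli.comp σ σ.injective
  have hsm : SpMod G b := by
    intro φ
    have h1 : π φ ∈ Submodule.span k (Set.range v) := by
      rw [φ.as_sum, map_sum]
      refine Submodule.sum_mem _ fun m _ => ?_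
      have : (monomial m (coeff m φ) : A2 k) = coeff m φ • monomial m 1 := by
        rw [smul_monomial, smul_eq_mul, mul_one]
      rw [this, map_smul]
      exact Submodule.smul_mem _ _ (Submodule.subset_span ⟨m, rfl⟩)
    have h2 : Set.range (v ∘ a) = Set.range fun i => v (b i) :=
      (σ.surjective.range_comp (v ∘ a)).symm
    rw [← hsp, h2, Submodule.mem_span_range_iff_exists_fun] at h1
    obtain ⟨c, hc⟩ := h1
    obtain ⟨C0, C1, h3⟩ := (hker (φ - ∑ i, monomial (b i) (c i))).1 (by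
      rw [map_sub, hπ, hc, sub_self])
    exact ⟨c, C0, C1, by linear_combination h3⟩
  have hz : ∀ i, eval (0 : Pt k) (G i) = 0 := by
    intro i
    have h1 := (hg.bnd.isHom i).eval_act_eq 0 (0 : Pt k)
    have h2 : act w (0 : k) (0 : Pt k) = 0 := by
      ext j
      simp [act]
    rw [h2, zero_pow (Nat.mul_pos hD (hw i)).ne', zero_mul] at h1
    exact h1
  have hc : IsRelPrime (G 0) (G 1) := isRelPrime_of_zero fun z h0 h1 => hg.nz z (by
    ext j
    fin_cases j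
    · exact h0
    · exact h1)
  have hG0 : G 0 ≠ 0 := by
    intro h0
    rw [h0, isRelPrime_zero_left, isUnit_iff_C] at hc
    obtain ⟨c, hc, h1⟩ := hc
    have := hz 1
    rw [h1, eval_C] at this
    exact hc this
  refine ⟨Fintype.card κ, b, ?_, fr_of_indep b hc hG0 fun c C0 C1 h => ?_, hsm⟩
  · by_contra hq
    have hq0 : IsEmpty (Fin (Fintype.card κ)) := ⟨fun i => by have := i.2; omega⟩
    obtain ⟨c, C0, C1, h⟩ := hsm 1
    have h2 := congrArg (eval (0 : Pt k)) h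
    rw [Finset.sum_of_isEmpty, zero_add, map_add, map_mul, map_mul, hz, hz, map_one] at h2
    simp at h2
  · have h1 := (hker _).2 ⟨C0, C1, h⟩
    rw [hπ] at h1
    ext i
    exact Fintype.linearIndependent_iff.1 hli' c h1 i

end Pool.Agent.Work.MP_0a826e_ag.R
end

-- merged part: Pool.Agent.Work.MP_0a826e_ag.R.S2
section
namespace Pool.Agent.Work.MP_0a826e_ag.R

open MvPolynomial

variable {k : Type} [Field k]

variable {w : Fin 2 → ℕ} {D q : ℕ} {g G : Fin 2 → A2 k} {b : Fin q → Fin 2 →₀ ℕ}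

/-- Let `n` be the maximum of `wt (sw D w) (h i) + wdeg w (b i)` over `h i ≠ 0`.  The component
of weight `n` of the sum is `∑ aeval G (cmp .. (h i)) * monomial`, nonzero by freeness.
The weights may be zero. -/
theorem wb_aux (hb : Bnd w D g G) (hfr : Fr G b) (h : Fin q → A2 k) (hne : h ≠ 0) :
    ∃ n, (∀ i, h i ≠ 0 → wt (sw D w) (h i) + wdeg w (b i) ≤ n) ∧
      cmp w n (∑ i, aeval g (h i) * monomial (b i) (1 : k)) ≠ 0 := by
  classical
  have hs : (Finset.univ.filter fun i => h i ≠ 0).Nonempty := by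
    obtain ⟨i, hi⟩ := Function.ne_iff.1 hne
    exact ⟨i, Finset.mem_filter.2 ⟨Finset.mem_univ _, hi⟩⟩
  obtain ⟨i0, hi0, hmax⟩ := Finset.exists_max_image _
    (fun i => wt (sw D w) (h i) + wdeg w (b i)) hs
  have hle : ∀ i, h i ≠ 0 →
      wt (sw D w) (h i) + wdeg w (b i) ≤ wt (sw D w) (h i0) + wdeg w (b i0) := fun i hi =>
    hmax i (Finset.mem_filter.2 ⟨Finset.mem_univ _, hi⟩)
  refine ⟨_, hle, fun e => ?_⟩
  generalize hn : wt (sw D w) (h i0) + wdeg w (b i0) = n at hle e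
  have key : ∀ i, cmp w n (aeval g (h i) * monomial (b i) (1 : k)) =
      aeval G (cmp (sw D w) (n - wdeg w (b i)) (h i)) * monomial (b i) (1 : k) := fun i => by
    by_cases hi : h i = 0
    · simp [hi, cmp_zero]
    · have := hle i hi
      rw [cmp_mul_hom (isHom_monomial w (b i) (1 : k)), if_pos (by omega),
        (hb.aeval_le (by omega)).2]
  rw [cmp_sum, Finset.sum_congr rfl fun i _ => key i] at e
  have h0 := congrFun (hfr _ e) i0
  have h1 : n - wdeg w (b i0) = wt (sw D w) (h i0) := by omega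
  simp only [h1, Pi.zero_apply] at h0
  exact top_ne_zero (Finset.mem_filter.1 hi0).2 h0

theorem wb (hb : Bnd w D g G) (hfr : Fr G b) (h : Fin q → A2 k) (i : Fin q) (hi : h i ≠ 0) :
    wt (sw D w) (h i) + wdeg w (b i) ≤ wt w (∑ i, aeval g (h i) * monomial (b i) (1 : k)) := by
  obtain ⟨n, h1, h2⟩ := wb_aux hb hfr h (Function.ne_iff.2 ⟨i, hi⟩)
  exact (h1 i hi).trans (le_wt_of_cmp_ne h2)

theorem fr_of_top (hb : Bnd w D g G) (hfr : Fr G b) : Fr g b := by
  intro h e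
  by_contra hne
  obtain ⟨n, -, h2⟩ := wb_aux hb hfr h hne
  rw [e, cmp_zero] at h2
  exact h2 rfl

/-- combinations of the monomials `b i` over the polynomials in `g` -/
def S2_In (g : Fin 2 → A2 k) (b : Fin q → Fin 2 →₀ ℕ) (φ : A2 k) : Prop :=
  ∃ h : Fin q → A2 k, φ = ∑ i, aeval g (h i) * monomial (b i) (1 : k)

theorem S2_In.zero : S2_In g b 0 := ⟨0, by simp⟩

theorem S2_In.add {φ ψ : A2 k} (h : S2_In g b φ) (h' : S2_In g b ψ) : S2_In g b (φ + ψ) := by
  obtain ⟨x, rfl⟩ := h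
  obtain ⟨y, rfl⟩ := h'
  exact ⟨x + y, by simp [add_mul, Finset.sum_add_distrib]⟩

theorem S2_In.mul {φ : A2 k} (h : S2_In g b φ) (j : Fin 2) : S2_In g b (φ * g j) := by
  obtain ⟨x, rfl⟩ := h
  refine ⟨fun i => x i * X j, ?_⟩
  rw [Finset.sum_mul]
  exact Finset.sum_congr rfl fun i _ => by rw [map_mul, aeval_X]; ring

theorem S2_In.mono (i : Fin q) (c : k) : S2_In g b (monomial (b i) c) := by
  classical
  refine ⟨Pi.single i (C c), ?_⟩
  rw [Finset.sum_eq_single i]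
  · simp [C_mul_monomial]
  · intro j _ hj; simp [Pi.single_eq_of_ne hj]
  · simp

theorem S2_In.sum {ι : Type} (s : Finset ι) (x : ι → A2 k) (h : ∀ i ∈ s, S2_In g b (x i)) :
    S2_In g b (∑ i ∈ s, x i) :=
  Finset.sum_induction x _ (fun _ _ => S2_In.add) S2_In.zero h

/-- strong induction on the weight: take the top component of the relation given by `SpMod`. -/
theorem sp_of_spMod (hw : ∀ i, 0 < w i) (hD : 1 ≤ D) (hb : Bnd w D g G) (hs : SpMod G b) :
    Sp g b := by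
  have main : ∀ n, ∀ φ : A2 k, wt w φ < n → S2_In g b φ := by
    intro n
    induction n with
    | zero => intro φ h; omega
    | succ n ih =>
      intro φ hφ
      obtain ⟨c, C0, C1, e⟩ := hs φ
      have hC : ∀ (j : Fin 2) (C : A2 k), ∃ C' : A2 k, S2_In g b (C' * g j) ∧
          wt w (C' * g j) ≤ n ∧ cmp w n (C' * g j) = cmp w n (C * G j) := fun j C => by
        have hp : 0 < D * w j := Nat.mul_pos hD (hw j)
        rw [cmp_mul_hom (hb.isHom j)]
        split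
        · rename_i hj
          have h1 := isHom_cmp w (n - D * w j) C
          have h2 := h1.wt_le
          have h3 := hb.le j
          refine ⟨_, (ih _ (lt_of_le_of_lt h2 (by omega))).mul j,
            (wt_mul_le _ _ _).trans (by omega), ?_⟩
          have h4 := cmp_mul_of_le h2 h3
          rw [Nat.sub_add_cancel hj] at h4
          rw [h4, h1.cmp_self, ← hb.eq]
        · exact ⟨0, by simpa using S2_In.zero, by simp [wt_zero], by simp [cmp_zero]⟩
      obtain ⟨A0, a1, a2, a3⟩ := hC 0 C0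
      obtain ⟨A1, b1, b2, b3⟩ := hC 1 C1
      have hm : ∀ i, ∃ μ : A2 k, S2_In g b μ ∧ wt w μ ≤ n ∧
          cmp w n μ = cmp w n (monomial (b i) (c i)) := fun i => by
        by_cases hi : wdeg w (b i) = n
        · exact ⟨_, S2_In.mono i (c i), (wt_monomial_le _ _ _).trans hi.le, rfl⟩
        · exact ⟨0, S2_In.zero, by simp [wt_zero],
            by rw [cmp_zero, (isHom_monomial w (b i) (c i)).cmp_ne (Ne.symm hi)]⟩
      choose μ m1 m2 m3 using hm
      have hin : S2_In g b (∑ i, μ i + A0 * g 0 + A1 * g 1) :=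
        ((S2_In.sum _ μ fun i _ => m1 i).add a1).add b1
      have hwt : wt w (φ - (∑ i, μ i + A0 * g 0 + A1 * g 1)) ≤ n :=
        wt_sub_le (by omega) (wt_add_le (wt_add_le (wt_sum_le _ _ fun i _ => m2 i) a2) b2)
      have hc : cmp w n (φ - (∑ i, μ i + A0 * g 0 + A1 * g 1)) = 0 := by
        rw [cmp_sub, sub_eq_zero]
        conv_lhs => rw [e]
        simp only [cmp_add, cmp_sum, a3, b3, m3]
      have hr : S2_In g b (φ - (∑ i, μ i + A0 * g 0 + A1 * g 1)) := by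
        by_cases h0 : φ - (∑ i, μ i + A0 * g 0 + A1 * g 1) = 0
        · rw [h0]; exact S2_In.zero
        · refine ih _ (lt_of_le_of_ne hwt fun h1 => top_ne_zero (w := w) h0 ?_)
          rw [top_eq_cmp, h1, hc]
      simpa using hr.add hin
  exact fun φ => main _ φ (Nat.lt_succ_self _)

theorem Fr.aeval_ne_zero (hfr : Fr g b) (hq : 0 < q) {φ : A2 k} (h : φ ≠ 0) : aeval g φ ≠ 0 := by
  classical
  intro e
  have h1 := hfr (Pi.single ⟨0, hq⟩ φ) (by
    refine Finset.sum_eq_zero fun i _ => ?_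
    by_cases hi : i = ⟨0, hq⟩
    · subst hi; rw [Pi.single_eq_same, e, zero_mul]
    · simp [Pi.single_eq_of_ne hi])
  exact h (by simpa using congrFun h1 ⟨0, hq⟩)

theorem Reg.exists_fr_sp [IsAlgClosed k] (hw : ∀ i, 0 < w i) (hD : 1 ≤ D) (hg : Reg w D g G) :
    ∃ (q : ℕ) (b : Fin q → Fin 2 →₀ ℕ), 0 < q ∧ Fr G b ∧ Sp G b ∧ Fr g b ∧ Sp g b := by
  obtain ⟨q, b, hq, h1, h2⟩ := exists_basis hw hD hg
  exact ⟨q, b, hq, h1, sp_of_spMod hw hD hg.bnd.toTop h2, fr_of_top hg.bnd h1,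
    sp_of_spMod hw hD hg.bnd h2⟩

theorem Reg.aeval_ne_zero [IsAlgClosed k] (hw : ∀ i, 0 < w i) (hD : 1 ≤ D) (hg : Reg w D g G)
    {φ : A2 k} (h : φ ≠ 0) : aeval g φ ≠ 0 := by
  obtain ⟨q, b, hq, -, -, h1, -⟩ := hg.exists_fr_sp hw hD
  exact h1.aeval_ne_zero hq h

theorem Reg.top_aeval [IsAlgClosed k] (hw : ∀ i, 0 < w i) (hD : 1 ≤ D) (hg : Reg w D g G)
    (φ : A2 k) : wt w (aeval g φ) = D * wt w φ ∧ top w (aeval g φ) = aeval G (top w φ) := by
  by_cases h : φ = 0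
  · subst h
    simp [wt_zero, top_eq_cmp, cmp_zero]
  obtain ⟨h1, h2⟩ := hg.bnd.aeval_le (wt_sw D w φ).le
  rw [cmp_sw hD, ← top_eq_cmp] at h2
  have h3 : aeval G (top w φ) ≠ 0 := hg.toTop.aeval_ne_zero hw hD (top_ne_zero h)
  have h4 : wt w (aeval g φ) = D * wt w φ := le_antisymm h1 (le_wt_of_cmp_ne (h2 ▸ h3))
  exact ⟨h4, by rw [top_eq_cmp, h4, h2]⟩

/-- every polynomial of weight at most `n` for all weights in a family is a combination of
products `monomial (b i) * g0 ^ α * g1 ^ β` obeying the same bounds -/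
theorem mem_span_of_wt (hs : Sp g b) {ι : Type} (ws : ι → Fin 2 → ℕ) (Gs : ι → Fin 2 → A2 k)
    (hb : ∀ j, Bnd (ws j) D g (Gs j)) (hfr : ∀ j, Fr (Gs j) b) (n : ι → ℕ) (φ : A2 k)
    (hφ : ∀ j, wt (ws j) φ ≤ n j) :
    φ ∈ Submodule.span k {ψ : A2 k | ∃ (i : Fin q) (a : Fin 2 →₀ ℕ),
      (∀ j, wdeg (ws j) (b i) + D * wdeg (ws j) a ≤ n j) ∧
        ψ = monomial (b i) 1 * g 0 ^ a 0 * g 1 ^ a 1} := by
  obtain ⟨h, e⟩ := hs φ
  rw [e]
  refine Submodule.sum_mem _ fun i _ => ?_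
  rw [(h i).as_sum, map_sum, Finset.sum_mul]
  refine Submodule.sum_mem _ fun a ha => ?_
  have e1 : aeval g (monomial a (coeff a (h i))) * monomial (b i) (1 : k) =
      coeff a (h i) • (monomial (b i) (1 : k) * g 0 ^ a 0 * g 1 ^ a 1) := by
    rw [aeval_monomial, Finsupp.prod_fintype _ _ (by simp), Fin.prod_univ_two, Algebra.smul_def]
    ring
  rw [e1]
  refine Submodule.smul_mem _ _ (Submodule.subset_span ⟨i, a, fun j => ?_, rfl⟩)
  have hi : h i ≠ 0 := fun e0 => by simp [e0] at ha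
  have h1 := wb (hb j) (hfr j) h i hi
  have h2 := wdeg_le_wt (w := sw D (ws j)) ha
  have h3 := hφ j
  rw [wdeg_sw] at h2
  rw [← e] at h1
  omega

/-- a common zero of `g` in a field extension is algebraic -/
theorem Sp.isAlgebraic (hs : Sp g b) {E : Type} [Field E] [Algebra k E] (z : Fin 2 → E)
    (hz : ∀ i, aeval z (g i) = 0) (i : Fin 2) : IsAlgebraic k (z i) := by
  have hle : (aeval z : A2 k →ₐ[k] E).range.toSubmodule =
      Submodule.span k (Set.range fun i => aeval z (monomial (b i) (1 : k))) := by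
    refine le_antisymm ?_ (Submodule.span_le.2 ?_)
    · rintro _ ⟨φ, rfl⟩
      obtain ⟨h, e⟩ := hs φ
      change aeval z φ ∈ _
      rw [e, map_sum]
      refine Submodule.sum_mem _ fun i _ => ?_
      have e1 : aeval z (aeval g (h i)) = algebraMap k E (constantCoeff (h i)) := by
        rw [← AlgHom.comp_apply, comp_aeval]
        simp only [hz]
        exact aeval_zero' _
      rw [map_mul, e1, ← Algebra.smul_def]
      exact Submodule.smul_mem _ _ (Submodule.subset_span ⟨i, rfl⟩)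
    · rintro _ ⟨i, rfl⟩
      exact ⟨_, rfl⟩
  refine (IsIntegral.of_mem_of_fg (aeval z : A2 k →ₐ[k] E).range ?_ _ ⟨X i, by simp⟩).isAlgebraic
  rw [hle]
  exact Submodule.fg_span (Set.finite_range _)

end Pool.Agent.Work.MP_0a826e_ag.R
end

-- merged part: Pool.Agent.Work.MP_0a826e_ag.R.N1
section
namespace Pool.Agent.Work.MP_0a826e_ag.R

open MvPolynomial

variable {k : Type} [Field k]

variable {w : Fin 2 → ℕ} {D q : ℕ} {g G : Fin 2 → A2 k} {b : Fin q → Fin 2 →₀ ℕ}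
  {Φ Ψ R R' : A2 k}

/-- the combination of the monomials with given coefficients -/
noncomputable def N1_s (g : Fin 2 → A2 k) (b : Fin q → Fin 2 →₀ ℕ) (h : Fin q → A2 k) : A2 k :=
  ∑ i, aeval g (h i) * monomial (b i) (1 : k)

theorem N1_add (h h' : Fin q → A2 k) : N1_s g b (h + h') = N1_s g b h + N1_s g b h' := by
  simp [N1_s, add_mul, Finset.sum_add_distrib]

theorem N1_zero : N1_s g b 0 = 0 := by
  simp [N1_s]

theorem N1_inj (hfr : Fr g b) {h h' : Fin q → A2 k} (e : N1_s g b h = N1_s g b h') : h = h' := by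
  refine sub_eq_zero.1 (hfr _ ?_)
  have := sub_eq_zero.2 e
  simpa [N1_s, sub_mul, Finset.sum_sub_distrib] using this

theorem N1_smul (a : A2 k) (h : Fin q → A2 k) : N1_s g b (a • h) = aeval g a * N1_s g b h := by
  simp [N1_s, Finset.mul_sum, mul_assoc]

theorem N1_mul {M : Matrix (Fin q) (Fin q) (A2 k)} (h : IsRep g b Φ M) (v : Fin q → A2 k) :
    Φ * N1_s g b v = N1_s g b (Matrix.vecMul v M) := by
  have : Φ * N1_s g b v = ∑ i, aeval g (v i) * (Φ * monomial (b i) (1 : k)) := by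
    rw [N1_s, Finset.mul_sum]
    exact Finset.sum_congr rfl fun i _ => mul_left_comm _ _ _
  rw [this]
  simp only [h _, N1_s, Matrix.vecMul, dotProduct, map_sum, map_mul, Finset.mul_sum,
    Finset.sum_mul, mul_assoc]
  exact Finset.sum_comm

theorem N1_rep (hs : Sp g b) (Φ : A2 k) : ∃ M, IsRep g b Φ M := by
  choose M hM using fun i => hs (Φ * monomial (b i) (1 : k))
  exact ⟨M, hM⟩

theorem exists_isNorm (hs : Sp g b) (Φ : A2 k) : ∃ R, IsNorm g b Φ R := by
  obtain ⟨M, hM⟩ := N1_rep hs Φ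
  exact ⟨_, M, hM, rfl⟩

theorem IsRep.unique (hfr : Fr g b) {M M' : Matrix (Fin q) (Fin q) (A2 k)}
    (h : IsRep g b Φ M) (h' : IsRep g b Φ M') : M = M' := by
  funext i
  exact N1_inj hfr ((h i).symm.trans (h' i))

theorem IsNorm.unique (hfr : Fr g b) (h : IsNorm g b Φ R) (h' : IsNorm g b Φ R') : R = R' := by
  obtain ⟨M, hM, rfl⟩ := h
  obtain ⟨M', hM', rfl⟩ := h'
  rw [hM.unique hfr hM']

theorem IsNorm.mul (h : IsNorm g b Φ R) (h' : IsNorm g b Ψ R') :
    IsNorm g b (Φ * Ψ) (R * R') := by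
  obtain ⟨M, hM, rfl⟩ := h
  obtain ⟨M', hM', rfl⟩ := h'
  refine ⟨M * M', fun i => ?_, (Matrix.det_mul _ _).symm⟩
  rw [mul_comm Φ, mul_assoc, hM i]
  exact N1_mul hM' (M i)

theorem isNorm_C (g : Fin 2 → A2 k) (b : Fin q → Fin 2 →₀ ℕ) (c : k) :
    IsNorm g b (C c) (C (c ^ q)) := by
  refine ⟨Matrix.diagonal fun _ => C c, fun i => ?_, by simp⟩
  rw [Finset.sum_eq_single i]
  · simp
  · intro j _ hj
    rw [Matrix.diagonal_apply_ne _ hj.symm, map_zero, zero_mul]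
  · intro e
    exact absurd (Finset.mem_univ _) e

theorem IsNorm.pow (h : IsNorm g b Φ R) (e : ℕ) : IsNorm g b (Φ ^ e) (R ^ e) := by
  induction e with
  | zero => simpa using isNorm_C g b 1
  | succ e ih =>
    rw [pow_succ, pow_succ]
    exact ih.mul h

theorem isNorm_prod {ι : Type} (s : Finset ι) (x y : ι → A2 k)
    (h : ∀ i ∈ s, IsNorm g b (x i) (y i)) : IsNorm g b (∏ i ∈ s, x i) (∏ i ∈ s, y i) := by
  classical
  induction s using Finset.induction_on with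
  | empty => simpa using isNorm_C g b 1
  | insert a s ha ih =>
    rw [Finset.prod_insert ha, Finset.prod_insert ha]
    exact (h a (Finset.mem_insert_self _ _)).mul
      (ih fun i hi => h i (Finset.mem_insert_of_mem hi))

/-- `Matrix.exists_vecMul_eq_zero_iff` over the domain `A2 k`. -/
theorem IsNorm.ne_zero (hfr : Fr g b) (h : IsNorm g b Φ R) (h0 : Φ ≠ 0) : R ≠ 0 := by
  obtain ⟨M, hM, rfl⟩ := h
  intro e
  obtain ⟨v, hv, hv0⟩ := Matrix.exists_vecMul_eq_zero_iff.2 e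
  have := N1_mul hM v
  rw [hv0, N1_zero] at this
  exact hv (hfr v ((mul_eq_zero.1 this).resolve_left h0))

/-- If `Φ y = 0` the vector of values of the monomials at `y` (nonzero, since they generate `1`)
is in the kernel of `M (g y)`.  Conversely a left kernel vector `v` of `M z` gives
`Φ * ∑ v i • b i ∈ (g 0 - z 0, g 1 - z 1)`; if `Φ`, `g 0 - z 0`, `g 1 - z 1` had no common zero
they would generate the unit ideal, so `∑ v i • b i` lies in that ideal and freeness gives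
`v = 0`. -/
theorem IsNorm.eval_eq_zero [IsAlgClosed k] (hfr : Fr g b) (hs : Sp g b) (h : IsNorm g b Φ R)
    (z : Pt k) : eval z R = 0 ↔ ∃ y, eval y Φ = 0 ∧ ev g y = z := by
  obtain ⟨M, hM, rfl⟩ := h
  rw [RingHom.map_det]
  constructor
  · intro e
    obtain ⟨v, hv, hv0⟩ := Matrix.exists_vecMul_eq_zero_iff.2 e
    let K : Ideal (A2 k) :=
      { carrier := {a | ∃ h : Fin q → A2 k, (∀ i, eval z (h i) = 0) ∧
          a * N1_s g b (fun i => C (v i)) = N1_s g b h}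
        zero_mem' := ⟨0, fun _ => map_zero _, by rw [zero_mul, N1_zero]⟩
        add_mem' := by
          rintro a a' ⟨h, h1, h2⟩ ⟨h', h1', h2'⟩
          exact ⟨h + h', fun i => by simp [h1, h1'], by rw [add_mul, h2, h2', N1_add]⟩
        smul_mem' := by
          rintro c a ⟨h, h1, h2⟩
          obtain ⟨N, hN⟩ := N1_rep hs c
          refine ⟨Matrix.vecMul h N, fun j => ?_, ?_⟩
          · simp [Matrix.vecMul, dotProduct, h1]
          · rw [smul_eq_mul, mul_assoc, h2, N1_mul hN] }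
    have hK : K ≠ ⊤ := by
      intro e
      obtain ⟨h, h1, h2⟩ : (1 : A2 k) ∈ K := e ▸ Submodule.mem_top
      rw [one_mul] at h2
      have h3 := N1_inj hfr h2
      refine hv (funext fun i => ?_)
      have := h1 i
      rw [← h3] at this
      simpa using this
    obtain ⟨m, hm, hle⟩ := Ideal.exists_le_maximal K hK
    obtain ⟨y, rfl⟩ := isMaximal_iff_eq_vanishingIdeal_singleton.1 hm
    have h1 : Φ ∈ K := by
      refine ⟨_, fun j => ?_, N1_mul hM _⟩
      have := congrFun hv0 j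
      simpa [Matrix.vecMul, dotProduct] using this
    have h2 : ∀ i, g i - C (z i) ∈ K := by
      intro i
      refine ⟨(X i - C (z i) : A2 k) • fun i => C (v i), fun j => by simp, ?_⟩
      rw [N1_smul]
      simp
    refine ⟨y, ?_, funext fun i => ?_⟩
    · simpa using (mem_vanishingIdeal_singleton_iff _ _).1 (hle h1)
    · have := (mem_vanishingIdeal_singleton_iff _ _).1 (hle (h2 i))
      simpa [ev, sub_eq_zero] using this
  · rintro ⟨y, hy, rfl⟩
    refine Matrix.exists_mulVec_eq_zero_iff.1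
      ⟨fun j => eval y (monomial (b j) (1 : k)), fun e => ?_, funext fun i => ?_⟩
    · obtain ⟨h, hh⟩ := hs 1
      have := congrArg (eval y) hh
      rw [map_one, map_sum] at this
      refine one_ne_zero (this.trans (Finset.sum_eq_zero fun i _ => ?_))
      have e' : eval y (monomial (b i) (1 : k)) = 0 := congrFun e i
      rw [map_mul, e', mul_zero]
    · have := congrArg (eval y) (hM i)
      rw [map_mul, hy, zero_mul, map_sum] at this
      simp only [map_mul, eval_aeval_ev] at this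
      exact this.symm

theorem ev_surjective [IsAlgClosed k] (hq : 0 < q) (hfr : Fr g b) (hs : Sp g b) :
    Function.Surjective (ev g) := by
  intro z
  obtain ⟨y, _, hy⟩ := ((isNorm_C g b 0).eval_eq_zero hfr hs z).1 (by simp [hq.ne'])
  exact ⟨y, hy⟩

theorem Reg.surjective [IsAlgClosed k] (hw : ∀ i, 0 < w i) (hD : 1 ≤ D) (hg : Reg w D g G) :
    Function.Surjective (ev g) := by
  obtain ⟨q, b, hq, _, _, h1, h2⟩ := hg.exists_fr_sp hw hD
  exact ev_surjective hq h1 h2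

end Pool.Agent.Work.MP_0a826e_ag.R
end

-- merged part: Pool.Agent.Work.MP_0a826e_ag.R.N2
section
namespace Pool.Agent.Work.MP_0a826e_ag.R

open MvPolynomial

variable {k : Type} [Field k]

variable {w : Fin 2 → ℕ} {D q : ℕ} {g G : Fin 2 → A2 k} {b : Fin q → Fin 2 →₀ ℕ}
  {Φ R P Q : A2 k}

theorem N2_coeff_prod {B ι : Type} [CommRing B] (s : Finset ι) (x : ι → Polynomial B)
    (n : ι → ℕ) (h : ∀ i ∈ s, (x i).natDegree ≤ n i) :
    (∏ i ∈ s, x i).natDegree ≤ ∑ i ∈ s, n i ∧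
      (∏ i ∈ s, x i).coeff (∑ i ∈ s, n i) = ∏ i ∈ s, (x i).coeff (n i) := by
  classical
  induction s using Finset.induction_on with
  | empty => simp
  | insert a s ha ih =>
    obtain ⟨h1, h2⟩ := ih fun i hi => h i (Finset.mem_insert_of_mem hi)
    have h3 := h a (Finset.mem_insert_self a s)
    rw [Finset.prod_insert ha, Finset.sum_insert ha, Finset.prod_insert ha]
    exact ⟨Polynomial.natDegree_mul_le.trans (add_le_add h3 h1),
      by rw [Polynomial.coeff_mul_add_eq_of_natDegree_le h3 h1, h2]⟩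

/-- row-wise degree bounds: top coefficient of a determinant -/
theorem coeff_det_of_le {B : Type} [CommRing B] (M : Matrix (Fin q) (Fin q) (Polynomial B))
    (n : Fin q → ℕ) (h : ∀ i j, (M i j).natDegree ≤ n i) :
    M.det.natDegree ≤ ∑ i, n i ∧
      M.det.coeff (∑ i, n i) = (Matrix.of fun i j => (M i j).coeff (n i)).det := by
  have e : M.det = ∑ σ : Equiv.Perm (Fin q), ((Equiv.Perm.sign σ : ℤ) : Polynomial B) *
      ∏ i, M i (σ i) := by
    rw [← Matrix.det_transpose, Matrix.det_apply']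
    rfl
  have e' : (Matrix.of fun i j => (M i j).coeff (n i)).det =
      ∑ σ : Equiv.Perm (Fin q), ((Equiv.Perm.sign σ : ℤ) : B) * ∏ i, (M i (σ i)).coeff (n i) := by
    rw [← Matrix.det_transpose, Matrix.det_apply']
    rfl
  have hp := fun σ : Equiv.Perm (Fin q) =>
    N2_coeff_prod Finset.univ (fun i => M i (σ i)) n fun i _ => h i (σ i)
  rw [e, e']
  constructor
  · refine Polynomial.natDegree_sum_le_of_forall_le _ _ fun σ _ => ?_
    rw [← Polynomial.C_eq_intCast]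
    exact (Polynomial.natDegree_C_mul_le _ _).trans (hp σ).1
  · rw [Polynomial.finsetSum_coeff]
    refine Finset.sum_congr rfl fun σ _ => ?_
    rw [← Polynomial.C_eq_intCast, Polynomial.coeff_C_mul, (hp σ).2]

/-- The top form of the norm is the norm of the top form.  With `m = wt w Φ`,
`β i = wdeg w (b i)`: `wb` bounds `wt (sw D w) (M i j) + β j ≤ m + β i`; let `M' i j` be the
component of weight `m + β i - β j` (zero if negative); take components in `IsRep`, and apply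
`coeff_det_of_le` to `Hw (sw D w) (M i j) * X ^ β j`. The weights may be zero. -/
theorem IsNorm.top_norm (hb : Bnd w D g G) (hD : 1 ≤ D) (hfr : Fr G b) (h : IsNorm g b Φ R)
    (h0 : Φ ≠ 0) : IsNorm G b (top w Φ) (top w R) ∧ D * wt w R = q * wt w Φ := by
  obtain ⟨M, hM, rfl⟩ := h
  have hbd : ∀ i j, M i j ≠ 0 →
      wt (sw D w) (M i j) + wdeg w (b j) ≤ wt w Φ + wdeg w (b i) := fun i j hij => by
    refine (wb hb hfr (M i) j hij).trans ?_
    rw [← hM i]
    exact (wt_mul_le w _ _).trans (Nat.add_le_add_left (wt_monomial_le w _ _) _)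
  let N : Matrix (Fin q) (Fin q) (Polynomial (A2 k)) :=
    fun i j => Hw (sw D w) (M i j) * Polynomial.X ^ wdeg w (b j)
  have hN : ∀ i j, (N i j).natDegree ≤ wt w Φ + wdeg w (b i) := fun i j => by
    by_cases hij : M i j = 0
    · simp [N, hij]
    · refine Polynomial.natDegree_mul_le.trans (le_trans ?_ (hbd i j hij))
      exact Nat.add_le_add_left (Polynomial.natDegree_X_pow_le _) _
  obtain ⟨h1, h2⟩ := coeff_det_of_le N _ hN
  have hdet : N.det = Hw (sw D w) M.det * Polynomial.X ^ ∑ j, wdeg w (b j) := by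
    have e : N = (Hw (k := k) (sw D w)).mapMatrix M *
        Matrix.diagonal fun j => Polynomial.X ^ wdeg w (b j) := by
      refine Matrix.ext fun i j => ?_
      rw [Matrix.mul_diagonal]
      rfl
    rw [e, Matrix.det_mul, Matrix.det_diagonal, ← AlgHom.map_det, Finset.prod_pow_eq_pow_sum]
  have hsum : ∑ i, (wt w Φ + wdeg w (b i)) = q * wt w Φ + ∑ j, wdeg w (b j) := by
    rw [Finset.sum_add_distrib, Finset.sum_const, Finset.card_univ, Fintype.card_fin, smul_eq_mul]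
  rw [hdet, hsum] at h1 h2
  rw [Polynomial.coeff_mul_X_pow] at h2
  have hrep : IsRep G b (top w Φ)
      (Matrix.of fun i j => (N i j).coeff (wt w Φ + wdeg w (b i))) := fun i => by
    have e := congrArg (cmp w (wt w Φ + wdeg w (b i))) (hM i)
    rw [cmp_mul_hom (isHom_monomial w _ _), if_pos (Nat.le_add_left _ _), Nat.add_sub_cancel,
      ← top_eq_cmp, cmp_sum] at e
    rw [e]
    refine Finset.sum_congr rfl fun j _ => ?_
    rw [cmp_mul_hom (isHom_monomial w _ _), Matrix.of_apply, Polynomial.coeff_mul_X_pow']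
    split_ifs with hle
    · have : wt (sw D w) (M i j) ≤ wt w Φ + wdeg w (b i) - wdeg w (b j) := by
        by_cases hij : M i j = 0
        · rw [hij, wt_zero]
          exact Nat.zero_le _
        · have := hbd i j hij
          omega
      rw [(hb.aeval_le this).2]
      rfl
    · rw [map_zero, zero_mul]
  have hn : IsNorm G b (top w Φ) (cmp (sw D w) (q * wt w Φ) M.det) := ⟨_, hrep, h2⟩
  have hne := hn.ne_zero hfr (top_ne_zero h0)
  have hge := le_wt_of_cmp_ne hne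
  have hR : Hw (sw D w) M.det ≠ 0 := fun e => hne (by rw [Hw_eq_zero.1 e, cmp_zero])
  rw [Polynomial.natDegree_mul_X_pow _ hR] at h1
  have heq : wt (sw D w) M.det = q * wt w Φ := le_antisymm (Nat.le_of_add_le_add_right h1) hge
  refine ⟨?_, by rw [← wt_sw, heq]⟩
  rwa [← top_sw hD w M.det, top_eq_cmp (sw D w), heq]

/-- the norm of a form under the top map is a form -/
theorem IsNorm.isHom (hb : Bnd w D g G) (hD : 1 ≤ D) (hfr : Fr G b) {n : ℕ}
    (hΦ : IsHom w n Φ) (h0 : Φ ≠ 0) (h : IsNorm G b Φ R) :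
    IsHom w (wt w R) R ∧ D * wt w R = q * n := by
  obtain ⟨h1, h2⟩ := h.top_norm hb.toTop hD hfr h0
  rw [hΦ.top_eq] at h1
  rw [hΦ.wt_eq h0] at h2
  have h3 := isHom_top w R
  rw [h1.unique hfr h] at h3
  exact ⟨h3, h2⟩

theorem N2_factor (g : Fin 2 → A2 k) (hP : Irreducible P) (R : A2 k) (h0 : R ≠ 0)
    (hd : P ∣ aeval g R) : ∃ Q, Irreducible Q ∧ Q ∣ R ∧ P ∣ aeval g Q := by
  induction R using WfDvdMonoid.induction_on_irreducible with
  | zero => exact absurd rfl h0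
  | unit u hu => exact absurd (isUnit_of_dvd_unit hd (hu.map (aeval g))) hP.not_isUnit
  | mul a i ha hi ih =>
    rw [map_mul] at hd
    rcases hP.prime.dvd_or_dvd hd with h | h
    · exact ⟨i, hi, dvd_mul_right _ _, h⟩
    · obtain ⟨Q, h1, h2, h3⟩ := ih ha h
      exact ⟨Q, h1, h2.mul_left _, h3⟩

/-- The ideal `{h | P ∣ aeval g h}` is prime and contains the norm `R` (Nullstellensatz), so it
contains an irreducible factor `Q` of `R`. -/
theorem exists_img_of [IsAlgClosed k] (hfr : Fr g b) (hs : Sp g b) (hP : Irreducible P) :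
    ∃ Q, Img g P Q := by
  obtain ⟨R, hR⟩ := exists_isNorm hs P
  have hd : P ∣ aeval g R := dvd_of_vanish hP fun z hz => by
    rw [eval_aeval_ev]
    exact (hR.eval_eq_zero hfr hs _).2 ⟨z, hz, rfl⟩
  obtain ⟨Q, h1, h2, h3⟩ := N2_factor g hP R (hR.ne_zero hfr hP.ne_zero) hd
  refine ⟨Q, h1, fun z => ⟨fun hz => (hR.eval_eq_zero hfr hs z).1 ?_, ?_⟩⟩
  · obtain ⟨c, rfl⟩ := h2
    rw [map_mul, hz, zero_mul]
  · rintro ⟨y, hy, rfl⟩
    obtain ⟨c, hc⟩ := h3
    rw [← eval_aeval_ev, hc, map_mul, hy, zero_mul]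

theorem Img.isNorm [IsAlgClosed k] (hfr : Fr g b) (hs : Sp g b) (hP : Irreducible P)
    (hQ : Img g P Q) : ∃ (e : ℕ) (c : k), 1 ≤ e ∧ c ≠ 0 ∧ IsNorm g b P (C c * Q ^ e) := by
  obtain ⟨R, hR⟩ := exists_isNorm hs P
  obtain ⟨c, e, hc, rfl⟩ := eq_C_mul_pow hQ.1 (hR.ne_zero hfr hP.ne_zero)
    fun z hz => (hQ.2 z).2 ((hR.eval_eq_zero hfr hs z).1 hz)
  refine ⟨e, c, Nat.pos_of_ne_zero ?_, hc, hR⟩
  rintro rfl
  obtain ⟨y, hy⟩ := (zeros_infinite hP.not_isUnit).nonempty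
  have := (hR.eval_eq_zero hfr hs _).2 ⟨y, hy, rfl⟩
  rw [pow_zero, mul_one, eval_C] at this
  exact hc this

theorem Reg.exists_img [IsAlgClosed k] (hw : ∀ i, 0 < w i) (hD : 1 ≤ D) (hg : Reg w D g G)
    (hP : Irreducible P) : ∃ Q, Img g P Q := by
  obtain ⟨q, b, -, -, -, hfr, hs⟩ := hg.exists_fr_sp hw hD
  exact exists_img_of hfr hs hP

/-- the image of an infinite subset of the curve is infinite -/
theorem Img.image_infinite [IsAlgClosed k] (hP : Irreducible P) (hQ : Img g P Q)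
    {Z : Set (Pt k)} (hZ : Z.Infinite) (h : ∀ z ∈ Z, eval z P = 0) : (ev g '' Z).Infinite := by
  intro hf
  refine hZ (Set.Finite.of_finite_fibers (ev g) hf fun z _ => ?_)
  by_contra hinf
  have hd : ∀ i, P ∣ g i - C (z i) := fun i => by
    refine dvd_of_infinite hP (Set.Infinite.mono ?_ hinf)
    rintro y ⟨h1, h2⟩
    refine ⟨h y h1, ?_⟩
    have : ev g y = z := h2
    rw [map_sub, eval_C, ← this]
    exact sub_self _
  refine zeros_infinite hQ.1.not_isUnit ((Set.finite_singleton z).subset fun u hu => ?_)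
  obtain ⟨y, hy, rfl⟩ := (hQ.2 u).1 hu
  funext i
  obtain ⟨c, hc⟩ := hd i
  have := congrArg (eval y) hc
  rw [map_mul, hy, zero_mul, map_sub, eval_C] at this
  exact sub_eq_zero.1 this

theorem Bad.img_inf [IsAlgClosed k] {f : Fin 2 → A2 k} (hB : Bad f P) {n : ℕ}
    (hQ : Img (iter f n) P Q) : {z | eval z Q = 0 ∧ Pre (ev f) z}.Infinite := by
  refine (hQ.image_infinite hB.irr hB.inf fun z hz => hz.1).mono ?_
  rintro _ ⟨y, hy, rfl⟩
  refine ⟨(hQ.2 _).2 ⟨y, hy.1, rfl⟩, ?_⟩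
  refine Set.Finite.subset hy.2 ?_
  rintro _ ⟨m, rfl⟩
  exact ⟨m + n, by rw [ev_iter]; exact Function.iterate_add_apply _ _ _ _⟩

end Pool.Agent.Work.MP_0a826e_ag.R
end

-- merged part: Pool.Agent.Work.MP_0a826e_ag.R.L1
section
namespace Pool.Agent.Work.MP_0a826e_ag.R

open MvPolynomial

variable {k : Type} [Field k]

variable {S : Finset k} (p : Place S)

theorem Place.one_le_A : 1 ≤ p.A := p.one_le

theorem Place.A_pos : 0 < p.A := lt_of_lt_of_le one_pos p.one_le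

theorem Place.pi_ne_zero : p.π ≠ 0 := by
  intro h
  have h1 := p.one_le
  rw [h, map_zero] at h1
  exact absurd h1 (by norm_num)

theorem Place.add_le' {x y : k} {B : ℝ} (hx : p.v x ≤ B) (hy : p.v y ≤ B) :
    p.v (x + y) ≤ p.A * B := by
  exact (p.add_le x y).trans (mul_le_mul_of_nonneg_left (max_le hx hy) p.A_pos.le)

theorem Place.sub_le' {x y : k} {B : ℝ} (hx : p.v x ≤ B) (hy : p.v y ≤ B) :
    p.v (x - y) ≤ p.A * B := by
  rw [sub_eq_add_neg]
  exact p.add_le' hx (by rwa [AbsoluteValue.map_neg])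

/-- induction on `n`: split `s` into two halves of size at most `2 ^ n` -/
theorem Place.sum_le {ι : Type} (n : ℕ) (s : Finset ι) (hs : s.card ≤ 2 ^ n) (x : ι → k) {B : ℝ}
    (hB : 0 ≤ B) (h : ∀ i ∈ s, p.v (x i) ≤ B) : p.v (∑ i ∈ s, x i) ≤ p.A ^ n * B := by
  classical
  induction n generalizing s with
  | zero =>
    rw [pow_zero, one_mul]
    rcases s.eq_empty_or_nonempty with rfl | ⟨i, hi⟩
    · simpa using hB
    · obtain rfl : s = {i} := Finset.eq_singleton_iff_unique_mem.2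
        ⟨hi, fun j hj => Finset.card_le_one.1 (by simpa using hs) j hj i hi⟩
      simpa using h i hi
  | succ n ih =>
    obtain ⟨t, ht, hc⟩ := Finset.exists_subset_card_eq (min_le_left s.card (2 ^ n))
    have h1 := Finset.card_sdiff_add_card_eq_card ht
    rw [← Finset.sum_sdiff ht, pow_succ', mul_assoc]
    exact p.add_le' (ih _ (by omega) fun i hi => h i (Finset.sdiff_subset hi))
      (ih _ (by omega) fun i hi => h i (ht hi))

theorem Place.v_root {ζ : k} {n : ℕ} (hn : n ≠ 0) (h : ζ ^ n = 1) : p.v ζ = 1 := by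
  exact (pow_eq_one_iff_of_nonneg (p.v.nonneg ζ) hn).1 (by rw [← map_pow, h, map_one])

theorem Place.exists_nat (m : ℕ) : ∃ n : ℕ, m ≤ n ∧ n ≤ m + 1 ∧ 1 ≤ p.A * p.v (n : k) := by
  have h1 : p.v (((m + 1 : ℕ) : k) - (m : k)) = 1 := by simp
  rcases le_total (p.v (m : k)) (p.v ((m + 1 : ℕ) : k)) with h | h
  · exact ⟨m + 1, m.le_succ, le_rfl, h1 ▸ p.sub_le' le_rfl h⟩
  · exact ⟨m, le_rfl, m.le_succ, h1 ▸ p.sub_le' h le_rfl⟩

theorem L1_geom {ξ : k} {N : ℕ} (hξ : IsPrimitiveRoot ξ N) {i a : ℕ} (hi : i < N) (ha : a < N)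
    (h : a ≠ i) : ∑ l ∈ Finset.range N, (ξ ^ (N - i + a)) ^ l = 0 := by
  have h1 : ξ ^ (N - i + a) - 1 ≠ 0 := fun e => by
    obtain ⟨c, hc⟩ := (hξ.pow_eq_one_iff_dvd _).1 (sub_eq_zero.1 e)
    rcases c with _ | _ | c
    · omega
    · omega
    · have : N * (c + 1 + 1) = N * c + 2 * N := by ring
      omega
  have h2 := geom_sum_mul (ξ ^ (N - i + a)) N
  rw [← pow_mul, mul_comm _ N, pow_mul, hξ.pow_eq_one, one_pow, sub_self] at h2
  exact (mul_eq_zero.1 h2).resolve_right h1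

theorem L1_dft {ξ : k} {N : ℕ} (hξ : IsPrimitiveRoot ξ N) (g : Polynomial k)
    (hg : g.natDegree < N) {i : ℕ} (hi : i < N) {s : k} :
    ∑ l ∈ Finset.range N, (ξ ^ (N - i)) ^ l * g.eval (s * ξ ^ l) = N * (g.coeff i * s ^ i) := by
  have h1 : ∀ l, (ξ ^ (N - i)) ^ l * g.eval (s * ξ ^ l) =
      ∑ a ∈ Finset.range N, (ξ ^ (N - i + a)) ^ l * (g.coeff a * s ^ a) := fun l => by
    rw [Polynomial.eval_eq_sum_range' hg, Finset.mul_sum]
    exact Finset.sum_congr rfl fun a _ => by ring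
  simp only [h1]
  rw [Finset.sum_comm, Finset.sum_eq_single i, ← Finset.sum_mul, Nat.sub_add_cancel hi.le,
    hξ.pow_eq_one]
  · simp
  · intro a ha h
    rw [← Finset.sum_mul, L1_geom hξ hi (Finset.mem_range.1 ha) h, zero_mul]
  · exact fun h => absurd (Finset.mem_range.2 hi) h

/-- Cauchy estimate by the discrete Fourier transform with `N`-th roots of unity,
`N ∈ {natDegree + 1, natDegree + 2}` from `exists_nat`. -/
theorem Place.cau [IsAlgClosed k] [CharZero k] (g : Polynomial k) {n : ℕ}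
    (hn : g.natDegree + 2 ≤ 2 ^ n) (s : k) (i : ℕ) :
    ∃ ζ : k, p.v ζ = 1 ∧ p.v (g.coeff i) * p.v s ^ i ≤ p.A ^ (n + 1) * p.v (g.eval (s * ζ)) := by
  have hA := p.A_pos
  by_cases hi : g.natDegree < i
  · refine ⟨1, map_one _, ?_⟩
    rw [Polynomial.coeff_eq_zero_of_natDegree_lt hi, map_zero, zero_mul]
    exact mul_nonneg (pow_nonneg hA.le _) (p.v.nonneg _)
  obtain ⟨N, h1, h2, h3⟩ := p.exists_nat (g.natDegree + 1)
  have h4 : N ≠ 0 := by omega
  have : NeZero (N : k) := ⟨Nat.cast_ne_zero.2 h4⟩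
  obtain ⟨ξ, hξ⟩ := HasEnoughRootsOfUnity.exists_primitiveRoot k N
  have h5 : ∀ j, p.v (ξ ^ j) = 1 := fun j => by rw [map_pow, p.v_root h4 hξ.pow_eq_one, one_pow]
  obtain ⟨j, -, hj⟩ := Finset.exists_max_image (Finset.range N)
    (fun j => p.v (g.eval (s * ξ ^ j))) (Finset.nonempty_range_iff.2 h4)
  refine ⟨ξ ^ j, h5 j, ?_⟩
  have h6 := p.sum_le n (Finset.range N) (by rw [Finset.card_range]; omega)
    (fun l => (ξ ^ (N - i)) ^ l * g.eval (s * ξ ^ l)) (p.v.nonneg (g.eval (s * ξ ^ j)))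
    fun l hl => by
      rw [map_mul, ← pow_mul, h5, one_mul]
      exact hj l hl
  rw [L1_dft hξ g (by omega) (by omega), map_mul, map_mul, map_pow] at h6
  have h7 : 0 ≤ p.v (g.coeff i) * p.v s ^ i :=
    mul_nonneg (p.v.nonneg _) (pow_nonneg (p.v.nonneg _) _)
  calc p.v (g.coeff i) * p.v s ^ i ≤ p.A * p.v (N : k) * (p.v (g.coeff i) * p.v s ^ i) :=
        le_mul_of_one_le_left h7 h3
    _ ≤ _ := by
      rw [mul_assoc, pow_succ', mul_assoc]
      exact mul_le_mul_of_nonneg_left h6 hA.le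

/-- Kronecker substitution `(T, T ^ (δ + 1))` and `cau` -/
theorem Place.coeff_le [IsAlgClosed k] [CharZero k] (φ : A2 k) {δ n : ℕ}
    (hδ : φ.totalDegree ≤ δ) (hn : (δ + 1) ^ 2 + 2 ≤ 2 ^ n) (a : Fin 2 →₀ ℕ) :
    ∃ u : Pt k, (∀ i, p.v (u i) = 1) ∧ p.v (coeff a φ) ≤ p.A ^ (n + 1) * p.v (eval u φ) := by
  classical
  by_cases ha : a ∈ φ.support
  swap
  · refine ⟨fun _ => 1, fun _ => map_one _, ?_⟩
    rw [notMem_support_iff.1 ha, map_zero]
    exact mul_nonneg (pow_nonneg p.A_pos.le _) (p.v.nonneg _)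
  have h1 : ∀ m ∈ φ.support, m 0 + m 1 ≤ δ := fun m hm => by
    have h := (le_totalDegree hm).trans hδ
    rwa [Finsupp.sum_fintype _ _ fun _ => rfl, Fin.sum_univ_two] at h
  obtain ⟨g, hg⟩ : ∃ g : Polynomial k, g = ∑ m ∈ φ.support,
      Polynomial.monomial (m 0 + (δ + 1) * m 1) (coeff m φ) := ⟨_, rfl⟩
  have h2 : g.natDegree ≤ (δ + 1) ^ 2 := by
    rw [hg]
    refine Polynomial.natDegree_sum_le_of_forall_le _ _ fun m hm =>
      (Polynomial.natDegree_monomial_le _).trans ?_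
    have := h1 m hm
    nlinarith only [this]
  have h3 : g.coeff (a 0 + (δ + 1) * a 1) = coeff a φ := by
    rw [hg, Polynomial.finsetSum_coeff, Finset.sum_eq_single a, Polynomial.coeff_monomial_same]
    · intro m hm hma
      refine Polynomial.coeff_monomial_of_ne _ fun e => hma ?_
      have e0 := congrArg (· % (δ + 1)) e
      have h4 := h1 m hm
      have h5 := h1 a ha
      simp only [Nat.add_mul_mod_self_left] at e0
      rw [Nat.mod_eq_of_lt (by omega), Nat.mod_eq_of_lt (by omega)] at e0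
      rw [e0] at e
      have e1 := Nat.eq_of_mul_eq_mul_left δ.succ_pos (Nat.add_left_cancel e)
      ext i
      fin_cases i
      · exact e0.symm
      · exact e1.symm
    · exact fun h => absurd ha h
  obtain ⟨ζ, hζ, h4⟩ := p.cau g (n := n) (by omega) 1 (a 0 + (δ + 1) * a 1)
  refine ⟨![ζ, ζ ^ (δ + 1)], fun i => ?_, ?_⟩
  · fin_cases i
    · exact hζ
    · simp [hζ]
  · have h5 : eval ![ζ, ζ ^ (δ + 1)] φ = g.eval ζ := by
      rw [hg, Polynomial.eval_finsetSum, eval_eq']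
      refine Finset.sum_congr rfl fun m _ => ?_
      simp [pow_add, pow_mul]
    rwa [h3, map_one, one_pow, mul_one, one_mul, ← h5] at h4

theorem Place.det_le {ι : Type} [Fintype ι] [DecidableEq ι] (M : Matrix ι ι k) {n : ℕ}
    (hn : (Fintype.card ι).factorial ≤ 2 ^ n) (Z : ι → ℝ) (h : ∀ i j, p.v (M i j) ≤ Z j) :
    p.v M.det ≤ p.A ^ n * ∏ j, Z j := by
  rw [Matrix.det_apply']
  refine p.sum_le n _ (by rwa [Finset.card_univ, Fintype.card_perm]) _
    (Finset.prod_nonneg fun j _ => (p.v.nonneg _).trans (h j j)) fun σ _ => ?_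
  have h1 : p.v ((Equiv.Perm.sign σ : ℤ) : k) = 1 := by
    rcases Int.units_eq_one_or (Equiv.Perm.sign σ) with e | e <;> simp [e]
  rw [map_mul, h1, one_mul, map_prod]
  exact Finset.prod_le_prod (fun j _ => p.v.nonneg _) fun j _ => h _ j

/-- `∏_{i' < n, i' ≠ i} (ξ^i - ξ^i')` has absolute value `v n` (derivative of `X^n - 1`), and
every factor is at most `A`. -/
theorem Place.prod_root_sub {ξ : k} {n : ℕ} (hξ : IsPrimitiveRoot ξ n) {i : ℕ} (hi : i < n) :
    p.v (n : k) ≤ p.A ^ n * ∏ i' ∈ Finset.range i, p.v (ξ ^ i - ξ ^ i') := by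
  obtain ⟨n, rfl⟩ : ∃ m, n = m + 1 := ⟨n - 1, by omega⟩
  have h1 : ∀ j, p.v (ξ ^ j) = 1 := fun j => by
    rw [map_pow, p.v_root n.succ_ne_zero hξ.pow_eq_one, one_pow]
  have h2 : ∏ i' ∈ Finset.range i, p.v (ξ ^ i - ξ ^ i') =
      ∏ j ∈ Finset.range i, p.v (1 - ξ ^ (j + 1)) := by
    rw [← Finset.prod_range_reflect]
    refine Finset.prod_congr rfl fun j hj => ?_
    have h3 : i = i - 1 - j + (j + 1) := by
      have := Finset.mem_range.1 hj
      omega
    have h4 : ξ ^ i - ξ ^ (i - 1 - j) = -(ξ ^ (i - 1 - j) * (1 - ξ ^ (j + 1))) := by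
      nth_rewrite 1 [h3]
      ring
    rw [h4, AbsoluteValue.map_neg, map_mul, h1, one_mul]
  rw [h2, Nat.cast_succ, ← hξ.prod_one_sub_pow_eq_order, map_prod,
    ← Finset.prod_range_mul_prod_Ico _ (Nat.lt_succ_iff.1 hi), mul_comm]
  refine mul_le_mul_of_nonneg_right ?_ (Finset.prod_nonneg fun j _ => p.v.nonneg _)
  calc ∏ j ∈ Finset.Ico i n, p.v (1 - ξ ^ (j + 1)) ≤ ∏ _j ∈ Finset.Ico i n, p.A :=
        Finset.prod_le_prod (fun j _ => p.v.nonneg _) fun j _ => by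
          simpa using p.sub_le' (B := 1) (map_one p.v).le (h1 (j + 1)).le
    _ ≤ p.A ^ (n + 1) := by
      rw [Finset.prod_const, Nat.card_Ico]
      exact pow_le_pow_right₀ p.one_le_A (by omega)

end Pool.Agent.Work.MP_0a826e_ag.R
end

-- merged part: Pool.Agent.Work.MP_0a826e_ag.R.LA
section
namespace Pool.Agent.Work.MP_0a826e_ag.R

open MvPolynomial

variable {k : Type} [Field k]

theorem LA_fam {M ι : Type} [AddCommGroup M] [Module k M] [Fintype ι] (V : Submodule k M)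
    [FiniteDimensional k V] (s : Set M) (hs : Submodule.span k s = V)
    (hc : Fintype.card ι = Module.finrank k V) :
    ∃ g : ι → M, (∀ i, g i ∈ s) ∧ Submodule.span k (Set.range g) = V ∧ LinearIndependent k g := by
  subst hs
  obtain ⟨f, f1, f2, f3⟩ := Submodule.exists_fun_fin_finrank_span_eq k s
  refine ⟨f ∘ Fintype.equivFinOfCardEq hc, fun i => f1 _, ?_,
    f3.comp _ (Fintype.equivFinOfCardEq hc).injective⟩
  rw [(Fintype.equivFinOfCardEq hc).surjective.range_comp, f2]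

/-- If no nontrivial combination of the `e a` vanishes on `Z`, some minor is nonzero: the vectors
`(e a z)_a`, `z ∈ Z`, span `Fin n → k`. -/
theorem exists_minor {n : ℕ} (e : Fin n → A2 k) (Z : Set (Pt k))
    (h : ∀ c : Fin n → k, (∀ z ∈ Z, ∑ a, c a * eval z (e a) = 0) → c = 0) :
    ∃ z : Fin n → Pt k, (∀ b, z b ∈ Z) ∧
      (Matrix.of fun a b => eval (z b) (e a)).det ≠ 0 := by
  obtain ⟨S, hS⟩ : ∃ S : Set (Fin n → k), S = (fun z a => eval z (e a)) '' Z := ⟨_, rfl⟩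
  have h1 : Submodule.span k S = ⊤ := by
    by_contra hne
    obtain ⟨f, hf, hle⟩ := Submodule.exists_le_ker_of_lt_top _ (lt_top_iff_ne_top.2 hne)
    have h2 := h (fun a => f fun j => if a = j then 1 else 0) fun z hz => by
      have h3 : f (fun a => eval z (e a)) = 0 :=
        hle (Submodule.subset_span (hS ▸ Set.mem_image_of_mem _ hz))
      rw [LinearMap.pi_apply_eq_sum_univ] at h3
      simpa only [smul_eq_mul, mul_comm] using h3
    refine hf (LinearMap.ext fun v => ?_)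
    rw [LinearMap.pi_apply_eq_sum_univ]
    exact Finset.sum_eq_zero fun a _ => by rw [congrFun h2 a, Pi.zero_apply, smul_zero]
  obtain ⟨g, g1, -, g3⟩ := LA_fam (ι := Fin n) ⊤ S h1 (by simp)
  subst hS
  choose z z1 z2 using g1
  refine ⟨z, z1, ((Matrix.isUnit_iff_isUnit_det _).1
    (Matrix.linearIndependent_cols_iff_isUnit.1 ?_)).ne_zero⟩
  rw [← funext z2] at g3
  exact g3

/-- Complete `u` to a basis `(e, u)` of `V` (complement of the span of `u`), extract a basis `g`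
of `V` from `𝒢`, reindex, and use the change of basis matrix and `Matrix.det_fromBlocks_zero₂₁`. -/
theorem la (V : Submodule k (A2 k)) [FiniteDimensional k V] (𝒢 : Set (A2 k))
    (hG : Submodule.span k 𝒢 = V) {Λ : Type} [Fintype Λ] [DecidableEq Λ] (u : Λ → A2 k)
    (hu : LinearIndependent k u) (huV : ∀ i, u i ∈ V) (Z : Set (Pt k))
    (hZ : ∀ φ ∈ V, (∀ z ∈ Z, eval z φ = 0) → φ ∈ Submodule.span k (Set.range u))
    (hZu : ∀ i, ∀ z ∈ Z, eval z (u i) = 0) :
    ∃ (n : ℕ) (z : Fin n → Pt k) (g : Fin n ⊕ Λ → A2 k) (γ : k), γ ≠ 0 ∧ (∀ b, z b ∈ Z) ∧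
      (∀ i, g i ∈ 𝒢) ∧ n + Fintype.card Λ = Module.finrank k V ∧
      ∀ w : Λ → Pt k, (Matrix.of fun i j => eval (Sum.elim z w j) (g i)).det =
        γ * (Matrix.of fun i j => eval (w j) (u i)).det := by
  have hU : Submodule.span k (Set.range u) ≤ V :=
    Submodule.span_le.2 (Set.range_subset_iff.2 huV)
  obtain ⟨W, hd, hs⟩ := IsModularLattice.exists_disjoint_and_sup_eq hU
  have hW : W ≤ V := hs ▸ le_sup_right
  have : FiniteDimensional k W := Submodule.finiteDimensional_of_le hW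
  obtain ⟨e, e1, e2, e3⟩ := LA_fam (ι := Fin (Module.finrank k W)) W W W.span_eq (by simp)
  have E1 : LinearIndependent k (Sum.elim e u) := e3.sum_type hu (e2.symm ▸ hd.symm)
  have E2 : Submodule.span k (Set.range (Sum.elim e u)) = V := by
    rw [Set.Sum.elim_range, Submodule.span_union, e2, sup_comm, hs]
  have hc : Fintype.card (Fin (Module.finrank k W) ⊕ Λ) = Module.finrank k V := by
    rw [← E2, finrank_span_eq_card E1]
  obtain ⟨g, g1, g2, g3⟩ := LA_fam V 𝒢 hG hc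
  have hP : ∀ i, ∃ c : _ → k, ∑ j, c j • Sum.elim e u j = g i := fun i => by
    rw [← Submodule.mem_span_range_iff_exists_fun, E2, ← hG]
    exact Submodule.subset_span (g1 i)
  choose P hP using hP
  have hdet : (Matrix.of P).det ≠ 0 := fun h0 => by
    obtain ⟨v, hv, h1⟩ := Matrix.exists_vecMul_eq_zero_iff.2 h0
    refine hv (funext (Fintype.linearIndependent_iff.1 g3 v ?_))
    simp only [← hP, Finset.smul_sum, smul_smul]
    rw [Finset.sum_comm]
    refine Finset.sum_eq_zero fun j _ => ?_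
    rw [← Finset.sum_smul, show ∑ i, v i * P i j = 0 from congrFun h1 j, zero_smul]
  obtain ⟨z, z1, z2⟩ := exists_minor e Z fun c hc0 => by
    have m1 : ∑ a, c a • e a ∈ W := W.sum_mem fun a _ => W.smul_mem _ (e1 a)
    have m2 := hZ _ (hW m1) fun z hz => by
      simpa only [map_sum, smul_eval] using hc0 z hz
    exact funext (Fintype.linearIndependent_iff.1 e3 c (Submodule.disjoint_def.1 hd _ m2 m1))
  refine ⟨_, z, g, _, mul_ne_zero hdet z2, z1, g1, by simpa using hc, fun w => ?_⟩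
  have h2 : (Matrix.of fun i j => eval (Sum.elim z w j) (g i)) = Matrix.of P * Matrix.fromBlocks
      (Matrix.of fun a b => eval (z b) (e a)) (Matrix.of fun a b => eval (w b) (e a)) 0
      (Matrix.of fun i j => eval (w j) (u i)) := by
    ext i j
    rw [Matrix.of_apply, ← hP, map_sum, Matrix.mul_apply]
    refine Finset.sum_congr rfl fun a _ => ?_
    rw [smul_eval, Matrix.of_apply]
    rcases a with a | a <;> rcases j with j | j <;> simp [hZu _ _ (z1 _)]
  rw [h2, Matrix.det_mul, Matrix.det_fromBlocks_zero₂₁, mul_assoc]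

theorem LA_tri {ι : Type} [Fintype ι] [DecidableEq ι] (d : ι → ℕ) {M : Matrix ι ι k}
    (h : ∀ i j, M i j ≠ 0 → i = j ∨ d i < d j) : M.det = ∏ i, M i i := by
  rw [Matrix.det_apply, Finset.sum_eq_single 1]
  · simp
  · intro σ _ hσ
    by_contra h0
    have h1 : ∀ i, M (σ i) i ≠ 0 := fun i hi =>
      h0 (by rw [Finset.prod_eq_zero (f := fun i => M (σ i) i) (Finset.mem_univ i) hi, smul_zero])
    obtain ⟨i, hi⟩ : ∃ i, σ i ≠ i := by
      by_contra h2
      push Not at h2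
      exact hσ (Equiv.ext h2)
    refine (Equiv.sum_comp σ d).not_lt (Finset.sum_lt_sum (fun j _ => ?_)
      ⟨i, Finset.mem_univ _, (h _ _ (h1 i)).resolve_left hi⟩)
    exact (h _ _ (h1 j)).elim (fun e => (congrArg d e).le) le_of_lt
  · simp

/-- the Newton polynomials -/
noncomputable def LA_N (x : ℕ → k) (n : ℕ) : Polynomial k :=
  ∏ i ∈ Finset.range n, (Polynomial.X - Polynomial.C (x i))

theorem LA_deg (x : ℕ → k) (n : ℕ) : (LA_N x n).natDegree = n := by
  rw [LA_N, Polynomial.natDegree_finsetProd_X_sub_C_eq_card, Finset.card_range]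

theorem LA_top (x : ℕ → k) (n : ℕ) : (LA_N x n).coeff n = 1 := by
  have h : (LA_N x n).Monic := Polynomial.monic_prod_X_sub_C _ _
  have h1 := h.coeff_natDegree
  rwa [LA_deg] at h1

theorem LA_le (x : ℕ → k) {n a : ℕ} (h : (LA_N x n).coeff a ≠ 0) : a ≤ n :=
  (Polynomial.le_natDegree_of_ne_zero h).trans_eq (LA_deg x n)

theorem LA_eval (x : ℕ → k) (n : ℕ) (t : k) : ∏ i ∈ Finset.range n, (t - x i) =
    ∑ a ∈ Finset.range (n + 1), (LA_N x n).coeff a * t ^ a := by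
  have h := Polynomial.eval_eq_sum_range (p := LA_N x n) t
  rw [LA_deg] at h
  rw [← h, LA_N, Polynomial.eval_prod]
  simp

/-- Vandermonde determinant of a lower set.  Expand `X ^ n = ∑_{p ≤ n} h p n * ∏_{i<p} (X - x i)`
with `h n n = 1`; the matrix is a product of two matrices that are triangular for the
lexicographic order on `Λ`. -/
theorem newton (Λ : Finset (Fin 2 →₀ ℕ)) (hl : ∀ a ∈ Λ, ∀ a', a' ≤ a → a' ∈ Λ) (x y : ℕ → k) :
    (Matrix.of fun i j : Λ => eval ![x (j.1 0), y (j.1 1)] (monomial i.1 (1 : k))).det =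
      ∏ j : Λ, (∏ i ∈ Finset.range (j.1 0), (x (j.1 0) - x i)) *
        ∏ i ∈ Finset.range (j.1 1), (y (j.1 1) - y i) := by
  have hlt : ∀ a b : Λ, a.1 0 ≤ b.1 0 → a.1 1 ≤ b.1 1 → a = b ∨ a.1 0 + a.1 1 < b.1 0 + b.1 1 :=
    fun a b h0 h1 => by
      by_cases h : a.1 0 + a.1 1 < b.1 0 + b.1 1
      · exact .inr h
      · refine .inl (Subtype.ext (Finsupp.ext (Fin.forall_fin_two.2 ⟨?_, ?_⟩))) <;> omega
  obtain ⟨C, hC⟩ : ∃ C : Matrix Λ Λ k, C = Matrix.of fun i a : Λ =>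
    (LA_N x (i.1 0)).coeff (a.1 0) * (LA_N y (i.1 1)).coeff (a.1 1) := ⟨_, rfl⟩
  have h1 : C.det = 1 := by
    rw [← Matrix.det_transpose, LA_tri (fun a : Λ => a.1 0 + a.1 1)]
    · simp [hC, LA_top]
    · intro a i h
      rw [hC] at h
      exact hlt a i (LA_le x (left_ne_zero_of_mul h)) (LA_le y (right_ne_zero_of_mul h))
  have h2 : C * (Matrix.of fun i j : Λ => eval ![x (j.1 0), y (j.1 1)] (monomial i.1 (1 : k))) =
      Matrix.of fun i j : Λ => (∏ t ∈ Finset.range (i.1 0), (x (j.1 0) - x t)) *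
        ∏ t ∈ Finset.range (i.1 1), (y (j.1 1) - y t) := by
    ext i j
    rw [Matrix.mul_apply, Matrix.of_apply, LA_eval, LA_eval, Finset.sum_mul_sum,
      ← Finset.sum_product', hC]
    simp only [Matrix.of_apply]
    rw [Finset.sum_coe_sort Λ fun a => (LA_N x (i.1 0)).coeff (a 0) * (LA_N y (i.1 1)).coeff (a 1) *
      eval ![x (j.1 0), y (j.1 1)] (monomial a (1 : k))]
    refine (Finset.sum_of_injOn (fun p : ℕ × ℕ => Finsupp.single 0 p.1 + Finsupp.single 1 p.2)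
      (fun p _ q _ h => Prod.ext (by simpa using DFunLike.congr_fun h 0)
        (by simpa using DFunLike.congr_fun h 1)) (fun p hp => hl _ i.2 _ ?_) (fun a _ ha => ?_)
      fun p _ => ?_).symm
    · have h0 := Finset.mem_range.1 (Finset.mem_product.1 hp).1
      have h1 := Finset.mem_range.1 (Finset.mem_product.1 hp).2
      refine Finsupp.le_def.2 (Fin.forall_fin_two.2 ⟨?_, ?_⟩) <;> simp <;> omega
    · by_contra h
      have h3 := left_ne_zero_of_mul h
      refine ha ⟨(a 0, a 1), ?_, Finsupp.ext (Fin.forall_fin_two.2 ⟨by simp, by simp⟩)⟩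
      have := LA_le x (left_ne_zero_of_mul h3)
      have := LA_le y (right_ne_zero_of_mul h3)
      simp only [Finset.coe_product, Finset.coe_range, Set.mem_prod, Set.mem_Iio]
      omega
    · rw [eval_monomial, Finsupp.prod_fintype _ _ fun _ => pow_zero _]
      simp
      ring
  have h3 := congrArg Matrix.det h2
  rw [Matrix.det_mul, h1, one_mul] at h3
  rw [h3, LA_tri (fun a : Λ => a.1 0 + a.1 1)]
  · rfl
  · intro i j h
    refine hlt i j ?_ ?_
    · by_contra h0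
      exact left_ne_zero_of_mul h
        (Finset.prod_eq_zero (Finset.mem_range.2 (not_le.1 h0)) (sub_self _))
    · by_contra h0
      exact right_ne_zero_of_mul h
        (Finset.prod_eq_zero (Finset.mem_range.2 (not_le.1 h0)) (sub_self _))

end Pool.Agent.Work.MP_0a826e_ag.R
end

-- merged part: Pool.Agent.Work.MP_0a826e_ag.R.PA1
section
namespace Pool.Agent.Work.MP_0a826e_ag.R

open MvPolynomial

variable {k : Type} [Field k]

lemma PA1_deg (q : Fin 2 → Polynomial k) (hq : ∀ i, (q i).natDegree ≤ 1) (P : A2 k) :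
    (aeval q P).natDegree ≤ P.totalDegree := by
  rw [aeval_def, eval₂_eq']
  refine Polynomial.natDegree_sum_le_of_forall_le _ _ fun a ha => ?_
  refine (Polynomial.natDegree_C_mul_le _ _).trans ((Polynomial.natDegree_prod_le _ _).trans ?_)
  refine le_trans ?_ (le_totalDegree ha)
  rw [Finsupp.sum_fintype _ _ fun _ => rfl]
  refine Finset.sum_le_sum fun i _ => Polynomial.natDegree_pow_le.trans ?_
  simpa using Nat.mul_le_mul_left (a i) (hq i)

lemma PA1_eval (q : Fin 2 → Polynomial k) (s : k) (P : A2 k) :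
    (aeval q P).eval s = eval (fun i => (q i).eval s) P := by
  induction P using MvPolynomial.induction_on with
  | C a => simp
  | add a b ha hb => simp [ha, hb]
  | mul_X a i ha => simp [ha]

lemma PA1_low {S : Finset k} (p : Place S) {ξ s : k} {N m c3 : ℕ} (hξ : IsPrimitiveRoot ξ N)
    (h1 : m + 1 ≤ N) (h2 : N ≤ m + 1 + 1) (h3 : 1 ≤ p.A * p.v (N : k))
    (hs : p.v s = (p.A ^ c3)⁻¹) (w : k) {a : ℕ} (ha : a ≤ m) :
    1 ≤ p.A ^ (m + 3 + c3 * m) *
      ∏ i ∈ Finset.range a, p.v (w + s * ξ ^ a - (w + s * ξ ^ i)) := by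
  have hA := p.one_le_A
  have hA0 := p.A_pos
  have e : ∀ i, p.v (w + s * ξ ^ a - (w + s * ξ ^ i)) = (p.A ^ c3)⁻¹ * p.v (ξ ^ a - ξ ^ i) :=
    fun i => by rw [add_sub_add_left_eq_sub, ← mul_sub, map_mul, hs]
  have h4 := p.prod_root_sub hξ (i := a) (by omega)
  simp only [e, Finset.prod_mul_distrib, Finset.prod_const, Finset.card_range]
  have h5 : 0 ≤ ∏ i ∈ Finset.range a, p.v (ξ ^ a - ξ ^ i) :=
    Finset.prod_nonneg fun _ _ => p.v.nonneg _
  generalize (∏ i ∈ Finset.range a, p.v (ξ ^ a - ξ ^ i)) = D at h4 h5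
  have h6 : p.A ^ (N + 1 + c3 * a) ≤ p.A ^ (m + 3 + c3 * m) :=
    pow_le_pow_right₀ hA (by have := Nat.mul_le_mul_left c3 ha; omega)
  calc 1 ≤ p.A * (p.A ^ N * D) := h3.trans (by gcongr)
    _ = p.A ^ (N + 1 + c3 * a) * ((p.A ^ c3)⁻¹ ^ a * D) := by
        rw [inv_pow, ← pow_mul, pow_add _ (N + 1)]
        field_simp
        ring
    _ ≤ _ := by gcongr

/-- The determinant inequality.  Take `γ` from `la` with `u l = P * monomial l 1`.  At a place
choose `n ∈ {m+1, m+2}` by `exists_nat`, a primitive `n`-th root of unity `ξ`, and by `cau`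
(coefficient `0` of `∏_{l ∈ Λ} P (w0 0 + T ξ^(l 0), w0 1 + T ξ^(l 1))`, of degree at most
`Λ.card * totalDegree P`) an `s` with `v s = (A ^ c3)⁻¹`.  Use `newton`, `prod_root_sub`,
`det_le`. -/
theorem core [IsAlgClosed k] [CharZero k] (S : Finset k) {P : A2 k} (hP : P ≠ 0)
    (V : Submodule k (A2 k)) [FiniteDimensional k V] (𝒢 : Set (A2 k))
    (hG : Submodule.span k 𝒢 = V) (Λ : Finset (Fin 2 →₀ ℕ))
    (hl : ∀ a ∈ Λ, ∀ a', a' ≤ a → a' ∈ Λ) {m : ℕ} (hm : ∀ a ∈ Λ, a 0 ≤ m ∧ a 1 ≤ m)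
    (hV : ∀ a ∈ Λ, P * monomial a 1 ∈ V) (Z : Set (Pt k))
    (hZ : ∀ φ ∈ V, (∀ z ∈ Z, eval z φ = 0) → ∃ ψ : A2 k, ψ.support ⊆ Λ ∧ φ = P * ψ)
    (hZP : ∀ z ∈ Z, eval z P = 0) {k1 k2 : ℕ} (hk1 : (Module.finrank k V).factorial ≤ 2 ^ k1)
    (hk2 : Λ.card * P.totalDegree + 2 ≤ 2 ^ k2) :
    ∃ γ : k, γ ≠ 0 ∧ ∀ (p : Place S) (w0 : Pt k) (c3 : ℕ) (Zb Wb : ℝ), 1 ≤ Zb → 0 ≤ Wb →
      (∀ g ∈ 𝒢, ∀ z ∈ Z, p.v (eval z g) ≤ Zb) →
      (∀ g ∈ 𝒢, ∀ u : Pt k, (∀ i, p.v (u i - w0 i) ≤ (p.A ^ c3)⁻¹) → p.v (eval u g) ≤ Wb) →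
      p.v γ * p.v (eval w0 P) ^ Λ.card ≤
        p.A ^ (k1 + k2 + 1 + Λ.card * (2 * m + 6 + 2 * c3 * m)) * Zb ^ Module.finrank k V *
          Wb ^ Λ.card := by
  classical
  let u : Λ → A2 k := fun l => P * monomial l.1 1
  have hu : LinearIndependent k u := by
    have h1 : LinearIndependent k fun l : Λ => (monomial l.1 1 : A2 k) := by
      have := (basisMonomials (Fin 2) k).linearIndependent.comp (fun l : Λ => l.1)
        Subtype.val_injective
      simpa only [coe_basisMonomials, Function.comp_def] using this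
    exact h1.map' (LinearMap.mulLeft k P)
      (LinearMap.ker_eq_bot.2 fun a b e => mul_left_cancel₀ hP e)
  obtain ⟨n, z, g, γ, hγ, hz, hg, hn, hdet⟩ := la V 𝒢 hG u hu (fun l => hV l.1 l.2) Z
    (fun φ hφ h0 => by
      obtain ⟨ψ, hψ, rfl⟩ := hZ φ hφ h0
      rw [ψ.as_sum, Finset.mul_sum]
      refine Submodule.sum_mem _ fun a ha => ?_
      have : P * monomial a (coeff a ψ) = coeff a ψ • u ⟨a, hψ ha⟩ := by
        simp only [u]
        rw [← mul_smul_comm, smul_monomial, smul_eq_mul, mul_one]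
      rw [this]
      exact Submodule.smul_mem _ _ (Submodule.subset_span ⟨_, rfl⟩))
    (fun l x hx => by simp only [u, map_mul, hZP x hx, zero_mul])
  refine ⟨γ, hγ, fun p w0 c3 Zb Wb hZb hWb h1 h2 => ?_⟩
  rw [Fintype.card_coe] at hn
  obtain ⟨N, hN1, hN2, hN3⟩ := p.exists_nat (m + 1)
  have : NeZero (N : k) := ⟨Nat.cast_ne_zero.2 (by omega)⟩
  obtain ⟨ξ, hξ⟩ := HasEnoughRootsOfUnity.exists_primitiveRoot k N
  have hA := p.one_le_A
  have hA0 := p.A_pos
  let q : (Fin 2 →₀ ℕ) → Fin 2 → Polynomial k := fun l i =>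
    Polynomial.C (w0 i) + Polynomial.X * Polynomial.C (ξ ^ l i)
  let Q : Polynomial k := ∏ l ∈ Λ, aeval (q l) P
  have hQ : Q.natDegree + 2 ≤ 2 ^ k2 := by
    refine le_trans (Nat.add_le_add_right ((Polynomial.natDegree_prod_le _ _).trans ?_) 2) hk2
    refine (Finset.sum_le_card_nsmul _ _ P.totalDegree fun l _ => PA1_deg _ (fun i => ?_) P).trans
      (by rw [smul_eq_mul])
    refine (Polynomial.natDegree_add_le _ _).trans (max_le (by simp) ?_)
    exact (Polynomial.natDegree_mul_C_le _ _).trans Polynomial.natDegree_X_le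
  have hQe : ∀ s : k, Q.eval s = ∏ l ∈ Λ, eval (fun i => w0 i + s * ξ ^ l i) P := fun s => by
    simp only [Q, Polynomial.eval_prod, PA1_eval, q, Polynomial.eval_add, Polynomial.eval_mul,
      Polynomial.eval_C, Polynomial.eval_X]
  obtain ⟨ζ, hζ, hc⟩ := p.cau Q hQ ((p.π ^ c3)⁻¹) 0
  obtain ⟨s, hs⟩ : ∃ s, s = (p.π ^ c3)⁻¹ * ζ := ⟨_, rfl⟩
  have hvs : p.v s = (p.A ^ c3)⁻¹ := by rw [hs, map_mul, hζ, mul_one, map_inv₀, map_pow]; rfl
  rw [← hs, pow_zero, mul_one, Polynomial.coeff_zero_eq_eval_zero, hQe, hQe] at hc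
  simp only [zero_mul, add_zero, Finset.prod_const, map_pow] at hc
  let x : ℕ → k := fun i => w0 0 + s * ξ ^ i
  let y : ℕ → k := fun i => w0 1 + s * ξ ^ i
  let w : Λ → Pt k := fun j => ![x (j.1 0), y (j.1 1)]
  have hw : ∀ j : Λ, w j = fun i => w0 i + s * ξ ^ j.1 i := fun j => by
    funext i
    fin_cases i <;> rfl
  have hvξ : p.v ξ = 1 := p.v_root (by omega) hξ.pow_eq_one
  have d1 := p.det_le (Matrix.of fun i j => eval (Sum.elim z w j) (g i)) (n := k1)
    (by rw [Fintype.card_sum, Fintype.card_fin, Fintype.card_coe, hn]; exact hk1)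
    (Sum.elim (fun _ => Zb) fun _ => Wb) (fun i j => by
      rcases j with j | j
      · exact h1 _ (hg i) _ (hz j)
      · refine h2 _ (hg i) (w j) fun t => ?_
        rw [hw, add_sub_cancel_left, map_mul, map_pow, hvξ, one_pow, mul_one, hvs])
  have d2 : (Matrix.of fun i j => eval (w j) (u i)).det = (∏ j : Λ, eval (w j) P) *
      (Matrix.of fun i j : Λ => eval ![x (j.1 0), y (j.1 1)] (monomial i.1 (1 : k))).det := by
    rw [← Matrix.det_mul_row]
    congr 1
    ext i j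
    simp only [u, Matrix.of_apply, map_mul, w]
  rw [hdet w, d2, newton Λ hl x y, Fintype.prod_sum_type] at d1
  simp only [Sum.elim_inl, Sum.elim_inr, Finset.prod_const, Finset.card_univ, Fintype.card_fin,
    Fintype.card_coe, map_mul, map_prod] at d1
  have d3 : ∀ j : Λ, 1 ≤ p.A ^ (2 * m + 6 + 2 * c3 * m) *
      ((∏ i ∈ Finset.range (j.1 0), p.v (x (j.1 0) - x i)) *
        ∏ i ∈ Finset.range (j.1 1), p.v (y (j.1 1) - y i)) := fun j => by
    have a1 := PA1_low p hξ hN1 hN2 hN3 hvs (w0 0) (hm j.1 j.2).1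
    have a2 := PA1_low p hξ hN1 hN2 hN3 hvs (w0 1) (hm j.1 j.2).2
    have a3 := one_le_mul_of_one_le_of_one_le a1 a2
    rwa [mul_mul_mul_comm, ← pow_add, show m + 3 + c3 * m + (m + 3 + c3 * m) =
      2 * m + 6 + 2 * c3 * m by ring] at a3
  have d4 := Finset.prod_le_prod (s := Finset.univ) (fun _ _ => zero_le_one) fun j _ => d3 j
  rw [Finset.prod_const_one, Finset.prod_mul_distrib, Finset.prod_const, Finset.card_univ,
    Fintype.card_coe, ← pow_mul'] at d4
  have d5 : p.v (∏ l ∈ Λ, eval (fun i => w0 i + s * ξ ^ l i) P) = ∏ j : Λ, p.v (eval (w j) P) := by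
    rw [map_prod, ← Finset.prod_coe_sort]
    simp only [hw]
  rw [d5] at hc
  generalize (∏ j : Λ, (∏ i ∈ Finset.range (j.1 0), p.v (x (j.1 0) - x i)) *
    ∏ i ∈ Finset.range (j.1 1), p.v (y (j.1 1) - y i)) = D at d1 d4
  have e0 : 0 ≤ ∏ j : Λ, p.v (eval (w j) P) := Finset.prod_nonneg fun _ _ => p.v.nonneg _
  generalize (∏ j : Λ, p.v (eval (w j) P)) = E at d1 hc e0
  have e1 : Zb ^ n ≤ Zb ^ Module.finrank k V := pow_le_pow_right₀ hZb (by omega)
  have e2 := p.v.nonneg γ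
  generalize Λ.card * (2 * m + 6 + 2 * c3 * m) = c at d4 ⊢
  calc _ ≤ p.v γ * (p.A ^ (k2 + 1) * E) := by gcongr
    _ ≤ p.v γ * (p.A ^ (k2 + 1) * E) * (p.A ^ c * D) :=
        le_mul_of_one_le_right (by positivity) d4
    _ = p.A ^ (k2 + 1) * p.A ^ c * (p.v γ * (E * D)) := by ring
    _ ≤ p.A ^ (k2 + 1) * p.A ^ c * (p.A ^ k1 * (Zb ^ Module.finrank k V * Wb ^ Λ.card)) := by
        refine mul_le_mul_of_nonneg_left (d1.trans ?_) (by positivity)
        gcongr
    _ = _ := by ring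

end Pool.Agent.Work.MP_0a826e_ag.R
end

-- merged part: Pool.Agent.Work.MP_0a826e_ag.R.L2
section
namespace Pool.Agent.Work.MP_0a826e_ag.R

open MvPolynomial

variable {k : Type} [Field k]

variable {S : Finset k} {x y : k} {φ ψ : A2 k} {w : Fin 2 → ℕ}

theorem L2_le (p : Place S) {a b : ℕ} (h : a ≤ b) : p.A ^ a ≤ p.A ^ b :=
  pow_le_pow_right₀ p.one_le_A h

theorem L2_nn (p : Place S) (a : ℕ) : 0 ≤ p.A ^ a := (pow_pos p.A_pos a).le

theorem tame_of_mem (h : x ∈ S) : Tame S x := by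
  exact ⟨1, fun p => by rw [pow_one]; exact p.bd x h⟩

theorem tame_zero : Tame S (0 : k) := by
  exact ⟨0, fun p => by simp⟩

theorem tame_one : Tame S (1 : k) := by
  exact ⟨0, fun p => by simp⟩

theorem Tame.add (hx : Tame S x) (hy : Tame S y) : Tame S (x + y) := by
  obtain ⟨a, ha⟩ := hx
  obtain ⟨b, hb⟩ := hy
  refine ⟨a + b + 1, fun p => ?_⟩
  rw [pow_succ']
  exact p.add_le' ((ha p).trans (L2_le p (by omega))) ((hb p).trans (L2_le p (by omega)))

theorem Tame.neg (hx : Tame S x) : Tame S (-x) := by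
  obtain ⟨a, ha⟩ := hx
  exact ⟨a, fun p => by rw [AbsoluteValue.map_neg]; exact ha p⟩

theorem Tame.mul (hx : Tame S x) (hy : Tame S y) : Tame S (x * y) := by
  obtain ⟨a, ha⟩ := hx
  obtain ⟨b, hb⟩ := hy
  refine ⟨a + b, fun p => ?_⟩
  rw [map_mul, pow_add]
  exact mul_le_mul (ha p) (hb p) (p.v.nonneg _) (L2_nn p _)

theorem tame_sum {ι : Type} (s : Finset ι) (x : ι → k) (h : ∀ i ∈ s, Tame S (x i)) :
    Tame S (∑ i ∈ s, x i) := by
  exact Finset.sum_induction x (Tame S) (fun _ _ => Tame.add) tame_zero h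

theorem tameP_of_subset (h : ∀ a ∈ φ.support, coeff a φ ∈ S) : TameP S φ := by
  intro a
  by_cases ha : a ∈ φ.support
  · exact tame_of_mem (h a ha)
  · rw [notMem_support_iff.1 ha]
    exact tame_zero

theorem tameP_C (h : Tame S x) : TameP S (C x : A2 k) := by
  classical
  intro a
  rw [coeff_C]
  split_ifs
  exacts [h, tame_zero]

theorem tameP_X (i : Fin 2) : TameP S (X i : A2 k) := by
  classical
  intro a
  rw [coeff_X]
  split_ifs
  exacts [tame_one, tame_zero]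

theorem TameP.add (h : TameP S φ) (h' : TameP S ψ) : TameP S (φ + ψ) := by
  exact fun a => by rw [coeff_add]; exact (h a).add (h' a)

theorem TameP.sub (h : TameP S φ) (h' : TameP S ψ) : TameP S (φ - ψ) := by
  exact fun a => by rw [coeff_sub, sub_eq_add_neg]; exact (h a).add (h' a).neg

theorem TameP.mul (h : TameP S φ) (h' : TameP S ψ) : TameP S (φ * ψ) := by
  classical
  exact fun a => by rw [coeff_mul]; exact tame_sum _ _ fun b _ => (h _).mul (h' _)

theorem TameP.pow (h : TameP S φ) (n : ℕ) : TameP S (φ ^ n) := by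
  induction n with
  | zero => simpa using tameP_C (S := S) tame_one
  | succ n ih => rw [pow_succ]; exact ih.mul h

theorem TameP.cmp_tame (h : TameP S φ) (w : Fin 2 → ℕ) (n : ℕ) : TameP S (cmp w n φ) := by
  intro a
  rw [coeff_cmp]
  split_ifs
  exacts [h a, tame_zero]

theorem L2_mono (a : Fin 2 →₀ ℕ) (c : k) :
    (monomial a c : A2 k) = C c * (X 0 ^ a 0 * X 1 ^ a 1) := by
  rw [monomial_eq, Finsupp.prod_fintype _ _ (by simp), Fin.prod_univ_two]

theorem TameP.aeval_tame (h : TameP S φ) {g : Fin 2 → A2 k} (hg : ∀ i, TameP S (g i)) :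
    TameP S (aeval g φ) := by
  rw [φ.as_sum, map_sum]
  refine Finset.sum_induction _ (TameP S) (fun _ _ => TameP.add)
    (by simpa using tameP_C (S := S) tame_zero) fun a _ => ?_
  rw [L2_mono]
  simp only [map_mul, map_pow, aeval_X, aeval_C, algebraMap_eq]
  exact (tameP_C (h a)).mul (((hg 0).pow _).mul ((hg 1).pow _))

theorem tameP_iter {f : Fin 2 → A2 k} (hf : ∀ i, TameP S (f i)) (n : ℕ) (i : Fin 2) :
    TameP S (iter f n i) := by
  induction n generalizing i with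
  | zero => exact tameP_X i
  | succ n ih => exact (hf i).aeval_tame ih

theorem Bd.monomial {p : Place S} {u : Pt k} {ρ : ℝ} (h : Bd p w u ρ) (a : Fin 2 →₀ ℕ) :
    p.v (eval u (monomial a (1 : k))) ≤ ρ ^ wdeg w a := by
  rw [L2_mono]
  simp only [map_one, one_mul, map_mul, map_pow, eval_X, wdeg, pow_add, pow_mul]
  exact mul_le_mul (pow_le_pow_left₀ (p.v.nonneg _) (h 0) _)
    (pow_le_pow_left₀ (p.v.nonneg _) (h 1) _) (pow_nonneg (p.v.nonneg _) _)
    (pow_nonneg ((p.v.nonneg _).trans (h 0)) _)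

theorem Bd.mono {p : Place S} {u : Pt k} {ρ ρ' : ℝ} (h : Bd p w u ρ) (h0 : 0 ≤ ρ) (h' : ρ ≤ ρ') :
    Bd p w u ρ' := by
  exact fun i => (h i).trans (pow_le_pow_left₀ h0 h' _)

theorem TameP.ev_le (h : TameP S φ) (w : Fin 2 → ℕ) :
    ∃ c : ℕ, ∀ (p : Place S) (u : Pt k) (ρ : ℝ) (n : ℕ), 1 ≤ ρ → Bd p w u ρ → wt w φ ≤ n →
      p.v (eval u φ) ≤ p.A ^ c * ρ ^ n := by
  choose c hc using h
  refine ⟨φ.support.card + φ.support.sup c, fun p u ρ n h1 hu hn => ?_⟩
  have h0 : 0 ≤ ρ := zero_le_one.trans h1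
  conv_lhs => rw [φ.as_sum, map_sum]
  rw [pow_add, mul_assoc]
  refine p.sum_le _ _ Nat.lt_two_pow_self.le _ (mul_nonneg (L2_nn p _) (pow_nonneg h0 _))
    fun a ha => ?_
  have e : (monomial a (coeff a φ) : A2 k) = C (coeff a φ) * monomial a 1 := by
    rw [C_mul_monomial, mul_one]
  rw [e, map_mul, eval_C, map_mul]
  exact mul_le_mul ((hc a p).trans (L2_le p (Finset.le_sup ha)))
    ((hu.monomial a).trans (pow_le_pow_right₀ h1 ((wdeg_le_wt ha).trans hn))) (p.v.nonneg _)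
    (L2_nn p _)

/-- uniformly Lipschitz on bounded sets -/
def L2_Lip (S : Finset k) (c0 : ℕ) (φ : A2 k) : Prop :=
  ∃ c : ℕ, ∀ (p : Place S) (u u' : Pt k) (ε : ℝ), 0 ≤ ε → (∀ i, p.v (u i) ≤ p.A ^ c0) →
    (∀ i, p.v (u' i) ≤ p.A ^ c0) → (∀ i, p.v (u i - u' i) ≤ ε) →
    p.v (eval u φ - eval u' φ) ≤ p.A ^ c * ε

theorem L2_bd (h : TameP S φ) (c0 : ℕ) : ∃ c : ℕ, ∀ (p : Place S) (u : Pt k),
    (∀ i, p.v (u i) ≤ p.A ^ c0) → p.v (eval u φ) ≤ p.A ^ c := by
  obtain ⟨c, hc⟩ := h.ev_le fun _ => 1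
  refine ⟨c + c0 * wt (fun _ => 1) φ, fun p u hu => ?_⟩
  rw [pow_add, pow_mul]
  exact hc p u _ _ (one_le_pow₀ p.one_le_A) (fun i => by rw [pow_one]; exact hu i) le_rfl

theorem L2_C (c0 : ℕ) (x : k) : L2_Lip S c0 (C x) :=
  ⟨0, fun p u u' ε h0 _ _ _ => by simpa using h0⟩

theorem L2_X (c0 : ℕ) (i : Fin 2) : L2_Lip S c0 (X i) :=
  ⟨0, fun p u u' ε _ _ _ h => by simpa using h i⟩

theorem L2_add {c0 : ℕ} (h : L2_Lip S c0 φ) (h' : L2_Lip S c0 ψ) : L2_Lip S c0 (φ + ψ) := by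
  obtain ⟨a, ha⟩ := h
  obtain ⟨b, hb⟩ := h'
  refine ⟨a + b + 1, fun p u u' ε h0 h1 h2 h3 => ?_⟩
  rw [map_add, map_add, add_sub_add_comm, pow_succ', mul_assoc]
  exact p.add_le'
    ((ha p u u' ε h0 h1 h2 h3).trans (mul_le_mul_of_nonneg_right (L2_le p (by omega)) h0))
    ((hb p u u' ε h0 h1 h2 h3).trans (mul_le_mul_of_nonneg_right (L2_le p (by omega)) h0))

theorem L2_mul {c0 : ℕ} (t : TameP S φ) (t' : TameP S ψ) (h : L2_Lip S c0 φ)
    (h' : L2_Lip S c0 ψ) : L2_Lip S c0 (φ * ψ) := by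
  obtain ⟨a, ha⟩ := h
  obtain ⟨b, hb⟩ := h'
  obtain ⟨c, hc⟩ := L2_bd t c0
  obtain ⟨d, hd⟩ := L2_bd t' c0
  refine ⟨a + b + c + d + 1, fun p u u' ε h0 h1 h2 h3 => ?_⟩
  have e : eval u (φ * ψ) - eval u' (φ * ψ) =
      eval u ψ * (eval u φ - eval u' φ) + eval u' φ * (eval u ψ - eval u' ψ) := by
    rw [map_mul, map_mul]
    ring
  rw [e, pow_succ', mul_assoc]
  refine p.add_le' ?_ ?_
  · rw [map_mul]
    refine (mul_le_mul (hd p u h1) (ha p u u' ε h0 h1 h2 h3) (p.v.nonneg _) (L2_nn p _)).trans ?_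
    rw [← mul_assoc, ← pow_add]
    exact mul_le_mul_of_nonneg_right (L2_le p (by omega)) h0
  · rw [map_mul]
    refine (mul_le_mul (hc p u' h2) (hb p u u' ε h0 h1 h2 h3) (p.v.nonneg _) (L2_nn p _)).trans ?_
    rw [← mul_assoc, ← pow_add]
    exact mul_le_mul_of_nonneg_right (L2_le p (by omega)) h0

theorem L2_pow (c0 : ℕ) (i : Fin 2) (n : ℕ) : L2_Lip S c0 (X i ^ n) := by
  induction n with
  | zero => simpa using L2_C (S := S) c0 1
  | succ n ih =>
    rw [pow_succ]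
    exact L2_mul ((tameP_X i).pow n) (tameP_X i) ih (L2_X c0 i)

/-- Lipschitz estimate; write `φ` as a sum of monomials and telescope. -/
theorem TameP.lip (h : TameP S φ) (c0 : ℕ) :
    ∃ c : ℕ, ∀ (p : Place S) (u u' : Pt k) (ε : ℝ), 0 ≤ ε → (∀ i, p.v (u i) ≤ p.A ^ c0) →
      (∀ i, p.v (u' i) ≤ p.A ^ c0) → (∀ i, p.v (u i - u' i) ≤ ε) →
      p.v (eval u φ - eval u' φ) ≤ p.A ^ c * ε := by
  change L2_Lip S c0 φ
  rw [φ.as_sum]
  refine Finset.sum_induction _ (L2_Lip S c0) (fun _ _ => L2_add)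
    (by simpa using L2_C (S := S) c0 0) fun a _ => ?_
  rw [L2_mono]
  exact L2_mul (tameP_C (h a)) (((tameP_X 0).pow _).mul ((tameP_X 1).pow _)) (L2_C c0 _)
    (L2_mul ((tameP_X 0).pow _) ((tameP_X 1).pow _) (L2_pow c0 0 _) (L2_pow c0 1 _))

/-- by induction `Bd (f^n u) (A ^ (c * (d ^ n - 1)) * ρ ^ d ^ n)` -/
theorem tele {d : ℕ} {f F : Fin 2 → A2 k} (hw : ∀ i, 0 < w i) (hd : 2 ≤ d) (hb : Bnd w d f F)
    (hf : ∀ i, TameP S (f i)) :
    ∃ c : ℕ, ∀ (p : Place S) (u : Pt k) (ρ : ℝ) (n : ℕ), 1 ≤ ρ → Bd p w u ρ →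
      Bd p w ((ev f)^[n] u) ((p.A ^ c * ρ) ^ d ^ n) := by
  choose c hc using fun i => (hf i).ev_le w
  refine ⟨Finset.univ.sup c, fun p u ρ n h1 hu => ?_⟩
  have hA : 1 ≤ p.A ^ Finset.univ.sup c := one_le_pow₀ p.one_le_A
  have hc' : ∀ i, p.A ^ c i ≤ p.A ^ Finset.univ.sup c := fun i =>
    L2_le p (Finset.le_sup (Finset.mem_univ i))
  generalize p.A ^ Finset.univ.sup c = T at hA hc'
  have hT : 0 ≤ T := zero_le_one.trans hA
  have key : ∃ R, 1 ≤ R ∧ Bd p w ((ev f)^[n] u) R ∧ T * R ≤ (T * ρ) ^ d ^ n := by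
    induction n with
    | zero => exact ⟨ρ, h1, hu, by simp⟩
    | succ n ih =>
      obtain ⟨R, hR, hB, hle⟩ := ih
      have h0 : 0 ≤ R := zero_le_one.trans hR
      refine ⟨T * R ^ d, one_le_mul_of_one_le_of_one_le hA (one_le_pow₀ hR), fun i => ?_, ?_⟩
      · rw [Function.iterate_succ_apply', mul_pow, ← pow_mul]
        refine (hc i p _ R _ hR hB (hb.le i)).trans
          (mul_le_mul_of_nonneg_right ((hc' i).trans ?_) (pow_nonneg h0 _))
        exact le_self_pow₀ hA (hw i).ne'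
      · rw [pow_succ, pow_mul]
        refine le_trans ?_ (pow_le_pow_left₀ (mul_nonneg hT h0) hle d)
        rw [mul_pow, ← mul_assoc, ← sq]
        exact mul_le_mul_of_nonneg_right (pow_le_pow_right₀ hA hd) (pow_nonneg h0 _)
  obtain ⟨R, hR, hB, hle⟩ := key
  have h0 : 0 ≤ R := zero_le_one.trans hR
  exact hB.mono h0 ((le_mul_of_one_le_left h0 hA).trans hle)

end Pool.Agent.Work.MP_0a826e_ag.R
end

-- merged part: Pool.Agent.Work.MP_0a826e_ag.R.L3
section
namespace Pool.Agent.Work.MP_0a826e_ag.R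

open MvPolynomial

variable {k : Type} [Field k]

variable {S : Finset k} {w : Fin 2 → ℕ} {d : ℕ} {f F : Fin 2 → A2 k}

/-- tame data with bounded preperiodic points -/
structure Good (S : Finset k) (w : Fin 2 → ℕ) (d : ℕ) (f F : Fin 2 → A2 k) : Prop where
  reg : Reg w d f F
  tame : ∀ i, TameP S (f i)
  esc : ∃ c : ℕ, ∀ (p : Place S) (z : Pt k), Pre (ev f) z ∨ Pre (ev F) z → Bd p w z (p.A ^ c)

theorem L3_unif {ι : Type} [Fintype ι] {φ : ι → A2 k} (h : ∀ i, TameP S (φ i))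
    (w : Fin 2 → ℕ) :
    ∃ c : ℕ, ∀ (i : ι) (p : Place S) (u : Pt k) (ρ : ℝ) (n : ℕ), 1 ≤ ρ → Bd p w u ρ →
      wt w (φ i) ≤ n → p.v (eval u (φ i)) ≤ p.A ^ c * ρ ^ n := by
  choose c hc using fun i => (h i).ev_le w
  refine ⟨∑ i, c i, fun i p u ρ n h1 h2 h3 => (hc i p u ρ n h1 h2 h3).trans ?_⟩
  exact mul_le_mul_of_nonneg_right (pow_le_pow_right₀ p.one_le_A
    (Finset.single_le_sum (fun _ _ => Nat.zero_le _) (Finset.mem_univ i))) (by positivity)

theorem L3_low {D : ℕ} {g G : Fin 2 → A2 k} (hw : ∀ i, 0 < w i) (hD : 1 ≤ D) (hb : Bnd w D g G)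
    (i : Fin 2) : wt w (g i - G i) ≤ D * w i - 1 := by
  have h : D * w i = (D * w i - 1) + 1 := by
    have := Nat.mul_pos hD (hw i)
    omega
  rw [hb.eq i]
  have h1 := hb.le i
  rw [h] at h1
  have h2 := wt_sub_cmp_le h1
  rwa [← h] at h2

theorem L3_top {D : ℕ} {g G : Fin 2 → A2 k} (hb : Bnd w D g G) (hg : ∀ i, TameP S (g i))
    (i : Fin 2) : TameP S (G i) := by
  rw [hb.eq i]
  exact (hg i).cmp_tame _ _

/-- Escape radius.  Let `ρ(z) = max_i v(z i)^(1 / w i)` and let `z` be a point of the finite orbit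
with maximal `ρ`.  With `X i ^ e i = Cf i 0 * f 0 + Cf i 1 * f 1 + E i`, `wt (E i) ≤ W - 1`
(`E i = ∑ Cf i j * (F j - f j)`), and `Bd (f z) ρ`, one gets
`ρ ^ W ≤ A ^ c * ρ ^ (W - 1)` because `W - d * w j + w j ≤ W - 1`. -/
theorem escape (hw : ∀ i, 0 < w i) (hd : 2 ≤ d) (hb : Bnd w d f F) (hf : ∀ i, TameP S (f i))
    {W : ℕ} {e : Fin 2 → ℕ} {Cf : Fin 2 → Fin 2 → A2 k} (hW : 1 ≤ W) (he : ∀ i, e i * w i = W)
    (hC : ∀ i, (X i : A2 k) ^ e i = Cf i 0 * F 0 + Cf i 1 * F 1)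
    (hwt : ∀ i j, Cf i j = 0 ∨ wt w (Cf i j) + d * w j ≤ W) (ht : ∀ i j, TameP S (Cf i j)) :
    ∃ c : ℕ, ∀ (p : Place S) (z : Pt k), Pre (ev f) z → Bd p w z (p.A ^ c) := by
  obtain ⟨c1, h1⟩ := L3_unif (ι := Fin 2 × Fin 2) (φ := fun q => Cf q.1 q.2)
    (fun q => ht q.1 q.2) w
  obtain ⟨c2, h2⟩ := L3_unif (φ := fun j => f j - F j) (fun j => (hf j).sub (L3_top hb hf j)) w
  refine ⟨c1 + c2 + 2, fun p z hz => ?_⟩
  have hA := p.one_le_A
  obtain ⟨⟨y, i⟩, ⟨hy, -⟩, hm⟩ := Set.exists_max_image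
    ((Set.range fun n : ℕ => (ev f)^[n] z) ×ˢ (Set.univ : Set (Fin 2)))
    (fun q => p.v (q.1 q.2) ^ ((w q.2 : ℝ)⁻¹)) (Set.Finite.prod hz Set.finite_univ)
    ⟨(z, 0), ⟨0, rfl⟩, trivial⟩
  simp only at hy hm
  set ρ := p.v (y i) ^ ((w i : ℝ)⁻¹) with hρ
  have hρ0 : 0 ≤ ρ := Real.rpow_nonneg (p.v.nonneg _) _
  have hB : ∀ x ∈ Set.range fun n : ℕ => (ev f)^[n] z, Bd p w x ρ := fun x hx j => by
    rw [← Real.rpow_inv_natCast_pow (p.v.nonneg (x j)) (hw j).ne']
    exact pow_le_pow_left₀ (Real.rpow_nonneg (p.v.nonneg _) _) (hm (x, j) ⟨hx, trivial⟩) _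
  refine (hB z ⟨0, rfl⟩).mono hρ0 ?_
  rcases le_or_gt ρ 1 with h | h
  · exact h.trans (one_le_pow₀ hA)
  have hy1 : Bd p w (ev f y) ρ := by
    obtain ⟨n, rfl⟩ := hy
    exact hB _ ⟨n + 1, Function.iterate_succ_apply' _ _ _⟩
  have hT : ∀ j, p.v (eval y (Cf i j * F j)) ≤ p.A * (p.A ^ (c1 + c2) * ρ ^ (W - 1)) := by
    intro j
    rcases hwt i j with h0 | h0
    · rw [h0, zero_mul, map_zero, map_zero]
      have := p.A_pos
      positivity
    have a1 := h1 (i, j) p y ρ (W - d * w j) h.le (hB y hy) (by simp only; omega)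
    have a2 := h2 j p y ρ _ h.le (hB y hy) (L3_low hw (by omega) hb j)
    have a3 : p.v (eval y (f j)) ≤ ρ ^ w j := hy1 j
    have hj := hw j
    have hd' : 2 * w j ≤ d * w j := Nat.mul_le_mul_right _ hd
    have e1 : eval y (Cf i j * F j) =
        eval y (Cf i j) * eval y (f j) - eval y (Cf i j) * eval y (f j - F j) := by
      simp only [map_mul, map_sub]
      ring
    rw [e1]
    have hA0 := p.A_pos
    refine p.sub_le' ?_ ?_
    · rw [map_mul]
      refine (mul_le_mul a1 a3 (p.v.nonneg _) (by positivity)).trans ?_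
      rw [mul_assoc, ← pow_add]
      exact mul_le_mul (pow_le_pow_right₀ hA (by omega)) (pow_le_pow_right₀ h.le (by omega))
        (by positivity) (by positivity)
    · rw [map_mul]
      refine (mul_le_mul a1 a2 (p.v.nonneg _) (by positivity)).trans ?_
      rw [mul_mul_mul_comm, ← pow_add, ← pow_add]
      exact mul_le_mul_of_nonneg_left (pow_le_pow_right₀ h.le (by omega)) (by positivity)
  have hS := p.add_le' (hT 0) (hT 1)
  rw [← map_add, ← hC i, map_pow, eval_X, map_pow,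
    ← Real.rpow_inv_natCast_pow (p.v.nonneg (y i)) (hw i).ne', ← hρ, ← pow_mul, mul_comm (w i),
    he i] at hS
  have e2 : ρ ^ W = ρ * ρ ^ (W - 1) := by
    rw [← pow_succ']
    congr 1
    omega
  have e3 : p.A * (p.A * (p.A ^ (c1 + c2) * ρ ^ (W - 1))) = p.A ^ (c1 + c2 + 2) * ρ ^ (W - 1) := by
    ring
  rw [e2, e3] at hS
  exact le_of_mul_le_mul_right hS (pow_pos (by linarith only [h]) _)

theorem exists_good [IsAlgClosed k] (hw : ∀ i, 0 < w i) (hd : 2 ≤ d) (hf : Reg w d f F) :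
    ∃ S : Finset k, Good S w d f F := by
  classical
  obtain ⟨W, e, Cf, hW, he, hC, hwt⟩ := exists_cert hw hf
  let S : Finset k := (Finset.univ.biUnion fun i => (f i).support.image fun a => coeff a (f i)) ∪
    Finset.univ.biUnion fun q : Fin 2 × Fin 2 =>
      (Cf q.1 q.2).support.image fun a => coeff a (Cf q.1 q.2)
  have t1 : ∀ i, TameP S (f i) := fun i => tameP_of_subset fun a ha =>
    Finset.mem_union_left _ (Finset.mem_biUnion.2
      ⟨i, Finset.mem_univ _, Finset.mem_image_of_mem _ ha⟩)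
  have t2 : ∀ i j, TameP S (Cf i j) := fun i j => tameP_of_subset fun a ha =>
    Finset.mem_union_right _ (Finset.mem_biUnion.2
      ⟨(i, j), Finset.mem_univ _, Finset.mem_image_of_mem _ ha⟩)
  obtain ⟨c1, h1⟩ := escape hw hd hf.bnd t1 hW he hC hwt t2
  obtain ⟨c2, h2⟩ := escape hw hd hf.bnd.toTop (L3_top hf.bnd t1) hW he hC hwt t2
  refine ⟨S, hf, t1, c1 + c2, fun p z hz => ?_⟩
  have hA0 := p.A_pos
  rcases hz with hz | hz
  · exact (h1 p z hz).mono (by positivity) (pow_le_pow_right₀ p.one_le_A (by omega))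
  · exact (h2 p z hz).mono (by positivity) (pow_le_pow_right₀ p.one_le_A (by omega))

/-- Far from the origin `g` is its top part: `g i (act l u) = l ^ (D * w i) * G i u + lower`,
the lower part being `g i - G i`, of weight at most `D * w i - 1`, evaluated at a point of size
`A ^ c0 * v l`. -/
theorem far {D : ℕ} {g G : Fin 2 → A2 k} (hw : ∀ i, 0 < w i) (hD : 1 ≤ D) (hb : Bnd w D g G)
    (hg : ∀ i, TameP S (g i)) (c0 : ℕ) :
    ∃ c : ℕ, ∀ (p : Place S) (u : Pt k) (l : k), p.A ^ c ≤ p.v l → Bd p w u (p.A ^ c0) →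
      Bd p w (ev G u) (p.A ^ c0) → Bd p w (ev g (act w l u)) (p.A ^ (c0 + 1) * p.v l ^ D) := by
  obtain ⟨c1, h1⟩ := L3_unif (φ := fun j => g j - G j) (fun j => (hg j).sub (L3_top hb hg j)) w
  refine ⟨c1 + c0 * ∑ j, D * w j, fun p u l hl hu hG i => ?_⟩
  have hA := p.one_le_A
  have hA0 := p.A_pos
  have hl1 : 1 ≤ p.v l := (one_le_pow₀ hA).trans hl
  have hact : Bd p w (act w l u) (p.A ^ c0 * p.v l) := fun j => by
    rw [act, map_mul, map_pow, mul_pow, mul_comm]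
    exact mul_le_mul_of_nonneg_right (hu j) (by positivity)
  have a1 := h1 i p _ _ _ (one_le_mul_of_one_le_of_one_le (one_le_pow₀ hA) hl1) hact
    (L3_low hw hD hb i)
  have hpos := Nat.mul_pos hD (hw i)
  have hle : D * w i ≤ ∑ j, D * w j :=
    Finset.single_le_sum (f := fun j => D * w j) (fun _ _ => Nat.zero_le _) (Finset.mem_univ i)
  have a2 : p.v (eval (act w l u) (g i - G i)) ≤ (p.A ^ c0 * p.v l ^ D) ^ w i := by
    refine a1.trans ?_
    have e1 : p.v l ^ (D * w i) = p.v l * p.v l ^ (D * w i - 1) := by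
      rw [← pow_succ']
      congr 1
      omega
    rw [mul_pow, mul_pow, ← pow_mul, ← pow_mul, ← pow_mul, ← mul_assoc, ← pow_add, e1,
      ← mul_assoc]
    refine mul_le_mul_of_nonneg_right ?_ (by positivity)
    refine le_trans ?_ (le_mul_of_one_le_left (by positivity) (one_le_pow₀ hA))
    refine le_trans (pow_le_pow_right₀ hA ?_) hl
    exact Nat.add_le_add_left (Nat.mul_le_mul_left _ (by omega)) _
  have a3 : p.v (eval (act w l u) (G i)) ≤ (p.A ^ c0 * p.v l ^ D) ^ w i := by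
    rw [(hb.isHom i).eval_act_eq, map_mul, map_pow, mul_pow, ← pow_mul (p.v l), mul_comm]
    exact mul_le_mul_of_nonneg_right (hG i) (by positivity)
  have a4 := p.add_le' a2 a3
  rw [← map_add, sub_add_cancel] at a4
  refine a4.trans ?_
  rw [pow_succ', mul_assoc, mul_pow p.A]
  exact mul_le_mul_of_nonneg_right (le_self_pow₀ hA (hw i).ne') (by positivity)

end Pool.Agent.Work.MP_0a826e_ag.R
end

-- merged part: Pool.Agent.Work.MP_0a826e_ag.R.AR
section
namespace Pool.Agent.Work.MP_0a826e_ag.R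

open MvPolynomial

variable {k : Type} [Field k]

theorem log_small (J c : ℕ) : ∃ M0 : ℕ, ∀ M, M0 ≤ M → ∃ n : ℕ, (M + 1) ^ c + 2 ≤ 2 ^ n ∧
    J * (n + 1) ≤ M := by
  refine ⟨(J * (2 * c + 3) + 1) ^ 2, fun M hM => ⟨2 * M.sqrt * c + 2, ?_, ?_⟩⟩
  · have h1 : M + 1 ≤ (M.sqrt + 1) ^ 2 := Nat.lt_succ_sqrt' M
    have h2 : M.sqrt + 1 ≤ 2 ^ M.sqrt := Nat.lt_two_pow_self
    have h3 : (M + 1) ^ c ≤ 2 ^ (2 * M.sqrt * c) := by
      calc (M + 1) ^ c ≤ ((2 ^ M.sqrt) ^ 2) ^ c :=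
            Nat.pow_le_pow_left (h1.trans (Nat.pow_le_pow_left h2 2)) c
        _ = 2 ^ (2 * M.sqrt * c) := by rw [← pow_mul, ← pow_mul]; ring_nf
    have h4 : 0 < 2 ^ (2 * M.sqrt * c) := by positivity
    rw [pow_add]
    omega
  · have h1 : J * (2 * c + 3) + 1 ≤ M.sqrt := Nat.le_sqrt'.2 hM
    have h2 : M.sqrt * M.sqrt ≤ M := Nat.sqrt_le M
    generalize M.sqrt = t at h1 h2
    calc J * (2 * t * c + 2 + 1) ≤ J * (2 * t * c + 3 * t) := by
          apply Nat.mul_le_mul_left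
          omega
      _ = J * (2 * c + 3) * t := by ring
      _ ≤ t * t := Nat.mul_le_mul_right _ (by omega)
      _ ≤ M := h2

/-- The choice of constants.  Take `J1 ≥ J` with `8 * J * (2 + 2 * c3) ≤ J1`, put
`Cs = 36 * (a * J1) ^ 2`, so that `(M + m + 1) ^ 2 ≤ Cs * r` (as `m / a + 1 > M / (a * J1)`),
take `n` with `d ^ n ≥ 16 * J * c2 * Cs`; the other terms are `o(r * M)`:
`N! ≤ N ^ N ≤ 2 ^ (N * L)` when `N ≤ 2 ^ L`, with `L` from `log_small`. -/
theorem asym (a c2 c3 c J d n0 : ℕ) (ha : 1 ≤ a) (hJ : 1 ≤ J) (hd : 2 ≤ d) :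
    ∃ J1 n : ℕ, J ≤ J1 ∧ n0 ≤ n ∧ ∀ B : ℕ, ∃ M0 : ℕ, ∀ M, M0 ≤ M → ∃ k1 k2 : ℕ,
      ((M + M / J1 + 1) ^ 2).factorial ≤ 2 ^ k1 ∧ (M / J1 + 1) ^ 2 * M + 2 ≤ 2 ^ k2 ∧
      ∀ r, (M / J1 / a + 1) ^ 2 ≤ r →
        J * (k1 + k2 + 1 + r * (2 * (M / J1) + 6 + 2 * c3 * (M / J1)) +
          (M + M / J1 + 1) ^ 2 * (c2 * (B + (M + M / J1) / d ^ n)) + r * ((c + 1) * B)) ≤
          r * M := by
  obtain ⟨J1, hJ1⟩ : ∃ J1, J1 = 8 * J * (2 + 2 * c3) := ⟨_, rfl⟩
  obtain ⟨Cs, hCs⟩ : ∃ Cs, Cs = (2 * J1 * a) ^ 2 := ⟨_, rfl⟩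
  have hJJ : J ≤ J1 := by rw [hJ1]; linarith only [hJ, mul_nonneg_of_nonpos_of_nonpos (Mathlib.Tactic.Linarith.sub_nonpos_of_le (Mathlib.Tactic.Linarith.natCast_nonneg ℤ J)) (Mathlib.Tactic.Linarith.sub_nonpos_of_le (Mathlib.Tactic.Linarith.natCast_nonneg ℤ c3))]
  have hJ0 : 0 < J1 := by omega
  have hC0 : 1 ≤ Cs := by
    rw [hCs]
    exact Nat.pos_of_ne_zero (by positivity)
  refine ⟨J1, n0 + 16 * J * c2 * Cs, hJJ, Nat.le_add_right _ _, fun B => ?_⟩
  have hdn : 16 * J * c2 * Cs ≤ d ^ (n0 + 16 * J * c2 * Cs) :=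
    (Nat.le_add_left _ n0).trans (Nat.lt_pow_self (by omega)).le
  generalize d ^ (n0 + 16 * J * c2 * Cs) = D at hdn
  obtain ⟨M1, hM1⟩ := log_small (8 * J * Cs) 4
  refine ⟨M1 + 48 * J + 8 * J * Cs * c2 * B + 8 * J * ((c + 1) * B), fun M hM => ?_⟩
  obtain ⟨L, hL1, hL2⟩ := hM1 M (by omega)
  have hm1 : M / J1 ≤ M := Nat.div_le_self _ _
  have hm2 : J1 * (M / J1) ≤ M := Nat.mul_div_le _ _
  have hm3 : M < J1 * (M / J1 + 1) := Nat.lt_mul_div_succ M hJ0
  generalize M / J1 = m at hm1 hm2 hm3 ⊢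
  have hN1 : (M + m + 1) ^ 2 ≤ 2 ^ L := by
    have h1 : M + m + 1 ≤ (M + 1) ^ 2 := by linarith only [hm1, mul_nonneg_of_nonpos_of_nonpos (Mathlib.Tactic.Linarith.sub_nonpos_of_le (Mathlib.Tactic.Linarith.natCast_nonneg ℤ M)) (Mathlib.Tactic.Linarith.sub_nonpos_of_le (Mathlib.Tactic.Linarith.natCast_nonneg ℤ M))]
    have h2 : (M + m + 1) ^ 2 ≤ (M + 1) ^ 4 :=
      (Nat.pow_le_pow_left h1 2).trans (by rw [← pow_mul])
    omega
  refine ⟨L * (M + m + 1) ^ 2, L, ?_, ?_, fun r hr => ?_⟩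
  · rw [pow_mul]
    exact (Nat.factorial_le_pow _).trans (Nat.pow_le_pow_left hN1 _)
  · refine le_trans (Nat.add_le_add_right ?_ 2) hL1
    calc (m + 1) ^ 2 * M ≤ (M + 1) ^ 2 * (M + 1) ^ 2 := by
          apply Nat.mul_le_mul (Nat.pow_le_pow_left (by omega) 2)
          linarith only [sq_nonneg (↑M + (1 : ℤ)), mul_nonneg_of_nonpos_of_nonpos (Mathlib.Tactic.Linarith.sub_nonpos_of_le (Mathlib.Tactic.Linarith.natCast_nonneg ℤ M)) (Mathlib.Tactic.Linarith.sub_nonpos_of_le (Mathlib.Tactic.Linarith.natCast_nonneg ℤ M))]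
      _ = (M + 1) ^ 4 := by ring
  have ht : m < a * (m / a + 1) := Nat.lt_mul_div_succ m ha
  generalize m / a + 1 = t at hr ht
  have hN2 : (M + m + 1) ^ 2 ≤ Cs * r := by
    have h1 : J1 * (m + 1) ≤ J1 * (a * t) := Nat.mul_le_mul_left _ ht
    have h2 : 1 * (m + 1) ≤ J1 * (a * t) := Nat.mul_le_mul hJ0 ht
    have h3 : M + m + 1 ≤ 2 * J1 * a * t := by
      have : 2 * J1 * a * t = 2 * (J1 * (a * t)) := by ring
      omega
    calc (M + m + 1) ^ 2 ≤ (2 * J1 * a * t) ^ 2 := Nat.pow_le_pow_left h3 2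
      _ = Cs * t ^ 2 := by rw [hCs, mul_pow]
      _ ≤ Cs * r := Nat.mul_le_mul_left _ hr
  have hr1 : 1 ≤ r := by
    rcases Nat.eq_zero_or_pos r with rfl | h
    · have : 0 < (M + m + 1) ^ 2 := by positivity
      omega
    · exact h
  have hq : D * ((M + m) / D) ≤ M + m := Nat.mul_div_le _ _
  generalize (M + m) / D = q at hq
  generalize (M + m + 1) ^ 2 = N at hN2
  have t1 : 8 * (J * (L * N)) ≤ r * M := by
    calc 8 * (J * (L * N)) ≤ 8 * (J * ((L + 1) * (Cs * r))) := by gcongr; omega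
      _ = r * (8 * J * Cs * (L + 1)) := by ring
      _ ≤ r * M := Nat.mul_le_mul_left _ hL2
  have t2 : 8 * (J * (L + 1)) ≤ r * M := by
    calc 8 * (J * (L + 1)) = 1 * (8 * J * 1 * (L + 1)) := by ring
      _ ≤ r * (8 * J * Cs * (L + 1)) := by gcongr
      _ ≤ r * M := Nat.mul_le_mul_left _ hL2
  have t3 : 8 * (J * (r * (2 * m + 2 * c3 * m))) ≤ r * M := by
    calc 8 * (J * (r * (2 * m + 2 * c3 * m))) = r * (J1 * m) := by rw [hJ1]; ring
      _ ≤ r * M := Nat.mul_le_mul_left _ hm2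
  have t4 : 8 * (J * (r * 6)) ≤ r * M := by
    calc 8 * (J * (r * 6)) = r * (48 * J) := by ring
      _ ≤ r * M := Nat.mul_le_mul_left _ (by omega)
  have t5 : 8 * (J * (N * (c2 * B))) ≤ r * M := by
    calc 8 * (J * (N * (c2 * B))) ≤ 8 * (J * (Cs * r * (c2 * B))) := by gcongr
      _ = r * (8 * J * Cs * c2 * B) := by ring
      _ ≤ r * M := Nat.mul_le_mul_left _ (by omega)
  have t6 : 8 * (J * (N * (c2 * q))) ≤ r * M := by
    have h1 : 16 * J * c2 * Cs * q ≤ D * q := Nat.mul_le_mul_right _ hdn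
    have h2 : 16 * J * c2 * Cs * q = 2 * (8 * J * c2 * Cs * q) := by ring
    calc 8 * (J * (N * (c2 * q))) ≤ 8 * (J * (Cs * r * (c2 * q))) := by gcongr
      _ = r * (8 * J * c2 * Cs * q) := by ring
      _ ≤ r * M := Nat.mul_le_mul_left _ (by omega)
  have t7 : 8 * (J * (r * ((c + 1) * B))) ≤ r * M := by
    calc 8 * (J * (r * ((c + 1) * B))) = r * (8 * J * ((c + 1) * B)) := by ring
      _ ≤ r * M := Nat.mul_le_mul_left _ (by omega)
  have e : J * (L * N + L + 1 + r * (2 * m + 6 + 2 * c3 * m) + N * (c2 * (B + q)) +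
      r * ((c + 1) * B)) = J * (L * N) + J * (L + 1) + J * (r * (2 * m + 2 * c3 * m)) +
      J * (r * 6) + J * (N * (c2 * B)) + J * (N * (c2 * q)) + J * (r * ((c + 1) * B)) := by ring
  rw [e]
  omega

end Pool.Agent.Work.MP_0a826e_ag.R
end

-- merged part: Pool.Agent.Work.MP_0a826e_ag.R.PA2
section
namespace Pool.Agent.Work.MP_0a826e_ag.R

open MvPolynomial

variable {k : Type} [Field k]

variable {S : Finset k} {w : Fin 2 → ℕ} {d : ℕ} {f F : Fin 2 → A2 k}

/-- polynomials of weight at most `D` -/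
noncomputable def Vw (k : Type) [Field k] (w : Fin 2 → ℕ) (D : ℕ) : Submodule k (A2 k) where
  carrier := {φ | wt w φ ≤ D}
  add_mem' := fun h h' => wt_add_le h h'
  zero_mem' := by simp [wt_zero]
  smul_mem' := by
    intro c φ h
    have h' : wt w φ ≤ D := h
    show wt w (c • φ) ≤ D
    rw [smul_eq_C_mul]
    refine (wt_mul_le w _ _).trans ?_
    rw [wt_C, zero_add]
    exact h'

/-- exponents of weight at most `m` -/
noncomputable def Lw (w : Fin 2 → ℕ) (m : ℕ) : Finset (Fin 2 →₀ ℕ) :=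
  ((Finset.range (m + 1) ×ˢ Finset.range (m + 1)).image
    fun x => Finsupp.single 0 x.1 + Finsupp.single 1 x.2).filter fun a => wdeg w a ≤ m

theorem PA2_zero (i j : ℕ) : (Finsupp.single 0 i + Finsupp.single 1 j : Fin 2 →₀ ℕ) 0 = i := by
  simp

theorem PA2_one (i j : ℕ) : (Finsupp.single 0 i + Finsupp.single 1 j : Fin 2 →₀ ℕ) 1 = j := by
  simp

theorem PA2_eq (a : Fin 2 →₀ ℕ) : Finsupp.single 0 (a 0) + Finsupp.single 1 (a 1) = a := by
  ext i
  fin_cases i <;> simp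

theorem PA2_le (hw : ∀ i, 0 < w i) {m : ℕ} {a : Fin 2 →₀ ℕ} (h : wdeg w a ≤ m) :
    a 0 ≤ m ∧ a 1 ≤ m := by
  have h0 := Nat.le_mul_of_pos_left (a 0) (hw 0)
  have h1 := Nat.le_mul_of_pos_left (a 1) (hw 1)
  unfold wdeg at h
  omega

theorem mem_Lw (hw : ∀ i, 0 < w i) {m : ℕ} {a : Fin 2 →₀ ℕ} : a ∈ Lw w m ↔ wdeg w a ≤ m := by
  refine ⟨fun h => (Finset.mem_filter.1 h).2, fun h => Finset.mem_filter.2 ⟨?_, h⟩⟩
  refine Finset.mem_image.2 ⟨(a 0, a 1), Finset.mem_product.2 ⟨?_, ?_⟩, PA2_eq a⟩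
  · exact Finset.mem_range.2 (Nat.lt_succ_of_le (PA2_le hw h).1)
  · exact Finset.mem_range.2 (Nat.lt_succ_of_le (PA2_le hw h).2)

theorem card_Lw (hw : ∀ i, 0 < w i) (m : ℕ) :
    (m / (w 0 + w 1) + 1) ^ 2 ≤ (Lw w m).card ∧ (Lw w m).card ≤ (m + 1) ^ 2 := by
  constructor
  · have h1 : (Finset.range (m / (w 0 + w 1) + 1) ×ˢ Finset.range (m / (w 0 + w 1) + 1)).card =
        (m / (w 0 + w 1) + 1) ^ 2 := by
      rw [Finset.card_product, Finset.card_range, sq]
    rw [← h1]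
    refine Finset.card_le_card_of_injOn
      (fun x : ℕ × ℕ => (Finsupp.single 0 x.1 + Finsupp.single 1 x.2 : Fin 2 →₀ ℕ)) ?_ ?_
    · intro x hx
      obtain ⟨h2, h3⟩ := Finset.mem_product.1 (Finset.mem_coe.1 hx)
      have h4 := Nat.mul_le_mul_left (w 0) (Nat.le_of_lt_succ (Finset.mem_range.1 h2))
      have h5 := Nat.mul_le_mul_left (w 1) (Nat.le_of_lt_succ (Finset.mem_range.1 h3))
      have h6 := Nat.mul_div_le m (w 0 + w 1)
      refine Finset.mem_coe.2 ((mem_Lw hw).2 ?_)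
      rw [wdeg, PA2_zero, PA2_one]
      rw [add_mul] at h6
      omega
    · intro x _ y _ h
      have h0 := congrArg (fun a : Fin 2 →₀ ℕ => a 0) h
      have h1 := congrArg (fun a : Fin 2 →₀ ℕ => a 1) h
      simp only [PA2_zero, PA2_one] at h0 h1
      exact Prod.ext h0 h1
  · refine (Finset.card_filter_le _ _).trans (Finset.card_image_le.trans ?_)
    rw [Finset.card_product, Finset.card_range, sq]

theorem Vw_fd (hw : ∀ i, 0 < w i) (D : ℕ) :
    FiniteDimensional k (Vw k w D) ∧ Module.finrank k (Vw k w D) ≤ (D + 1) ^ 2 := by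
  classical
  have hle : Vw k w D ≤ Submodule.span k
      (((Lw w D).image fun a => (monomial a (1 : k) : A2 k) : Finset (A2 k)) : Set (A2 k)) := by
    intro φ hφ
    have hφ' : wt w φ ≤ D := hφ
    rw [φ.as_sum]
    refine Submodule.sum_mem _ fun a ha => ?_
    have h1 : (monomial a (coeff a φ) : A2 k) = coeff a φ • monomial a (1 : k) := by
      rw [smul_monomial, smul_eq_mul, mul_one]
    rw [h1]
    refine Submodule.smul_mem _ _ (Submodule.subset_span ?_)
    exact Finset.mem_coe.2 (Finset.mem_image.2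
      ⟨a, (mem_Lw hw).2 ((wdeg_le_wt ha).trans hφ'), rfl⟩)
  refine ⟨Submodule.finiteDimensional_of_le hle, (Submodule.finrank_mono hle).trans ?_⟩
  exact (finrank_span_finset_le_card _).trans (Finset.card_image_le.trans (card_Lw hw D).2)

theorem PA2_pre_iterate {X : Type} {φ : X → X} {x : X} (h : Pre φ x) (n : ℕ) :
    Pre φ (φ^[n] x) := by
  refine h.subset ?_
  rintro _ ⟨j, rfl⟩
  exact ⟨j + n, Function.iterate_add_apply φ j n x⟩

theorem PA2_eval (g : Fin 2 → A2 k) (b a : Fin 2 →₀ ℕ) (u : Pt k) :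
    eval u (monomial b 1 * g 0 ^ a 0 * g 1 ^ a 1) =
      eval u (monomial b (1 : k)) * eval (ev g u) (monomial a (1 : k)) := by
  rw [eval_monomial (s := a), Finsupp.prod_fintype _ _ (fun _ => pow_zero _), Fin.prod_univ_two,
    one_mul, map_mul, map_mul, map_pow, map_pow, mul_assoc]
  rfl

theorem PA2_bound {p : Place S} (g : Fin 2 → A2 k) (b a : Fin 2 →₀ ℕ) {u : Pt k} {ρ σ : ℝ}
    (hρ : 1 ≤ ρ) (h1 : Bd p w u ρ) (h2 : Bd p w (ev g u) σ) {B : ℕ}
    (hB : wdeg w b ≤ B) :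
    p.v (eval u (monomial b 1 * g 0 ^ a 0 * g 1 ^ a 1)) ≤ ρ ^ B * σ ^ wdeg w a := by
  rw [PA2_eval, map_mul]
  exact mul_le_mul ((h1.monomial b).trans (pow_le_pow_right₀ hρ hB)) (h2.monomial a)
    (p.v.nonneg _) (pow_nonneg (zero_le_one.trans hρ) _)

theorem PA2_near (hw : ∀ i, 0 < w i) {p : Place S} {u u' : Pt k} {ρ : ℝ} (hρ : 1 ≤ ρ)
    (h : Bd p w u' ρ) (h' : ∀ i, p.v (u i - u' i) ≤ 1) : Bd p w u (p.A * ρ) := by
  intro i
  have h1 : p.v (u i - u' i + u' i) ≤ p.A * ρ ^ w i :=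
    p.add_le' ((h' i).trans (one_le_pow₀ hρ)) (h i)
  rw [sub_add_cancel] at h1
  refine h1.trans ?_
  rw [mul_pow]
  exact mul_le_mul_of_nonneg_right (le_self_pow₀ p.one_le_A (hw i).ne')
    (pow_nonneg (zero_le_one.trans hρ) _)

theorem PA2_span {D q M : ℕ} {g G : Fin 2 → A2 k} {b : Fin q → Fin 2 →₀ ℕ} (hb : Bnd w D g G)
    (hfr : Fr G b) (hs : Sp g b) :
    Submodule.span k {ψ : A2 k | ∃ (i : Fin q) (a : Fin 2 →₀ ℕ),
      wdeg w (b i) + D * wdeg w a ≤ M ∧ ψ = monomial (b i) 1 * g 0 ^ a 0 * g 1 ^ a 1} =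
      Vw k w M := by
  apply le_antisymm
  · rw [Submodule.span_le]
    rintro _ ⟨i, a, h, rfl⟩
    show wt w _ ≤ M
    have h1 := wt_mul_le w (monomial (b i) (1 : k) * g 0 ^ a 0) (g 1 ^ a 1)
    have h2 := wt_mul_le w (monomial (b i) (1 : k)) (g 0 ^ a 0)
    have h3 := wt_monomial_le w (b i) (1 : k)
    have h4 := Nat.mul_le_mul_left (a 0) (hb.le 0)
    have h5 := Nat.mul_le_mul_left (a 1) (hb.le 1)
    rw [← wt_pow] at h4 h5
    have h6 : D * wdeg w a = a 0 * (D * w 0) + a 1 * (D * w 1) := by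
      unfold wdeg
      ring
    omega
  · intro φ hφ
    have h1 := mem_span_of_wt hs (ι := Unit) (fun _ => w) (fun _ => G) (fun _ => hb)
      (fun _ => hfr) (fun _ => M) φ (fun _ => hφ)
    refine Submodule.span_mono ?_ h1
    rintro _ ⟨i, a, h, rfl⟩
    exact ⟨i, a, h (), rfl⟩

/-- `core` for `V = Vw k w (M + m)`, `Λ = Lw w m`, `g = iter f n`, spanning set from
`mem_span_of_wt` (one weight), `B` the largest weight of a basis monomial.
`c1` from `tele`, `c2` from `Good.esc`, `c3` from `lip` for `iter f n0 i` on points of size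
`A ^ ((c + 1) * (w 0 + w 1))`. -/
theorem pa_w [IsAlgClosed k] [CharZero k] (hw : ∀ i, 0 < w i) (hd : 2 ≤ d)
    (hG : Good S w d f F) :
    ∃ c1 c2 : ℕ, ∀ n0 c : ℕ, ∃ c3 : ℕ, ∀ n, n0 ≤ n → ∃ B : ℕ, ∀ P : A2 k, Irreducible P →
      {z | eval z P = 0 ∧ Pre (ev f) z}.Infinite → ∀ m k1 k2 : ℕ,
      ((wt w P + m + 1) ^ 2).factorial ≤ 2 ^ k1 → (m + 1) ^ 2 * wt w P + 2 ≤ 2 ^ k2 →
      ∃ (γ : k) (r : ℕ), γ ≠ 0 ∧ (m / (w 0 + w 1) + 1) ^ 2 ≤ r ∧ r ≤ (m + 1) ^ 2 ∧
        ∀ (p : Place S) (w0 : Pt k) (ρ : ℝ), 1 ≤ ρ → Bd p w w0 (p.A ^ c) →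
          Bd p w ((ev f)^[n0] w0) ρ →
          p.v γ * p.v (eval w0 P) ^ r ≤
            p.A ^ (k1 + k2 + 1 + r * (2 * m + 6 + 2 * c3 * m) +
              (wt w P + m + 1) ^ 2 * (c2 * (B + (wt w P + m) / d ^ n)) + r * ((c + 1) * B)) *
            (p.A ^ c1 * ρ) ^ (r * ((wt w P + m) / d ^ n0)) := by
  obtain ⟨c1, hc1⟩ := tele hw hd hG.reg.bnd hG.tame
  obtain ⟨c2, hc2⟩ := hG.esc
  refine ⟨c1 + 1, c2, fun n0 c => ?_⟩
  choose cl hcl using fun i => (tameP_iter hG.tame n0 i).lip ((c + 1) * (w 0 + w 1))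
  refine ⟨cl 0 + cl 1, fun n hn => ?_⟩
  have hd1 : 1 ≤ d := by omega
  have hdn : ∀ j, 1 ≤ d ^ j := fun j => Nat.one_le_pow j d hd1
  have hreg := hG.reg.of_iter hd1 n
  obtain ⟨q, b, -, hfr, -, -, hsp⟩ := hreg.exists_fr_sp hw (hdn n)
  refine ⟨Finset.univ.sup fun i => wdeg w (b i), fun P hP hinf m k1 k2 hk1 hk2 => ?_⟩
  have hB : ∀ i, wdeg w (b i) ≤ Finset.univ.sup fun i => wdeg w (b i) := fun i =>
    Finset.le_sup (f := fun i => wdeg w (b i)) (Finset.mem_univ i)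
  generalize (Finset.univ.sup fun i => wdeg w (b i)) = B at hB
  have hP0 : P ≠ 0 := hP.ne_zero
  obtain ⟨hfd, hrk⟩ := Vw_fd (k := k) hw (wt w P + m)
  obtain ⟨γ, hγ, H⟩ := core S hP0 (Vw k w (wt w P + m)) _ (PA2_span hreg.bnd hfr hsp) (Lw w m)
    (fun a ha a' h => (mem_Lw hw).2 (le_trans
      (Nat.add_le_add (Nat.mul_le_mul_left _ (h 0)) (Nat.mul_le_mul_left _ (h 1)))
      ((mem_Lw hw).1 ha)))
    (m := m) (fun a ha => PA2_le hw ((mem_Lw hw).1 ha))
    (fun a ha => (wt_mul_le w P _).trans (Nat.add_le_add_left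
      ((wt_monomial_le w a 1).trans ((mem_Lw hw).1 ha)) _))
    {z | eval z P = 0 ∧ Pre (ev f) z}
    (by
      intro φ hφ hz
      have hφ' : wt w φ ≤ wt w P + m := hφ
      obtain ⟨ψ, rfl⟩ := dvd_of_infinite (Q := φ) hP (hinf.mono fun z h => ⟨h.1, hz z h⟩)
      refine ⟨ψ, fun a ha => (mem_Lw hw).2 ?_, rfl⟩
      have hψ : ψ ≠ 0 := by
        rintro rfl
        simp at ha
      rw [wt_mul hP0 hψ] at hφ'
      have := wdeg_le_wt (w := w) ha
      omega)
    (fun z hz => hz.1) (k1 := k1) (k2 := k2) ((Nat.factorial_le hrk).trans hk1)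
    (le_trans (Nat.add_le_add_right
      (Nat.mul_le_mul (card_Lw hw m).2 (totalDegree_le_wt hw P)) 2) hk2)
  refine ⟨γ, (Lw w m).card, hγ, (card_Lw hw m).1, (card_Lw hw m).2, fun p w0 ρ hρ h0 h1 => ?_⟩
  have hA := p.one_le_A
  have hA0 := p.A_pos
  have hpow : ∀ j, 1 ≤ p.A ^ j := fun j => one_le_pow₀ hA
  have hρ1 : 1 ≤ p.A ^ (c1 + 1) * ρ := one_le_mul_of_one_le_of_one_le (hpow _) hρ
  have key := H p w0 (cl 0 + cl 1) ((p.A ^ c2) ^ (B + (wt w P + m) / d ^ n))
    ((p.A ^ (c + 1)) ^ B * (p.A ^ (c1 + 1) * ρ) ^ ((wt w P + m) / d ^ n0))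
    (one_le_pow₀ (hpow _)) (by positivity) ?_ ?_
  · refine key.trans ?_
    have e1 : ((p.A ^ c2) ^ (B + (wt w P + m) / d ^ n)) ^ Module.finrank k (Vw k w (wt w P + m))
        ≤ ((p.A ^ c2) ^ (B + (wt w P + m) / d ^ n)) ^ (wt w P + m + 1) ^ 2 :=
      pow_le_pow_right₀ (one_le_pow₀ (hpow _)) hrk
    refine (mul_le_mul_of_nonneg_right (mul_le_mul_of_nonneg_left e1 (by positivity))
      (by positivity)).trans (le_of_eq ?_)
    generalize (wt w P + m + 1) ^ 2 = N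
    generalize (wt w P + m) / d ^ n = t
    generalize (wt w P + m) / d ^ n0 = t0
    generalize p.A ^ (c1 + 1) * ρ = σ
    generalize k1 + k2 + 1 + (Lw w m).card * (2 * m + 6 + 2 * (cl 0 + cl 1) * m) = E
    generalize (Lw w m).card = r
    rw [mul_pow, ← pow_mul, ← pow_mul, ← pow_mul, ← pow_mul, ← pow_mul, pow_add, pow_add,
      ← mul_assoc, mul_comm t0 r, mul_comm N, mul_comm r ((c + 1) * B), mul_assoc c2,
      mul_assoc (c + 1)]
  · rintro _ ⟨i, a, h, rfl⟩ z hz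
    have h2 : Bd p w (ev (iter f n) z) (p.A ^ c2) := by
      rw [ev_iter]
      exact hc2 p _ (Or.inl (PA2_pre_iterate hz.2 n))
    refine (PA2_bound _ _ a (hpow _) (hc2 p z (Or.inl hz.2)) h2
      (hB i)).trans ?_
    rw [pow_add]
    refine mul_le_mul_of_nonneg_left (pow_le_pow_right₀ (hpow _) ?_) (by positivity)
    rw [Nat.le_div_iff_mul_le (hdn n), mul_comm]
    omega
  · rintro _ ⟨i, a, h, rfl⟩ u hu
    have hε : (p.A ^ (cl 0 + cl 1))⁻¹ ≤ 1 := inv_le_one_of_one_le₀ (hpow _)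
    have hu1 : Bd p w u (p.A ^ (c + 1)) := by
      rw [pow_succ']
      exact PA2_near hw (hpow c) h0 fun i => (hu i).trans hε
    have hw1 : Bd p w w0 (p.A ^ (c + 1)) :=
      h0.mono (zero_le_one.trans (hpow _)) (pow_le_pow_right₀ hA (Nat.le_succ c))
    have hbig : ∀ v : Pt k, Bd p w v (p.A ^ (c + 1)) →
        ∀ j, p.v (v j) ≤ p.A ^ ((c + 1) * (w 0 + w 1)) := by
      intro v hv j
      refine (hv j).trans ?_
      rw [← pow_mul]
      refine pow_le_pow_right₀ hA (Nat.mul_le_mul_left _ ?_)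
      fin_cases j
      · exact Nat.le_add_right _ _
      · exact Nat.le_add_left _ _
    have hu2 : Bd p w ((ev f)^[n0] u) (p.A * ρ) := by
      refine PA2_near hw hρ h1 fun j => ?_
      rw [← ev_iter]
      refine (hcl j p u w0 _ (by positivity) (hbig u hu1) (hbig w0 hw1) hu).trans ?_
      rw [← div_eq_mul_inv, div_le_one (pow_pos hA0 _)]
      refine pow_le_pow_right₀ hA ?_
      fin_cases j
      · exact Nat.le_add_right _ _
      · exact Nat.le_add_left _ _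
    have hu3 : Bd p w (ev (iter f n) u) ((p.A ^ (c1 + 1) * ρ) ^ d ^ (n - n0)) := by
      have h3 := hc1 p _ _ (n - n0) (one_le_mul_of_one_le_of_one_le hA hρ) hu2
      rw [← Function.iterate_add_apply, Nat.sub_add_cancel hn, ← mul_assoc, ← pow_succ] at h3
      rw [ev_iter]
      exact h3
    refine (PA2_bound _ _ a (hpow _) hu1 hu3 (hB i)).trans ?_
    refine mul_le_mul_of_nonneg_left ?_ (by positivity)
    rw [← pow_mul]
    refine pow_le_pow_right₀ hρ1 ?_
    rw [Nat.le_div_iff_mul_le (hdn n0), mul_right_comm, ← pow_add, Nat.sub_add_cancel hn]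
    omega

end Pool.Agent.Work.MP_0a826e_ag.R
end

-- merged part: Pool.Agent.Work.MP_0a826e_ag.R.CT
section
namespace Pool.Agent.Work.MP_0a826e_ag.R

open MvPolynomial

variable {k : Type} [Field k]

variable {S : Finset k} {w : Fin 2 → ℕ} {d : ℕ} {f F : Fin 2 → A2 k}

theorem CT_pre {X : Type} {φ : X → X} {x : X} (h : Pre φ x) (n : ℕ) : Pre φ (φ^[n] x) := by
  refine Set.Finite.subset h ?_
  rintro _ ⟨m, rfl⟩
  exact ⟨m + n, Function.iterate_add_apply _ _ _ _⟩

theorem CT_act {p : Place S} {u : Pt k} {ρ : ℝ} (h : Bd p w u ρ) (l : k) :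
    Bd p w (act w l u) (p.v l * ρ) := by
  intro i
  show p.v (l ^ w i * u i) ≤ _
  rw [map_mul, map_pow, mul_pow]
  exact mul_le_mul_of_nonneg_left (h i) (pow_nonneg (p.v.nonneg _) _)

theorem CT_comb {A g t x : ℝ} (hA : 1 ≤ A) (hg : 0 ≤ g) (ht : 0 ≤ t) {a b e r E : ℕ}
    (h1 : t * A ^ a ≤ A ^ b * x) (h2 : g * x ^ r ≤ A ^ e) (h : b * r + e ≤ E + a * r) :
    g * t ^ r ≤ A ^ E := by
  have hp : 0 < A := by linarith only [hA]
  have h3 : (t * A ^ a) ^ r ≤ (A ^ b * x) ^ r := pow_le_pow_left₀ (by positivity) h1 r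
  rw [mul_pow, mul_pow, ← pow_mul, ← pow_mul] at h3
  refine le_of_mul_le_mul_right ?_ (pow_pos hp (a * r))
  calc g * t ^ r * A ^ (a * r) = g * (t ^ r * A ^ (a * r)) := by ring
    _ ≤ g * (A ^ (b * r) * x ^ r) := mul_le_mul_of_nonneg_left h3 hg
    _ = A ^ (b * r) * (g * x ^ r) := by ring
    _ ≤ A ^ (b * r) * A ^ e := mul_le_mul_of_nonneg_left h2 (by positivity)
    _ ≤ A ^ E * A ^ (a * r) := by
        rw [← pow_add, ← pow_add]; exact pow_le_pow_right₀ hA h

theorem pa_asym [IsAlgClosed k] [CharZero k] (hw : ∀ i, 0 < w i) (hd : 2 ≤ d)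
    (hG : Good S w d f F) :
    ∃ c1 : ℕ, ∀ n0 c J : ℕ, 1 ≤ J → ∃ M0 : ℕ, ∀ P : A2 k, Irreducible P →
      {z | eval z P = 0 ∧ Pre (ev f) z}.Infinite → M0 ≤ wt w P →
      ∃ (γ : k) (r E D : ℕ), γ ≠ 0 ∧ 1 ≤ r ∧ wt w P ≤ D ∧ J * D ≤ J * wt w P + wt w P ∧
        J * E ≤ r * wt w P ∧
        ∀ (p : Place S) (w0 : Pt k) (ρ : ℝ), 1 ≤ ρ → Bd p w w0 (p.A ^ c) →
          Bd p w ((ev f)^[n0] w0) ρ →
          p.v γ * p.v (eval w0 P) ^ r ≤ p.A ^ E * (p.A ^ c1 * ρ) ^ (r * (D / d ^ n0)) := by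
  obtain ⟨c1, c2, h⟩ := pa_w hw hd hG
  refine ⟨c1, fun n0 c J hJ => ?_⟩
  obtain ⟨c3, h⟩ := h n0 c
  obtain ⟨J1, n, hJ1, hn, ha⟩ := asym (w 0 + w 1) c2 c3 c J d n0
    (by have := hw 0; omega) hJ hd
  obtain ⟨B, h⟩ := h n hn
  obtain ⟨M0, ha⟩ := ha B
  refine ⟨M0, fun P hP hinf hM => ?_⟩
  obtain ⟨k1, k2, h1, h2, h3⟩ := ha _ hM
  obtain ⟨γ, r, hγ, hr1, hr2, h⟩ := h P hP hinf (wt w P / J1) k1 k2 h1 h2
  refine ⟨γ, r, _, wt w P + wt w P / J1, hγ, ?_, Nat.le_add_right _ _, ?_, h3 r hr1, h⟩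
  · exact (Nat.one_le_pow _ _ (Nat.succ_pos _)).trans hr1
  · rw [mul_add]
    exact Nat.add_le_add_left ((Nat.mul_le_mul_right _ hJ1).trans (Nat.mul_div_le _ _)) _

/-- `top w P` at `u` is the leading coefficient of `l ↦ P (act w l u)` (`eval_act`, `cau`). -/
theorem top_le [IsAlgClosed k] [CharZero k] (p : Place S) (w : Fin 2 → ℕ) (P : A2 k) {n : ℕ}
    (hn : wt w P + 2 ≤ 2 ^ n) (u : Pt k) (s : k) :
    ∃ l : k, p.v l = p.v s ∧
      p.v (eval u (top w P)) * p.v s ^ wt w P ≤ p.A ^ (n + 1) * p.v (eval (act w l u) P) := by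
  have hdeg : ((Hw w P).map (eval u)).natDegree + 2 ≤ 2 ^ n :=
    (Nat.add_le_add_right Polynomial.natDegree_map_le 2).trans hn
  obtain ⟨ζ, hζ, h⟩ := p.cau _ hdeg s (wt w P)
  refine ⟨s * ζ, by rw [map_mul, hζ, mul_one], ?_⟩
  rw [eval_act]
  rw [Polynomial.coeff_map] at h
  exact h

/-- Choose `n0` with `d ^ n0 ≥ 8 * J * (c1 + c2 + 1)`, `c'` from `far` for `iter f n0`, apply
`pa_asym` with `c = c' + c2` and `J' = 4 * J * (c' + 1)` at `w0 = act w l u`, `v l = A ^ c'`,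
`ρ = A ^ (c2 + 1) * (A ^ c') ^ d ^ n0`; cancel `(A ^ c') ^ (r * M)`. -/
theorem corT [IsAlgClosed k] [CharZero k] (hw : ∀ i, 0 < w i) (hd : 2 ≤ d)
    (hG : Good S w d f F) (J : ℕ) :
    ∃ M0 : ℕ, ∀ P : A2 k, Irreducible P → {z | eval z P = 0 ∧ Pre (ev f) z}.Infinite →
      M0 ≤ wt w P → ∃ (γ : k) (r E : ℕ), γ ≠ 0 ∧ 1 ≤ r ∧ J * E ≤ r * wt w P ∧
        ∀ (p : Place S) (u : Pt k), Pre (ev F) u →
          p.v γ * p.v (eval u (top w P)) ^ r ≤ p.A ^ E := by
  obtain ⟨c1, h⟩ := pa_asym hw hd hG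
  obtain ⟨c2, hc2⟩ := hG.esc
  set n0 := 8 * J * (c1 + c2 + 1) with hn0
  have hdn : n0 ≤ d ^ n0 := (Nat.lt_pow_self (by omega)).le
  have hd1 : 1 ≤ d ^ n0 := Nat.one_le_pow _ _ (by omega)
  obtain ⟨c', hfar⟩ := far (S := S) hw hd1 (hG.reg.bnd.of_iter (by omega) n0)
    (tameP_iter hG.tame n0) c2
  obtain ⟨M1, h⟩ := h n0 (c' + c2) (4 * J * (c' + 1) + 1) (by omega)
  obtain ⟨M2, hl⟩ := log_small (4 * J) 1
  refine ⟨max M1 M2, fun P hP hinf hM => ?_⟩
  obtain ⟨γ, r, E, D, hγ, hr, hD1, hD2, hE, h⟩ := h P hP hinf ((le_max_left _ _).trans hM)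
  obtain ⟨n, hn1, hn2⟩ := hl _ ((le_max_right _ _).trans hM)
  obtain ⟨t, rfl⟩ := Nat.exists_eq_add_of_le hD1
  set M := wt w P with hMd
  set q := (M + t) / d ^ n0 with hq
  have hq1 : d ^ n0 * q ≤ M + t := Nat.mul_div_le _ _
  have ht : (4 * J * (c' + 1) + 1) * t ≤ M := by
    rw [mul_add] at hD2; omega
  refine ⟨γ, r, (n + 1) * r + E + (c1 + c2 + 1) * q * r + c' * t * r, hγ, hr, ?_,
    fun p u hu => ?_⟩
  · have a1 : 4 * (J * ((n + 1) * r)) ≤ r * M := by
      calc 4 * (J * ((n + 1) * r)) = r * (4 * J * (n + 1)) := by ring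
        _ ≤ r * M := Nat.mul_le_mul_left _ hn2
    have a2 : 4 * (J * E) ≤ r * M := by
      refine le_trans ?_ hE
      calc 4 * (J * E) ≤ 4 * (J * E) + (4 * J * c' + 1) * E := Nat.le_add_right _ _
        _ = (4 * J * (c' + 1) + 1) * E := by ring
    have t1 : t ≤ M := le_trans (Nat.le_mul_of_pos_left _ (by omega)) ht
    have b3 : 4 * (J * ((c1 + c2 + 1) * q)) ≤ M := by
      have : n0 * q ≤ d ^ n0 * q := Nat.mul_le_mul_right _ hdn
      have e : n0 * q = 2 * (4 * (J * ((c1 + c2 + 1) * q))) := by rw [hn0]; ring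
      omega
    have a3 : 4 * (J * ((c1 + c2 + 1) * q * r)) ≤ r * M := by
      calc 4 * (J * ((c1 + c2 + 1) * q * r)) = r * (4 * (J * ((c1 + c2 + 1) * q))) := by ring
        _ ≤ r * M := Nat.mul_le_mul_left _ b3
    have b4 : 4 * (J * (c' * t)) ≤ M := by
      refine le_trans ?_ ht
      calc 4 * (J * (c' * t)) ≤ 4 * (J * (c' * t)) + (4 * J + 1) * t := Nat.le_add_right _ _
        _ = (4 * J * (c' + 1) + 1) * t := by ring
    have a4 : 4 * (J * (c' * t * r)) ≤ r * M := by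
      calc 4 * (J * (c' * t * r)) = r * (4 * (J * (c' * t))) := by ring
        _ ≤ r * M := Nat.mul_le_mul_left _ b4
    rw [mul_add, mul_add, mul_add]
    omega
  · have hA := p.one_le_A
    have hs : p.v (p.π ^ c') = p.A ^ c' := map_pow _ _ _
    obtain ⟨l, hl1, hl2⟩ := top_le p w P (n := n) (by rw [pow_one] at hn1; omega) u (p.π ^ c')
    rw [hs] at hl1 hl2
    have b1 : Bd p w u (p.A ^ c2) := hc2 p u (Or.inr hu)
    have b2 : Bd p w (ev (iter F n0) u) (p.A ^ c2) := by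
      rw [ev_iter]; exact hc2 p _ (Or.inr (CT_pre hu n0))
    have b3 := hfar p u l hl1.ge b1 b2
    rw [ev_iter, hl1] at b3
    have b4 : Bd p w (act w l u) (p.A ^ (c' + c2)) := by
      rw [pow_add, ← hl1]; exact CT_act b1 l
    have h5 := h p _ _ (one_le_mul_of_one_le_of_one_le (one_le_pow₀ hA)
      (one_le_pow₀ (one_le_pow₀ hA))) b4 b3
    rw [← pow_mul] at hl2
    rw [← pow_mul, ← pow_add, ← pow_add, ← pow_mul, ← pow_add] at h5
    refine CT_comb hA (p.v.nonneg _) (p.v.nonneg _) hl2 h5 ?_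
    have : c' * r * (d ^ n0 * q) ≤ c' * r * (M + t) := Nat.mul_le_mul_left _ hq1
    linarith only [this]

/-- `pa_asym` with `n0 = 0`, `c = 0`, `J = 1`, `ρ = 1`. -/
theorem corT_crude [IsAlgClosed k] [CharZero k] (hw : ∀ i, 0 < w i) (hd : 2 ≤ d)
    (hG : Good S w d f F) :
    ∃ c M0 : ℕ, ∀ P : A2 k, Irreducible P → {z | eval z P = 0 ∧ Pre (ev f) z}.Infinite →
      M0 ≤ wt w P → ∃ (γ : k) (r : ℕ), γ ≠ 0 ∧ 1 ≤ r ∧
        ∀ (p : Place S) (u : Pt k), (∀ i, p.v (u i) ≤ 1) →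
          p.v γ * p.v (eval u (top w P)) ^ r ≤ p.A ^ (c * (r * wt w P)) := by
  obtain ⟨c1, h⟩ := pa_asym hw hd hG
  obtain ⟨M1, h⟩ := h 0 0 1 le_rfl
  obtain ⟨M2, hl⟩ := log_small 1 1
  refine ⟨2 + 2 * c1, max M1 M2, fun P hP hinf hM => ?_⟩
  obtain ⟨γ, r, E, D, hγ, hr, hD1, hD2, hE, h⟩ := h P hP hinf ((le_max_left _ _).trans hM)
  obtain ⟨n, hn1, hn2⟩ := hl _ ((le_max_right _ _).trans hM)
  refine ⟨γ, r, hγ, hr, fun p u hu => ?_⟩
  have hA := p.one_le_A
  obtain ⟨l, hl1, hl2⟩ := top_le p w P (n := n) (by rw [pow_one] at hn1; omega) u 1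
  rw [map_one] at hl1 hl2
  have b1 : Bd p w u 1 := fun i => by rw [one_pow]; exact hu i
  have b2 : Bd p w (act w l u) 1 := by
    have := CT_act b1 l
    rwa [hl1, mul_one] at this
  have h5 := h p (act w l u) 1 le_rfl (by rwa [pow_zero]) b2
  rw [mul_one, ← pow_mul, ← pow_add, pow_zero, Nat.div_one] at h5
  rw [one_pow, ← pow_zero p.A] at hl2
  refine CT_comb hA (p.v.nonneg _) (p.v.nonneg _) hl2 h5 ?_
  have a1 : (n + 1) * r ≤ wt w P * r := Nat.mul_le_mul_right _ (by omega)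
  have a2 : c1 * r * D ≤ c1 * r * (2 * wt w P) := Nat.mul_le_mul_left _ (by omega)
  linarith only [hE, a1, a2]

/-- `pa_w` with `n0 = n = c = m = 0`. -/
theorem corII [IsAlgClosed k] [CharZero k] (hw : ∀ i, 0 < w i) (hd : 2 ≤ d)
    (hG : Good S w d f F) (M : ℕ) :
    ∃ c : ℕ, ∀ P : A2 k, Irreducible P → {z | eval z P = 0 ∧ Pre (ev f) z}.Infinite →
      wt w P ≤ M → ∃ γ : k, γ ≠ 0 ∧ ∀ (p : Place S) (u : Pt k), (∀ i, p.v (u i) ≤ 1) →
          p.v γ * p.v (eval u P) ≤ p.A ^ c := by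
  obtain ⟨c1, c2, h⟩ := pa_w hw hd hG
  obtain ⟨c3, h⟩ := h 0 0
  obtain ⟨B, h⟩ := h 0 le_rfl
  refine ⟨((M + 1) ^ 2).factorial + (M + 2) + 7 + (M + 1) ^ 2 * (c2 * (B + M)) + B + c1 * M,
    fun P hP hinf hM => ?_⟩
  obtain ⟨γ, r, hγ, hr1, hr2, h⟩ := h P hP hinf 0 ((M + 1) ^ 2).factorial (M + 2)
    ((Nat.factorial_le (Nat.pow_le_pow_left (by omega) 2)).trans Nat.lt_two_pow_self.le)
    (le_trans (by omega) Nat.lt_two_pow_self.le)
  obtain rfl : r = 1 := by
    rw [Nat.zero_div] at hr1; omega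
  refine ⟨γ, hγ, fun p u hu => ?_⟩
  have b1 : Bd p w u 1 := fun i => by rw [one_pow]; exact hu i
  have h5 := h p u 1 le_rfl (by rwa [pow_zero]) b1
  rw [mul_one, ← pow_mul, ← pow_add, pow_one] at h5
  refine h5.trans (pow_le_pow_right₀ p.one_le_A ?_)
  simp only [pow_zero, Nat.div_one, add_zero, mul_zero, one_mul, zero_add]
  have a1 : (wt w P + 1) ^ 2 * (c2 * (B + wt w P)) ≤ (M + 1) ^ 2 * (c2 * (B + M)) := by gcongr
  have a2 : c1 * wt w P ≤ c1 * M := Nat.mul_le_mul_left _ hM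
  omega

end Pool.Agent.Work.MP_0a826e_ag.R
end

-- merged part: Pool.Agent.Work.MP_0a826e_ag.R.C1
section
namespace Pool.Agent.Work.MP_0a826e_ag.R

open MvPolynomial

variable {k : Type} [Field k]

variable {S T : Finset k} {x y : k} {φ ψ : A2 k} {w : Fin 2 → ℕ}

/-- fixed by all automorphisms fixing `T` -/
def InvP (T : Finset k) (φ : A2 k) : Prop :=
  ∀ σ : k ≃+* k, (∀ t ∈ T, σ t = t) → MvPolynomial.map (σ : k →+* k) φ = φ

theorem inv_of_mem (h : x ∈ T) : Inv T x := fun _ hσ => hσ x h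

theorem Inv.div (hx : Inv T x) (hy : Inv T y) : Inv T (x / y) := by
  intro σ hσ
  rw [map_div₀, hx σ hσ, hy σ hσ]

theorem Inv.pow (hx : Inv T x) (n : ℕ) : Inv T (x ^ n) := by
  intro σ hσ
  rw [map_pow, hx σ hσ]

theorem invP_iff : InvP T φ ↔ ∀ a, Inv T (coeff a φ) := by
  refine ⟨fun h a σ hσ => ?_, fun h σ hσ => MvPolynomial.ext _ _ fun a => ?_⟩
  · have := congrArg (coeff a) (h σ hσ)
    rwa [coeff_map] at this
  · rw [coeff_map]
    exact h a σ hσ

theorem invP_of_subset (h : ∀ a ∈ φ.support, coeff a φ ∈ T) : InvP T φ := by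
  refine invP_iff.2 fun a => ?_
  by_cases ha : a ∈ φ.support
  · exact inv_of_mem (h a ha)
  · rw [notMem_support_iff.1 ha]
    exact fun σ _ => map_zero σ

theorem InvP.eval_inv (h : InvP T φ) {u : Pt k} (hu : ∀ i, Inv T (u i)) : Inv T (eval u φ) := by
  intro σ hσ
  have e := MvPolynomial.map_eval (σ : k →+* k) u φ
  rw [h σ hσ] at e
  exact e.trans (congrArg (eval · φ) (funext fun i => hu i σ hσ))

theorem InvP.cmp_inv (h : InvP T φ) (w : Fin 2 → ℕ) (n : ℕ) : InvP T (cmp w n φ) := by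
  refine invP_iff.2 fun a => ?_
  rw [coeff_cmp]
  split
  · exact invP_iff.1 h a
  · exact fun σ _ => map_zero σ

theorem invP_iter {f : Fin 2 → A2 k} (hf : ∀ i, InvP T (f i)) (n : ℕ) (i : Fin 2) :
    InvP T (iter f n i) := by
  intro σ hσ
  induction n generalizing i with
  | zero => exact map_X _ i
  | succ n ih =>
    change MvPolynomial.map (σ : k →+* k) (bind₁ (iter f n) (f i)) = bind₁ (iter f n) (f i)
    rw [map_bind₁, hf i σ hσ, funext ih]

theorem inv_iterate {f : Fin 2 → A2 k} (hf : ∀ i, InvP T (f i)) {u : Pt k}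
    (hu : ∀ i, Inv T (u i)) (n : ℕ) (i : Fin 2) : Inv T ((ev f)^[n] u i) := by
  induction n generalizing i with
  | zero => exact hu i
  | succ n ih =>
    rw [Function.iterate_succ_apply']
    exact (hf i).eval_inv ih

theorem invP_lu {u : Pt k} (hu : ∀ i, Inv T (u i)) (w : Fin 2 → ℕ) : InvP T (lu w u) := by
  intro σ hσ
  have h0 : (σ : k →+* k) (u 0) = u 0 := hu 0 σ hσ
  have h1 : (σ : k →+* k) (u 1) = u 1 := hu 1 σ hσ
  simp only [lu, map_sub, map_mul, map_pow, map_C, map_X, h0, h1]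

theorem invP_prod {ι : Type} (s : Finset ι) (x : ι → A2 k) (h : ∀ i ∈ s, InvP T (x i)) :
    InvP T (∏ i ∈ s, x i) := by
  intro σ hσ
  rw [map_prod]
  exact Finset.prod_congr rfl fun i hi => h i hi σ hσ

/-- `map σ Q` is irreducible with the same zero set, so it is `C c * Q`. -/
theorem Img.inv [IsAlgClosed k] {g : Fin 2 → A2 k} {P Q : A2 k} (hQ : Img g P Q)
    (hg : ∀ i, InvP T (g i)) (hP : InvP T P) {a0 : Fin 2 →₀ ℕ} (h0 : coeff a0 Q ≠ 0)
    (a : Fin 2 →₀ ℕ) : Inv T (coeff a Q / coeff a0 Q) := by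
  intro σ hσ
  have hσ' : ∀ t ∈ T, σ.symm t = t := fun t ht => σ.symm_apply_eq.2 (hσ t ht).symm
  have hi : Irreducible (MvPolynomial.map (σ : k →+* k) Q) :=
    (MulEquiv.irreducible_iff (mapEquiv (Fin 2) σ)).2 hQ.1
  have hd : Q ∣ MvPolynomial.map (σ : k →+* k) Q := by
    refine dvd_of_vanish hQ.1 fun z hz => ?_
    obtain ⟨y, hy, rfl⟩ := (hQ.2 z).1 hz
    have h1 : eval ((σ.symm : k →+* k) ∘ y) P = 0 := by
      rw [← hP σ.symm hσ', ← MvPolynomial.map_eval, hy, map_zero]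
    have h2 : (σ : k →+* k) ∘ ev g ((σ.symm : k →+* k) ∘ y) = ev g y := by
      funext i
      have e : (σ : k →+* k) ∘ (σ.symm : k →+* k) ∘ y = y := funext fun j => by simp
      rw [Function.comp_apply, ev, MvPolynomial.map_eval, hg i σ hσ, e, ev]
    rw [← h2, ← MvPolynomial.map_eval, (hQ.2 _).2 ⟨_, h1, rfl⟩, map_zero]
  obtain ⟨c, hc, e⟩ := eq_C_mul_of_dvd hQ.1 hi hd
  have h3 : ∀ a, σ (coeff a Q) = c * coeff a Q := fun a => by
    have := congrArg (coeff a) e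
    rwa [coeff_map, coeff_C_mul] at this
  rw [map_div₀, h3, h3, mul_div_mul_left _ _ hc]

/-- every power of `β` has a certificate with `B = 1` (use `γ ^ n`) -/
theorem kronecker (hM : MAL k) (T S : Finset k) {β : k} (h0 : β ≠ 0) (hi : Inv T β)
    (h : ∀ n : ℕ, ∃ (γ : k) (s E : ℕ), γ ≠ 0 ∧ 1 ≤ s ∧ n * E ≤ s ∧
      ∀ p : Place S, p.v γ * (max 1 (p.v β)) ^ s ≤ p.A ^ E) : ∃ m : ℕ, 1 ≤ m ∧ β ^ m = 1 := by
  have key : ∀ n : ℕ, β ^ n ∈ {β | Inv T β ∧ Cert S 1 β} := by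
    intro n
    obtain ⟨γ, s, E, hγ, hs, hE, hp⟩ := h n
    refine ⟨hi.pow n, γ ^ n, pow_ne_zero _ hγ, s, hs, fun p => ?_⟩
    have h1 : max 1 (p.v (β ^ n)) ≤ max 1 (p.v β) ^ n := by
      rw [map_pow]
      exact max_le (one_le_pow₀ (le_max_left _ _))
        (pow_le_pow_left₀ (p.v.nonneg _) (le_max_right _ _) n)
    have h2 : ∀ x, 0 ≤ max 1 (p.v x) := fun x => zero_le_one.trans (le_max_left _ _)
    calc p.v (γ ^ n) * max 1 (p.v (β ^ n)) ^ s ≤ p.v (γ ^ n) * (max 1 (p.v β) ^ n) ^ s :=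
          mul_le_mul_of_nonneg_left (pow_le_pow_left₀ (h2 _) h1 s) (p.v.nonneg _)
      _ = (p.v γ * max 1 (p.v β) ^ s) ^ n := by rw [map_pow, mul_pow, pow_right_comm]
      _ ≤ (p.A ^ E) ^ n :=
          pow_le_pow_left₀ (mul_nonneg (p.v.nonneg _) (pow_nonneg (h2 _) _)) (hp p) n
      _ ≤ p.A ^ (s * 1) := by
          rw [← pow_mul]
          exact pow_le_pow_right₀ p.one_le_A (by rw [mul_one, mul_comm]; exact hE)
  obtain ⟨a, b, hab, e⟩ := Set.Finite.exists_lt_map_eq_of_forall_mem key (hM T S 1)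
  refine ⟨b - a, by omega, mul_left_cancel₀ (pow_ne_zero a h0) ?_⟩
  rw [← pow_add, mul_one, Nat.add_sub_cancel' hab.le, e]

/-- `γ' = γ ^ α * (c * x0 ^ β) ^ r` -/
theorem transfer {x0 x1 c γ : k} (hx : x0 ≠ 0) (hc : c ≠ 0) (hγ : γ ≠ 0) (α β r E κ : ℕ)
    (h : ∀ p : Place S, ∀ x, x = x0 ∨ x = x1 → ∃ y x' : k, y ^ α = c * x' ^ β ∧
      p.v γ * p.v y ^ r ≤ p.A ^ E ∧ p.v x ≤ p.A ^ κ * p.v x') :
    ∃ γ' : k, γ' ≠ 0 ∧ ∀ p : Place S,
      p.v γ' * (max 1 (p.v (x1 / x0))) ^ (β * r) ≤ p.A ^ (α * E + κ * (β * r)) := by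
  refine ⟨γ ^ α * (c * x0 ^ β) ^ r,
    mul_ne_zero (pow_ne_zero _ hγ) (pow_ne_zero _ (mul_ne_zero hc (pow_ne_zero _ hx))), fun p => ?_⟩
  have key : ∀ x, x = x0 ∨ x = x1 →
      p.v γ ^ α * p.v c ^ r * p.v x ^ (β * r) ≤ p.A ^ (α * E + κ * (β * r)) := by
    intro x hx'
    obtain ⟨y, x', h1, h2, h3⟩ := h p x hx'
    have h4 : p.v y ^ α = p.v c * p.v x' ^ β := by rw [← map_pow, h1, map_mul, map_pow]
    calc p.v γ ^ α * p.v c ^ r * p.v x ^ (β * r)
        ≤ p.v γ ^ α * p.v c ^ r * (p.A ^ κ * p.v x') ^ (β * r) :=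
          mul_le_mul_of_nonneg_left (pow_le_pow_left₀ (p.v.nonneg _) h3 _)
            (mul_nonneg (pow_nonneg (p.v.nonneg _) _) (pow_nonneg (p.v.nonneg _) _))
      _ = p.v γ ^ α * (p.v c * p.v x' ^ β) ^ r * p.A ^ (κ * (β * r)) := by ring
      _ = (p.v γ * p.v y ^ r) ^ α * p.A ^ (κ * (β * r)) := by rw [← h4]; ring
      _ ≤ (p.A ^ E) ^ α * p.A ^ (κ * (β * r)) :=
          mul_le_mul_of_nonneg_right (pow_le_pow_left₀
            (mul_nonneg (p.v.nonneg _) (pow_nonneg (p.v.nonneg _) _)) h2 _)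
            (pow_nonneg p.A_pos.le _)
      _ = p.A ^ (α * E + κ * (β * r)) := by ring
  have e : ∀ t : ℝ, p.v (γ ^ α * (c * x0 ^ β) ^ r) * t ^ (β * r) =
      p.v γ ^ α * p.v c ^ r * (p.v x0 * t) ^ (β * r) := fun t => by
    simp only [map_mul, map_pow]
    ring
  rw [e]
  rcases max_choice 1 (p.v (x1 / x0)) with h1 | h1 <;> rw [h1]
  · rw [mul_one]
    exact key x0 (.inl rfl)
  · rw [← map_mul, mul_div_cancel₀ _ hx]
    exact key x1 (.inr rfl)

theorem finite_polys (hw : ∀ i, 0 < w i) {Y : Set k} (hY : Y.Finite) (W : ℕ) :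
    {φ : A2 k | wt w φ ≤ W ∧ ∀ a, coeff a φ ∈ Y}.Finite := by
  have hF : {a : Fin 2 →₀ ℕ | wdeg w a ≤ W}.Finite := by
    refine (Set.finite_Iic (Finsupp.equivFunOnFinite.symm fun _ => W)).subset fun a ha => ?_
    have h0 := Nat.le_mul_of_pos_left (a 0) (hw 0)
    have h1 := Nat.le_mul_of_pos_left (a 1) (hw 1)
    have h2 : w 0 * a 0 + w 1 * a 1 ≤ W := ha
    refine Finsupp.le_def.2 (Fin.forall_fin_two.2 ⟨?_, ?_⟩) <;>
      rw [Finsupp.equivFunOnFinite_symm_apply_apply] <;> omega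
  have := hF.to_subtype
  refine Set.Finite.of_injOn (f := fun φ (a : {a : Fin 2 →₀ ℕ | wdeg w a ≤ W}) => coeff a.1 φ)
    (t := {f | ∀ a, f a ∈ Y}) (fun φ hφ a => hφ.2 a.1)
    (fun φ hφ ψ hψ e => MvPolynomial.ext _ _ fun a => ?_) (Set.Finite.pi' fun _ => hY)
  by_cases ha : wdeg w a ≤ W
  · exact congrFun e ⟨a, ha⟩
  · rw [notMem_support_iff.1 fun h => ha ((wdeg_le_wt h).trans hφ.1),
      notMem_support_iff.1 fun h => ha ((wdeg_le_wt h).trans hψ.1)]

/-- infinite pigeonhole for polynomials of bounded weight with finitely many coefficient ratios -/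
theorem pigeon_polys (hw : ∀ i, 0 < w i) {Y : Set k} (hY : Y.Finite) (W : ℕ) (N : ℕ → A2 k)
    (h : ∀ K : ℕ, ∃ n, K ≤ n ∧ N n ≠ 0 ∧ wt w (N n) ≤ W ∧
      ∀ a a0, coeff a0 (N n) ≠ 0 → coeff a (N n) / coeff a0 (N n) ∈ Y) :
    ∃ n0, N n0 ≠ 0 ∧ ∀ K : ℕ, ∃ n, K ≤ n ∧ ∃ c : k, c ≠ 0 ∧ N n = C c * N n0 := by
  have key : ∀ K : ℕ, ∃ (n : ℕ) (c : k)
      (M : {φ : A2 k | wt w φ ≤ W ∧ ∀ a, coeff a φ ∈ Y}),
      K ≤ n ∧ N n ≠ 0 ∧ c ≠ 0 ∧ N n = C c * M.1 := by
    intro K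
    obtain ⟨n, h1, h2, h3, h4⟩ := h K
    obtain ⟨a0, h5⟩ := ne_zero_iff.1 h2
    refine ⟨n, coeff a0 (N n), ⟨C (coeff a0 (N n))⁻¹ * N n, ?_, fun a => ?_⟩, h1, h2, h5, ?_⟩
    · rwa [wt_C_mul (inv_ne_zero h5)]
    · rw [coeff_C_mul, inv_mul_eq_div]
      exact h4 a a0 h5
    · rw [← mul_assoc, ← C_mul, mul_inv_cancel₀ h5, C_1, one_mul]
  choose n c M h1 h2 h3 h4 using key
  have := (finite_polys hw hY W).to_subtype
  obtain ⟨M0, hM⟩ := Finite.exists_infinite_fiber M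
  have hI := Set.infinite_coe_iff.1 hM
  obtain ⟨K0, h0⟩ := hI.nonempty
  refine ⟨n K0, h2 K0, fun K => ?_⟩
  obtain ⟨K1, h5, h6⟩ := hI.exists_gt K
  refine ⟨n K1, h6.le.trans (h1 K1), c K1 / c K0, div_ne_zero (h3 _) (h3 _), ?_⟩
  rw [h4 K1, h4 K0, show M K1 = M0 from h5, show M K0 = M0 from h0, ← mul_assoc, ← C_mul,
    div_mul_cancel₀ _ (h3 _)]

theorem norm_eq_one_of_pow (ι : k →+* ℂ) {β : k} {m : ℕ} (hm : 1 ≤ m) (h : β ^ m = 1) :
    ‖ι β‖ = 1 := by
  refine (pow_eq_one_iff_of_nonneg (norm_nonneg _) (by omega : m ≠ 0)).1 ?_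
  rw [← norm_pow, ← map_pow, h, map_one, norm_one]

end Pool.Agent.Work.MP_0a826e_ag.R
end

-- merged part: Pool.Agent.Work.MP_0a826e_ag.R.II
section
namespace Pool.Agent.Work.MP_0a826e_ag.R

open MvPolynomial

variable {k : Type} [Field k]

variable {w : Fin 2 → ℕ} {d : ℕ} {f F : Fin 2 → A2 k} {P : A2 k}

/-- If the weights stay bounded along a subsequence, `corII`, `coeff_le`, `transfer`
(`α = β = r = 1`, `c = 1`) and `Img.inv` put all coefficient ratios in one finite set of `MAL`;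
`pigeon_polys` gives `Concl`. -/
theorem wt_large [IsAlgClosed k] [CharZero k] (hM : MAL k) (hw : ∀ i, 0 < w i) (hd : 2 ≤ d)
    (hf : Reg w d f F) (hB : Bad f P) (Q : ℕ → A2 k) (hQ : ∀ n, Img (iter f n) P (Q n)) (M : ℕ) :
    ∃ K : ℕ, ∀ n, K ≤ n → M ≤ wt w (Q n) := by
  classical
  by_contra hcon
  push Not at hcon
  obtain ⟨S, hG⟩ := exists_good hw hd hf
  obtain ⟨c, hc⟩ := corII hw hd hG M
  set T : Finset k := ((f 0).support.image fun a => coeff a (f 0)) ∪
    ((f 1).support.image fun a => coeff a (f 1)) ∪ (P.support.image fun a => coeff a P) with hT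
  have hfT : ∀ i, InvP T (f i) := by
    intro i
    refine invP_of_subset fun a ha => ?_
    fin_cases i
    · exact Finset.mem_union_left _ (Finset.mem_union_left _ (Finset.mem_image_of_mem _ ha))
    · exact Finset.mem_union_left _ (Finset.mem_union_right _ (Finset.mem_image_of_mem _ ha))
  have hPT : InvP T P :=
    invP_of_subset fun a ha => Finset.mem_union_right _ (Finset.mem_image_of_mem _ ha)
  set N : ℕ := (M + 1) ^ 2 + 2 with hN
  have hN2 : (M + 1) ^ 2 + 2 ≤ 2 ^ N := Nat.lt_two_pow_self.le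
  have hY := hM T S (c + (N + 1))
  obtain ⟨n0, h0, hn0⟩ := pigeon_polys hw hY M Q (fun K => by
    obtain ⟨n, hn, hlt⟩ := hcon K
    refine ⟨n, hn, (hQ n).1.ne_zero, hlt.le, fun a a0 ha0 => ⟨?_, ?_⟩⟩
    · exact (hQ n).inv (invP_iter hfT n) hPT ha0 a
    · obtain ⟨γ, hγ, h⟩ := hc (Q n) (hQ n).1 (hB.img_inf (hQ n)) hlt.le
      have hδ : (Q n).totalDegree ≤ M := (totalDegree_le_wt hw _).trans hlt.le
      obtain ⟨γ', hγ', h'⟩ := transfer (S := S) (x1 := coeff a (Q n)) ha0 one_ne_zero hγ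
        1 1 1 c (N + 1) (fun p x hx => by
          have key : ∀ b, ∃ y x' : k, y ^ 1 = 1 * x' ^ 1 ∧ p.v γ * p.v y ^ 1 ≤ p.A ^ c ∧
              p.v (coeff b (Q n)) ≤ p.A ^ (N + 1) * p.v x' := fun b => by
            obtain ⟨u, hu1, hu2⟩ := p.coeff_le (Q n) hδ hN2 b
            refine ⟨eval u (Q n), eval u (Q n), by rw [one_mul], ?_, hu2⟩
            rw [pow_one]
            exact h p u fun i => (hu1 i).le
          rcases hx with rfl | rfl
          · exact key _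
          · exact key _)
      refine ⟨γ', hγ', 1, le_rfl, fun p => ?_⟩
      have := h' p
      simpa using this)
  refine hB.nc ⟨Q n0, h0, fun K => ?_⟩
  obtain ⟨n, hn, e, he, hE⟩ := hn0 K
  refine ⟨n, hn, fun z hz => ?_⟩
  have h1 : eval ((ev f)^[n] z) (Q n) = 0 :=
    ((hQ n).2 _).2 ⟨z, hz, by rw [ev_iter]⟩
  rw [hE, map_mul, eval_C] at h1
  exact (mul_eq_zero.1 h1).resolve_left he

end Pool.Agent.Work.MP_0a826e_ag.R
end

-- merged part: Pool.Agent.Work.MP_0a826e_ag.R.CL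
section
namespace Pool.Agent.Work.MP_0a826e_ag.R

open MvPolynomial

variable {k : Type} [Field k]

theorem CL_eval (φ : A2 k) (c w : k) :
    ((aeval ![Polynomial.C Polynomial.X, Polynomial.X] φ : Polynomial (Polynomial k)).map
      (Polynomial.evalRingHom c)).eval w = eval ![c, w] φ := by
  induction φ using MvPolynomial.induction_on with
  | C a => simp
  | add p q hp hq => simp only [map_add, Polynomial.map_add, Polynomial.eval_add, hp, hq]
  | mul_X p i hp =>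
    simp only [map_mul, Polynomial.map_mul, Polynomial.eval_mul, hp]
    fin_cases i <;> simp

/-- a curve with infinitely many first coordinates meets almost every vertical line -/
theorem CL_fibre [IsAlgClosed k] (φ : A2 k) (h : {c : k | ∃ w, eval ![c, w] φ = 0}.Infinite) :
    {c : k | ∀ w, eval ![c, w] φ ≠ 0}.Finite := by
  obtain ⟨q, hq⟩ : ∃ q : Polynomial (Polynomial k), ∀ c w,
      (q.map (Polynomial.evalRingHom c)).eval w = eval ![c, w] φ := ⟨_, CL_eval φ⟩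
  by_cases h0 : q.natDegree = 0
  · obtain ⟨a, rfl⟩ := Polynomial.natDegree_eq_zero.1 h0
    simp only [Polynomial.map_C, Polynomial.eval_C, Polynomial.coe_evalRingHom] at hq
    by_cases ha : a = 0
    · refine Set.Finite.subset Set.finite_empty fun c hc => hc 0 ?_
      rw [← hq, ha, Polynomial.eval_zero]
    · refine absurd (Set.Finite.subset (Polynomial.finite_setOfPred_isRoot ha) ?_) h
      rintro c ⟨w, hw⟩
      exact (hq c w).trans hw
  · have h1 : q.leadingCoeff ≠ 0 := Polynomial.leadingCoeff_ne_zero.2 fun e => h0 (by simp [e])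
    refine (Polynomial.finite_setOfPred_isRoot h1).subset fun c hc => ?_
    by_contra h2
    have h3 : (q.map (Polynomial.evalRingHom c)).natDegree = q.natDegree :=
      Polynomial.natDegree_map_of_leadingCoeff_ne_zero _ h2
    obtain ⟨w, hw⟩ := IsAlgClosed.exists_root (q.map (Polynomial.evalRingHom c)) fun e =>
      h0 (h3 ▸ Polynomial.natDegree_eq_of_degree_eq_some e)
    exact hc w ((hq c w).symm.trans hw)

/-- the polynomial `p z * conj p w` -/
noncomputable def CL_sq (p : Polynomial ℂ) : A2 ℂ :=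
  Polynomial.aeval (X 0 : A2 ℂ) p * Polynomial.aeval (X 1 : A2 ℂ) (p.map (starRingEnd ℂ))

theorem CL_ev1 (p : Polynomial k) (i : Fin 2) (u : Pt k) :
    eval u (Polynomial.aeval (X i : A2 k) p) = p.eval (u i) := by
  induction p using Polynomial.induction_on' with
  | add p q hp hq => simp only [map_add, Polynomial.eval_add, hp, hq]
  | monomial n a => simp [Polynomial.aeval_monomial]

theorem CL_sq_eval (p : Polynomial ℂ) (c w : ℂ) :
    eval ![c, w] (CL_sq p) = p.eval c * (p.map (starRingEnd ℂ)).eval w := by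
  simp [CL_sq, CL_ev1]

theorem CL_sq_conj (p : Polynomial ℂ) (z : ℂ) :
    eval ![z, starRingEnd ℂ z] (CL_sq p) = ((‖p.eval z‖ ^ 2 : ℝ) : ℂ) := by
  rw [CL_sq_eval, Polynomial.eval_map, Polynomial.eval₂_at_apply, Complex.mul_conj,
    Complex.normSq_eq_norm_sq]

/-- Complexify: `R n (z, w) = A n z * conj(A n) w - γ n ^ 2 * (A 0 z * conj(A 0) w) ^ t n`
vanishes at `(z, conj z)` for almost all `z ∈ Z`.  If all `R n` vanish, the roots of `A n` are roots
of `A 0`.  Otherwise an irreducible `R` contains infinitely many `(z, conj z)`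
(`exists_factor_infinite`), so it divides every `R n` (`dvd_of_infinite`).  A root `c` of `A n`
is a root of `A 0`, or a root of the leading coefficient of `R` in the second variable, or
`R (c, w') = 0` for a root `w'` of `conj (A 0)`; and `R (., w') ≠ 0`. -/
theorem cl (A : ℕ → Polynomial ℂ) (hA : A 0 ≠ 0) (γ : ℕ → ℝ) (hγ : ∀ n, 0 < γ n) (t : ℕ → ℕ)
    (ht : ∀ n, 1 ≤ t n) {Z : Set ℂ} (hZ : Z.Infinite)
    (h : ∀ n, {z | z ∈ Z ∧ ‖(A n).eval z‖ ≠ γ n * ‖(A 0).eval z‖ ^ t n}.Finite) :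
    {z | ∃ n, (A n).eval z = 0}.Finite := by
  obtain ⟨R, hR⟩ : ∃ R : ℕ → A2 ℂ, ∀ n,
      R n = CL_sq (A n) - C ((γ n : ℂ) ^ 2) * CL_sq (A 0) ^ t n := ⟨_, fun _ => rfl⟩
  have hinj : Function.Injective fun z : ℂ => (![z, starRingEnd ℂ z] : Pt ℂ) := fun z z' e => by
    simpa using congrFun e 0
  have h1 : ∀ n, {z | z ∈ Z ∧ eval ![z, starRingEnd ℂ z] (R n) ≠ 0}.Finite := fun n => by
    refine (h n).subset fun z hz => ⟨hz.1, fun e => hz.2 ?_⟩
    simp only [hR, map_sub, map_mul, map_pow, eval_C, CL_sq_conj, e]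
    push_cast
    ring
  have h2 : ∀ n c w, (A n).eval c = 0 → eval ![c, w] (R n) = 0 →
      eval ![c, w] (CL_sq (A 0)) = 0 := fun n c w hc e => by
    rw [hR, map_sub, map_mul, eval_C, map_pow, CL_sq_eval (A n), hc, zero_mul, zero_sub,
      neg_eq_zero, mul_eq_zero] at e
    exact (pow_eq_zero_iff (Nat.one_le_iff_ne_zero.1 (ht n))).1
      (e.resolve_left (pow_ne_zero 2 (Complex.ofReal_ne_zero.2 (hγ n).ne')))
  by_cases h0 : ∀ n, R n = 0
  · have h3 : (A 0).map (starRingEnd ℂ) ≠ 0 := Polynomial.map_ne_zero hA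
    obtain ⟨w, hw⟩ := (Polynomial.finite_setOfPred_isRoot h3).exists_notMem
    refine (Polynomial.finite_setOfPred_isRoot hA).subset ?_
    rintro c ⟨n, hc⟩
    have h4 := h2 n c w hc (by rw [h0, map_zero])
    rw [CL_sq_eval] at h4
    exact (mul_eq_zero.1 h4).resolve_right hw
  · obtain ⟨m, hm⟩ := not_forall.1 h0
    obtain ⟨Q, hQ, -, h3⟩ := exists_factor_infinite hm
      ((hZ.sdiff (h1 m)).image hinj.injOn) (by
        rintro _ ⟨z, hz, rfl⟩
        by_contra e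
        exact hz.2 ⟨hz.1, e⟩)
    have h4 : {z | z ∈ Z ∧ eval ![z, starRingEnd ℂ z] Q = 0}.Infinite := fun hf => by
      refine h3 ((hf.image fun z : ℂ => (![z, starRingEnd ℂ z] : Pt ℂ)).subset ?_)
      rintro _ ⟨⟨z, hz, rfl⟩, e⟩
      exact ⟨z, ⟨hz.1, e⟩, rfl⟩
    have h5 : ∀ n, Q ∣ R n := fun n => by
      refine dvd_of_infinite hQ (((h4.sdiff (h1 n)).image hinj.injOn).mono ?_)
      rintro _ ⟨z, hz, rfl⟩
      refine ⟨hz.1.2, ?_⟩
      by_contra e
      exact hz.2 ⟨hz.1.1, e⟩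
    have h6 : ¬ Q ∣ CL_sq (A 0) := by
      rintro ⟨S, hS⟩
      refine h4 ((Polynomial.finite_setOfPred_isRoot hA).subset fun z hz => ?_)
      have e := CL_sq_conj (A 0) z
      rw [hS, map_mul, hz.2, zero_mul] at e
      exact norm_eq_zero.1 (pow_eq_zero_iff two_ne_zero |>.1 (Complex.ofReal_eq_zero.1 e.symm))
    have h7 := CL_fibre Q (h4.mono fun z hz => ⟨_, hz.2⟩)
    refine (h7.union ((finite_common hQ h6).image fun u => u 0)).subset ?_
    rintro c ⟨n, hc⟩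
    by_cases h8 : ∀ w, eval ![c, w] Q ≠ 0
    · exact Or.inl h8
    · obtain ⟨w, hw⟩ := not_forall.1 h8
      have hw' := not_not.1 hw
      obtain ⟨S, hS⟩ := h5 n
      exact Or.inr ⟨![c, w], ⟨hw', h2 n c w hc (by rw [hS, map_mul, hw', zero_mul])⟩, rfl⟩

theorem cl' (ι : k →+* ℂ) (A : ℕ → Polynomial k) (hA : A 0 ≠ 0) (γ : ℕ → ℝ) (hγ : ∀ n, 0 < γ n)
    (t : ℕ → ℕ) (ht : ∀ n, 1 ≤ t n) {Z : Set k} (hZ : Z.Infinite)
    (h : ∀ n, {z | z ∈ Z ∧ ‖ι ((A n).eval z)‖ ≠ γ n * ‖ι ((A 0).eval z)‖ ^ t n}.Finite) :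
    {z | ∃ n, (A n).eval z = 0}.Finite := by
  have h1 : ∀ (p : Polynomial k) (z : k), (p.map ι).eval (ι z) = ι (p.eval z) := fun p z => by
    rw [Polynomial.eval_map, Polynomial.eval₂_at_apply]
  have h2 := cl (fun n => (A n).map ι) (Polynomial.map_ne_zero hA) γ hγ t ht
    (hZ.image ι.injective.injOn) fun n => by
      refine ((h n).image ι).subset ?_
      rintro _ ⟨⟨z, hz, rfl⟩, e⟩
      exact ⟨z, ⟨hz, by rwa [h1, h1] at e⟩, rfl⟩
  refine (h2.preimage ι.injective.injOn).subset ?_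
  rintro z ⟨n, hn⟩
  exact ⟨n, by rw [h1, hn, map_zero]⟩

end Pool.Agent.Work.MP_0a826e_ag.R
end

-- merged part: Pool.Agent.Work.MP_0a826e_ag.R.KT2
section
namespace Pool.Agent.Work.MP_0a826e_ag.R

open MvPolynomial

variable {k : Type} [Field k]

variable {w : Fin 2 → ℕ} {d W : ℕ} {f F : Fin 2 → A2 k} {N : A2 k}

theorem pre_of_eq {X : Type} {φ : X → X} {x : X} {m n : ℕ} (hmn : m < n)
    (h : φ^[n] x = φ^[m] x) : Pre φ x := by
  have key : ∀ j, ∃ i, i < n ∧ φ^[j] x = φ^[i] x := by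
    intro j
    induction j using Nat.strong_induction_on with
    | _ j ih =>
      by_cases hj : j < n
      · exact ⟨j, hj, rfl⟩
      · obtain ⟨i, hi, e⟩ := ih (j - n + m) (by omega)
        refine ⟨i, hi, ?_⟩
        rw [← e, Function.iterate_add_apply, ← h, ← Function.iterate_add_apply]
        congr 1
        omega
  refine ((Set.finite_lt_nat n).image fun i => φ^[i] x).subset ?_
  rintro _ ⟨j, rfl⟩
  obtain ⟨i, hi, e⟩ := key j
  exact ⟨i, hi, e.symm⟩

theorem Pre.exists_eq {X : Type} {φ : X → X} {x : X} (h : Pre φ x) :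
    ∃ m n, m < n ∧ φ^[n] x = φ^[m] x := by
  obtain ⟨m, n, hmn, e⟩ := Set.Finite.exists_lt_map_eq_of_forall_mem
    (f := fun n : ℕ => φ^[n] x) (fun n => Set.mem_range_self n) h
  exact ⟨m, n, hmn, e.symm⟩

theorem Pre.iterate {X : Type} {φ : X → X} {x : X} (h : Pre φ x) (n : ℕ) : Pre φ (φ^[n] x) := by
  refine Set.Finite.subset h ?_
  rintro _ ⟨j, rfl⟩
  exact ⟨j + n, Function.iterate_add_apply φ j n x⟩

theorem pre_iterate_iff {X : Type} {φ : X → X} {x : X} {n : ℕ} (hn : 1 ≤ n) :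
    Pre φ^[n] x ↔ Pre φ x := by
  constructor
  · intro h
    obtain ⟨a, b, hab, e⟩ := h.exists_eq
    rw [← Function.iterate_mul, ← Function.iterate_mul] at e
    exact pre_of_eq (Nat.mul_lt_mul_of_pos_left hab hn) e
  · intro h
    refine Set.Finite.subset h ?_
    rintro _ ⟨j, rfl⟩
    exact ⟨n * j, by simp only [Function.iterate_mul]⟩

/-- a point whose class is preperiodic can be scaled to a preperiodic point: solve
`μ ^ (d ^ n - d ^ m) * l = 1` -/
theorem exists_pre_of_cls [IsAlgClosed k] (hd : 2 ≤ d) (hf : Bnd w d f F) {u : Pt k} {m n : ℕ}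
    (hmn : m < n) (h : Cls w ((ev F)^[m] u) ((ev F)^[n] u)) :
    ∃ l : k, l ≠ 0 ∧ Pre (ev F) (act w l u) := by
  obtain ⟨l, hl, e⟩ := h
  have hlt : d ^ m < d ^ n := Nat.pow_lt_pow_right hd hmn
  obtain ⟨μ, hμ⟩ := IsAlgClosed.exists_pow_nat_eq l⁻¹ (Nat.sub_pos_of_lt hlt)
  have hμ0 : μ ≠ 0 := by
    rintro rfl
    rw [zero_pow (Nat.sub_pos_of_lt hlt).ne'] at hμ
    exact inv_ne_zero hl hμ.symm
  refine ⟨μ, hμ0, pre_of_eq hmn ?_⟩
  rw [hf.iterate_act, hf.iterate_act, e, act_act]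
  congr 1
  rw [← Nat.add_sub_cancel' hlt.le, pow_add, hμ, mul_assoc, inv_mul_cancel₀ hl, mul_one]

/-- the zero set of a nonzero form is a finite union of classes, so an invariant zero set consists
of preperiodic classes -/
theorem cls_pre [IsAlgClosed k] (hw : ∀ i, 0 < w i) (hf : Reg w d f F) (hN : IsHom w W N)
    (h0 : N ≠ 0) {r : ℕ} (hr : 1 ≤ r)
    (hinv : ∀ v, v ≠ 0 → eval v N = 0 → eval ((ev F)^[r] v) N = 0) {v : Pt k} (hv : v ≠ 0)
    (hz : eval v N = 0) : ∃ m n, m < n ∧ Cls w ((ev F)^[m] v) ((ev F)^[n] v) := by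
  have hzero : ∀ j : ℕ, eval ((ev F)^[r * j] v) N = 0 := by
    intro j
    induction j with
    | zero => simpa using hz
    | succ j ih =>
      rw [Nat.mul_succ, add_comm, Function.iterate_add_apply]
      exact hinv _ (hf.iterate_ne_zero hv _) ih
  have hfin : (insert ![1, 0] ((fun z : k => (![z, 1] : Pt k)) ''
      {z | (dh N).IsRoot z})).Finite :=
    ((Polynomial.finite_setOf_isRoot (hN.dh_ne_zero (hw 1) h0)).image _).insert _
  have hex : ∀ j : ℕ, ∃ g ∈ insert ![1, 0] ((fun z : k => (![z, 1] : Pt k)) ''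
      {z | (dh N).IsRoot z}), Cls w g ((ev F)^[r * j] v) := by
    intro j
    rcases exists_cls hw (hf.iterate_ne_zero hv (r * j)) with ⟨z, h⟩ | h
    · refine ⟨_, Or.inr ⟨z, ?_, rfl⟩, h⟩
      show (dh N).eval z = 0
      rw [eval_dh]
      exact (h.eval_eq_zero hN).2 (hzero j)
    · exact ⟨_, Or.inl rfl, h⟩
  choose g hg hc using hex
  obtain ⟨a, b, hab, e⟩ := Set.Finite.exists_lt_map_eq_of_forall_mem hg hfin
  exact ⟨r * a, r * b, Nat.mul_lt_mul_of_pos_left hab hr, (hc a).symm.trans (e ▸ hc b)⟩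

/-- If the backward orbit `Z` is infinite, apply `cl'` to `A n = dh (aeval (iter F n) N)`,
`t n = d ^ n`, `γ n = γ0 / γ0 ^ d ^ n`. -/
theorem kt3 [IsAlgClosed k] (ι : k →+* ℂ) (hw : ∀ i, 0 < w i) (hd : 2 ≤ d) (hf : Reg w d f F)
    (hN : IsHom w W N) (h0 : N ≠ 0) {r : ℕ} (hr : 1 ≤ r)
    (hinv : ∀ v, v ≠ 0 → eval v N = 0 → eval ((ev F)^[r] v) N = 0)
    (hc : ∀ v v', Pre (ev F) v → Pre (ev F) v' → eval v N ≠ 0 → eval v' N ≠ 0 →
      ‖ι (eval v N)‖ = ‖ι (eval v' N)‖) {v : Pt k} (hv : v ≠ 0) (hz : eval v N = 0) :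
    {z : k | ∃ n, Cls w v ((ev F)^[n] ![z, 1])}.Finite := by
  by_contra hinf
  have hd1 : 1 ≤ d := by omega
  obtain ⟨γ0, hγ0, hγ⟩ : ∃ γ0 : ℝ, 0 < γ0 ∧
      ∀ u, Pre (ev F) u → eval u N ≠ 0 → ‖ι (eval u N)‖ = γ0 := by
    by_cases h : ∃ u, Pre (ev F) u ∧ eval u N ≠ 0
    · obtain ⟨u0, h1, h2⟩ := h
      exact ⟨_, norm_pos_iff.2 ((map_ne_zero ι).2 h2), fun u hu hu' => hc u u0 hu h1 hu' h2⟩
    · exact ⟨1, one_pos, fun u hu hu' => absurd ⟨u, hu, hu'⟩ h⟩
  have hA : ∀ n, dh (aeval (iter F n) N) ≠ 0 := fun n =>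
    (hN.aeval_top (hf.bnd.of_iter hd1 n) (Nat.one_le_pow _ _ hd1)).dh_ne_zero (hw 1)
      ((hf.of_iter hd1 n).toTop.aeval_ne_zero hw (Nat.one_le_pow _ _ hd1) h0)
  have hev : ∀ n (z : k), (dh (aeval (iter F n) N)).eval z = eval ((ev F)^[n] ![z, 1]) N :=
    fun n z => by rw [eval_dh, eval_aeval_ev, ev_iter]
  obtain ⟨a, b, hab, hcl⟩ := cls_pre hw hf hN h0 hr hinv hv hz
  have hfin := cl' ι (fun n => dh (aeval (iter F n) N)) (hA 0) (fun n => γ0 / γ0 ^ d ^ n)
    (fun n => div_pos hγ0 (pow_pos hγ0 _)) (fun n => d ^ n) (fun n => Nat.one_le_pow _ _ hd1)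
    hinf fun n => ?_
  · refine hinf (hfin.subset ?_)
    rintro z ⟨n, hn⟩
    exact ⟨n, by rw [hev]; exact (hn.eval_eq_zero hN).1 hz⟩
  refine ((Polynomial.finite_setOf_isRoot (hA 0)).union
    (Polynomial.finite_setOf_isRoot (hA n))).subset ?_
  rintro z ⟨⟨j, hj⟩, hne⟩
  by_contra hno
  have h1 : eval ((ev F)^[0] ![z, 1]) N ≠ 0 := fun h => hno (Or.inl ((hev 0 z).trans h))
  have h2 : eval ((ev F)^[n] ![z, 1]) N ≠ 0 := fun h => hno (Or.inr ((hev n z).trans h))
  have hcz : Cls w ((ev F)^[a + j] ![z, 1]) ((ev F)^[b + j] ![z, 1]) := by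
    rw [Function.iterate_add_apply, Function.iterate_add_apply]
    exact ((hj.iterate hf.bnd a).symm.trans hcl).trans (hj.iterate hf.bnd b)
  obtain ⟨l, hl, hpre⟩ := exists_pre_of_cls hd hf.bnd (Nat.add_lt_add_right hab j) hcz
  have key : ∀ i, eval ((ev F)^[i] ![z, 1]) N ≠ 0 →
      (‖ι l‖ ^ W) ^ d ^ i * ‖ι (eval ((ev F)^[i] ![z, 1]) N)‖ = γ0 := by
    intro i hi
    have e : eval ((ev F)^[i] (act w l ![z, 1])) N =
        (l ^ W) ^ d ^ i * eval ((ev F)^[i] ![z, 1]) N := by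
      rw [hf.bnd.iterate_act, hN.eval_act_eq, ← pow_mul, ← pow_mul, mul_comm W]
    have := hγ _ (hpre.iterate i) (by
      rw [e]
      exact mul_ne_zero (pow_ne_zero _ (pow_ne_zero _ hl)) hi)
    rwa [e, map_mul, map_pow, map_pow, norm_mul, norm_pow, norm_pow] at this
  have k0 := key 0 h1
  have kn := key n h2
  rw [pow_zero, pow_one] at k0
  have hl' : (‖ι l‖ ^ W) ^ d ^ n ≠ 0 :=
    pow_ne_zero _ (pow_ne_zero _ (norm_ne_zero_iff.2 ((map_ne_zero ι).2 hl)))
  refine hne ?_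
  simp only [hev]
  rw [div_mul_eq_mul_div, eq_div_iff (pow_pos hγ0 _).ne']
  calc _ = ‖ι (eval ((ev F)^[n] ![z, 1]) N)‖ *
        (‖ι l‖ ^ W * ‖ι (eval ((ev F)^[0] ![z, 1]) N)‖) ^ d ^ n := by rw [k0]
    _ = _ := by rw [mul_pow, ← mul_assoc, mul_comm _ ((‖ι l‖ ^ W) ^ d ^ n), kn]

end Pool.Agent.Work.MP_0a826e_ag.R
end

-- merged part: Pool.Agent.Work.MP_0a826e_ag.R.Ex
section
namespace Pool.Agent.Work.MP_0a826e_ag.R

open MvPolynomial

variable {k : Type} [Field k]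

theorem back_perm {X : Type} (φ : X → X) (hs : Function.Surjective φ) {B : Set X}
    (hB : B.Finite) (hb : ∀ x, φ x ∈ B → x ∈ B) :
    (∀ b ∈ B, φ b ∈ B) ∧ ∀ b ∈ B, ∀ x, φ x = φ b → x = b := by
  choose s hs using hs
  have h1 : Set.MapsTo s B B := fun y hy => hb _ ((hs y).symm ▸ hy)
  have h2 := (hB.injOn_iff_bijOn_of_mapsTo h1).1
    (Function.LeftInverse.injective (g := φ) hs).injOn
  have h3 : Set.MapsTo φ B B := fun b hb => by
    obtain ⟨y, hy, rfl⟩ := h2.surjOn hb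
    rwa [hs]
  have h4 := (hB.surjOn_iff_bijOn_of_mapsTo h3).1 fun y hy => ⟨s y, h1 hy, hs y⟩
  exact ⟨h3, fun b h x e => h4.injOn (hb x (e ▸ h3 h)) h e⟩

theorem Ex_der {r : Polynomial k} {a ξ c : k} {d : ℕ}
    (h : r = Polynomial.C a * (Polynomial.X - Polynomial.C ξ) ^ d + Polynomial.C c) (t : k) :
    r.derivative.eval t = a * (d * (t - ξ) ^ (d - 1)) := by
  rw [h]
  simp [Polynomial.derivative_X_sub_C_pow]

/-- Every point `ξ` of the backward orbit is totally ramified,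
`r - r ξ = lc * (X - ξ) ^ d`; the coefficient of `X ^ (d - 1)` determines `ξ`. -/
theorem poly_exc [IsAlgClosed k] [CharZero k] (r : Polynomial k) (hd : 2 ≤ r.natDegree) (x0 : k)
    (hf : {z : k | ∃ n, (fun t => r.eval t)^[n] z = x0}.Finite) :
    r = Polynomial.C r.leadingCoeff * (Polynomial.X - Polynomial.C x0) ^ r.natDegree +
      Polynomial.C x0 := by
  have hdeg : ∀ y, (r - Polynomial.C y).natDegree = r.natDegree := fun y =>
    Polynomial.natDegree_sub_C
  have hne : ∀ y, r - Polynomial.C y ≠ 0 := fun y h => by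
    have := hdeg y
    rw [h, Polynomial.natDegree_zero] at this
    omega
  have hs : Function.Surjective fun t => r.eval t := fun y => by
    obtain ⟨x, hx⟩ := IsAlgClosed.exists_root (r - Polynomial.C y) fun h => by
      have := hdeg y
      rw [Polynomial.natDegree_eq_zero_iff_degree_le_zero.2 h.le] at this
      omega
    exact ⟨x, by simpa [sub_eq_zero] using hx⟩
  obtain ⟨h1, h2⟩ := back_perm _ hs hf fun x ⟨n, hn⟩ => ⟨n + 1, hn⟩
  have h3 : ∀ ξ ∈ {z : k | ∃ n, (fun t => r.eval t)^[n] z = x0},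
      r = Polynomial.C r.leadingCoeff * (Polynomial.X - Polynomial.C ξ) ^ r.natDegree +
        Polynomial.C (r.eval ξ) := fun ξ hξ => by
    have e1 := (IsAlgClosed.splits (r - Polynomial.C (r.eval ξ))).eq_prod_roots
    have e2 : (r - Polynomial.C (r.eval ξ)).roots = Multiset.replicate r.natDegree ξ :=
      Multiset.eq_replicate.2 ⟨IsAlgClosed.card_roots_eq_natDegree.trans (hdeg _), fun x hx =>
        h2 ξ hξ x (by simpa [sub_eq_zero] using (Polynomial.mem_roots (hne _)).1 hx)⟩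
    rw [e2, Multiset.map_replicate, Multiset.prod_replicate, Polynomial.leadingCoeff, hdeg,
      Polynomial.coeff_sub, Polynomial.coeff_C_of_ne_zero (by omega), sub_zero] at e1
    exact eq_add_of_sub_eq e1
  have m0 : x0 ∈ {z : k | ∃ n, (fun t => r.eval t)^[n] z = x0} := ⟨0, rfl⟩
  have h4 := (Ex_der (h3 _ m0) (r.eval x0)).symm.trans (Ex_der (h3 _ (h1 _ m0)) (r.eval x0))
  have hl : r.leadingCoeff ≠ 0 := Polynomial.leadingCoeff_ne_zero.2 (by simpa using hne 0)
  have hk : (r.natDegree : k) ≠ 0 := Nat.cast_ne_zero.2 (by omega)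
  rw [sub_self, zero_pow (by omega), mul_zero, mul_zero] at h4
  have h5 := sub_eq_zero.1 (pow_eq_zero_iff (by omega) |>.1
    ((mul_eq_zero.1 ((mul_eq_zero.1 h4).resolve_left hl)).resolve_left hk))
  have h6 := h3 _ m0
  rwa [h5] at h6

/-- triangular top map: on the line `y = 1` the classes move by `r = l ^ w 0 * dh (F 0)` where
`l ^ w 1 * β = 1` -/
theorem tri [IsAlgClosed k] [CharZero k] {w : Fin 2 → ℕ} {d : ℕ} {f F : Fin 2 → A2 k}
    (hw : ∀ i, 0 < w i) (hd : 2 ≤ d) (hf : Bnd w d f F) {β : k} (hβ : β ≠ 0)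
    (h1 : F 1 = C β * X 1 ^ d) (hdeg : (dh (F 0)).natDegree = d)
    (hc : (dh (F 0)).coeff (d - 1) = 0) {x0 : k}
    (hfin : {z : k | ∃ n, Cls w ![x0, 1] ((ev F)^[n] ![z, 1])}.Finite) :
    x0 = 0 ∧ ∀ i, i < d → (dh (F 0)).coeff i = 0 := by
  obtain ⟨l, hl⟩ := IsAlgClosed.exists_pow_nat_eq β⁻¹ (hw 1)
  have hl0 : l ≠ 0 := by
    rintro rfl
    rw [zero_pow (hw 1).ne'] at hl
    exact inv_ne_zero hβ hl.symm
  have hp : l ^ w 0 ≠ 0 := pow_ne_zero _ hl0
  obtain ⟨r, hr⟩ : ∃ r, r = Polynomial.C (l ^ w 0) * dh (F 0) := ⟨_, rfl⟩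
  have hrd : r.natDegree = d := by rw [hr, Polynomial.natDegree_C_mul hp, hdeg]
  have c1 : ∀ z, Cls w (ev F ![z, 1]) ![r.eval z, 1] := fun z => ⟨l, hl0, by
    funext i
    fin_cases i
    · simp [act, ev, hr, eval_dh]
    · simp [act, ev, h1, hl, hβ]⟩
  have c2 : ∀ (n : ℕ) z, Cls w ((ev F)^[n] ![z, 1]) ![(fun t => r.eval t)^[n] z, 1] := fun n => by
    induction n with
    | zero => exact fun z => Cls.refl _ _
    | succ n ih => exact fun z => ((c1 z).iterate hf n).trans (ih _)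
  have h2 := poly_exc r (hrd ▸ hd) x0 (hfin.subset fun z ⟨n, hn⟩ => ⟨n, hn ▸ (c2 n z).symm⟩)
  have hlc : r.leadingCoeff ≠ 0 := Polynomial.leadingCoeff_ne_zero.2 fun h => by
    rw [h, Polynomial.natDegree_zero] at hrd
    omega
  rw [hrd] at h2
  generalize r.leadingCoeff = a at h2 hlc
  have h3 : x0 = 0 := by
    have e := congrArg (Polynomial.coeff · (d - 1)) h2
    simp only [hr, Polynomial.coeff_C_mul, hc, mul_zero, Polynomial.coeff_add, sub_eq_add_neg,
      ← Polynomial.C_neg, Polynomial.coeff_X_add_C_pow] at e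
    rw [Polynomial.coeff_C_of_ne_zero (by omega), show d - (d - 1) = 1 by omega, pow_one,
      add_zero] at e
    have hk : (d.choose (d - 1) : k) ≠ 0 := Nat.cast_ne_zero.2 (Nat.choose_pos (by omega)).ne'
    exact neg_eq_zero.1 ((mul_eq_zero.1 ((mul_eq_zero.1 e.symm).resolve_left hlc)).resolve_right hk)
  refine ⟨h3, fun i hi => ?_⟩
  have e := congrArg (Polynomial.coeff · i) h2
  simp only [hr, Polynomial.coeff_C_mul, h3, map_zero, sub_zero, add_zero, Polynomial.coeff_X_pow,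
    if_neg hi.ne, mul_zero] at e
  exact (mul_eq_zero.1 e).resolve_left hp

end Pool.Agent.Work.MP_0a826e_ag.R
end
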