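import Pool.Agent.Work.MP_0a826e_ag.R.Ex
import Pool.Agent.Work.MP_0a826e_ag.Defs
import Pool.Agent.Work.MP_0a826e_ag.R.M5

-- merged part: Pool.Agent.Work.MP_0a826e_ag.R.FL
section
namespace Pool.Agent.Work.MP_0a826e_ag.R

open MvPolynomial

variable {k : Type} [Field k]

variable {w : Fin 2 → ℕ} {M : ℕ} {Φ : A2 k} {u v : Pt k}

theorem lu_isHom (w : Fin 2 → ℕ) (u : Pt k) : IsHom w (w 0 * w 1) (lu w u) := by
  have h0 := ((isHom_X (k := k) w 0).pow (w 1)).C_mul (u 1 ^ w 0)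
  have h1 := ((isHom_X (k := k) w 1).pow (w 0)).C_mul (u 0 ^ w 1)
  rw [Nat.mul_comm] at h0
  exact h0.sub h1

theorem FL_eval (w : Fin 2 → ℕ) (u v : Pt k) :
    eval v (lu w u) = u 1 ^ w 0 * v 0 ^ w 1 - u 0 ^ w 1 * v 1 ^ w 0 := by
  simp [lu]

theorem FL_ne (hu : u ≠ 0) (h : u 0 = 0) : u 1 ≠ 0 := fun h' => hu (by
  funext i
  fin_cases i
  · exact h
  · exact h')

theorem lu_ne_zero (hw : Pos w) (hu : u ≠ 0) : lu w u ≠ 0 := by
  intro h
  have h0 := FL_eval w u ![1, 0]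
  have h1 := FL_eval w u ![0, 1]
  rw [h] at h0 h1
  have a0 := (hw.pos 0).ne'
  have a1 := (hw.pos 1).ne'
  simp [a0, a1] at h0 h1
  exact FL_ne hu h1 (pow_eq_zero_iff a0 |>.1 h0.symm)

/-- uses coprimality: Bezout for the exponents -/
theorem eval_lu_eq_zero [IsAlgClosed k] (hw : Pos w) (hu : u ≠ 0) (hv : v ≠ 0) :
    eval v (lu w u) = 0 ↔ Cls w u v := by
  have a0 := (hw.pos 0).ne'
  have a1 := (hw.pos 1).ne'
  rw [FL_eval, sub_eq_zero]
  constructor
  · intro h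
    have key : ∀ l : k, l ≠ 0 → v 0 = l ^ w 0 * u 0 → v 1 = l ^ w 1 * u 1 → Cls w u v := by
      intro l hl h0 h1
      refine ⟨l, hl, ?_⟩
      funext i
      fin_cases i
      · exact h0
      · exact h1
    by_cases hu0 : u 0 = 0
    · have hu1 := FL_ne hu hu0
      have hv0 : v 0 = 0 := by simpa [hu0, hu1, a0, a1] using h
      have hv1 := FL_ne hv hv0
      obtain ⟨l, hl⟩ := IsAlgClosed.exists_pow_nat_eq (v 1 / u 1) (hw.pos 1)
      refine key l ?_ (by rw [hv0, hu0, mul_zero]) (by rw [hl, div_mul_cancel₀ _ hu1])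
      rintro rfl
      rw [zero_pow a1] at hl
      exact div_ne_zero hv1 hu1 hl.symm
    by_cases hu1 : u 1 = 0
    · have hv1 : v 1 = 0 := by simpa [hu0, hu1, a0, a1] using h
      have hv0 : v 0 ≠ 0 := fun h' => FL_ne hv h' hv1
      obtain ⟨l, hl⟩ := IsAlgClosed.exists_pow_nat_eq (v 0 / u 0) (hw.pos 0)
      refine key l ?_ (by rw [hl, div_mul_cancel₀ _ hu0]) (by rw [hv1, hu1, mul_zero])
      rintro rfl
      rw [zero_pow a0] at hl
      exact div_ne_zero hv0 hu0 hl.symm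
    have h2 : (v 0 / u 0) ^ w 1 = (v 1 / u 1) ^ w 0 := by
      rw [div_pow, div_pow, div_eq_div_iff (pow_ne_zero _ hu0) (pow_ne_zero _ hu1)]
      linear_combination h
    obtain ⟨l, h0, h1⟩ := (pow_eq_pow_iff_of_coprime hw.cop.symm).1 h2
    refine key l ?_ (by rw [← h0, div_mul_cancel₀ _ hu0]) (by rw [← h1, div_mul_cancel₀ _ hu1])
    rintro rfl
    rw [zero_pow a0, div_eq_zero_iff] at h0
    rw [zero_pow a1, div_eq_zero_iff] at h1
    exact FL_ne hv (h0.resolve_right hu0) (h1.resolve_right hu1)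
  · rintro ⟨l, -, rfl⟩
    simp only [act]
    ring

theorem lu_act (w : Fin 2 → ℕ) (l : k) (u : Pt k) :
    lu w (act w l u) = C (l ^ (w 0 * w 1)) * lu w u := by
  simp only [lu, act, mul_pow, ← pow_mul, map_mul, mul_sub, Nat.mul_comm (w 1) (w 0), mul_assoc]

theorem FL_mono (a : Fin 2 →₀ ℕ) (c : k) :
    (monomial a c : A2 k) = C c * X 0 ^ a 0 * X 1 ^ a 1 := by
  rw [monomial_eq, Finsupp.prod_fintype _ _ (by simp), Fin.prod_univ_two, mul_assoc]

/-- reduction modulo a binomial -/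
theorem FL_red (hw : Pos w) (h : IsHom w M Φ) (h0 : Φ ≠ 0) (γ : k) :
    ∃ (i j : ℕ) (c : k), (X 0 ^ w 1 - C γ * X 1 ^ w 0 : A2 k) ∣ Φ - C c * X 0 ^ i * X 1 ^ j := by
  obtain ⟨e, he⟩ := support_nonempty.2 h0
  refine ⟨e 0 % w 1, e 1 + w 0 * (e 0 / w 1), ∑ a ∈ Φ.support, coeff a Φ * γ ^ (a 0 / w 1), ?_⟩
  conv_rhs => rw [Φ.as_sum]
  simp only [support_sum_monomial_coeff]
  rw [map_sum, Finset.sum_mul, Finset.sum_mul]
  conv_rhs => enter [1]; rw [Φ.as_sum]
  rw [← Finset.sum_sub_distrib]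
  refine Finset.dvd_sum fun a ha => ?_
  have ha' := h a ha
  have he' := h e he
  unfold wdeg at ha' he'
  have h1 : a 0 % w 1 = e 0 % w 1 := by
    have : w 0 * a 0 ≡ w 0 * e 0 [MOD w 1] := by
      have h2 : w 0 * a 0 + w 1 * a 1 ≡ w 0 * e 0 + w 1 * e 1 [MOD w 1] := by rw [ha', he']
      simpa [Nat.ModEq] using h2
    exact Nat.ModEq.cancel_left_of_coprime hw.cop.symm this
  have h2 : e 1 + w 0 * (e 0 / w 1) = a 1 + w 0 * (a 0 / w 1) := by
    apply Nat.eq_of_mul_eq_mul_left (hw.pos 1)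
    have d1 := Nat.div_add_mod (a 0) (w 1)
    have d2 := Nat.div_add_mod (e 0) (w 1)
    rw [h1] at d1
    zify at *
    linear_combination he' - ha' + (w 0 : ℤ) * d2 - (w 0 : ℤ) * d1
  rw [← h1, h2, FL_mono]
  have d1 := Nat.div_add_mod (a 0) (w 1)
  generalize a 0 / w 1 = q at d1 ⊢
  generalize a 0 % w 1 = r at d1 ⊢
  rw [← d1]
  obtain ⟨t, ht⟩ := sub_dvd_pow_sub_pow (X 0 ^ w 1 : A2 k) (C γ * X 1 ^ w 0) q
  refine ⟨C (coeff a Φ) * X 0 ^ r * X 1 ^ a 1 * t, ?_⟩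
  simp only [map_mul, map_pow, pow_add, pow_mul]
  rw [mul_pow] at ht
  linear_combination (C (coeff a Φ) * X 0 ^ r * X 1 ^ a 1) * ht

theorem FL_step (hw : Pos w) (h : IsHom w M Φ) (h0 : Φ ≠ 0) (hu : u ≠ 0) (hz : eval u Φ = 0) :
    ∃ (L : A2 k) (n : ℕ) (c : k), 1 ≤ n ∧ IsHom w n L ∧ L ∣ Φ ∧ c ≠ 0 ∧
      L ^ (w 0 * w 1) = C c * lu w u ^ n := by
  have a0 := (hw.pos 0).ne'
  have a1 := (hw.pos 1).ne'
  have hX : ∀ i j : Fin 2, i ≠ j → u i = 0 → u j ≠ 0 → (X i : A2 k) ∣ Φ := by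
    intro i j hij hi hj
    by_contra hn
    rw [X_dvd_iff_modMonomial_eq_zero] at hn
    obtain ⟨e, he⟩ := support_nonempty.2 hn
    have hei : e i = 0 := by
      by_contra h1
      refine mem_support_iff.1 he (coeff_modMonomial_of_le _ ?_)
      rw [Finsupp.single_le_iff]
      omega
    have heΦ : e ∈ Φ.support := by
      rw [mem_support_iff] at he ⊢
      rwa [coeff_modMonomial_of_not_le _ (by rw [Finsupp.single_le_iff]; omega)] at he
    rw [Φ.as_sum, map_sum, Finset.sum_eq_single_of_mem e heΦ, FL_mono] at hz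
    · have hc := mem_support_iff.1 heΦ
      fin_cases i <;> fin_cases j <;> simp_all
    · intro a ha hae
      have hai : a i ≠ 0 := by
        intro hai
        apply hae
        have ha' := h a ha
        have he' := h e heΦ
        unfold wdeg at ha' he'
        ext l
        fin_cases i <;> fin_cases l <;> simp_all
        · exact Nat.eq_of_mul_eq_mul_left (hw.pos 1) (ha'.trans he'.symm)
        · exact Nat.eq_of_mul_eq_mul_left (hw.pos 0) (ha'.trans he'.symm)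
      rw [FL_mono]
      fin_cases i <;> simp_all
  by_cases hu0 : u 0 = 0
  · have hu1 := FL_ne hu hu0
    refine ⟨X 0, w 0, ((u 1 ^ w 0) ^ w 0)⁻¹, hw.pos 0, isHom_X w 0, hX 0 1 (by decide) hu0 hu1,
      by positivity, ?_⟩
    simp only [lu, hu0, zero_pow a1, map_zero, zero_mul, sub_zero, mul_pow]
    rw [← map_pow, ← mul_assoc, ← map_mul, inv_mul_cancel₀ (by positivity), map_one, one_mul,
      ← pow_mul, Nat.mul_comm]
  by_cases hu1 : u 1 = 0
  · refine ⟨X 1, w 1, ((-u 0 ^ w 1) ^ w 1)⁻¹, hw.pos 1, isHom_X w 1, hX 1 0 (by decide) hu1 hu0,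
      by simp [hu0], ?_⟩
    simp only [lu, hu1, zero_pow a0, map_zero, zero_mul, zero_sub, ← neg_mul, ← map_neg, mul_pow]
    rw [← map_pow, ← mul_assoc, ← map_mul, inv_mul_cancel₀ (by simp [hu0]), map_one, one_mul,
      ← pow_mul]
  refine ⟨lu w u, w 0 * w 1, 1, Nat.mul_pos (hw.pos 0) (hw.pos 1), lu_isHom w u, ?_, one_ne_zero,
    by simp⟩
  obtain ⟨i, j, c, t, ht⟩ := FL_red hw h h0 (u 0 ^ w 1 / u 1 ^ w 0)
  have hc : c = 0 := by
    have := congrArg (eval u) ht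
    simp only [map_sub, map_mul, map_pow, eval_C, eval_X, hz] at this
    rw [div_mul_cancel₀ _ (pow_ne_zero _ hu1), sub_self, zero_mul] at this
    simpa [hu0, hu1] using this
  rw [hc, map_zero, zero_mul, zero_mul, sub_zero] at ht
  refine ⟨C (u 1 ^ w 0)⁻¹ * t, ?_⟩
  have e1 : (C (u 1 ^ w 0) * C (u 1 ^ w 0)⁻¹ : A2 k) = 1 := by
    rw [← map_mul, mul_inv_cancel₀ (pow_ne_zero _ hu1), map_one]
  rw [ht, lu, div_eq_mul_inv, map_mul]
  linear_combination (-(X 0 ^ w 1 * t)) * e1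

theorem FL_list [IsAlgClosed k] (hw : Pos w) (M : ℕ) : ∀ Φ : A2 k, IsHom w M Φ → Φ ≠ 0 →
    ∃ (s : List (Pt k)) (c : k), s.length = M ∧ c ≠ 0 ∧ (∀ x ∈ s, x ≠ 0) ∧
      Φ ^ (w 0 * w 1) = C c * (s.map (lu w)).prod := by
  induction M using Nat.strong_induction_on with
  | _ M ih =>
    intro Φ h h0
    rcases Nat.eq_zero_or_pos M with rfl | hM
    · have e := eq_C_of_wt_eq_zero hw.pos (h.wt_eq h0)
      refine ⟨[], coeff 0 Φ ^ (w 0 * w 1), rfl, pow_ne_zero _ fun hc => h0 ?_, by simp, ?_⟩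
      · rw [e, hc, map_zero]
      · rw [map_pow, ← e]
        simp
    obtain ⟨u, hu, hz⟩ := h.exists_zero hw.pos hM
    obtain ⟨L, n, c, hn, hL, ⟨Ψ, hΨ⟩, hc, e⟩ := FL_step hw h h0 hu hz
    have h1 := cmp_mul_hom hL Ψ M
    rw [mul_comm Ψ L, ← hΨ, h.cmp_self] at h1
    split_ifs at h1 with hnM
    · have h2 : cmp w (M - n) Ψ ≠ 0 := fun h2 => h0 (by rw [h1, h2, zero_mul])
      obtain ⟨s, c', hs, hc', hs0, e'⟩ := ih (M - n) (by omega) _ (isHom_cmp w _ Ψ) h2
      refine ⟨List.replicate n u ++ s, c * c', by simp [hs, hnM], mul_ne_zero hc hc', ?_, ?_⟩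
      · intro x hx
        rcases List.mem_append.1 hx with hx | hx
        · rw [List.eq_of_mem_replicate hx]
          exact hu
        · exact hs0 x hx
      · rw [h1, mul_pow, e, e']
        simp only [List.map_append, List.map_replicate, List.prod_append, List.prod_replicate,
          map_mul]
        ring
    · exact absurd h1 h0

/-- Put `a = w 0`, `b = w 1`, `φ(z) = Φ(z^a, 1) = c ∏ (z - σ j)` of degree `m ≤ M`, and
`Ψ(s,t) = Φ(s^a, t^b) = c t^(M-m) ∏ (s - σ j t)`.  For `ω^(ab) = 1`, `Ψ(ω s, t)` is a constant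
multiple of `Ψ(s,t)`; multiply over all `ω`.  Points: `(σ j ^ a, 1)` and `(1, 0)`.
An alternative is induction on `M`, dividing by `x`, `y` or `lu w u`. -/
theorem fl [IsAlgClosed k] [CharZero k] (hw : Pos w) (h : IsHom w M Φ) (h0 : Φ ≠ 0) :
    ∃ (u : Fin M → Pt k) (c : k), c ≠ 0 ∧ (∀ j, u j ≠ 0) ∧
      Φ ^ (w 0 * w 1) = C c * ∏ j, lu w (u j) := by
  obtain ⟨s, c, rfl, hc, hs, e⟩ := FL_list hw M Φ h h0
  refine ⟨fun j => s[j], c, hc, fun j => hs _ (List.getElem_mem _), ?_⟩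
  rw [e, ← Fin.prod_univ_fun_getElem]
  rfl

theorem fl_zero [IsAlgClosed k] (hw : Pos w) {u : Fin M → Pt k} {c : k} (hc : c ≠ 0)
    (hu : ∀ j, u j ≠ 0) (h : Φ ^ (w 0 * w 1) = C c * ∏ j, lu w (u j)) (hv : v ≠ 0) :
    eval v Φ = 0 ↔ ∃ j, Cls w (u j) v := by
  have hp : w 0 * w 1 ≠ 0 := (Nat.mul_pos (hw.pos 0) (hw.pos 1)).ne'
  rw [← pow_eq_zero_iff hp, ← map_pow, h, map_mul, eval_C, mul_eq_zero, or_iff_right hc, map_prod,
    Finset.prod_eq_zero_iff]
  simp only [Finset.mem_univ, true_and, eval_lu_eq_zero hw (hu _) hv]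

theorem fl2 [IsAlgClosed k] [CharZero k] (hw : Pos w) (h : IsHom w M Φ) (h0 : Φ ≠ 0)
    (hv : v ≠ 0) (hz : ∀ u : Pt k, u ≠ 0 → eval u Φ = 0 → Cls w v u) :
    ∃ c : k, c ≠ 0 ∧ Φ ^ (w 0 * w 1) = C c * lu w v ^ M := by
  obtain ⟨u, c, hc, hu, e⟩ := fl hw h h0
  have h1 : ∀ j, Cls w v (u j) := fun j =>
    hz _ (hu j) ((fl_zero hw hc hu e (hu j)).2 ⟨j, Cls.refl w _⟩)
  choose l hl hl' using h1
  refine ⟨c * ∏ j, l j ^ (w 0 * w 1),
    mul_ne_zero hc (Finset.prod_ne_zero_iff.2 fun j _ => pow_ne_zero _ (hl j)), ?_⟩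
  rw [e, Finset.prod_congr rfl fun j _ => (congrArg (lu w) (hl' j)).trans (lu_act w (l j) v),
    Finset.prod_mul_distrib, Finset.prod_const, Finset.card_univ, Fintype.card_fin, map_mul,
    map_prod, mul_assoc]

end Pool.Agent.Work.MP_0a826e_ag.R
end

-- merged part: Pool.Agent.Work.MP_0a826e_ag.R.BM
section
namespace Pool.Agent.Work.MP_0a826e_ag.R

open MvPolynomial

variable {k : Type} [Field k]

variable {w : Fin 2 → ℕ} {D q M : ℕ} {g G : Fin 2 → A2 k} {P Q : A2 k}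

theorem BM_ev_zero (hw : Pos w) (hD : 1 ≤ D) (hg : Reg w D g G) : ev G (0 : Pt k) = 0 := by
  funext i
  have h := (hg.bnd.isHom i).eval_act_eq (0 : k) (0 : Pt k)
  have e : act w (0 : k) (0 : Pt k) = 0 := by funext j; simp [act]
  rw [e, zero_pow (Nat.mul_pos hD (hw.pos i)).ne', zero_mul] at h
  exact h

theorem BM_ev_ne (hg : Reg w D g G) {u : Pt k} (hu : u ≠ 0) : ev G u ≠ 0 :=
  fun h => hu (hg.nz u h)

/-- the norm of `lu w u` under the top map: a form of weight `μ` (independent of `u`, with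
`D * μ = q * (w 0 * w 1)`) vanishing only on the class of `G u`; apply `fl2`. -/
theorem norm_lu [IsAlgClosed k] [CharZero k] (hw : Pos w) (hD : 1 ≤ D) (hg : Reg w D g G)
    {b : Fin q → Fin 2 →₀ ℕ} (hfr : Fr G b) (hs : Sp G b) {u : Pt k} (hu : u ≠ 0) :
    ∃ (R : A2 k) (μ : ℕ) (c : k), IsNorm G b (lu w u) R ∧ D * μ = q * (w 0 * w 1) ∧ c ≠ 0 ∧
      R ^ (w 0 * w 1) = C c * lu w (ev G u) ^ μ := by
  obtain ⟨R, hR⟩ := exists_isNorm hs (lu w u)
  have h0 := lu_ne_zero hw hu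
  obtain ⟨h1, h2⟩ := hR.isHom hg.bnd hD hfr (lu_isHom w u) h0
  obtain ⟨c, hc, h3⟩ := fl2 hw h1 (hR.ne_zero hfr h0) (BM_ev_ne hg hu) fun z hz h => by
    obtain ⟨y, y1, y2⟩ := (hR.eval_eq_zero hfr hs z).1 h
    have y0 : y ≠ 0 := fun e => hz (by rw [← y2, e, BM_ev_zero hw hD hg])
    rw [← y2]
    exact ((eval_lu_eq_zero hw hu y0).1 y1).map hg.bnd
  exact ⟨R, wt w R, c, hR, h2, hc, h3⟩

/-- the top form of the image curve -/
theorem bmain [IsAlgClosed k] [CharZero k] (hw : Pos w) (hD : 1 ≤ D) (hg : Reg w D g G)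
    (hP : Irreducible P) (hQ : Img g P Q) {u : Fin M → Pt k} (hu : ∀ j, u j ≠ 0) {c : k}
    (hc : c ≠ 0) (hf : top w P ^ (w 0 * w 1) = C c * ∏ j, lu w (u j)) :
    ∃ (α β : ℕ) (c' : k), 1 ≤ α ∧ 1 ≤ β ∧ c' ≠ 0 ∧ α * wt w Q = β * (M * (w 0 * w 1)) ∧
      top w Q ^ α = C c' * (∏ j, lu w (ev G (u j))) ^ β := by
  obtain ⟨q, b, hq, fG, sG, fg, sg⟩ := hg.exists_fr_sp hw.pos hD
  obtain ⟨e, c1, he, hc1, hN⟩ := hQ.isNorm fg sg hP
  have hA : 0 < w 0 * w 1 := Nat.mul_pos (hw.pos 0) (hw.pos 1)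
  obtain ⟨-, μ, -, -, hμ, -⟩ := norm_lu hw hD hg fG sG (u := fun _ => (1 : k))
    fun h => one_ne_zero (congrFun h 0)
  have hμ1 : 1 ≤ μ := Nat.pos_of_ne_zero fun h => by
    rw [h, mul_zero] at hμ
    exact (Nat.mul_pos hq hA).ne hμ
  have key : ∀ j, ∃ (R : A2 k) (c : k), IsNorm G b (lu w (u j)) R ∧ c ≠ 0 ∧
      R ^ (w 0 * w 1) = C c * lu w (ev G (u j)) ^ μ := fun j => by
    obtain ⟨R, ν, c, r1, r2, r3, r4⟩ := norm_lu hw hD hg fG sG (hu j)
    rw [Nat.eq_of_mul_eq_mul_left hD (r2.trans hμ.symm)] at r4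
    exact ⟨R, c, r1, r3, r4⟩
  choose R cc r1 r2 r3 using key
  have n1 := (hN.top_norm hg.bnd hD fG hP.ne_zero).1.pow (w 0 * w 1)
  rw [hf, top_mul, top_C, top_pow] at n1
  have n2 := (isNorm_C G b c).mul (isNorm_prod Finset.univ _ R fun j _ => r1 j)
  have n3 := congrArg (· ^ (w 0 * w 1)) (n1.unique fG n2)
  simp only [mul_pow, ← Finset.prod_pow, r3, Finset.prod_mul_distrib] at n3
  rw [Finset.prod_pow, ← map_prod, ← pow_mul, ← pow_mul, ← pow_mul, ← map_pow, ← map_pow,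
    ← mul_assoc (C _) (C _), ← map_mul] at n3
  have hc2 : c1 ^ (w 0 * w 1 * (w 0 * w 1)) ≠ 0 := pow_ne_zero _ hc1
  have hc3 : (c ^ q) ^ (w 0 * w 1) * ∏ j, cc j ≠ 0 :=
    mul_ne_zero (pow_ne_zero _ (pow_ne_zero _ hc)) (Finset.prod_ne_zero_iff.2 fun j _ => r2 j)
  have n4 : top w Q ^ (e * (w 0 * w 1 * (w 0 * w 1))) =
      C ((c1 ^ (w 0 * w 1 * (w 0 * w 1)))⁻¹ * ((c ^ q) ^ (w 0 * w 1) * ∏ j, cc j)) *
        (∏ j, lu w (ev G (u j))) ^ μ := by
    rw [map_mul, mul_assoc (C _) (C _), ← n3, ← mul_assoc (C _) (C _), ← map_mul,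
      inv_mul_cancel₀ hc2, map_one, one_mul]
  refine ⟨_, μ, _, Nat.mul_pos he (Nat.mul_pos hA hA), hμ1, mul_ne_zero (inv_ne_zero hc2) hc3, ?_,
    n4⟩
  have t0 : top w Q ^ (e * (w 0 * w 1 * (w 0 * w 1))) ≠ 0 :=
    pow_ne_zero _ (top_ne_zero hQ.1.ne_zero)
  have t1 := ((isHom_top w Q).pow (e * (w 0 * w 1 * (w 0 * w 1)))).wt_eq t0
  rw [n4] at t0 t1
  have t2 := (((isHom_prod Finset.univ (fun j => lu w (ev G (u j)))
    fun j _ => lu_isHom w _).pow μ).C_mul _).wt_eq t0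
  rw [← t1, t2, Finset.card_univ, Fintype.card_fin]

theorem top_img_zero [IsAlgClosed k] [CharZero k] (hw : Pos w) (hD : 1 ≤ D) (hg : Reg w D g G)
    (hP : Irreducible P) (hQ : Img g P Q) {v : Pt k} (hv : v ≠ 0) :
    eval v (top w Q) = 0 ↔ ∃ u, u ≠ 0 ∧ eval u (top w P) = 0 ∧ Cls w (ev G u) v := by
  obtain ⟨u, c, hc, hu, hf⟩ := fl hw (isHom_top w P) (top_ne_zero hP.ne_zero)
  obtain ⟨α, β, c', h1, h2, h3, -, h4⟩ := bmain hw hD hg hP hQ hu hc hf
  have key : eval v (top w Q) = 0 ↔ ∃ j, Cls w (ev G (u j)) v := by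
    have h5 := congrArg (eval v) h4
    rw [map_pow, map_mul, eval_C, map_pow, map_prod] at h5
    rw [← pow_eq_zero_iff (Nat.pos_iff_ne_zero.1 h1), h5, mul_eq_zero, or_iff_right h3,
      pow_eq_zero_iff (Nat.pos_iff_ne_zero.1 h2), Finset.prod_eq_zero_iff]
    exact exists_congr fun j => by
      rw [eval_lu_eq_zero hw (BM_ev_ne hg (hu j)) hv, and_iff_right (Finset.mem_univ j)]
  rw [key]
  constructor
  · rintro ⟨j, hj⟩
    exact ⟨u j, hu j, (fl_zero hw hc hu hf (hu j)).2 ⟨j, Cls.refl w _⟩, hj⟩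
  · rintro ⟨y, y0, y1, y2⟩
    obtain ⟨j, hj⟩ := (fl_zero hw hc hu hf y0).1 y1
    exact ⟨j, (hj.map hg.bnd).trans y2⟩

end Pool.Agent.Work.MP_0a826e_ag.R
end

-- merged part: Pool.Agent.Work.MP_0a826e_ag.R.Pj1
section
namespace Pool.Agent.Work.MP_0a826e_ag.R

open MvPolynomial
open scoped LinearAlgebra.Projectivization

abbrev A3 := MvPolynomial (Fin 3) ℂ

abbrev P2 := ℙ ℂ (Fin 3 → ℂ)

/-- the affine point `[1 : z0 : z1]` -/
noncomputable def aff (z : Pt ℂ) : P2 :=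
  Projectivization.mk ℂ ![1, z 0, z 1] (fun h => by simpa using congrFun h 0)

/-- the point at infinity `[0 : u0 : u1]` -/
noncomputable def inf (u : Pt ℂ) (hu : u ≠ 0) : P2 :=
  Projectivization.mk ℂ ![0, u 0, u 1] (fun h => hu (by
    funext i
    fin_cases i
    · simpa using congrFun h 1
    · simpa using congrFun h 2))

/-- set `x0 = 1` -/
noncomputable def deh (g : A3) : A2 ℂ := aeval ![1, X 0, X 1] g

/-- set `x0 = 0` -/
noncomputable def res (g : A3) : A2 ℂ := aeval ![0, X 0, X 1] g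

/-- the projective closure of an affine curve -/
def Cv (P : A2 ℂ) : Set P2 :=
  {p | (∃ z, eval z P = 0 ∧ p = aff z) ∨
    ∃ (u : Pt ℂ) (hu : u ≠ 0), eval u (top ![1, 1] P) = 0 ∧ p = inf u hu}

/-- the line at infinity -/
def Linf : Set P2 := {p | ∃ (u : Pt ℂ) (hu : u ≠ 0), p = inf u hu}

/-- preperiodic subset -/
def PreSet {X : Type} (φ : X → X) (Y : Set X) : Prop :=
  ∃ m l : ℕ, 1 ≤ l ∧ φ^[m + l] '' Y = φ^[m] '' Y

theorem preSet_empty {X : Type} (φ : X → X) : PreSet φ ∅ := by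
  exact ⟨0, 1, le_rfl, by simp⟩

theorem Pj1_per {X : Type} {φ : X → X} {Y : Set X} {m l : ℕ} (h : φ^[m + l] '' Y = φ^[m] '' Y)
    (a j : ℕ) : φ^[a + m + j * l] '' Y = φ^[a + m] '' Y := by
  induction j with
  | zero => simp
  | succ j ih =>
    rw [show a + m + (j + 1) * l = (a + j * l) + (m + l) by ring, Function.iterate_add,
      Set.image_comp, h, ← Set.image_comp, ← Function.iterate_add,
      show a + j * l + m = a + m + j * l by ring, ih]

theorem PreSet.union {X : Type} {φ : X → X} {Y Z : Set X} (h : PreSet φ Y) (h' : PreSet φ Z) :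
    PreSet φ (Y ∪ Z) := by
  obtain ⟨m, l, hl, e⟩ := h
  obtain ⟨m', l', hl', e'⟩ := h'
  refine ⟨m' + m, l' * l, Nat.mul_pos hl' hl, ?_⟩
  rw [Set.image_union, Set.image_union, Pj1_per e m' l', add_comm m' m, mul_comm l' l,
    Pj1_per e' m l]

theorem preSet_biUnion {X ι : Type} {φ : X → X} {s : Set ι} (hs : s.Finite) (Y : ι → Set X)
    (h : ∀ i ∈ s, PreSet φ (Y i)) : PreSet φ (⋃ i ∈ s, Y i) := by
  induction s, hs using Set.Finite.induction_on with
  | empty => simpa using preSet_empty φ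
  | insert _ _ ih =>
    rw [Set.biUnion_insert]
    exact (h _ (Set.mem_insert _ _)).union (ih fun i hi => h i (Set.mem_insert_of_mem _ hi))

theorem preSet_finite {X : Type} {φ : X → X} {Y : Set X} (hY : Y.Finite)
    (h : ∀ x ∈ Y, Pre φ x) : PreSet φ Y := by
  rw [← Set.biUnion_of_singleton Y]
  refine preSet_biUnion hY _ fun x hx => ?_
  obtain ⟨a, b, hab, e⟩ := Set.Finite.exists_lt_map_eq_of_forall_mem
    (f := fun n : ℕ => φ^[n] x) (fun n => Set.mem_range_self n) (h x hx)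
  refine ⟨a, b - a, by omega, ?_⟩
  rw [show a + (b - a) = b by omega, Set.image_singleton, Set.image_singleton]
  exact congrArg _ e.symm

theorem aff_or_inf (p : P2) : (∃ z, p = aff z) ∨ ∃ (u : Pt ℂ) (hu : u ≠ 0), p = inf u hu := by
  induction p using Projectivization.ind with
  | h v hv =>
    by_cases h0 : v 0 = 0
    · right
      refine ⟨![v 1, v 2], fun h => hv ?_, ?_⟩
      · funext i
        fin_cases i
        · exact h0
        · simpa using congrFun h 0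
        · simpa using congrFun h 1
      · unfold inf
        rw [Projectivization.mk_eq_mk_iff']
        refine ⟨1, ?_⟩
        funext i
        fin_cases i <;> simp [h0]
    · left
      refine ⟨![v 1 / v 0, v 2 / v 0], ?_⟩
      unfold aff
      rw [Projectivization.mk_eq_mk_iff']
      refine ⟨v 0, ?_⟩
      funext i
      fin_cases i
      · simp
      · simp [mul_div_cancel₀ _ h0]
      · simp [mul_div_cancel₀ _ h0]

theorem aff_injective : Function.Injective aff := by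
  intro z z' h
  unfold aff at h
  rw [Projectivization.mk_eq_mk_iff'] at h
  obtain ⟨a, ha⟩ := h
  have h0 : a = 1 := by simpa using congrFun ha 0
  rw [h0, one_smul] at ha
  funext i
  fin_cases i
  · simpa using (congrFun ha 1).symm
  · simpa using (congrFun ha 2).symm

theorem aff_ne_inf (z u : Pt ℂ) (hu : u ≠ 0) : aff z ≠ inf u hu := by
  intro h
  unfold aff inf at h
  rw [Projectivization.mk_eq_mk_iff'] at h
  obtain ⟨a, ha⟩ := h
  simpa using congrFun ha 0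

theorem inf_eq_iff {u v : Pt ℂ} (hu : u ≠ 0) (hv : v ≠ 0) :
    inf u hu = inf v hv ↔ Cls ![1, 1] u v := by
  unfold inf
  rw [eq_comm, Projectivization.mk_eq_mk_iff]
  constructor
  · rintro ⟨a, ha⟩
    refine ⟨a, a.ne_zero, ?_⟩
    funext i
    fin_cases i
    · simpa [act, Units.smul_def] using (congrFun ha 1).symm
    · simpa [act, Units.smul_def] using (congrFun ha 2).symm
  · rintro ⟨l, hl, rfl⟩
    refine ⟨Units.mk0 l hl, ?_⟩
    funext i
    fin_cases i <;> simp [act, Units.smul_def]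

theorem Pj1_eval_aeval (t : Fin 3 → A2 ℂ) (g : A3) (z : Pt ℂ) :
    eval z (aeval t g) = eval (fun i => eval z (t i)) g := by
  induction g using MvPolynomial.induction_on with
  | C c => simp
  | add p q hp hq => simp only [map_add, hp, hq]
  | mul_X p i hp => simp only [map_mul, hp, aeval_X, eval_X]

theorem eval_deh (g : A3) (z : Pt ℂ) : eval z (deh g) = eval ![1, z 0, z 1] g := by
  rw [deh, Pj1_eval_aeval]
  congr 2
  funext i
  fin_cases i <;> simp

theorem eval_res (g : A3) (u : Pt ℂ) : eval u (res g) = eval ![0, u 0, u 1] g := by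
  rw [res, Pj1_eval_aeval]
  congr 2
  funext i
  fin_cases i <;> simp

theorem Pj1_deg {g : A3} {e : ℕ} (hg : g.IsHomogeneous e) {d : Fin 3 →₀ ℕ}
    (hd : d ∈ g.support) : d 0 + d 1 + d 2 = e := by
  have h : d.degree = e := by
    by_contra hne
    exact (mem_support_iff.1 hd) (hg.coeff_eq_zero hne)
  rw [Finsupp.degree_eq_sum, Fin.sum_univ_three] at h
  exact h

theorem Pj1_smul {g : A3} {e : ℕ} (hg : g.IsHomogeneous e) (c : ℂ) (v : Fin 3 → ℂ) :
    eval (c • v) g = c ^ e * eval v g := by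
  rw [eval_eq', eval_eq', Finset.mul_sum]
  refine Finset.sum_congr rfl fun d hd => ?_
  rw [← Pj1_deg hg hd]
  simp only [Fin.prod_univ_three, Pi.smul_apply, smul_eq_mul, mul_pow]
  ring

theorem eval_rep_mk {g : A3} {e : ℕ} (hg : g.IsHomogeneous e) (v : Fin 3 → ℂ) (hv : v ≠ 0) :
    eval (Projectivization.mk ℂ v hv).rep g = 0 ↔ eval v g = 0 := by
  obtain ⟨a, ha⟩ := Projectivization.exists_smul_eq_mk_rep ℂ v hv
  rw [← ha, Units.smul_def, Pj1_smul hg, mul_eq_zero, or_iff_right (pow_ne_zero _ a.ne_zero)]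

theorem Pj1_hom (c : ℂ) (a b : ℕ) :
    IsHom ![1, 1] (a + b) (C c * (X 0 ^ a * X 1 ^ b) : A2 ℂ) := by
  have h := (((isHom_X (k := ℂ) ![1, 1] 0).pow a).mul ((isHom_X ![1, 1] 1).pow b)).C_mul c
  simpa using h

theorem Pj1_deh_monomial (d : Fin 3 →₀ ℕ) (c : ℂ) :
    deh (monomial d c) = C c * (X 0 ^ d 1 * X 1 ^ d 2) := by
  simp only [deh, aeval_monomial]
  rw [Finsupp.prod_fintype _ _ (fun i => pow_zero _), Fin.prod_univ_three]
  simp only [algebraMap_eq, Matrix.cons_val_zero, Matrix.cons_val_one, Matrix.cons_val]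
  ring

theorem Pj1_res_monomial (d : Fin 3 →₀ ℕ) (c : ℂ) :
    res (monomial d c) = 0 ^ d 0 * (C c * (X 0 ^ d 1 * X 1 ^ d 2)) := by
  simp only [res, aeval_monomial]
  rw [Finsupp.prod_fintype _ _ (fun i => pow_zero _), Fin.prod_univ_three]
  simp only [algebraMap_eq, Matrix.cons_val_zero, Matrix.cons_val_one, Matrix.cons_val]
  ring

theorem deh_spec {g : A3} {e : ℕ} (hg : g.IsHomogeneous e) :
    wt ![1, 1] (deh g) ≤ e ∧ cmp ![1, 1] e (deh g) = res g := by
  have e1 : deh g = ∑ d ∈ g.support, deh (monomial d (coeff d g)) := by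
    conv_lhs => rw [g.as_sum]
    simp only [deh, map_sum]
  have e2 : res g = ∑ d ∈ g.support, res (monomial d (coeff d g)) := by
    conv_lhs => rw [g.as_sum]
    simp only [res, map_sum]
  constructor
  · rw [e1]
    refine wt_sum_le _ _ fun d hd => ?_
    rw [Pj1_deh_monomial]
    have h1 := Pj1_deg hg hd
    exact (Pj1_hom _ _ _).wt_le.trans (by omega)
  · rw [e1, e2, cmp_sum]
    refine Finset.sum_congr rfl fun d hd => ?_
    rw [Pj1_deh_monomial, Pj1_res_monomial]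
    have h1 := Pj1_deg hg hd
    by_cases h0 : d 0 = 0
    · rw [h0, pow_zero, one_mul, show e = d 1 + d 2 by omega]
      exact (Pj1_hom _ _ _).cmp_self
    · rw [zero_pow h0, zero_mul]
      exact (Pj1_hom _ _ _).cmp_ne (by omega)

theorem deh_eq_zero {g : A3} {e : ℕ} (hg : g.IsHomogeneous e) (h : deh g = 0) : g = 0 := by
  have h1 : (X 0 * g : A3) = 0 := by
    refine MvPolynomial.funext fun v => ?_
    rw [map_mul, eval_X, map_zero]
    by_cases h0 : v 0 = 0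
    · rw [h0, zero_mul]
    · have e1 : v = v 0 • ![1, v 1 / v 0, v 2 / v 0] := by
        funext i
        fin_cases i
        · simp
        · simp [mul_div_cancel₀ _ h0]
        · simp [mul_div_cancel₀ _ h0]
      have e2 := eval_deh g ![v 1 / v 0, v 2 / v 0]
      rw [h, map_zero] at e2
      have e3 : eval v g = v 0 ^ e * eval ![1, v 1 / v 0, v 2 / v 0] g := by
        conv_lhs => rw [e1]
        exact Pj1_smul hg _ _
      rw [e3]
      simp only [Matrix.cons_val_zero, Matrix.cons_val_one] at e2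
      rw [← e2, mul_zero, mul_zero]
  exact (mul_eq_zero.1 h1).resolve_left (X_ne_zero 0)

theorem Pj1_isHomogeneous {n : ℕ} {φ : A2 ℂ} (h : IsHom ![1, 1] n φ) : φ.IsHomogeneous n := by
  intro d hd
  have h1 := h d (mem_support_iff.2 hd)
  rw [← h1, Finsupp.weight_apply, Finsupp.sum_fintype _ _ (fun i => by simp), Fin.sum_univ_two]
  simp [wdeg]

theorem Pj1_aeval_rename (x : A2 ℂ) (φ : A2 ℂ) :
    aeval (![x, X 0, X 1] : Fin 3 → A2 ℂ) (rename Fin.succ φ : A3) = φ := by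
  rw [aeval_rename]
  have e : (![x, X 0, X 1] : Fin 3 → A2 ℂ) ∘ Fin.succ = X := by
    funext i
    fin_cases i <;> rfl
  rw [e, aeval_X_left_apply]

/-- homogenisation: `∑ n, X 0 ^ (wt P - n) * rename Fin.succ (cmp n P)` -/
theorem exists_homog (P : A2 ℂ) :
    ∃ g : A3, g.IsHomogeneous (wt ![1, 1] P) ∧ deh g = P ∧ res g = top ![1, 1] P := by
  refine ⟨∑ n ∈ Finset.range (wt ![1, 1] P + 1),
    X 0 ^ (wt ![1, 1] P - n) * rename Fin.succ (cmp ![1, 1] n P), ?_, ?_, ?_⟩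
  · refine IsHomogeneous.sum _ _ _ fun n hn => ?_
    have h1 := (isHomogeneous_X_pow (R := ℂ) (0 : Fin 3) (wt ![1, 1] P - n)).mul
      ((Pj1_isHomogeneous (isHom_cmp ![1, 1] n P)).rename_isHomogeneous (f := Fin.succ))
    have h2 := Finset.mem_range.1 hn
    rwa [Nat.sub_add_cancel (by omega)] at h1
  · simp only [deh, map_sum, map_mul, map_pow, aeval_X, Pj1_aeval_rename, Matrix.cons_val_zero,
      one_pow, one_mul]
    exact sum_cmp _ _
  · simp only [res, map_sum, map_mul, map_pow, aeval_X, Pj1_aeval_rename, Matrix.cons_val_zero]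
    rw [Finset.sum_range_succ, Nat.sub_self, pow_zero, one_mul, top_eq_cmp,
      Finset.sum_eq_zero, zero_add]
    intro n hn
    have h2 := Finset.mem_range.1 hn
    rw [zero_pow (by omega), zero_mul]

theorem projMap_mk {d : ℕ} {F : Fin 3 → A3} (hF : ∀ v, v ≠ 0 → evalMap F v ≠ 0)
    (hom : ∀ i, (F i).IsHomogeneous d) (v : Fin 3 → ℂ) (hv : v ≠ 0) :
    projMap F hF (Projectivization.mk ℂ v hv) = Projectivization.mk ℂ (evalMap F v) (hF v hv) := by
  obtain ⟨a, ha⟩ := Projectivization.exists_smul_eq_mk_rep ℂ v hv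
  unfold projMap
  rw [Projectivization.mk_eq_mk_iff']
  refine ⟨(a : ℂ) ^ d, ?_⟩
  funext i
  rw [← ha, Units.smul_def]
  exact (Pj1_smul (hom i) _ _).symm

/-- `deh (F 0)` has no zero, so it is a nonzero constant `c` (`zeros_infinite`) and
`F 0 = C c * X 0 ^ d`; put `f i = C c⁻¹ * deh (F i.succ)`, `G i = C c⁻¹ * res (F i.succ)`. -/
theorem exists_affine {d : ℕ} (hd : 2 ≤ d) {F : Fin 3 → A3}
    (hF : ∀ v, v ≠ 0 → evalMap F v ≠ 0) (hom : ∀ i, (F i).IsHomogeneous d)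
    (h0 : ∀ v, evalMap F v 0 = 0 ↔ v 0 = 0) :
    ∃ f G : Fin 2 → A2 ℂ, Reg ![1, 1] d f G ∧ (∀ z, projMap F hF (aff z) = aff (ev f z)) ∧
      ∀ u (hu : u ≠ 0) (hu' : ev G u ≠ 0), projMap F hF (inf u hu) = inf (ev G u) hu' := by
  have hu : IsUnit (deh (F 0)) := by
    by_contra hn
    obtain ⟨z, hz⟩ := (zeros_infinite hn).nonempty
    have h1 : eval z (deh (F 0)) = 0 := hz
    rw [eval_deh] at h1
    simpa using (h0 _).1 h1
  obtain ⟨c, hc, e⟩ := isUnit_iff_C.1 hu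
  have hG : ∀ u : Pt ℂ, evalMap F ![0, u 0, u 1] =
      c • ![0, ev (fun i => C c⁻¹ * res (F i.succ)) u 0,
        ev (fun i => C c⁻¹ * res (F i.succ)) u 1] := by
    intro u
    funext i
    fin_cases i
    · simpa using (h0 _).2 rfl
    · simp [ev, evalMap, eval_res, hc]
    · simp [ev, evalMap, eval_res, hc]
  refine ⟨fun i => C c⁻¹ * deh (F i.succ), fun i => C c⁻¹ * res (F i.succ),
    ⟨⟨fun i => ?_, fun i => ?_⟩, fun u hu => ?_⟩, fun z => ?_, fun u hu hu' => ?_⟩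
  · rw [wt_C_mul (inv_ne_zero hc), show (![1, 1] : Fin 2 → ℕ) i = 1 by fin_cases i <;> rfl,
      mul_one]
    exact (deh_spec (hom _)).1
  · rw [cmp_C_mul, show (![1, 1] : Fin 2 → ℕ) i = 1 by fin_cases i <;> rfl, mul_one,
      (deh_spec (hom _)).2]
  · by_contra hne
    refine hF ![0, u 0, u 1] (fun h => hne ?_) ?_
    · funext i
      fin_cases i
      · simpa using congrFun h 1
      · simpa using congrFun h 2
    · rw [hG, hu]
      funext i
      fin_cases i <;> simp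
  · unfold aff
    rw [projMap_mk hF hom, Projectivization.mk_eq_mk_iff']
    refine ⟨c, ?_⟩
    funext i
    fin_cases i
    · have h1 := eval_deh (F 0) z
      rw [e, eval_C] at h1
      simpa [evalMap] using h1
    · simp [ev, evalMap, eval_deh, hc]
    · simp [ev, evalMap, eval_deh, hc]
  · unfold inf
    rw [projMap_mk hF hom, Projectivization.mk_eq_mk_iff']
    exact ⟨c, (hG u).symm⟩

end Pool.Agent.Work.MP_0a826e_ag.R
end

-- merged part: Pool.Agent.Work.MP_0a826e_ag.R.Pj2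
section
namespace Pool.Agent.Work.MP_0a826e_ag.R

open MvPolynomial
open scoped LinearAlgebra.Projectivization

theorem mem_idealOf {Y : Set P2} {g : A3} :
    g ∈ idealOf Y ↔ ∀ p ∈ Y, ∀ c : ℂ, eval (c • p.rep) g = 0 := by
  unfold idealOf
  rw [mem_vanishingIdeal_iff]
  constructor
  · intro h p hp c
    have h1 := h (c • p.rep) ⟨p, hp, by
      rw [Projectivization.submodule_eq]
      exact Submodule.smul_mem _ _ (Submodule.mem_span_singleton_self _)⟩
    rwa [aeval_eq_eval] at h1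
  · rintro h v ⟨p, hp, hv⟩
    rw [Projectivization.submodule_eq, Submodule.mem_span_singleton] at hv
    obtain ⟨c, rfl⟩ := hv
    rw [aeval_eq_eval]
    exact h p hp c

theorem mem_idealOf_of_hom {Y : Set P2} {g : A3} {e : ℕ} (hg : g.IsHomogeneous e) (he : 1 ≤ e)
    (h : ∀ p ∈ Y, eval p.rep g = 0) : g ∈ idealOf Y := by
  rw [mem_idealOf]
  intro p hp c
  rw [Pj1_smul hg, h p hp, mul_zero]

/-- `c ↦ g (c • v)` is a polynomial in `c` whose coefficients are the values of the components -/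
theorem comp_mem_idealOf {Y : Set P2} {g : A3} (hg : g ∈ idealOf Y) (e : ℕ) (p : P2)
    (hp : p ∈ Y) : eval p.rep (homogeneousComponent e g) = 0 := by
  by_cases he : g.totalDegree < e
  · rw [homogeneousComponent_eq_zero _ _ he, map_zero]
  have h1 : (∑ n ∈ Finset.range (g.totalDegree + 1),
      Polynomial.monomial n (eval p.rep (homogeneousComponent n g))) = 0 := by
    refine Polynomial.funext fun c => ?_
    rw [Polynomial.eval_zero, ← mem_idealOf.1 hg p hp c, Polynomial.eval_finset_sum]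
    conv_rhs => rw [← sum_homogeneousComponent g, map_sum]
    refine Finset.sum_congr rfl fun n _ => ?_
    rw [Polynomial.eval_monomial, Pj1_smul (homogeneousComponent_isHomogeneous n g), mul_comm]
  have h2 := congrArg (fun q : Polynomial ℂ => q.coeff e) h1
  simp only [Polynomial.finset_sum_coeff, Polynomial.coeff_monomial, Finset.sum_ite_eq',
    Finset.mem_range, Polynomial.coeff_zero] at h2
  rwa [if_pos (by omega)] at h2

theorem Pj2_aff {g : A3} {e : ℕ} (hg : g.IsHomogeneous e) (z : Pt ℂ) :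
    eval (aff z).rep g = 0 ↔ eval z (deh g) = 0 := by
  unfold aff
  rw [eval_rep_mk hg, eval_deh]

theorem Pj2_inf {g : A3} {e : ℕ} (hg : g.IsHomogeneous e) (u : Pt ℂ) (hu : u ≠ 0) :
    eval (inf u hu).rep g = 0 ↔ eval u (res g) = 0 := by
  unfold inf
  rw [eval_rep_mk hg, eval_res]

/-- a form vanishing at infinitely many affine points of an irreducible curve vanishes on its
closure -/
theorem eval_Cv {P : A2 ℂ} (hP : Irreducible P) {g : A3} {e : ℕ} (hg : g.IsHomogeneous e)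
    (h : {z | eval z P = 0 ∧ eval (aff z).rep g = 0}.Infinite) {p : P2} (hp : p ∈ Cv P) :
    eval p.rep g = 0 := by
  simp only [Pj2_aff hg] at h
  obtain ⟨R, hR⟩ := dvd_of_infinite hP h
  rcases hp with ⟨z, hz, rfl⟩ | ⟨u, hu, hz, rfl⟩
  · rw [Pj2_aff hg, hR, map_mul, hz, zero_mul]
  · rw [Pj2_inf hg, ← (deh_spec hg).2]
    rcases (deh_spec hg).1.lt_or_eq with h1 | h1
    · rw [cmp_eq_zero h1, map_zero]
    · rw [← h1, ← top_eq_cmp, hR, top_mul, map_mul, hz, zero_mul]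

theorem eval_Linf {g : A3} {e : ℕ} (hg : g.IsHomogeneous e)
    (h : {p | p ∈ Linf ∧ eval p.rep g = 0}.Infinite) {p : P2} (hp : p ∈ Linf) :
    eval p.rep g = 0 := by
  obtain ⟨u, hu, rfl⟩ := hp
  rw [Pj2_inf hg]
  by_cases h0 : res g = 0
  · rw [h0, map_zero]
  exfalso
  have hh : IsHom ![1, 1] e (res g) := by
    rw [← (deh_spec hg).2]
    exact isHom_cmp _ _ _
  have hd := hh.dh_ne_zero (by simp) h0
  have n1 : ∀ z : ℂ, (![z, 1] : Pt ℂ) ≠ 0 := fun z h => by simpa using congrFun h 1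
  have n2 : (![1, 0] : Pt ℂ) ≠ 0 := fun h => by simpa using congrFun h 0
  refine h (((((dh (res g)).roots.toFinset.finite_toSet).image
    fun z => inf ![z, 1] (n1 z)).insert (inf ![1, 0] n2)).subset ?_)
  rintro _ ⟨⟨v, hv, rfl⟩, hz⟩
  rw [Pj2_inf hg] at hz
  rcases exists_cls (w := ![1, 1]) pos_one.pos hv with ⟨z, hc⟩ | hc
  · refine Or.inr ⟨z, ?_, (inf_eq_iff _ _).2 hc⟩
    rw [Finset.mem_coe, Multiset.mem_toFinset, Polynomial.mem_roots hd, Polynomial.IsRoot, eval_dh]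
    exact (hc.eval_eq_zero hh).2 hz
  · exact Or.inl ((inf_eq_iff _ _).2 hc).symm

/-- a set cut out by forms of positive degree, pointwise -/
def Cut (Y : Set P2) : Prop :=
  ∀ p, p ∉ Y → ∃ (g : A3) (e : ℕ), g.IsHomogeneous e ∧ 1 ≤ e ∧ (∀ y ∈ Y, eval y.rep g = 0) ∧
    eval p.rep g ≠ 0

theorem cut_empty : Cut ∅ := by
  intro p _
  obtain ⟨i, hi⟩ := Function.ne_iff.1 p.rep_nonzero
  exact ⟨X i, 1, isHomogeneous_X _ i, le_rfl, fun y hy => absurd hy (Set.notMem_empty y),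
    by rw [eval_X]; exact hi⟩

theorem Cut.union {Y Z : Set P2} (h : Cut Y) (h' : Cut Z) : Cut (Y ∪ Z) := by
  intro p hp
  obtain ⟨g, e, hg, he, h1, h2⟩ := h p fun hh => hp (Or.inl hh)
  obtain ⟨g', e', hg', he', h1', h2'⟩ := h' p fun hh => hp (Or.inr hh)
  refine ⟨g * g', e + e', hg.mul hg', by omega, ?_, by rw [map_mul]; exact mul_ne_zero h2 h2'⟩
  rintro y (hy | hy)
  · rw [map_mul, h1 y hy, zero_mul]
  · rw [map_mul, h1' y hy, mul_zero]

theorem cut_biUnion {ι : Type} {s : Set ι} (hs : s.Finite) (Y : ι → Set P2)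
    (h : ∀ i ∈ s, Cut (Y i)) : Cut (⋃ i ∈ s, Y i) := by
  induction s, hs using Set.Finite.induction_on with
  | empty => simpa using cut_empty
  | insert _ _ ih =>
    rw [Set.biUnion_insert]
    exact (h _ (Set.mem_insert _ _)).union (ih fun i hi => h i (Set.mem_insert_of_mem _ hi))

theorem cut_finite {Y : Set P2} (hY : Y.Finite) : Cut Y := by
  rw [← Set.biUnion_of_singleton Y]
  refine cut_biUnion hY _ fun q _ p hp => ?_
  obtain ⟨i, hi⟩ := Function.ne_iff.1 q.rep_nonzero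
  have hi' : q.rep i ≠ 0 := hi
  obtain ⟨j, hj⟩ : ∃ j, q.rep j * p.rep i - q.rep i * p.rep j ≠ 0 := by
    by_contra hc
    push Not at hc
    apply hp
    rw [Set.mem_singleton_iff, ← p.mk_rep, ← q.mk_rep, Projectivization.mk_eq_mk_iff']
    refine ⟨p.rep i / q.rep i, ?_⟩
    funext j
    rw [Pi.smul_apply, smul_eq_mul, div_mul_eq_mul_div, div_eq_iff hi']
    linear_combination hc j
  refine ⟨C (q.rep j) * X i - C (q.rep i) * X j, 1,
    (isHomogeneous_C_mul_X _ _).sub (isHomogeneous_C_mul_X _ _), le_rfl, ?_, by simpa using hj⟩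
  rintro y rfl
  simp only [map_sub, map_mul, eval_C, eval_X]
  ring

theorem cut_Linf : Cut Linf := by
  intro p hp
  have hX : (X 0 : A3).IsHomogeneous 1 := isHomogeneous_X _ 0
  refine ⟨X 0, 1, hX, le_rfl, ?_, ?_⟩
  · rintro _ ⟨u, hu, rfl⟩
    rw [Pj2_inf hX, eval_res]
    simp
  · rcases aff_or_inf p with ⟨z, rfl⟩ | h
    · rw [Ne, Pj2_aff hX, eval_deh]
      simp
    · exact absurd h hp

theorem cut_Cv {P : A2 ℂ} (hP : Irreducible P) : Cut (Cv P) := by
  intro p hp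
  obtain ⟨g, hg, h1, h2⟩ := exists_homog P
  refine ⟨g, _, hg, ?_, ?_, ?_⟩
  · by_contra hc
    have h3 := eq_C_of_wt_eq_zero (φ := P) pos_one.pos (by omega)
    by_cases h4 : coeff 0 P = 0
    · exact hP.ne_zero (by rw [h3, h4, map_zero])
    · exact hP.not_isUnit (isUnit_iff_C.2 ⟨_, h4, h3⟩)
  · rintro _ (⟨z, hz, rfl⟩ | ⟨u, hu, hz, rfl⟩)
    · rw [Pj2_aff hg, h1, hz]
    · rw [Pj2_inf hg, h2, hz]
  · rcases aff_or_inf p with ⟨z, rfl⟩ | ⟨u, hu, rfl⟩
    · rw [Ne, Pj2_aff hg, h1]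
      exact fun hz => hp (Or.inl ⟨z, hz, rfl⟩)
    · rw [Ne, Pj2_inf hg, h2]
      exact fun hz => hp (Or.inr ⟨u, hu, hz, rfl⟩)

theorem Pj2_eval_zero {g : A3} {v : Fin 3 → ℂ}
    (h : ∀ n, eval v (homogeneousComponent n g) = 0) : eval v g = 0 := by
  rw [← sum_homogeneousComponent g, map_sum]
  exact Finset.sum_eq_zero fun n _ => h n

theorem Pj2_factor {R : A2 ℂ} (hR : R ≠ 0) {z : Pt ℂ} (hz : eval z R = 0) :
    ∃ P ∈ UniqueFactorizationMonoid.factors R, eval z P = 0 := by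
  obtain ⟨Q, hQ⟩ := (UniqueFactorizationMonoid.factors_prod hR).symm.dvd
  have h1 : ((UniqueFactorizationMonoid.factors R).map (eval z)).prod = 0 := by
    rw [← map_multiset_prod, hQ, map_mul, hz, zero_mul]
  obtain ⟨P, hP, h2⟩ := Multiset.mem_map.1 (Multiset.prod_eq_zero_iff.1 h1)
  exact ⟨P, hP, h2⟩

/-- Structure of a proper closed set with a dense subset `S`.  Take a nonzero component `g` of a
nonzero element of the ideal and the normalised irreducible factors of `deh g`; keep those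
containing infinitely many affine points of `S`. -/
theorem closed_structure {Y S : Set P2}
    (hY : ∀ p : P2, (∀ g ∈ idealOf Y, eval p.rep g = 0) → p ∈ Y) (hSY : S ⊆ Y)
    (hd : idealOf S = idealOf Y) (hne : Y ≠ Set.univ) :
    ∃ (I : Set (A2 ℂ)) (E L : Set P2), I.Finite ∧
      (∀ P ∈ I, Irreducible P ∧ {z | eval z P = 0 ∧ aff z ∈ S}.Infinite) ∧ E.Finite ∧ E ⊆ S ∧
      (L = ∅ ∨ L = Linf) ∧ Y = (⋃ P ∈ I, Cv P) ∪ E ∪ L := by
  classical
  obtain ⟨p₀, hp₀⟩ := (Set.ne_univ_iff_exists_notMem Y).1 hne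
  obtain ⟨g₀, hg₀, hg₀'⟩ : ∃ g ∈ idealOf Y, eval p₀.rep g ≠ 0 := by
    by_contra hc
    push Not at hc
    exact hp₀ (hY p₀ hc)
  obtain ⟨e, he⟩ : ∃ e, eval p₀.rep (homogeneousComponent e g₀) ≠ 0 := by
    by_contra hc
    push Not at hc
    exact hg₀' (Pj2_eval_zero hc)
  have hg := homogeneousComponent_isHomogeneous e g₀
  have hR : deh (homogeneousComponent e g₀) ≠ 0 := fun h => he (by rw [deh_eq_zero hg h, map_zero])
  set T := UniqueFactorizationMonoid.factors (deh (homogeneousComponent e g₀)) with hT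
  have hTf : {P | P ∈ T}.Finite := T.finite_toSet
  set I : Set (A2 ℂ) := {P | P ∈ T ∧ {z | eval z P = 0 ∧ aff z ∈ S}.Infinite} with hI
  have hIf : I.Finite := hTf.subset fun P hP => hP.1
  have hIi : ∀ P ∈ I, Irreducible P := fun P hP =>
    UniqueFactorizationMonoid.irreducible_of_factor P hP.1
  obtain ⟨L, hL, hL1, hL2⟩ : ∃ L : Set P2, (L = ∅ ∨ L = Linf) ∧ L ⊆ Y ∧
      ((S ∩ Linf) \ L).Finite := by
    by_cases hf : (S ∩ Linf).Finite
    · exact ⟨∅, Or.inl rfl, Set.empty_subset _, hf.subset Set.diff_subset⟩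
    · refine ⟨Linf, Or.inr rfl, fun p hp => hY p fun g hgY => Pj2_eval_zero fun n => ?_,
        Set.finite_empty.subset fun p hp => hp.2 hp.1.2⟩
      refine eval_Linf (homogeneousComponent_isHomogeneous n g) (Set.Infinite.mono ?_ hf) hp
      exact fun q hq => ⟨hq.2, comp_mem_idealOf hgY n q (hSY hq.1)⟩
  set E : Set P2 := {p | p ∈ S ∧ p ∉ (⋃ P ∈ I, Cv P) ∧ p ∉ L} with hE
  have hEf : E.Finite := by
    have h1 : (⋃ P ∈ {P | P ∈ T ∧ P ∉ I}, aff '' {z | eval z P = 0 ∧ aff z ∈ S}).Finite := by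
      refine (hTf.subset fun P hP => hP.1).biUnion fun P hP => Set.Finite.image _ ?_
      by_contra hc
      exact hP.2 ⟨hP.1, hc⟩
    refine (h1.union hL2).subset fun p hp => ?_
    rcases aff_or_inf p with ⟨z, rfl⟩ | h
    · left
      obtain ⟨P, hP, hz⟩ := Pj2_factor hR
        ((Pj2_aff hg z).1 (comp_mem_idealOf hg₀ e _ (hSY hp.1)))
      refine Set.mem_biUnion (x := P) ⟨hP, fun hPI => hp.2.1 ?_⟩ ⟨z, ⟨hz, hp.1⟩, rfl⟩
      exact Set.mem_biUnion hPI (Or.inl ⟨z, hz, rfl⟩)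
    · exact Or.inr ⟨⟨hp.1, h⟩, hp.2.2⟩
  refine ⟨I, E, L, hIf, fun P hP => ⟨hIi P hP, hP.2⟩, hEf, fun p hp => hp.1, hL, ?_⟩
  refine Set.Subset.antisymm (fun p hp => ?_) ?_
  · have hc : Cut ((⋃ P ∈ I, Cv P) ∪ E ∪ L) := by
      refine ((cut_biUnion hIf _ fun P hP => cut_Cv (hIi P hP)).union (cut_finite hEf)).union ?_
      rcases hL with rfl | rfl
      · exact cut_empty
      · exact cut_Linf
    by_contra hn
    obtain ⟨g, n, h1, h2, h3, h4⟩ := hc p hn
    have h5 : g ∈ idealOf S := mem_idealOf_of_hom h1 h2 fun q hq => h3 q (by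
      by_cases a : q ∈ ⋃ P ∈ I, Cv P
      · exact Or.inl (Or.inl a)
      · by_cases b : q ∈ L
        · exact Or.inr b
        · exact Or.inl (Or.inr ⟨hq, a, b⟩))
    rw [hd, mem_idealOf] at h5
    exact h4 (by simpa using h5 p hp 1)
  · rintro p ((hp | hp) | hp)
    · obtain ⟨P, hP, hpP⟩ := Set.mem_iUnion₂.1 hp
      refine hY p fun g hgY => Pj2_eval_zero fun n => ?_
      refine eval_Cv (hIi P hP) (homogeneousComponent_isHomogeneous n g)
        (Set.Infinite.mono ?_ hP.2) hpP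
      exact fun z hz => ⟨hz.1, comp_mem_idealOf hgY n _ (hSY hz.2)⟩
    · exact hSY hp.1
    · exact hL1 hp

end Pool.Agent.Work.MP_0a826e_ag.R
end

-- merged part: Pool.Agent.Work.MP_0a826e_ag.R.Pr
section
namespace Pool.Agent.Work.MP_0a826e_ag.R

open MvPolynomial

variable {k : Type} [Field k]

variable {p q : Polynomial k} {D : ℕ} {S : Finset k}

theorem Pr_eval (u : Pt k) (i : Fin 2) (p : Polynomial k) :
    eval u (Polynomial.aeval (X i : A2 k) p) = p.eval (u i) := by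
  rw [← coe_aeval_eq_eval, RingHom.coe_coe, ← Polynomial.aeval_algHom_apply, aeval_X,
    Polynomial.coe_aeval_eq_eval]

theorem ev_prodMap (p q : Polynomial k) (u : Pt k) :
    ev (prodMap p q) u = ![p.eval (u 0), q.eval (u 1)] := by
  funext i
  fin_cases i
  · exact Pr_eval u 0 p
  · exact Pr_eval u 1 q

theorem iterate_prodMap (p q : Polynomial k) (u : Pt k) (n : ℕ) :
    (ev (prodMap p q))^[n] u =
      ![(fun t => p.eval t)^[n] (u 0), (fun t => q.eval t)^[n] (u 1)] := by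
  induction n with
  | zero =>
    funext i
    fin_cases i <;> rfl
  | succ n ih =>
    rw [Function.iterate_succ_apply', Function.iterate_succ_apply', Function.iterate_succ_apply',
      ih, ev_prodMap]
    rfl

theorem Pr_comp (g : Fin 2 → A2 k) (i : Fin 2) (p : Polynomial k) :
    aeval g (Polynomial.aeval (X i : A2 k) p) = Polynomial.aeval (g i) p := by
  rw [← Polynomial.aeval_algHom_apply, aeval_X]

theorem iter_prodMap (p q : Polynomial k) (n : ℕ) :
    iter (prodMap p q) n =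
      prodMap ((fun r => p.comp r)^[n] Polynomial.X) ((fun r => q.comp r)^[n] Polynomial.X) := by
  induction n with
  | zero =>
    funext i
    fin_cases i
    · exact (Polynomial.aeval_X (X 0 : A2 k)).symm
    · exact (Polynomial.aeval_X (X 1 : A2 k)).symm
  | succ n ih =>
    rw [iter, ih, Function.iterate_succ_apply', Function.iterate_succ_apply']
    funext i
    fin_cases i
    · exact (Pr_comp _ 0 p).trans (Polynomial.aeval_comp _).symm
    · exact (Pr_comp _ 1 q).trans (Polynomial.aeval_comp _).symm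

theorem iter_comp_spec (p : Polynomial k) (n : ℕ) :
    ((fun r => p.comp r)^[n] Polynomial.X).natDegree = p.natDegree ^ n ∧
      ∀ t, ((fun r => p.comp r)^[n] Polynomial.X).eval t = (fun t => p.eval t)^[n] t := by
  induction n with
  | zero => exact ⟨Polynomial.natDegree_X, fun _ => Polynomial.eval_X⟩
  | succ n ih =>
    refine ⟨?_, fun t => ?_⟩
    · rw [Function.iterate_succ_apply', Polynomial.natDegree_comp, ih.1, pow_succ']
    · rw [Function.iterate_succ_apply', Function.iterate_succ_apply', Polynomial.eval_comp, ih.2]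

/-- the leading monomial -/
noncomputable def lm (p : Polynomial k) : Polynomial k :=
  Polynomial.monomial p.natDegree p.leadingCoeff

theorem natDegree_lm (p : Polynomial k) : (lm p).natDegree = p.natDegree := by
  by_cases h : p = 0
  · rw [lm, h, Polynomial.leadingCoeff_zero, map_zero]
  · exact Polynomial.natDegree_monomial_eq _ (Polynomial.leadingCoeff_ne_zero.2 h)

theorem lm_lm (p : Polynomial k) : lm (lm p) = lm p := by
  rw [lm, natDegree_lm, lm, Polynomial.leadingCoeff_monomial]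

theorem Pr_monomial (i : Fin 2) (n : ℕ) (c : k) :
    Polynomial.aeval (X i : A2 k) (Polynomial.monomial n c) = monomial (Finsupp.single i n) c := by
  rw [Polynomial.aeval_monomial, algebraMap_eq, C_mul_X_pow_eq_monomial]

theorem Pr_wdeg (w : Fin 2 → ℕ) (i : Fin 2) (n : ℕ) : wdeg w (Finsupp.single i n) = n * w i := by
  fin_cases i <;> simp [wdeg, mul_comm]

theorem Pr_sum (i : Fin 2) (p : Polynomial k) : Polynomial.aeval (X i : A2 k) p =
    ∑ n ∈ Finset.range (p.natDegree + 1), monomial (Finsupp.single i n) (p.coeff n) := by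
  conv_lhs => rw [p.as_sum_range]
  rw [map_sum]
  exact Finset.sum_congr rfl fun n _ => Pr_monomial i n _

theorem Pr_wt (w : Fin 2 → ℕ) (i : Fin 2) (p : Polynomial k) :
    wt w (Polynomial.aeval (X i : A2 k) p) ≤ p.natDegree * w i := by
  rw [Pr_sum]
  refine wt_sum_le _ _ fun n hn => (wt_monomial_le _ _ _).trans ?_
  rw [Pr_wdeg]
  exact Nat.mul_le_mul_right _ (Nat.lt_succ_iff.1 (Finset.mem_range.1 hn))

theorem Pr_top {w : Fin 2 → ℕ} {i : Fin 2} (hw : w i = 1) (hp : p.natDegree = D) :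
    Polynomial.aeval (X i : A2 k) (lm p) =
      cmp w (D * w i) (Polynomial.aeval (X i : A2 k) p) := by
  have h : ∀ n, IsHom w n (monomial (Finsupp.single i n) (p.coeff n)) := fun n => by
    have := isHom_monomial w (Finsupp.single i n) (p.coeff n)
    rwa [Pr_wdeg, hw, mul_one] at this
  rw [Pr_sum i p, cmp_sum, hw, mul_one, hp, Finset.sum_eq_single D, (h D).cmp_self, lm,
    Pr_monomial, Polynomial.leadingCoeff, hp]
  · exact fun n _ hn => (h n).cmp_ne hn.symm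
  · exact fun e => absurd (Finset.self_mem_range_succ D) e

theorem Pr_flat {w : Fin 2 → ℕ} {i : Fin 2} (hw : w i = 0) (D : ℕ) (p : Polynomial k) :
    wt w (Polynomial.aeval (X i : A2 k) p) ≤ D * w i ∧ Polynomial.aeval (X i : A2 k) p =
      cmp w (D * w i) (Polynomial.aeval (X i : A2 k) p) := by
  have h := Pr_wt w i p
  rw [hw, mul_zero] at h ⊢
  exact ⟨h, (IsHom.cmp_self fun m hm => Nat.le_zero.1 ((wdeg_le_wt hm).trans h)).symm⟩

theorem Pr_lc (hD : 1 ≤ D) (hp : p.natDegree = D) : p.leadingCoeff ≠ 0 := fun h => by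
  rw [Polynomial.leadingCoeff_eq_zero.1 h, Polynomial.natDegree_zero] at hp
  omega

theorem Pr_zero (hD : 1 ≤ D) (hp : p.natDegree = D) {x : k} (h : (lm p).eval x = 0) : x = 0 := by
  rw [lm, Polynomial.eval_monomial] at h
  exact pow_eq_zero_iff (by omega) |>.1 ((mul_eq_zero.1 h).resolve_left (Pr_lc hD hp))

theorem reg_prodMap (hD : 1 ≤ D) (hp : p.natDegree = D) (hq : q.natDegree = D) :
    Reg ![1, 1] D (prodMap p q) (prodMap (lm p) (lm q)) := by
  refine ⟨⟨fun i => ?_, fun i => ?_⟩, fun u hu => ?_⟩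
  · fin_cases i
    · exact hp ▸ Pr_wt _ 0 p
    · exact hq ▸ Pr_wt _ 1 q
  · fin_cases i
    · exact Pr_top (i := 0) rfl hp
    · exact Pr_top (i := 1) rfl hq
  · rw [ev_prodMap] at hu
    funext i
    fin_cases i
    · exact Pr_zero hD hp (congrFun hu 0)
    · exact Pr_zero hD hq (congrFun hu 1)

theorem bnd_prodMap_x (hp : p.natDegree = D) (q : Polynomial k) :
    Bnd ![1, 0] D (prodMap p q) (prodMap (lm p) q) := by
  refine ⟨fun i => ?_, fun i => ?_⟩
  · fin_cases i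
    · exact hp ▸ Pr_wt _ 0 p
    · exact (Pr_flat (i := 1) rfl D q).1
  · fin_cases i
    · exact Pr_top (i := 0) rfl hp
    · exact (Pr_flat (i := 1) rfl D q).2

theorem bnd_prodMap_y (p : Polynomial k) (hq : q.natDegree = D) :
    Bnd ![0, 1] D (prodMap p q) (prodMap p (lm q)) := by
  refine ⟨fun i => ?_, fun i => ?_⟩
  · fin_cases i
    · exact (Pr_flat (i := 0) rfl D p).1
    · exact hq ▸ Pr_wt _ 1 q
  · fin_cases i
    · exact (Pr_flat (i := 0) rfl D p).2
    · exact Pr_top (i := 1) rfl hq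

/-- one monomial basis for all maps with the same leading monomials -/
theorem exists_basis_prod [IsAlgClosed k] (hD : 1 ≤ D) (hp : p.natDegree = D)
    (hq : q.natDegree = D) :
    ∃ (n : ℕ) (b : Fin n → Fin 2 →₀ ℕ), 0 < n ∧
      (Fr (prodMap p q) b ∧ Sp (prodMap p q) b) ∧
      (Fr (prodMap (lm p) q) b ∧ Sp (prodMap (lm p) q) b) ∧
      (Fr (prodMap p (lm q)) b ∧ Sp (prodMap p (lm q)) b) ∧ Fr (prodMap (lm p) (lm q)) b := by
  have h1 := reg_prodMap hD hp hq
  have h2 := reg_prodMap hD ((natDegree_lm p).trans hp) hq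
  have h3 := reg_prodMap hD hp ((natDegree_lm q).trans hq)
  rw [lm_lm] at h2 h3
  obtain ⟨n, b, hn, hf, hs⟩ := exists_basis pos_one.pos hD h1
  exact ⟨n, b, hn, ⟨fr_of_top h1.bnd hf, sp_of_spMod pos_one.pos hD h1.bnd hs⟩,
    ⟨fr_of_top h2.bnd hf, sp_of_spMod pos_one.pos hD h2.bnd hs⟩,
    ⟨fr_of_top h3.bnd hf, sp_of_spMod pos_one.pos hD h3.bnd hs⟩, hf⟩

theorem cmp_edge (j : ℕ) (φ : A2 k) :
    cmp ![0, 1] j φ = Polynomial.aeval (X 0 : A2 k) (edge j φ) * X 1 ^ j := by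
  have h := isHom_cmp ![0, 1] j φ
  rw [edge]
  generalize cmp ![0, 1] j φ = ψ at h
  have e : dh ψ = ∑ a ∈ ψ.support, Polynomial.monomial (a 0) (coeff a ψ) := by
    conv_lhs => rw [ψ.as_sum, dh, map_sum]
    exact Finset.sum_congr rfl fun a _ => dh_monomial a _
  rw [e, map_sum, Finset.sum_mul]
  refine ψ.as_sum.trans (Finset.sum_congr rfl fun a ha => ?_)
  have h1 : a 1 = j := by simpa [wdeg] using h a ha
  rw [Pr_monomial, X_pow_eq_monomial, monomial_mul, mul_one, ← h1]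
  congr 2
  ext i
  fin_cases i <;> simp

theorem coeff_edge (j : ℕ) (φ : A2 k) (a : Fin 2 →₀ ℕ) (ha : a 1 = j) :
    (edge j φ).coeff (a 0) = coeff a φ := by
  have h : wdeg ![0, 1] a = j := by simp [wdeg, ha]
  rw [edge, (isHom_cmp ![0, 1] j φ).coeff_dh Nat.one_pos h, coeff_cmp, if_pos h]

theorem edge_ne_zero {φ : A2 k} (h : φ ≠ 0) : edge (wt ![0, 1] φ) φ ≠ 0 :=
  (isHom_cmp ![0, 1] _ φ).dh_ne_zero Nat.one_pos (top_eq_cmp ![0, 1] φ ▸ top_ne_zero h)

theorem Pr_box (φ : A2 k) : wt ![1, 1] φ ≤ wt ![1, 0] φ + wt ![0, 1] φ :=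
  wt_le_iff.2 fun a ha => by
    have h1 := wdeg_le_wt (w := ![1, 0]) ha
    have h2 := wdeg_le_wt (w := ![0, 1]) ha
    simp only [wdeg, Matrix.cons_val_zero, Matrix.cons_val_one] at h1 h2 ⊢
    omega

theorem totalDegree_le_box (φ : A2 k) : φ.totalDegree ≤ wt ![1, 0] φ + wt ![0, 1] φ :=
  (totalDegree_le_wt pos_one.pos φ).trans (Pr_box φ)

theorem wt_one_le_box (φ : A2 k) : wt ![1, 1] φ ≤ wt ![1, 0] φ + wt ![0, 1] φ :=
  Pr_box φ

/-- one-variable consequences of `Good` for a product map -/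
structure Good1 (S : Finset k) (p : Polynomial k) (c : ℕ) : Prop where
  tame : ∀ i, Tame S (p.coeff i)
  tele : ∀ (v : Place S) (x : k) (ρ : ℝ) (n : ℕ), 1 ≤ ρ → v.v x ≤ ρ →
    v.v ((fun t => p.eval t)^[n] x) ≤ (v.A ^ c * ρ) ^ p.natDegree ^ n
  esc : ∀ (v : Place S) (x : k),
    Pre (fun t => p.eval t) x ∨ Pre (fun t => (lm p).eval t) x → v.v x ≤ v.A ^ c

theorem Pr_tame (h : ∀ n, Tame S (p.coeff n)) (i : Fin 2) : TameP S (prodMap p p i) := by
  have key : ∀ i : Fin 2, TameP S (Polynomial.aeval (X i : A2 k) p) := fun i m => by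
    classical
    rw [Pr_sum, coeff_sum]
    refine tame_sum _ _ fun n _ => ?_
    rw [coeff_monomial]
    split_ifs
    exacts [h n, tame_zero]
  fin_cases i
  exacts [key 0, key 1]

theorem Pr_esc (hD : 2 ≤ D) (hp : p.natDegree = D) (h : ∀ n, Tame S (p.coeff n))
    (h' : Tame S p.leadingCoeff⁻¹) :
    ∃ c : ℕ, ∀ (v : Place S) (x : k), Pre (fun t => p.eval t) x → v.v x ≤ v.A ^ c := by
  have hD' : 1 ≤ D := by omega
  have e : ∀ i : Fin 2, (X i : A2 k) ^ D =
      C p.leadingCoeff⁻¹ * Polynomial.aeval (X i : A2 k) (lm p) := fun i => by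
    rw [lm, Polynomial.aeval_monomial, algebraMap_eq, ← mul_assoc, ← map_mul,
      inv_mul_cancel₀ (Pr_lc hD' hp), map_one, one_mul, hp]
  obtain ⟨c, hc⟩ := escape (S := S) pos_one.pos hD (reg_prodMap hD' hp hp).bnd (Pr_tame h)
    (W := D) (e := fun _ => D) (Cf := fun i j => if i = j then C p.leadingCoeff⁻¹ else 0) hD'
    (fun i => by fin_cases i <;> exact mul_one D)
    (fun i => by
      fin_cases i
      · exact (e 0).trans ((congrArg _ (zero_mul _)).trans (add_zero _)).symm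
      · exact (e 1).trans ((congrArg (· + _) (zero_mul _)).trans (zero_add _)).symm)
    (fun i j => by
      by_cases hij : i = j
      · rw [if_pos hij, wt_C, zero_add]
        fin_cases j <;> exact Or.inr (mul_one D).le
      · exact Or.inl (if_neg hij))
    (fun i j => by
      split_ifs
      exacts [tameP_C h', C_0 (σ := Fin 2) (R := k) ▸ tameP_C tame_zero])
  refine ⟨c, fun v x hx => ?_⟩
  have := hc v ![x, x] ((hx.image fun t => ![t, t]).subset (by
    rintro _ ⟨n, rfl⟩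
    exact ⟨_, ⟨n, rfl⟩, (iterate_prodMap p p ![x, x] n).symm⟩)) 0
  exact this.trans_eq (pow_one _)

theorem Pr_good (hD : 2 ≤ D) (hp : p.natDegree = D) (h : ∀ n, Tame S (p.coeff n))
    (h' : Tame S p.leadingCoeff⁻¹) : ∃ c : ℕ, ∀ c', c ≤ c' → Good1 S p c' := by
  have hD' : 1 ≤ D := by omega
  obtain ⟨c1, h1⟩ := tele (S := S) pos_one.pos hD (reg_prodMap hD' hp hp).bnd (Pr_tame h)
  obtain ⟨c2, h2⟩ := Pr_esc hD hp h h'
  obtain ⟨c3, h3⟩ := Pr_esc (S := S) hD ((natDegree_lm p).trans hp) (fun n => by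
    rw [lm, Polynomial.coeff_monomial]
    split_ifs
    exacts [h _, tame_zero]) (by rwa [lm, Polynomial.leadingCoeff_monomial])
  refine ⟨max c1 (max c2 c3), fun c hc => ⟨h, fun v x ρ n hρ hx => ?_, fun v x hx => ?_⟩⟩
  · have h4 := h1 v ![x, x] ρ n hρ (fun i => by
      fin_cases i <;> exact hx.trans_eq (pow_one ρ).symm) 0
    rw [iterate_prodMap] at h4
    refine (h4.trans_eq (pow_one _)).trans ?_
    have h5 := v.A_pos
    rw [hp]
    exact pow_le_pow_left₀ (by positivity) (mul_le_mul_of_nonneg_right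
      (pow_le_pow_right₀ v.one_le_A (by omega)) (by positivity)) _
  · rcases hx with hx | hx
    · exact (h2 v x hx).trans (pow_le_pow_right₀ v.one_le_A (by omega))
    · exact (h3 v x hx).trans (pow_le_pow_right₀ v.one_le_A (by omega))

/-- Put into `S` the coefficients of `p`, `q` and the inverses of the leading coefficients.
One may apply `tele` and `escape` to `prodMap p p` on the diagonal, with the certificate
`X i ^ D = C lc⁻¹ * F i`. -/
theorem exists_good1 (hD : 2 ≤ D) (hp : p.natDegree = D) (hq : q.natDegree = D) :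
    ∃ (S : Finset k) (c : ℕ), Good1 S p c ∧ Good1 S q c := by
  classical
  let S : Finset k := (p.coeffs ∪ q.coeffs) ∪ {p.leadingCoeff⁻¹, q.leadingCoeff⁻¹}
  have key : ∀ r : Polynomial k, r.coeffs ⊆ S → ∀ i, Tame S (r.coeff i) := fun r h i => by
    by_cases e : r.coeff i = 0
    · exact e ▸ tame_zero
    · exact tame_of_mem (h (Polynomial.coeff_mem_coeffs e))
  obtain ⟨c1, h1⟩ := Pr_good (S := S) hD hp
    (key p (Finset.subset_union_left.trans Finset.subset_union_left))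
    (tame_of_mem (Finset.mem_union_right _ (Finset.mem_insert_self _ _)))
  obtain ⟨c2, h2⟩ := Pr_good (S := S) hD hq
    (key q (Finset.subset_union_right.trans Finset.subset_union_left))
    (tame_of_mem (Finset.mem_union_right _
      (Finset.mem_insert_of_mem (Finset.mem_singleton_self _))))
  exact ⟨S, max c1 c2, h1 _ (le_max_left _ _), h2 _ (le_max_right _ _)⟩

end Pool.Agent.Work.MP_0a826e_ag.R
end

-- merged part: Pool.Agent.Work.MP_0a826e_ag.R.PB
section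
namespace Pool.Agent.Work.MP_0a826e_ag.R

open MvPolynomial

variable {k : Type} [Field k]

variable {p q : Polynomial k} {d c1 : ℕ} {S : Finset k}

/-- polynomials of bidegree at most `(D1, D2)` -/
noncomputable def Vb (k : Type) [Field k] (D1 D2 : ℕ) : Submodule k (A2 k) where
  carrier := {φ | wt ![1, 0] φ ≤ D1 ∧ wt ![0, 1] φ ≤ D2}
  add_mem' := fun h h' => ⟨wt_add_le h.1 h'.1, wt_add_le h.2 h'.2⟩
  zero_mem' := by simp [wt_zero]
  smul_mem' := by
    intro c φ h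
    rw [smul_eq_C_mul]
    exact ⟨(wt_mul_le _ _ _).trans (by rw [wt_C, zero_add]; exact h.1),
      (wt_mul_le _ _ _).trans (by rw [wt_C, zero_add]; exact h.2)⟩

/-- the square of exponents -/
noncomputable def Lb (m : ℕ) : Finset (Fin 2 →₀ ℕ) :=
  (Finset.range (m + 1) ×ˢ Finset.range (m + 1)).image
    fun x => Finsupp.single 0 x.1 + Finsupp.single 1 x.2

theorem mem_Lb {m : ℕ} {a : Fin 2 →₀ ℕ} : a ∈ Lb m ↔ a 0 ≤ m ∧ a 1 ≤ m := by
  simp only [Lb, Finset.mem_image, Finset.mem_product, Finset.mem_range, Nat.lt_succ_iff]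
  constructor
  · rintro ⟨x, h, rfl⟩
    simpa using h
  · intro h
    refine ⟨(a 0, a 1), h, ?_⟩
    ext i
    fin_cases i <;> simp

theorem card_Lb (m : ℕ) : (Lb m).card = (m + 1) ^ 2 := by
  rw [Lb, Finset.card_image_of_injective, Finset.card_product, Finset.card_range, sq]
  intro x y h
  have h0 := DFunLike.congr_fun h 0
  have h1 := DFunLike.congr_fun h 1
  exact Prod.ext (by simpa using h0) (by simpa using h1)

theorem PB_wx (a : Fin 2 →₀ ℕ) : wdeg ![1, 0] a = a 0 := by simp [wdeg]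

theorem PB_wy (a : Fin 2 →₀ ℕ) : wdeg ![0, 1] a = a 1 := by simp [wdeg]

theorem PB_supp {φ : A2 k} {m : ℕ} (h0 : wt ![1, 0] φ ≤ m) (h1 : wt ![0, 1] φ ≤ m) :
    φ.support ⊆ Lb m := fun a ha =>
  mem_Lb.2 ⟨(PB_wx a).ge.trans ((wdeg_le_wt ha).trans h0),
    (PB_wy a).ge.trans ((wdeg_le_wt ha).trans h1)⟩

theorem Vb_fd (D1 D2 : ℕ) :
    FiniteDimensional k (Vb k D1 D2) ∧
      Module.finrank k (Vb k D1 D2) ≤ (D1 + D2 + 1) ^ 2 := by
  classical
  have h : Vb k D1 D2 ≤ Submodule.span k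
      ((Lb (D1 + D2)).image fun a => (monomial a 1 : A2 k) : Finset (A2 k)) := by
    intro φ hφ
    rw [φ.as_sum]
    refine Submodule.sum_mem _ fun a ha => ?_
    rw [← mul_one (coeff a φ), ← smul_eq_mul, ← smul_monomial]
    refine Submodule.smul_mem _ _ (Submodule.subset_span (Finset.mem_image_of_mem _ ?_))
    exact PB_supp (hφ.1.trans (Nat.le_add_right _ _)) (hφ.2.trans (Nat.le_add_left _ _)) ha
  refine ⟨Submodule.finiteDimensional_of_le h, (Submodule.finrank_mono h).trans ?_⟩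
  exact (finrank_span_finset_le_card _).trans (Finset.card_image_le.trans (card_Lb _).le)

theorem PB_tame (h : ∀ i, Tame S (p.coeff i)) (i : Fin 2) :
    TameP S (Polynomial.aeval (X i : A2 k) p) := by
  rw [Polynomial.aeval_eq_sum_range]
  refine Finset.sum_induction _ _ (fun _ _ => TameP.add) ?_ fun n _ => ?_
  · simpa using tameP_C (S := S) tame_zero
  · rw [smul_eq_C_mul]
    exact (tameP_C (h n)).mul ((tameP_X i).pow n)

theorem PB_pre_iter {X : Type} {φ : X → X} {x : X} (h : Pre φ x) (n : ℕ) : Pre φ (φ^[n] x) :=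
  h.subset (by
    rintro _ ⟨l, rfl⟩
    exact ⟨l + n, Function.iterate_add_apply φ l n x⟩)

theorem PB_pre {z : Pt k} (h : Pre (ev (prodMap p q)) z) :
    Pre (fun t => p.eval t) (z 0) ∧ Pre (fun t => q.eval t) (z 1) :=
  ⟨(h.image (· 0)).subset (by
    rintro _ ⟨l, rfl⟩
    exact ⟨_, ⟨l, rfl⟩, by simp only [iterate_prodMap]; rfl⟩),
  (h.image (· 1)).subset (by
    rintro _ ⟨l, rfl⟩
    exact ⟨_, ⟨l, rfl⟩, by simp only [iterate_prodMap]; rfl⟩)⟩

theorem PB_wt {w : Fin 2 → ℕ} {D : ℕ} {g G : Fin 2 → A2 k} (hb : Bnd w D g G)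
    (β a : Fin 2 →₀ ℕ) :
    wt w (monomial β 1 * g 0 ^ a 0 * g 1 ^ a 1) ≤ wdeg w β + D * wdeg w a := by
  refine (wt_mul_le _ _ _).trans ((Nat.add_le_add_right (wt_mul_le _ _ _) _).trans ?_)
  have h0 := Nat.mul_le_mul_left (a 0) (hb.le 0)
  have h1 := Nat.mul_le_mul_left (a 1) (hb.le 1)
  have h2 := wt_monomial_le w β (1 : k)
  have h3 : D * wdeg w a = a 0 * (D * w 0) + a 1 * (D * w 1) := by
    rw [wdeg]
    ring
  rw [wt_pow, wt_pow]
  omega

theorem PB_ev (v : Place S) (u : Pt k) (β a : Fin 2 →₀ ℕ) (g : Fin 2 → A2 k) {R x y : ℝ} {B : ℕ}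
    (hR : 1 ≤ R) (hu : ∀ i, v.v (u i) ≤ R) (hB : β 0 + β 1 ≤ B) (hx : v.v (eval u (g 0)) ≤ x)
    (hy : v.v (eval u (g 1)) ≤ y) :
    v.v (eval u (monomial β 1 * g 0 ^ a 0 * g 1 ^ a 1)) ≤ R ^ B * x ^ a 0 * y ^ a 1 := by
  have h : v.v (eval u (monomial β (1 : k))) ≤ R ^ B :=
    (Bd.monomial (w := ![1, 1]) (ρ := R) (fun i => by fin_cases i <;> simpa using hu _) β).trans
      (pow_le_pow_right₀ hR (by simpa [wdeg] using hB))
  have h0 := v.v.nonneg (eval u (g 0))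
  have h1 := v.v.nonneg (eval u (g 1))
  have h2 : 0 ≤ x := h0.trans hx
  rw [map_mul, map_mul, map_pow, map_pow, map_mul, map_mul, map_pow, map_pow]
  gcongr

theorem PB_tele (gp : Good1 S p c1) (hd : 1 ≤ d) (hp : p.natDegree = d) (v : Place S) {x x0 : k}
    {ρ : ℝ} {n0 n a D : ℕ} (hn : n0 ≤ n) (hρ : 1 ≤ ρ) (h0 : v.v ((fun t => p.eval t)^[n0] x0) ≤ ρ)
    (h : v.v ((fun t => p.eval t)^[n0] x - (fun t => p.eval t)^[n0] x0) ≤ 1)
    (ha : d ^ n * a ≤ D) : ∃ y, v.v ((fun t => p.eval t)^[n] x) ≤ y ∧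
      y ^ a ≤ (v.A ^ (c1 + 1) * ρ) ^ (D / d ^ n0) := by
  obtain ⟨l, rfl⟩ := Nat.exists_eq_add_of_le' hn
  have h1 := v.add_le' (h.trans hρ) h0
  rw [sub_add_cancel] at h1
  have h2 := gp.tele v _ _ l (one_le_mul_of_one_le_of_one_le v.one_le_A hρ) h1
  rw [← Function.iterate_add_apply, ← mul_assoc, ← pow_succ, hp] at h2
  refine ⟨_, h2, ?_⟩
  rw [← pow_mul]
  refine pow_le_pow_right₀ (one_le_mul_of_one_le_of_one_le (one_le_pow₀ v.one_le_A) hρ) ?_
  rw [Nat.le_div_iff_mul_le (by positivity), mul_right_comm, ← pow_add]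
  exact ha

/-- Box version of the determinant inequality: `core` for `V = Vb k (i + m) (j + m)`,
`Λ = Lb m`, spanning set from `mem_span_of_wt` with the two weights `![1, 0]`, `![0, 1]` and
`exists_basis_prod` for the `n`-th iterates, then `asym` with `a = 1`, `M = 2 * (i + j)`-type
bookkeeping (`finrank ≤ (i + j + 2 m + 1) ^ 2`; take `M = i + j`, `m = M / J1 / 2`, `a = 2`). -/
theorem pa_box [IsAlgClosed k] [CharZero k] (hd : 2 ≤ d) (hp : p.natDegree = d)
    (hq : q.natDegree = d) (gp : Good1 S p c1) (gq : Good1 S q c1) (n0 c J : ℕ) (hJ : 1 ≤ J) :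
    ∃ M0 : ℕ, ∀ P : A2 k, Irreducible P →
      {z | eval z P = 0 ∧ Pre (ev (prodMap p q)) z}.Infinite →
      M0 ≤ wt ![1, 0] P + wt ![0, 1] P →
      ∃ (γ : k) (r E m : ℕ), γ ≠ 0 ∧ 1 ≤ r ∧ J * m ≤ wt ![1, 0] P + wt ![0, 1] P ∧
        J * E ≤ r * (wt ![1, 0] P + wt ![0, 1] P) ∧
        ∀ (v : Place S) (w0 : Pt k) (ρ0 ρ1 : ℝ), 1 ≤ ρ0 → 1 ≤ ρ1 →
          (∀ i, v.v (w0 i) ≤ v.A ^ c) → v.v ((fun t => p.eval t)^[n0] (w0 0)) ≤ ρ0 →
          v.v ((fun t => q.eval t)^[n0] (w0 1)) ≤ ρ1 →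
          v.v γ * v.v (eval w0 P) ^ r ≤
            v.A ^ E * (v.A ^ (c1 + 1) * ρ0) ^ (r * ((wt ![1, 0] P + m) / d ^ n0)) *
              (v.A ^ (c1 + 1) * ρ1) ^ (r * ((wt ![0, 1] P + m) / d ^ n0)) := by
  have ht : ∀ i, TameP S (prodMap p q i) :=
    Fin.forall_fin_two.2 ⟨PB_tame gp.tame 0, PB_tame gq.tame 1⟩
  obtain ⟨cx, hcx⟩ := (tameP_iter ht n0 0).lip (c + 1)
  obtain ⟨cy, hcy⟩ := (tameP_iter ht n0 1).lip (c + 1)
  obtain ⟨J1, n, hJ1, hn, has⟩ := asym 2 c1 (cx + cy) c J d n0 (by norm_num) hJ hd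
  obtain ⟨p', hp', ep⟩ : ∃ p' : Polynomial k, p'.natDegree = p.natDegree ^ n ∧
      ∀ t, p'.eval t = (fun t => p.eval t)^[n] t := ⟨_, iter_comp_spec p n⟩
  obtain ⟨q', hq', eq⟩ : ∃ q' : Polynomial k, q'.natDegree = q.natDegree ^ n ∧
      ∀ t, q'.eval t = (fun t => q.eval t)^[n] t := ⟨_, iter_comp_spec q n⟩
  rw [hp] at hp'
  rw [hq] at hq'
  have hD : 0 < d ^ n := by positivity
  obtain ⟨N, b, -, ⟨-, hs⟩, ⟨f0, -⟩, ⟨f1, -⟩, -⟩ := exists_basis_prod hD hp' hq'
  obtain ⟨B, hB⟩ : ∃ B, ∀ l, b l 0 + b l 1 ≤ B :=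
    ⟨Finset.univ.sup fun l => b l 0 + b l 1,
      fun l => Finset.le_sup (f := fun l => b l 0 + b l 1) (Finset.mem_univ l)⟩
  obtain ⟨M0, hM0⟩ := has B
  refine ⟨M0, fun P hP hinf hM => ?_⟩
  obtain ⟨k1, k2, hk1, hk2, hE⟩ := hM0 _ hM
  have hP0 := hP.ne_zero
  have htd := totalDegree_le_box P
  obtain ⟨i, hi⟩ : ∃ i, wt ![1, 0] P = i := ⟨_, rfl⟩
  obtain ⟨j, hj⟩ : ∃ j, wt ![0, 1] P = j := ⟨_, rfl⟩
  rw [hi, hj] at hk1 hk2 hE htd ⊢
  have hJm := Nat.mul_div_le (i + j) J1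
  obtain ⟨m', hm'⟩ : ∃ m', (i + j) / J1 = m' := ⟨_, rfl⟩
  rw [hm'] at hk1 hk2 hE hJm
  obtain ⟨m, hm⟩ : ∃ m, m' / 2 = m := ⟨_, rfl⟩
  rw [hm] at hE
  obtain ⟨hfd, hrk⟩ := Vb_fd (k := k) (i + m) (j + m)
  replace hrk : _ ≤ (i + j + m' + 1) ^ 2 := hrk.trans (Nat.pow_le_pow_left (by omega) 2)
  have hb : ∀ t : Fin 2, Bnd (![![1, 0], ![0, 1]] t) (d ^ n) (prodMap p' q')
      (![prodMap (lm p') q', prodMap p' (lm q')] t) :=
    Fin.forall_fin_two.2 ⟨bnd_prodMap_x hp' q', bnd_prodMap_y p' hq'⟩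
  obtain ⟨γ, hγ, hc⟩ := core S hP0 (Vb k (i + m) (j + m)) _
    (le_antisymm (Submodule.span_le.2 (by
      rintro _ ⟨l, a, h, rfl⟩
      exact ⟨(PB_wt (hb 0) _ _).trans (h 0), (PB_wt (hb 1) _ _).trans (h 1)⟩))
      fun φ hφ => mem_span_of_wt hs _ _ hb (Fin.forall_fin_two.2 ⟨f0, f1⟩) ![i + m, j + m] φ
        (Fin.forall_fin_two.2 hφ)) (Lb m)
    (fun a ha a' h => mem_Lb.2 ⟨(h 0).trans (mem_Lb.1 ha).1, (h 1).trans (mem_Lb.1 ha).2⟩)
    (fun a ha => mem_Lb.1 ha)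
    (fun a ha => ⟨(wt_mul_le _ _ _).trans (Nat.add_le_add hi.le ((wt_monomial_le _ _ _).trans
        ((PB_wx a).le.trans (mem_Lb.1 ha).1))),
      (wt_mul_le _ _ _).trans (Nat.add_le_add hj.le ((wt_monomial_le _ _ _).trans
        ((PB_wy a).le.trans (mem_Lb.1 ha).2)))⟩)
    {z | eval z P = 0 ∧ Pre (ev (prodMap p q)) z}
    (fun φ hφ hz => by
      obtain ⟨ψ, rfl⟩ := dvd_of_infinite hP (Q := φ) (hinf.mono fun z h => ⟨h.1, hz z h⟩)
      refine ⟨ψ, ?_, rfl⟩
      rcases eq_or_ne ψ 0 with rfl | h0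
      · simp
      · obtain ⟨h1, h2⟩ := hφ
        rw [wt_mul hP0 h0] at h1 h2
        exact PB_supp (by omega) (by omega))
    (fun z h => h.1) ((Nat.factorial_le hrk).trans hk1) (k2 := k2) (by
      rw [card_Lb]
      exact le_trans (Nat.add_le_add_right
        (Nat.mul_le_mul (Nat.pow_le_pow_left (by omega) 2) htd) 2) hk2)
  rw [card_Lb] at hc
  have e0 : ∀ u : Pt k, eval u (prodMap p' q' 0) = (fun t => p.eval t)^[n] (u 0) := fun u =>
    (congrFun (ev_prodMap p' q' u) 0).trans (ep _)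
  have e1 : ∀ u : Pt k, eval u (prodMap p' q' 1) = (fun t => q.eval t)^[n] (u 1) := fun u =>
    (congrFun (ev_prodMap p' q' u) 1).trans (eq _)
  have e2 : ∀ (u : Pt k) t, eval u (iter (prodMap p q) n0 t) =
      ![(fun t => p.eval t)^[n0] (u 0), (fun t => q.eval t)^[n0] (u 1)] t := fun u t => by
    rw [← iterate_prodMap, ← ev_iter]
    rfl
  refine ⟨γ, (m + 1) ^ 2, _, m, hγ, Nat.one_le_pow _ _ (by omega),
    (Nat.mul_le_mul hJ1 (by omega)).trans hJm, hE _ le_rfl, fun v w0 ρ0 ρ1 h0 h1 hw k0 k1' => ?_⟩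
  have hA := v.one_le_A
  have hA0 := v.A_pos
  refine (hc v w0 (cx + cy) (v.A ^ (c1 * (B + (i + j + m') / d ^ n)))
    ((v.A ^ (c + 1)) ^ B * (v.A ^ (c1 + 1) * ρ0) ^ ((i + m) / d ^ n0) *
      (v.A ^ (c1 + 1) * ρ1) ^ ((j + m) / d ^ n0)) (one_le_pow₀ hA) (by positivity) ?_ ?_).trans ?_
  · rintro _ ⟨l, a, h, rfl⟩ z hz
    obtain ⟨z0, z1⟩ := PB_pre hz.2
    refine (PB_ev v z (b l) a _ (one_le_pow₀ hA) (Fin.forall_fin_two.2
      ⟨gp.esc v _ (Or.inl z0), gq.esc v _ (Or.inl z1)⟩) (hB l)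
      ((e0 z).symm ▸ gp.esc v _ (Or.inl (PB_pre_iter z0 n)))
      ((e1 z).symm ▸ gq.esc v _ (Or.inl (PB_pre_iter z1 n)))).trans ?_
    rw [← pow_add, ← pow_add, pow_mul, add_assoc]
    refine pow_le_pow_right₀ (one_le_pow₀ hA) (Nat.add_le_add_left ?_ _)
    have a0 : wdeg ![1, 0] (b l) + d ^ n * wdeg ![1, 0] a ≤ i + m := h 0
    have a1 : wdeg ![0, 1] (b l) + d ^ n * wdeg ![0, 1] a ≤ j + m := h 1
    rw [PB_wx a] at a0
    rw [PB_wy a] at a1
    rw [Nat.le_div_iff_mul_le hD, mul_comm, mul_add]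
    omega
  · rintro _ ⟨l, a, h, rfl⟩ u hu
    have a0 : wdeg ![1, 0] (b l) + d ^ n * wdeg ![1, 0] a ≤ i + m := h 0
    have a1 : wdeg ![0, 1] (b l) + d ^ n * wdeg ![0, 1] a ≤ j + m := h 1
    rw [PB_wx a] at a0
    rw [PB_wy a] at a1
    have hu' : ∀ t, v.v (u t) ≤ v.A ^ (c + 1) := fun t => by
      have := v.add_le' ((hu t).trans ((inv_le_one_of_one_le₀ (one_le_pow₀ hA)).trans
        (one_le_pow₀ hA))) (hw t)
      rwa [sub_add_cancel, ← pow_succ'] at this
    have hw' : ∀ t, v.v (w0 t) ≤ v.A ^ (c + 1) := fun t =>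
      (hw t).trans (pow_le_pow_right₀ hA (Nat.le_succ c))
    have l0 := hcx v u w0 _ (by positivity) hu' hw' hu
    have l1 := hcy v u w0 _ (by positivity) hu' hw' hu
    rw [e2, e2] at l0 l1
    obtain ⟨x, x1, x2⟩ := PB_tele gp (by omega) hp v hn h0 k0 (l0.trans
      (mul_inv_le_one_of_le₀ (pow_le_pow_right₀ hA (Nat.le_add_right _ _)) (by positivity)))
      ((Nat.le_add_left _ _).trans a0)
    obtain ⟨y, y1, y2⟩ := PB_tele gq (by omega) hq v hn h1 k1' (l1.trans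
      (mul_inv_le_one_of_le₀ (pow_le_pow_right₀ hA (Nat.le_add_left _ _)) (by positivity)))
      ((Nat.le_add_left _ _).trans a1)
    have y0 : 0 ≤ y := (v.v.nonneg _).trans y1
    refine (PB_ev v u (b l) a _ (one_le_pow₀ hA) hu' (hB l) ((e0 u).symm ▸ x1)
      ((e1 u).symm ▸ y1)).trans ?_
    gcongr
  · rw [mul_pow, mul_pow, ← pow_mul, ← pow_mul, ← pow_mul, ← pow_mul, ← pow_mul, ← pow_add,
      ← mul_assoc, ← mul_assoc, ← pow_add, mul_comm ((i + m) / _), mul_comm ((j + m) / _)]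
    have s1 := Nat.mul_le_mul_left (c1 * (B + (i + j + m') / d ^ n)) hrk
    have s2 : (m + 1) ^ 2 * (2 * m + 6 + 2 * (cx + cy) * m) ≤
        (m + 1) ^ 2 * (2 * m' + 6 + 2 * (cx + cy) * m') := by gcongr <;> omega
    have s3 : (c + 1) * (B * (m + 1) ^ 2) = (m + 1) ^ 2 * ((c + 1) * B) := by ring
    rw [mul_comm _ ((i + j + m' + 1) ^ 2)] at s1
    refine mul_le_mul_of_nonneg_right (mul_le_mul_of_nonneg_right (pow_le_pow_right₀ hA ?_)
      (by positivity)) (by positivity)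
    omega

end Pool.Agent.Work.MP_0a826e_ag.R
end

-- merged part: Pool.Agent.Work.MP_0a826e_ag.R.CE
section
namespace Pool.Agent.Work.MP_0a826e_ag.R

open MvPolynomial

variable {k : Type} [Field k]

variable {p q : Polynomial k} {d c1 : ℕ} {S : Finset k}

theorem CE_eval_aeval (u : Pt k) (i : Fin 2) (g : Polynomial k) :
    eval u (Polynomial.aeval (X i : A2 k) g) = g.eval (u i) := by
  induction g using Polynomial.induction_on' with
  | add a b ha hb => rw [map_add, map_add, ha, hb, Polynomial.eval_add]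
  | monomial n a => simp [Polynomial.aeval_monomial]

theorem CE_tame (h : ∀ i, Tame S (q.coeff i)) (i : Fin 2) :
    TameP S (Polynomial.aeval (X i : A2 k) q) := by
  rw [Polynomial.aeval_eq_sum_range]
  induction Finset.range (q.natDegree + 1) using Finset.induction_on with
  | empty => simpa using (tameP_C (S := S) (tame_zero (k := k)))
  | insert a s ha ih =>
    rw [Finset.sum_insert ha, smul_eq_C_mul]
    exact ((tameP_C (h a)).mul ((tameP_X i).pow a)).add ih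

theorem CE_fix (hd : 2 ≤ d) (hq : q.natDegree = d) {y0 : k}
    (hy : q.leadingCoeff * y0 ^ (d - 1) = 1) : (lm q).eval y0 = y0 := by
  rw [lm, Polynomial.eval_monomial, hq]
  obtain ⟨e, rfl⟩ : ∃ e, d = e + 1 := ⟨d - 1, by omega⟩
  rw [Nat.add_sub_cancel] at hy
  rw [pow_succ, ← mul_assoc, hy, one_mul]

theorem CE_y0 (hd : 2 ≤ d) (hq : q.natDegree = d) (gq : Good1 S q c1) {y0 : k}
    (hy : q.leadingCoeff * y0 ^ (d - 1) = 1) (v : Place S) : v.v y0 ≤ v.A ^ c1 := by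
  refine gq.esc v y0 (Or.inr ?_)
  refine (Set.finite_singleton y0).subset ?_
  rintro _ ⟨n, rfl⟩
  exact Function.iterate_fixed (CE_fix hd hq hy) n

/-- `edge j P` at `x` is the leading coefficient of `t ↦ P (x, t)` -/
theorem edge_le [IsAlgClosed k] [CharZero k] (v : Place S) (P : A2 k) {n : ℕ}
    (hn : wt ![0, 1] P + 2 ≤ 2 ^ n) (x s : k) :
    ∃ t : k, v.v t = v.v s ∧ v.v ((edge (wt ![0, 1] P) P).eval x) * v.v s ^ wt ![0, 1] P ≤
      v.A ^ (n + 1) * v.v (eval ![x, t] P) := by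
  obtain ⟨l, hl1, hl2⟩ := top_le v ![0, 1] P hn ![x, 1] s
  refine ⟨l, hl1, ?_⟩
  have e1 : act ![0, 1] l ![x, 1] = (![x, l] : Pt k) := by
    funext i
    fin_cases i <;> simp [act]
  have e2 : eval ![x, 1] (top ![0, 1] P) = (edge (wt ![0, 1] P) P).eval x := by
    rw [top_eq_cmp, cmp_edge, map_mul, map_pow, CE_eval_aeval]
    simp
  rwa [e1, e2] at hl2

/-- Apply `far` with weights `![1, 1]` to `iter (prodMap q q) n0` at `u = ![y0, y0]`, a fixed
point of the top map `prodMap (lm q) (lm q)`. -/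
theorem far1 [IsAlgClosed k] (hd : 2 ≤ d) (hq : q.natDegree = d) (gq : Good1 S q c1) {y0 : k}
    (hy : q.leadingCoeff * y0 ^ (d - 1) = 1) (n0 : ℕ) :
    ∃ c' : ℕ, ∀ (v : Place S) (l : k), v.A ^ c' ≤ v.v l →
      v.v ((fun t => q.eval t)^[n0] (l * y0)) ≤ v.A ^ (c1 + 1) * v.v l ^ d ^ n0 := by
  have hw : ∀ i : Fin 2, 0 < (![1, 1] : Fin 2 → ℕ) i := fun i => by fin_cases i <;> simp
  have hd1 : 1 ≤ d ^ n0 := Nat.one_le_pow _ _ (by omega)
  have hT : ∀ i, TameP S (prodMap q q i) := fun i => by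
    fin_cases i
    · exact CE_tame gq.tame 0
    · exact CE_tame gq.tame 1
  obtain ⟨c', hfar⟩ := far (S := S) hw hd1
    ((reg_prodMap (by omega) hq hq).bnd.of_iter (by omega) n0) (tameP_iter hT n0) c1
  refine ⟨c', fun v l hl => ?_⟩
  have hfix := CE_fix hd hq hy
  have hit : ∀ n : ℕ, (fun t => (lm q).eval t)^[n] y0 = y0 := fun n =>
    Function.iterate_fixed hfix n
  have hy0 : v.v y0 ≤ v.A ^ c1 := CE_y0 hd hq gq hy v
  have b1 : Bd v ![1, 1] ![y0, y0] (v.A ^ c1) := fun i => by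
    fin_cases i <;> simpa using hy0
  have b2 : Bd v ![1, 1] (ev (iter (prodMap (lm q) (lm q)) n0) ![y0, y0]) (v.A ^ c1) := by
    rw [ev_iter, iterate_prodMap]
    simp only [Matrix.cons_val_zero, Matrix.cons_val_one, Matrix.cons_val_fin_one, hit]
    exact b1
  have b3 := hfar v _ l hl b1 b2 0
  rw [ev_iter, iterate_prodMap] at b3
  simpa [act] using b3

/-- As `corT`, at `w0 = (x, t)`, `v t = v (π ^ c' * y0)`.  The factor `y0 ^ j` is moved into
`γ` (replace `γ` by `γ * y0 ^ (j * r)`). -/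
theorem corE [IsAlgClosed k] [CharZero k] (hd : 2 ≤ d) (hp : p.natDegree = d)
    (hq : q.natDegree = d) (gp : Good1 S p c1) (gq : Good1 S q c1) (J : ℕ) :
    ∃ M0 : ℕ, ∀ P : A2 k, Irreducible P →
      {z | eval z P = 0 ∧ Pre (ev (prodMap p q)) z}.Infinite →
      M0 ≤ wt ![1, 0] P + wt ![0, 1] P →
      ∃ (γ : k) (r E : ℕ), γ ≠ 0 ∧ 1 ≤ r ∧ J * E ≤ r * (wt ![1, 0] P + wt ![0, 1] P) ∧
        ∀ (v : Place S) (x : k), Pre (fun t => p.eval t) x →
          v.v γ * v.v ((edge (wt ![0, 1] P) P).eval x) ^ r ≤ v.A ^ E := by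
  have hq0 : q.leadingCoeff ≠ 0 := by
    rw [Ne, Polynomial.leadingCoeff_eq_zero]
    rintro rfl
    rw [Polynomial.natDegree_zero] at hq
    omega
  obtain ⟨y0, hy0⟩ := IsAlgClosed.exists_pow_nat_eq (q.leadingCoeff)⁻¹ (show 0 < d - 1 by omega)
  have hy : q.leadingCoeff * y0 ^ (d - 1) = 1 := by rw [hy0, mul_inv_cancel₀ hq0]
  have hy1 : y0 ≠ 0 := by
    rintro rfl
    rw [zero_pow (by omega), mul_zero] at hy
    exact zero_ne_one hy
  set n0 := 10 * J * (2 * c1 + 2) with hn0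
  have hdn : n0 ≤ d ^ n0 := (Nat.lt_pow_self (by omega)).le
  obtain ⟨c', hfar⟩ := far1 hd hq gq hy n0
  obtain ⟨M1, h⟩ := pa_box hd hp hq gp gq n0 (c' + c1) (5 * J * (c' + 1) + 1) (by omega)
  obtain ⟨M2, hl⟩ := log_small (5 * J) 1
  refine ⟨max M1 M2, fun P hP hinf hM => ?_⟩
  obtain ⟨γ, r, E, m, hγ, hr, hm, hE, h⟩ := h P hP hinf ((le_max_left _ _).trans hM)
  obtain ⟨n, hn1, hn2⟩ := hl _ ((le_max_right _ _).trans hM)
  set i := wt ![1, 0] P with hi
  set j := wt ![0, 1] P with hj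
  set q0 := (i + m) / d ^ n0 with hq0d
  set q1 := (j + m) / d ^ n0 with hq1d
  have hq01 : d ^ n0 * q0 ≤ i + m := Nat.mul_div_le _ _
  have hq11 : d ^ n0 * q1 ≤ j + m := Nat.mul_div_le _ _
  refine ⟨γ * y0 ^ (j * r), r,
    (n + 1) * r + E + (2 * c1 + 2) * q0 * r + (2 * c1 + 2) * q1 * r + c' * m * r,
    mul_ne_zero hγ (pow_ne_zero _ hy1), hr, ?_, fun v x hx => ?_⟩
  · have a1 : 5 * (J * ((n + 1) * r)) ≤ r * (i + j) := by
      calc 5 * (J * ((n + 1) * r)) = r * (5 * J * (n + 1)) := by ring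
        _ ≤ r * (i + j) := Nat.mul_le_mul_left _ hn2
    have a2 : 5 * (J * E) ≤ r * (i + j) := by
      refine le_trans ?_ hE
      calc 5 * (J * E) ≤ 5 * (J * E) + (5 * J * c' + 1) * E := Nat.le_add_right _ _
        _ = (5 * J * (c' + 1) + 1) * E := by ring
    have t1 : m ≤ i + j := le_trans (Nat.le_mul_of_pos_left _ (by omega)) hm
    have b3 : ∀ z y : ℕ, d ^ n0 * z ≤ y + m → y ≤ i + j →
        5 * (J * ((2 * c1 + 2) * z * r)) ≤ r * (i + j) := by
      intro z y hz hy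
      have b : 5 * (J * ((2 * c1 + 2) * z)) ≤ i + j := by
        have : n0 * z ≤ d ^ n0 * z := Nat.mul_le_mul_right _ hdn
        have e : n0 * z = 2 * (5 * (J * ((2 * c1 + 2) * z))) := by rw [hn0]; ring
        omega
      calc 5 * (J * ((2 * c1 + 2) * z * r)) = r * (5 * (J * ((2 * c1 + 2) * z))) := by ring
        _ ≤ r * (i + j) := Nat.mul_le_mul_left _ b
    have a3 := b3 q0 i hq01 (by omega)
    have a3' := b3 q1 j hq11 (by omega)
    have b4 : 5 * (J * (c' * m)) ≤ i + j := by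
      refine le_trans ?_ hm
      calc 5 * (J * (c' * m)) ≤ 5 * (J * (c' * m)) + (5 * J + 1) * m := Nat.le_add_right _ _
        _ = (5 * J * (c' + 1) + 1) * m := by ring
    have a4 : 5 * (J * (c' * m * r)) ≤ r * (i + j) := by
      calc 5 * (J * (c' * m * r)) = r * (5 * (J * (c' * m))) := by ring
        _ ≤ r * (i + j) := Nat.mul_le_mul_left _ b4
    rw [mul_add, mul_add, mul_add, mul_add]
    omega
  · have hA := v.one_le_A
    have hs : v.v (v.π ^ c') = v.A ^ c' := map_pow _ _ _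
    obtain ⟨t, ht1, ht2⟩ := edge_le v P (n := n) (by rw [pow_one] at hn1; omega) x
      (v.π ^ c' * y0)
    rw [map_mul, hs] at ht1 ht2
    have hv0 : 0 < v.v y0 := v.v.pos hy1
    have hyb : v.v y0 ≤ v.A ^ c1 := CE_y0 hd hq gq hy v
    have hl1 : v.v (t / y0) = v.A ^ c' := by
      rw [map_div₀, ht1, mul_div_cancel_right₀ _ hv0.ne']
    have b3 := hfar v (t / y0) hl1.ge
    rw [div_mul_cancel₀ _ hy1, hl1] at b3
    have b1 : v.v x ≤ v.A ^ c1 := gp.esc v x (Or.inl hx)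
    have b2 : v.v ((fun t => p.eval t)^[n0] x) ≤ v.A ^ c1 := gp.esc v _ (Or.inl (CT_pre hx n0))
    have b4 : ∀ a, v.v ((![x, t] : Pt k) a) ≤ v.A ^ (c' + c1) := by
      intro a
      fin_cases a
      · exact b1.trans (pow_le_pow_right₀ hA (by omega))
      · show v.v t ≤ _
        rw [ht1, pow_add]
        exact mul_le_mul_of_nonneg_left hyb (by positivity)
    have h5 := h v ![x, t] (v.A ^ c1) (v.A ^ (c1 + 1) * (v.A ^ c') ^ d ^ n0) (one_le_pow₀ hA)
      (one_le_mul_of_one_le_of_one_le (one_le_pow₀ hA) (one_le_pow₀ (one_le_pow₀ hA))) b4 b2 b3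
    simp only [← pow_mul, ← pow_add] at h5
    have hl2 : (v.v ((edge j P).eval x) * v.v y0 ^ j) * v.A ^ (c' * j) ≤
        v.A ^ (n + 1) * v.v (eval ![x, t] P) := by
      refine le_of_eq_of_le ?_ ht2
      rw [mul_pow, ← pow_mul]
      ring
    have h6 := CT_comb (E := (n + 1) * r + E + (2 * c1 + 2) * q0 * r + (2 * c1 + 2) * q1 * r +
      c' * m * r) hA (v.v.nonneg γ) (by positivity) hl2 h5 (by
        have : c' * r * (d ^ n0 * q1) ≤ c' * r * (j + m) := Nat.mul_le_mul_left _ hq11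
        linarith only [this, Nat.zero_le (r * q0)])
    refine le_of_eq_of_le ?_ h6
    rw [map_mul, map_pow, mul_pow, ← pow_mul]
    ring

theorem corE_crude [IsAlgClosed k] [CharZero k] (hd : 2 ≤ d) (hp : p.natDegree = d)
    (hq : q.natDegree = d) (gp : Good1 S p c1) (gq : Good1 S q c1) :
    ∃ c M0 : ℕ, ∀ P : A2 k, Irreducible P →
      {z | eval z P = 0 ∧ Pre (ev (prodMap p q)) z}.Infinite →
      M0 ≤ wt ![1, 0] P + wt ![0, 1] P →
      ∃ (γ : k) (r : ℕ), γ ≠ 0 ∧ 1 ≤ r ∧ ∀ (v : Place S) (x : k), v.v x ≤ 1 →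
        v.v γ * v.v ((edge (wt ![0, 1] P) P).eval x) ^ r ≤
          v.A ^ (c * (r * (wt ![1, 0] P + wt ![0, 1] P))) := by
  obtain ⟨M1, h⟩ := pa_box hd hp hq gp gq 0 0 1 le_rfl
  obtain ⟨M2, hl⟩ := log_small 1 1
  refine ⟨2 + 3 * (c1 + 1), max M1 M2, fun P hP hinf hM => ?_⟩
  obtain ⟨γ, r, E, m, hγ, hr, hm, hE, h⟩ := h P hP hinf ((le_max_left _ _).trans hM)
  obtain ⟨n, hn1, hn2⟩ := hl _ ((le_max_right _ _).trans hM)
  refine ⟨γ, r, hγ, hr, fun v x hx => ?_⟩
  have hA := v.one_le_A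
  obtain ⟨t, ht1, ht2⟩ := edge_le v P (n := n) (by rw [pow_one] at hn1; omega) x 1
  rw [map_one] at ht1 ht2
  have b4 : ∀ a, v.v ((![x, t] : Pt k) a) ≤ v.A ^ 0 := by
    intro a
    rw [pow_zero]
    fin_cases a
    · exact hx
    · exact ht1.le
  have h5 := h v ![x, t] 1 1 le_rfl le_rfl b4 hx ht1.le
  simp only [mul_one, ← pow_mul, ← pow_add, pow_zero, Nat.div_one] at h5
  rw [one_pow, ← pow_zero v.A] at ht2
  refine CT_comb hA (v.v.nonneg _) (v.v.nonneg _) ht2 h5 ?_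
  set i := wt ![1, 0] P
  set j := wt ![0, 1] P
  have a1 : (n + 1) * r ≤ (i + j) * r := Nat.mul_le_mul_right _ (by omega)
  have a2 : (c1 + 1) * r * m ≤ (c1 + 1) * r * (i + j) := Nat.mul_le_mul_left _ (by omega)
  linarith only [hE, a1, a2]

end Pool.Agent.Work.MP_0a826e_ag.R
end

-- merged part: Pool.Agent.Work.MP_0a826e_ag.R.Ed1
section
namespace Pool.Agent.Work.MP_0a826e_ag.R

open MvPolynomial

variable {k : Type} [Field k]

variable {p q : Polynomial k} {D : ℕ} {P Q : A2 k}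

/-- the monic polynomial whose roots are the images of the roots of `e` -/
noncomputable def pushRoots (φ : k → k) (e : Polynomial k) : Polynomial k :=
  (e.roots.map fun ξ => Polynomial.X - Polynomial.C (φ ξ)).prod

theorem Ed1_wt (i : Fin 2) (a : k) : wt ![1, 1] (X i - C a : A2 k) = 1 := by
  have e : (![1, 1] : Fin 2 → ℕ) i = 1 := by fin_cases i <;> rfl
  refine le_antisymm (wt_sub_le (by rw [wt_X, e]) (by rw [wt_C]; omega)) (le_wt_of_cmp_ne ?_)
  have h := isHom_X (k := k) ![1, 1] i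
  rw [e] at h
  rw [cmp_sub, h.cmp_self, (isHom_C _ a).cmp_ne one_ne_zero, sub_zero]
  exact X_ne_zero i

theorem Ed1_ne (i : Fin 2) (a : k) : (X i - C a : A2 k) ≠ 0 := fun h => by
  have := Ed1_wt i a
  rw [h, wt_zero] at this
  omega

theorem Ed1_irr (i : Fin 2) (a : k) : Irreducible (X i - C a : A2 k) := by
  have u : ∀ φ : A2 k, φ ≠ 0 → wt ![1, 1] φ = 0 → IsUnit φ := fun φ h0 h => by
    have e := eq_C_of_wt_eq_zero pos_one.pos h
    exact isUnit_iff_C.2 ⟨_, fun h' => h0 (by rw [e, h', C_0]), e⟩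
  refine ⟨fun h => ?_, fun φ ψ h => ?_⟩
  · obtain ⟨c, -, hc⟩ := isUnit_iff_C.1 h
    have := Ed1_wt i a
    rw [hc, wt_C] at this
    omega
  · have h0 := mul_ne_zero_iff.1 (h ▸ Ed1_ne i a)
    have := Ed1_wt i a
    rw [h, wt_mul h0.1 h0.2] at this
    by_cases h1 : wt ![1, 1] φ = 0
    · exact Or.inl (u φ h0.1 h1)
    · exact Or.inr (u ψ h0.2 (by omega))

theorem Ed1_norm [IsAlgClosed k] (hD : 1 ≤ D) (hp : p.natDegree = D) (hq : q.natDegree = D)
    {n : ℕ} {b : Fin n → Fin 2 →₀ ℕ} (hfr : Fr (prodMap p q) b) (hs : Sp (prodMap p q) b)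
    (hfr' : Fr (prodMap (lm p) (lm q)) b) (i : Fin 2) (r : Polynomial k)
    (hr : ∀ y, ev (prodMap p q) y i = r.eval (y i)) (ξ : k) :
    ∃ (μ : ℕ) (c : k), D * μ = n ∧ c ≠ 0 ∧
      IsNorm (prodMap p q) b (X i - C ξ) (C c * (X i - C (r.eval ξ)) ^ μ) := by
  obtain ⟨R, hR⟩ := exists_isNorm hs (X i - C ξ)
  obtain ⟨c, e, hc, rfl⟩ := eq_C_mul_pow (Ed1_irr i (r.eval ξ)) (hR.ne_zero hfr (Ed1_ne i ξ))
    fun z hz => by
      obtain ⟨y, h1, rfl⟩ := (hR.eval_eq_zero hfr hs z).1 hz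
      simp only [map_sub, eval_X, eval_C, sub_eq_zero] at h1 ⊢
      rw [hr, h1]
  have h := (hR.top_norm (reg_prodMap hD hp hq).bnd hD hfr' (Ed1_ne i ξ)).2
  rw [wt_C_mul hc, wt_pow, Ed1_wt, Ed1_wt, mul_one, mul_one] at h
  exact ⟨e, c, h, hc, hR⟩

/-- the norm of `X 0 - ξ` under `(p(x), β y ^ D)` vanishes only on `X 0 = p ξ`
(`eq_C_mul_pow`), and its total degree is `n / D` (`IsNorm.top_norm` with weights `![1, 1]`) -/
theorem norm_X0 [IsAlgClosed k] (hD : 1 ≤ D) (hp : p.natDegree = D) (hq : q.natDegree = D)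
    {n : ℕ} {b : Fin n → Fin 2 →₀ ℕ} (hfr : Fr (prodMap p q) b) (hs : Sp (prodMap p q) b)
    (hfr' : Fr (prodMap (lm p) (lm q)) b) (ξ : k) :
    ∃ (μ : ℕ) (c : k), D * μ = n ∧ c ≠ 0 ∧
      IsNorm (prodMap p q) b (X 0 - C ξ) (C c * (X 0 - C (p.eval ξ)) ^ μ) := by
  exact Ed1_norm hD hp hq hfr hs hfr' 0 p (fun y => by rw [ev_prodMap]; rfl) ξ

theorem norm_X1 [IsAlgClosed k] (hD : 1 ≤ D) (hp : p.natDegree = D) (hq : q.natDegree = D)
    {n : ℕ} {b : Fin n → Fin 2 →₀ ℕ} (hfr : Fr (prodMap p q) b) (hs : Sp (prodMap p q) b)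
    (hfr' : Fr (prodMap (lm p) (lm q)) b) (ξ : k) :
    ∃ (μ : ℕ) (c : k), D * μ = n ∧ c ≠ 0 ∧
      IsNorm (prodMap p q) b (X 1 - C ξ) (C c * (X 1 - C (q.eval ξ)) ^ μ) := by
  exact Ed1_norm hD hp hq hfr hs hfr' 1 q (fun y => by rw [ev_prodMap]; rfl) ξ

/-- `Img.isNorm`, then `IsNorm.top_norm` for the weights `![1, 0]` and `![0, 1]`;
`top ![0, 1] P = C lc * ∏ (X 0 - ξ) * X 1 ^ j` and the norms under `prodMap p (lm q)`. -/
theorem edge_img [IsAlgClosed k] (hD : 1 ≤ D) (hp : p.natDegree = D) (hq : q.natDegree = D)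
    (hP : Irreducible P) (hQ : Img (prodMap p q) P Q) :
    ∃ (e μ : ℕ) (c : k), 1 ≤ e ∧ 1 ≤ μ ∧ c ≠ 0 ∧ e * wt ![1, 0] Q = μ * wt ![1, 0] P ∧
      e * wt ![0, 1] Q = μ * wt ![0, 1] P ∧
      edge (wt ![0, 1] Q) Q ^ e =
        Polynomial.C c * pushRoots (fun t => p.eval t) (edge (wt ![0, 1] P) P) ^ μ := by
  obtain ⟨n, b, n0, ⟨f1, s1⟩, ⟨f2, -⟩, ⟨f3, s3⟩, f4⟩ := exists_basis_prod hD hp hq
  obtain ⟨e, c, e1, c0, hN⟩ := hQ.isNorm f1 s1 hP
  have hq' : (lm q).natDegree = D := by rw [natDegree_lm, hq]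
  have f4' : Fr (prodMap (lm p) (lm (lm q))) b := by rwa [lm_lm]
  obtain ⟨μ, c1, hμ, c10, h1⟩ := norm_X1 hD hp hq' f3 s3 f4' 0
  have z : (lm q).eval 0 = 0 := by
    rw [lm, Polynomial.eval_monomial, hq, zero_pow (by omega), mul_zero]
  rw [z, C_0, sub_zero] at h1
  have h0 : ∀ s : Multiset k, ∃ c : k, c ≠ 0 ∧ IsNorm (prodMap p (lm q)) b
      (Polynomial.aeval (X 0 : A2 k) (s.map fun ξ => Polynomial.X - Polynomial.C ξ).prod)
      (C c * Polynomial.aeval (X 0 : A2 k)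
        (s.map fun ξ => Polynomial.X - Polynomial.C (p.eval ξ)).prod ^ μ) := by
    intro s
    induction s using Multiset.induction_on with
    | empty => exact ⟨1, one_ne_zero, by simpa using isNorm_C (prodMap p (lm q)) b 1⟩
    | cons ξ s ih =>
      obtain ⟨c, hc, h⟩ := ih
      obtain ⟨μ', c', hμ', hc', h'⟩ := norm_X0 hD hp hq' f3 s3 f4' ξ
      obtain rfl : μ' = μ := Nat.eq_of_mul_eq_mul_left hD (hμ'.trans hμ.symm)
      refine ⟨c' * c, mul_ne_zero hc' hc, ?_⟩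
      have := h'.mul h
      simp only [Multiset.map_cons, Multiset.prod_cons, map_mul, map_sub, Polynomial.aeval_X,
        Polynomial.aeval_C, algebraMap_eq, mul_pow]
      rwa [mul_mul_mul_comm] at this
  have x := (hN.top_norm (bnd_prodMap_x hp q) hD f2 hP.ne_zero).2
  obtain ⟨y, y'⟩ := hN.top_norm (bnd_prodMap_y p hq) hD f3 hP.ne_zero
  rw [wt_C_mul c0, wt_pow, ← hμ, mul_assoc] at x y'
  obtain ⟨c2, c20, h2⟩ := h0 (edge (wt ![0, 1] P) P).roots
  have l0 := Polynomial.leadingCoeff_ne_zero.2 (edge_ne_zero hP.ne_zero)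
  have h3 := ((isNorm_C _ b (edge (wt ![0, 1] P) P).leadingCoeff).mul h2).mul
    (h1.pow (wt ![0, 1] P))
  have e3 : top ![0, 1] P = C (edge (wt ![0, 1] P) P).leadingCoeff * Polynomial.aeval (X 0 : A2 k)
      ((edge (wt ![0, 1] P) P).roots.map fun ξ => Polynomial.X - Polynomial.C ξ).prod *
        X 1 ^ wt ![0, 1] P := by
    rw [top_eq_cmp, cmp_edge, ← algebraMap_eq, ← Polynomial.aeval_C, ← map_mul,
      ← (IsAlgClosed.splits _).eq_prod_roots]
  rw [← e3] at h3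
  have e4 := congrArg dh (y.unique f3 h3)
  rw [top_mul, top_C, top_pow, top_eq_cmp, cmp_edge] at e4
  have d : ∀ r : Polynomial k, aeval ![Polynomial.X, (1 : Polynomial k)]
      (Polynomial.aeval (X 0 : A2 k) r) = r := fun r => by
    rw [← Polynomial.aeval_algHom_apply]; simp
  simp only [dh, map_mul, map_pow, d, aeval_C, aeval_X, Matrix.cons_val_one, Matrix.cons_val_zero,
    one_pow, mul_one, Polynomial.algebraMap_eq] at e4
  refine ⟨e, μ, c⁻¹ * ((edge (wt ![0, 1] P) P).leadingCoeff ^ n * c2 * c1 ^ wt ![0, 1] P), e1,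
    Nat.pos_of_ne_zero fun h => by rw [h] at hμ; omega,
    mul_ne_zero (inv_ne_zero c0) (mul_ne_zero (mul_ne_zero (pow_ne_zero _ l0) c20)
      (pow_ne_zero _ c10)), Nat.eq_of_mul_eq_mul_left hD x, Nat.eq_of_mul_eq_mul_left hD y', ?_⟩
  refine mul_left_cancel₀ (Polynomial.C_ne_zero.2 c0) ?_
  rw [e4, ← mul_assoc (Polynomial.C c), ← map_mul, mul_inv_cancel_left₀ c0, pushRoots]
  simp only [map_mul, map_pow]
  ring

end Pool.Agent.Work.MP_0a826e_ag.R
end

-- merged part: Pool.Agent.Work.MP_0a826e_ag.R.KE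
section
namespace Pool.Agent.Work.MP_0a826e_ag.R

open MvPolynomial

variable {k : Type} [Field k]

variable {p q : Polynomial k} {d : ℕ} {P : A2 k}

theorem KE_setup [IsAlgClosed k] [CharZero k] (hM : MAL k) (hd : 2 ≤ d) (hp : p.natDegree = d)
    (hq : q.natDegree = d) (hB : Bad (prodMap p q) P) (M : ℕ) :
    ∃ K : ℕ, ∀ n, K ≤ n → ∃ (Q : A2 k) (e μ : ℕ) (c : k), Irreducible Q ∧
      {z | eval z Q = 0 ∧ Pre (ev (prodMap p q)) z}.Infinite ∧
      M ≤ wt ![1, 0] Q + wt ![0, 1] Q ∧ 1 ≤ e ∧ 1 ≤ μ ∧ c ≠ 0 ∧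
      e * (wt ![1, 0] Q + wt ![0, 1] Q) = μ * (wt ![1, 0] P + wt ![0, 1] P) ∧
      edge (wt ![0, 1] Q) Q ^ e =
        Polynomial.C c * pushRoots (fun t => p.eval t)^[n] (edge (wt ![0, 1] P) P) ^ μ := by
  have hd1 : 1 ≤ d := by omega
  have hw : ∀ i : Fin 2, 0 < (![1, 1] : Fin 2 → ℕ) i := by
    intro i
    fin_cases i <;> simp
  have hf := reg_prodMap hd1 hp hq
  have hex : ∀ n, ∃ Q, Img (iter (prodMap p q) n) P Q := fun n =>
    Reg.exists_img hw (Nat.one_le_pow _ _ hd1) (hf.of_iter hd1 n) hB.irr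
  choose Q hQ using hex
  obtain ⟨K, hK⟩ := wt_large hM hw hd hf hB Q hQ M
  refine ⟨K, fun n hn => ?_⟩
  have hQ' := hQ n
  rw [iter_prodMap] at hQ'
  have h1 := iter_comp_spec p n
  have h2 := iter_comp_spec q n
  rw [hp] at h1
  rw [hq] at h2
  obtain ⟨e, μ, c, he, hμ, hc, h3, h4, h5⟩ :=
    edge_img (Nat.one_le_pow _ _ hd1) h1.1 h2.1 hB.irr hQ'
  refine ⟨Q n, e, μ, c, (hQ n).1, hB.img_inf (hQ n), (hK n hn).trans (wt_one_le_box _), he, hμ,
    hc, by rw [mul_add, mul_add, h3, h4], ?_⟩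
  rw [h5, funext h1.2]

theorem KE_monic (φ : k → k) (e : Polynomial k) : (pushRoots φ e).Monic := by
  unfold pushRoots
  exact Polynomial.monic_multiset_prod_of_monic _ _ fun ξ _ => Polynomial.monic_X_sub_C _

theorem KE_natDegree (φ : k → k) (e : Polynomial k) :
    (pushRoots φ e).natDegree = Multiset.card e.roots := by
  have h : pushRoots φ e =
      ((e.roots.map φ).map fun a => Polynomial.X - Polynomial.C a).prod := by
    unfold pushRoots
    rw [Multiset.map_map]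
    rfl
  rw [h, Polynomial.natDegree_multiset_prod_X_sub_C_eq_card, Multiset.card_map]

theorem KE_root (φ : k → k) {e : Polynomial k} (he : e ≠ 0) {ξ : k} (hξ : e.eval ξ = 0) :
    (pushRoots φ e).eval (φ ξ) = 0 := by
  unfold pushRoots
  rw [Polynomial.eval_multiset_prod, Multiset.prod_eq_zero_iff, Multiset.map_map,
    Multiset.mem_map]
  exact ⟨ξ, (Polynomial.mem_roots he).2 hξ, by simp⟩

theorem KE_fix (σ : k ≃+* k) (hσ : ∀ i, σ (p.coeff i) = p.coeff i) {ξ : k} (hξ : σ ξ = ξ)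
    (n : ℕ) : σ ((fun t => p.eval t)^[n] ξ) = (fun t => p.eval t)^[n] ξ := by
  have hmap : p.map (σ : k →+* k) = p := by
    ext i
    rw [Polynomial.coeff_map]
    exact hσ i
  induction n with
  | zero => exact hξ
  | succ n ih =>
    rw [Function.iterate_succ_apply']
    have h := Polynomial.eval_map_apply (p := p) (σ : k →+* k) ((fun t => p.eval t)^[n] ξ)
    rw [hmap] at h
    have h2 : (σ : k →+* k) ((fun t => p.eval t)^[n] ξ) = (fun t => p.eval t)^[n] ξ := ih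
    rw [h2] at h
    exact h.symm

theorem KE_inv (p e : Polynomial k) :
    ∃ T : Finset k, ∀ n i, Inv T ((pushRoots (fun t => p.eval t)^[n] e).coeff i) := by
  classical
  refine ⟨p.coeffs ∪ e.roots.toFinset, fun n i σ hσ => ?_⟩
  have h1 : ∀ i, σ (p.coeff i) = p.coeff i := by
    intro i
    by_cases h : p.coeff i = 0
    · rw [h, map_zero]
    · exact hσ _ (Finset.mem_union_left _ (Polynomial.coeff_mem_coeffs h))
  have h2 : (pushRoots (fun t => p.eval t)^[n] e).map (σ : k →+* k) =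
      pushRoots (fun t => p.eval t)^[n] e := by
    unfold pushRoots
    rw [Polynomial.map_multiset_prod, Multiset.map_map]
    refine congrArg Multiset.prod (Multiset.map_congr rfl fun ξ hξ => ?_)
    have h3 : (σ : k →+* k) ((fun t => p.eval t)^[n] ξ) = (fun t => p.eval t)^[n] ξ :=
      KE_fix σ h1 (hσ ξ (Finset.mem_union_right _ (Multiset.mem_toFinset.2 hξ))) n
    simp only [Function.comp_apply, Polynomial.map_sub, Polynomial.map_X, Polynomial.map_C, h3]
  have h4 := congrArg (fun r : Polynomial k => r.coeff i) h2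
  simp only [Polynomial.coeff_map] at h4
  exact h4

theorem KE_finite {Y : Set k} (hY : Y.Finite) (m : ℕ) :
    {r : Polynomial k | r.natDegree ≤ m ∧ ∀ i, r.coeff i ∈ Y}.Finite := by
  refine Set.Finite.of_finite_image (f := fun r : Polynomial k => fun i : Fin (m + 1) => r.coeff i)
    ((Set.Finite.pi' fun _ : Fin (m + 1) => hY).subset ?_) ?_
  · rintro _ ⟨r, hr, rfl⟩ i
    exact hr.2 i
  · intro r hr s hs h
    ext i
    by_cases hi : i < m + 1
    · exact congrFun h ⟨i, hi⟩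
    · rw [Polynomial.coeff_eq_zero_of_natDegree_lt (by have := hr.1; omega),
        Polynomial.coeff_eq_zero_of_natDegree_lt (by have := hs.1; omega)]

theorem KE_pigeon {X : Type} {F : Set X} (hF : F.Finite) (N : ℕ → X) (K0 : ℕ)
    (h : ∀ n, K0 ≤ n → N n ∈ F) : ∃ n0, ∀ K : ℕ, ∃ n, K ≤ n ∧ N n = N n0 := by
  have : Finite F := hF
  obtain ⟨y, hy⟩ := Finite.exists_infinite_fiber
    (fun n : ℕ => (⟨N (n + K0), h _ (Nat.le_add_left _ _)⟩ : F))
  have hy' := Set.infinite_coe_iff.1 hy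
  obtain ⟨n0, hn0⟩ := hy'.nonempty
  refine ⟨n0 + K0, fun K => ?_⟩
  obtain ⟨n, hn, hlt⟩ := hy'.exists_gt K
  refine ⟨n + K0, by omega, ?_⟩
  have h1 : N (n + K0) = y.1 := congrArg Subtype.val hn
  have h2 : N (n0 + K0) = y.1 := congrArg Subtype.val hn0
  rw [h1, h2]

/-- As `kt1`.  With `i`, `j` the partial degrees of `P` and `e`, `μ` from `edge_img`,
`e * (i_n + j_n) = μ * (i + j)`.  The polynomials `pushRoots` are monic of fixed degree; use
`cau` for their coefficients (`x0 = 1`). -/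
theorem ke1 [IsAlgClosed k] [CharZero k] (hM : MAL k) (hd : 2 ≤ d) (hp : p.natDegree = d)
    (hq : q.natDegree = d) (hB : Bad (prodMap p q) P) :
    ∃ n0, ∀ K : ℕ, ∃ n, K ≤ n ∧
      pushRoots (fun t => p.eval t)^[n] (edge (wt ![0, 1] P) P) =
        pushRoots (fun t => p.eval t)^[n0] (edge (wt ![0, 1] P) P) := by
  obtain ⟨S, c1, gp, gq⟩ := exists_good1 hd hp hq
  obtain ⟨c, M0, hc⟩ := corE_crude hd hp hq gp gq
  obtain ⟨K, hK⟩ := KE_setup hM hd hp hq hB M0
  obtain ⟨T, hT⟩ := KE_inv p (edge (wt ![0, 1] P) P)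
  set m := Multiset.card (edge (wt ![0, 1] P) P).roots with hm
  have hL : m + 2 ≤ 2 ^ (m + 2) := Nat.lt_two_pow_self.le
  refine KE_pigeon (KE_finite (hM T S (c * (wt ![1, 0] P + wt ![0, 1] P) + (m + 2 + 1))) m)
    (fun n => pushRoots (fun t => p.eval t)^[n] (edge (wt ![0, 1] P) P)) K fun n hn => ?_
  have hdeg := KE_natDegree (fun t => p.eval t)^[n] (edge (wt ![0, 1] P) P)
  have hmon := KE_monic (fun t => p.eval t)^[n] (edge (wt ![0, 1] P) P)
  refine ⟨hdeg.le, fun i => ⟨hT n i, ?_⟩⟩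
  obtain ⟨Q, e, μ, c', hQ, hinf, hM0, he, hμ, hc', hwt, hedge⟩ := hK n hn
  obtain ⟨γ, r, hγ, hr, hb⟩ := hc Q hQ hinf hM0
  generalize pushRoots (fun t => p.eval t)^[n] (edge (wt ![0, 1] P) P) = N at hdeg hmon hedge
  obtain ⟨γ', hγ', hb'⟩ := transfer (S := S) (x0 := 1) (x1 := N.coeff i) one_ne_zero hc' hγ e μ r
    (c * (r * (wt ![1, 0] Q + wt ![0, 1] Q))) (m + 2 + 1) (by
      intro v x hx
      have hj : ∃ j, x = N.coeff j := by
        rcases hx with hx | hx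
        · exact ⟨N.natDegree, by rw [hx]; exact hmon.coeff_natDegree.symm⟩
        · exact ⟨i, hx⟩
      obtain ⟨j, rfl⟩ := hj
      obtain ⟨ζ, hζ, hle⟩ := v.cau N (n := m + 2) (by rw [hdeg]; exact hL) 1 j
      rw [map_one, one_pow, mul_one, one_mul] at hle
      refine ⟨(edge (wt ![0, 1] Q) Q).eval ζ, N.eval ζ, ?_, hb v ζ hζ.le, hle⟩
      have h1 := congrArg (Polynomial.eval ζ) hedge
      simpa using h1)
  refine ⟨γ', hγ', μ * r, Nat.mul_pos hμ hr, fun v => ?_⟩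
  have h2 := hb' v
  rw [div_one] at h2
  have h3 : e * (c * (r * (wt ![1, 0] Q + wt ![0, 1] Q))) + (m + 2 + 1) * (μ * r) =
      μ * r * (c * (wt ![1, 0] P + wt ![0, 1] P) + (m + 2 + 1)) := by
    calc _ = c * r * (e * (wt ![1, 0] Q + wt ![0, 1] Q)) + (m + 2 + 1) * (μ * r) := by ring
      _ = _ := by rw [hwt]; ring
  rw [h3] at h2
  exact h2

/-- As `kt2`. -/
theorem ke2 [IsAlgClosed k] [CharZero k] (ι : k →+* ℂ) (hM : MAL k) (hd : 2 ≤ d)
    (hp : p.natDegree = d) (hq : q.natDegree = d) (hB : Bad (prodMap p q) P) {N : Polynomial k}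
    (h : ∀ K : ℕ, ∃ n, K ≤ n ∧ pushRoots (fun t => p.eval t)^[n] (edge (wt ![0, 1] P) P) = N)
    (x x' : k) (hx : Pre (fun t => p.eval t) x) (hx' : Pre (fun t => p.eval t) x')
    (h0 : N.eval x ≠ 0) (h0' : N.eval x' ≠ 0) : ‖ι (N.eval x)‖ = ‖ι (N.eval x')‖ := by
  classical
  obtain ⟨S, c1, gp, gq⟩ := exists_good1 hd hp hq
  have hi : Inv {N.eval x, N.eval x'} (N.eval x' / N.eval x) :=
    Inv.div (inv_of_mem (by simp)) (inv_of_mem (by simp))
  obtain ⟨m, hm, hpow⟩ := kronecker hM _ S (div_ne_zero h0' h0) hi (by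
    intro n
    obtain ⟨M0, hc⟩ := corE hd hp hq gp gq (n * (wt ![1, 0] P + wt ![0, 1] P))
    obtain ⟨K, hK⟩ := KE_setup hM hd hp hq hB (M0 + 1)
    obtain ⟨n', hn', hN⟩ := h K
    obtain ⟨Q, e, μ, c', hQ, hinf, hM0, he, hμ, hc', hwt, hedge⟩ := hK n' hn'
    rw [hN] at hedge
    obtain ⟨γ, r, E, hγ, hr, hE, hb⟩ := hc Q hQ hinf (by omega)
    obtain ⟨γ', hγ', hb'⟩ := transfer (S := S) (x0 := N.eval x) (x1 := N.eval x') h0 hc' hγ e μ r
      E 0 (by
        intro v y hy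
        have hj : ∃ z, Pre (fun t => p.eval t) z ∧ y = N.eval z := by
          rcases hy with hy | hy
          · exact ⟨x, hx, hy⟩
          · exact ⟨x', hx', hy⟩
        obtain ⟨z, hz, rfl⟩ := hj
        refine ⟨(edge (wt ![0, 1] Q) Q).eval z, N.eval z, ?_, hb v z hz, by simp⟩
        have h1 := congrArg (Polynomial.eval z) hedge
        simpa using h1)
    refine ⟨γ', μ * r, e * E, hγ', Nat.mul_pos hμ hr, ?_, fun v => ?_⟩
    · have hW : 0 < wt ![1, 0] P + wt ![0, 1] P := by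
        have h1 : 0 < e * (wt ![1, 0] Q + wt ![0, 1] Q) := Nat.mul_pos he (by omega)
        rw [hwt] at h1
        exact Nat.pos_of_mul_pos_left h1
      refine Nat.le_of_mul_le_mul_right ?_ hW
      calc n * (e * E) * (wt ![1, 0] P + wt ![0, 1] P)
          = e * (n * (wt ![1, 0] P + wt ![0, 1] P) * E) := by ring
        _ ≤ e * (r * (wt ![1, 0] Q + wt ![0, 1] Q)) := Nat.mul_le_mul_left _ hE
        _ = r * (e * (wt ![1, 0] Q + wt ![0, 1] Q)) := by ring
        _ = μ * r * (wt ![1, 0] P + wt ![0, 1] P) := by rw [hwt]; ring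
    · simpa using hb' v)
  have h1 := norm_eq_one_of_pow ι hm hpow
  have h2 : ‖ι (N.eval x)‖ ≠ 0 := norm_ne_zero_iff.2 ((map_ne_zero ι).2 h0)
  rw [map_div₀, norm_div, div_eq_one_iff_eq h2] at h1
  exact h1.symm

/-- `cl'` with `A n = N.comp (p^[n])`, `t n = 1`, `γ n = 1`. -/
theorem ke [IsAlgClosed k] [CharZero k] (ι : k →+* ℂ) (hM : MAL k) (hd : 2 ≤ d)
    (hp : p.natDegree = d) (hq : q.natDegree = d) (hB : Bad (prodMap p q) P) {ξ : k}
    (hξ : (edge (wt ![0, 1] P) P).eval ξ = 0) :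
    {z : k | ∃ n, (fun t => p.eval t)^[n] z = ξ}.Finite := by
  obtain ⟨n0, hn0⟩ := ke1 hM hd hp hq hB
  have hE : edge (wt ![0, 1] P) P ≠ 0 := edge_ne_zero hB.irr.ne_zero
  set N := pushRoots (fun t => p.eval t)^[n0] (edge (wt ![0, 1] P) P) with hN
  have hN0 : N ≠ 0 := (KE_monic _ _).ne_zero
  have hI : {n : ℕ | pushRoots (fun t => p.eval t)^[n] (edge (wt ![0, 1] P) P) = N}.Infinite := by
    refine Set.infinite_of_forall_exists_gt fun a => ?_
    obtain ⟨n, hn, h⟩ := hn0 (a + 1)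
    exact ⟨n, h, hn⟩
  obtain ⟨a, -, b, -, hab, hξ'⟩ := hI.exists_lt_map_eq_of_mapsTo
    (f := fun n => (fun t => p.eval t)^[n] ξ) (t := {z | N.IsRoot z})
    (fun n hn => by
      have h := KE_root (fun t => p.eval t)^[n] hE hξ
      rw [hn] at h
      exact h) (Polynomial.finite_setOfPred_isRoot hN0)
  by_contra hZ
  have hpre : ∀ z ∈ {z : k | ∃ n, (fun t => p.eval t)^[n] z = ξ}, Pre (fun t => p.eval t) z := by
    rintro z ⟨n, hn⟩
    refine pre_of_eq (m := a + n) (n := b + n) (by omega) ?_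
    rw [Function.iterate_add_apply, Function.iterate_add_apply, hn]
    exact hξ'.symm
  have hev : ∀ n z, (N.comp ((fun r => p.comp r)^[n] Polynomial.X)).eval z =
      N.eval ((fun t => p.eval t)^[n] z) := by
    intro n z
    rw [Polynomial.eval_comp, (iter_comp_spec p n).2]
  have hA : ∀ n, N.comp ((fun r => p.comp r)^[n] Polynomial.X) ≠ 0 := by
    intro n h
    rcases Polynomial.comp_eq_zero_iff.1 h with h | h
    · exact hN0 h
    · have h1 := congrArg Polynomial.natDegree h.2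
      rw [(iter_comp_spec p n).1, Polynomial.natDegree_C, hp] at h1
      have h2 : 1 ≤ d ^ n := Nat.one_le_pow _ _ (by omega)
      omega
  have hfin := cl' ι (fun n => N.comp ((fun r => p.comp r)^[n] Polynomial.X)) (hA 0)
    (fun _ => 1) (fun _ => one_pos) (fun _ => 1) (fun _ => le_rfl) hZ (by
      intro n
      refine ((Polynomial.finite_setOfPred_isRoot (hA n)).union
        (Polynomial.finite_setOfPred_isRoot (hA 0))).subset ?_
      rintro z ⟨hz, hne⟩
      by_contra hc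
      simp only [Set.mem_union, Set.mem_ofPred_eq, Polynomial.IsRoot.def, not_or, hev] at hc
      apply hne
      simp only [hev, one_mul, pow_one]
      exact ke2 ι hM hd hp hq hB hn0 _ _ ((hpre z hz).iterate n) ((hpre z hz).iterate 0) hc.1 hc.2)
  refine hZ (hfin.subset ?_)
  rintro z ⟨n, hn⟩
  refine ⟨n0 + n, ?_⟩
  rw [hev, Function.iterate_add_apply, hn]
  exact KE_root (fun t => p.eval t)^[n0] hE hξ

end Pool.Agent.Work.MP_0a826e_ag.R
end

-- merged part: Pool.Agent.Work.MP_0a826e_ag.R.KT1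
section
namespace Pool.Agent.Work.MP_0a826e_ag.R

open MvPolynomial

variable {k : Type} [Field k]

variable {w : Fin 2 → ℕ} {d M : ℕ} {f F : Fin 2 → A2 k} {P : A2 k}

/-- the form vanishing on the images of the classes of the points `u j` -/
noncomputable def Nf (w : Fin 2 → ℕ) (F : Fin 2 → A2 k) (u : Fin M → Pt k) (n : ℕ) : A2 k :=
  ∏ j, lu w ((ev F)^[n] (u j))

theorem Nf_isHom (w : Fin 2 → ℕ) (F : Fin 2 → A2 k) (u : Fin M → Pt k) (n : ℕ) :
    IsHom w (M * (w 0 * w 1)) (Nf w F u n) := by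
  have := isHom_prod Finset.univ (fun j => lu w ((ev F)^[n] (u j))) fun j _ => lu_isHom w _
  rwa [Finset.card_fin] at this

theorem Nf_ne_zero (hw : Pos w) (hf : Reg w d f F) {u : Fin M → Pt k} (hu : ∀ j, u j ≠ 0)
    (n : ℕ) : Nf w F u n ≠ 0 := by
  exact Finset.prod_ne_zero_iff.2 fun j _ => lu_ne_zero hw (hf.iterate_ne_zero (hu j) n)

theorem KT1_inv (w : Fin 2 → ℕ) (F : Fin 2 → A2 k) (u : Fin M → Pt k) (E : Finset k) :
    ∃ T : Finset k, E ⊆ T ∧ ∀ n, InvP T (Nf w F u n) := by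
  classical
  refine ⟨E ∪ (Finset.univ.biUnion (fun i => (F i).support.image fun a => coeff a (F i)) ∪
    Finset.univ.image fun p : Fin M × Fin 2 => u p.1 p.2), Finset.subset_union_left,
    fun n => invP_prod _ _ fun j _ => invP_lu (inv_iterate (fun i => invP_of_subset fun a ha => ?_)
      (fun i => inv_of_mem ?_) n) w⟩
  · exact Finset.mem_union_right _ (Finset.mem_union_left _
      (Finset.mem_biUnion.2 ⟨i, Finset.mem_univ i, Finset.mem_image_of_mem _ ha⟩))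
  · exact Finset.mem_union_right _ (Finset.mem_union_right _
      (Finset.mem_image_of_mem _ (Finset.mem_univ (j, i))))

theorem KT1_img [IsAlgClosed k] [CharZero k] (hM : MAL k) (hw : Pos w) (hd : 2 ≤ d)
    (hf : Reg w d f F) (hB : Bad f P) {u : Fin M → Pt k} (hu : ∀ j, u j ≠ 0) {c : k}
    (hc : c ≠ 0) (hP : top w P ^ (w 0 * w 1) = C c * ∏ j, lu w (u j)) (M0 : ℕ) :
    ∃ K : ℕ, ∀ n, K ≤ n → ∃ (Q : A2 k) (α β : ℕ) (c' : k), Irreducible Q ∧
      {z | eval z Q = 0 ∧ Pre (ev f) z}.Infinite ∧ M0 ≤ wt w Q ∧ 1 ≤ α ∧ 1 ≤ β ∧ c' ≠ 0 ∧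
      α * wt w Q = β * (M * (w 0 * w 1)) ∧
      ∀ z, eval z (top w Q) ^ α = c' * eval z (Nf w F u n) ^ β := by
  have h1 : 1 ≤ d := by omega
  choose Q hQ using fun n => (hf.of_iter h1 n).exists_img hw.pos (Nat.one_le_pow n d h1) hB.irr
  obtain ⟨K, hK⟩ := wt_large hM hw.pos hd hf hB Q hQ M0
  refine ⟨K, fun n hn => ?_⟩
  obtain ⟨α, β, c', a1, a2, a3, a4, a5⟩ :=
    bmain hw (Nat.one_le_pow n d h1) (hf.of_iter h1 n) hB.irr (hQ n) hu hc hP
  refine ⟨Q n, α, β, c', (hQ n).1, hB.img_inf (hQ n), hK n hn, a1, a2, a3, a4, fun z => ?_⟩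
  rw [← map_pow, a5, ev_iter, map_mul, map_pow, eval_C, Nf]

/-- `bmain` for `iter f n`, `corT_crude`, `coeff_le` for `Nf`, `transfer`, `MAL`, `pigeon_polys`.
The certificate has `s = β * r` and exponent `α * (c * (r * wt Q)) + κ * (β * r)`, which is
`s * (c * W + κ)` since `α * wt Q = β * W`. -/
theorem kt1 [IsAlgClosed k] [CharZero k] (hM : MAL k) (hw : Pos w) (hd : 2 ≤ d)
    (hf : Reg w d f F) (hB : Bad f P) {u : Fin M → Pt k} (hu : ∀ j, u j ≠ 0) {c : k}
    (hc : c ≠ 0) (hP : top w P ^ (w 0 * w 1) = C c * ∏ j, lu w (u j)) :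
    ∃ n0, ∀ K : ℕ, ∃ n, K ≤ n ∧ ∃ c' : k, c' ≠ 0 ∧ Nf w F u n = C c' * Nf w F u n0 := by
  obtain ⟨S, hG⟩ := exists_good hw.pos hd hf
  obtain ⟨T, -, hT⟩ := KT1_inv w F u ∅
  obtain ⟨c0, M0, h0⟩ := corT_crude hw.pos hd hG
  obtain ⟨K0, hK⟩ := KT1_img hM hw hd hf hB hu hc hP M0
  obtain ⟨W, hW⟩ : ∃ W, W = M * (w 0 * w 1) := ⟨_, rfl⟩
  have hwt : ∀ n, wt w (Nf w F u n) ≤ W := fun n => hW ▸ (Nf_isHom w F u n).wt_le
  obtain ⟨n0, -, h⟩ := pigeon_polys hw.pos (hM T S (c0 * W + ((W + 1) ^ 2 + 2 + 1))) W (Nf w F u)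
    fun K => ⟨max K K0, le_max_left _ _, Nf_ne_zero hw hf hu _, hwt _, fun a a0 ha => by
      obtain ⟨Q, α, β, c', q1, q2, q3, -, a2, a3, a4, a5⟩ := hK _ (le_max_right K K0)
      obtain ⟨γ, r, g1, g2, g3⟩ := h0 Q q1 q2 q3
      obtain ⟨γ', g4, g5⟩ := transfer (S := S) (x1 := coeff a (Nf w F u (max K K0))) ha a3 g1 α β r
        (c0 * (r * wt w Q)) ((W + 1) ^ 2 + 2 + 1) fun p x hx => by
          obtain ⟨b, rfl⟩ : ∃ b, x = coeff b (Nf w F u (max K K0)) :=
            hx.elim (fun e => ⟨_, e⟩) fun e => ⟨_, e⟩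
          obtain ⟨z, z1, z2⟩ := p.coeff_le (Nf w F u (max K K0))
            ((totalDegree_le_wt hw.pos _).trans (hwt _)) Nat.lt_two_pow_self.le b
          exact ⟨_, _, a5 z, g3 p z fun i => (z1 i).le, z2⟩
      refine ⟨(invP_iff.1 (hT _) a).div (invP_iff.1 (hT _) a0), γ', g4, β * r,
        Nat.mul_pos a2 g2, fun p => (g5 p).trans_eq (congrArg _ ?_)⟩
      rw [← hW] at a4
      linear_combination c0 * r * a4⟩
  exact ⟨n0, h⟩

/-- `corT` with `J = n * W`, `transfer` with `κ = 0`, `kronecker`. -/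
theorem kt2 [IsAlgClosed k] [CharZero k] (ι : k →+* ℂ) (hM : MAL k) (hw : Pos w) (hd : 2 ≤ d)
    (hf : Reg w d f F) (hB : Bad f P) {u : Fin M → Pt k} (hu : ∀ j, u j ≠ 0) {c : k}
    (hc : c ≠ 0) (hP : top w P ^ (w 0 * w 1) = C c * ∏ j, lu w (u j)) {n0 : ℕ}
    (h : ∀ K : ℕ, ∃ n, K ≤ n ∧ ∃ c' : k, c' ≠ 0 ∧ Nf w F u n = C c' * Nf w F u n0)
    (v v' : Pt k) (hv : Pre (ev F) v) (hv' : Pre (ev F) v') (h0 : eval v (Nf w F u n0) ≠ 0)
    (h0' : eval v' (Nf w F u n0) ≠ 0) :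
    ‖ι (eval v (Nf w F u n0))‖ = ‖ι (eval v' (Nf w F u n0))‖ := by
  classical
  obtain ⟨S, hG⟩ := exists_good hw.pos hd hf
  obtain ⟨T, hE, hT⟩ := KT1_inv w F u (Finset.univ.image v ∪ Finset.univ.image v')
  obtain ⟨m, hm, e⟩ := kronecker hM T S (div_ne_zero h0 h0')
    (((hT n0).eval_inv fun i => inv_of_mem (hE (Finset.mem_union_left _
      (Finset.mem_image_of_mem _ (Finset.mem_univ i))))).div
      ((hT n0).eval_inv fun i => inv_of_mem (hE (Finset.mem_union_right _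
        (Finset.mem_image_of_mem _ (Finset.mem_univ i)))))) fun n => by
      obtain ⟨M0, h1⟩ := corT hw.pos hd hG (n * (M * (w 0 * w 1)))
      obtain ⟨K, hK⟩ := KT1_img hM hw hd hf hB hu hc hP (max M0 1)
      obtain ⟨l, hl, c1, hc1, e⟩ := h K
      obtain ⟨Q, α, β, c', q1, q2, q3, a1, a2, a3, a4, a5⟩ := hK l hl
      obtain ⟨γ, r, E, g1, g2, g3, g4⟩ := h1 Q q1 q2 ((le_max_left _ _).trans q3)
      obtain ⟨γ', g5, g6⟩ := transfer (S := S) (x1 := eval v (Nf w F u n0)) h0'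
        (mul_ne_zero a3 (pow_ne_zero β hc1)) g1 α β r E 0 fun p x hx => by
          obtain ⟨z, hz, rfl⟩ : ∃ z, Pre (ev F) z ∧ x = eval z (Nf w F u n0) :=
            hx.elim (fun e => ⟨_, hv', e⟩) fun e => ⟨_, hv, e⟩
          refine ⟨_, _, ?_, g4 p z hz, by rw [pow_zero, one_mul]⟩
          rw [a5, e, map_mul, eval_C, mul_pow, mul_assoc]
      refine ⟨γ', β * r, _, g5, Nat.mul_pos a2 g2, ?_, g6⟩
      have hW : 0 < M * (w 0 * w 1) :=
        Nat.pos_of_mul_pos_left (a4 ▸ Nat.mul_pos a1 ((le_max_right _ _).trans q3))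
      refine Nat.le_of_mul_le_mul_right ?_ hW
      have := Nat.mul_le_mul_left α g3
      rw [mul_left_comm α r, a4] at this
      exact le_of_eq_of_le (by ring) (this.trans_eq (by ring))
  have := norm_eq_one_of_pow ι hm e
  rwa [map_div₀, norm_div, div_eq_one_iff_eq (norm_ne_zero_iff.2 ((map_ne_zero ι).2 h0'))] at this

end Pool.Agent.Work.MP_0a826e_ag.R
end

-- merged part: Pool.Agent.Work.MP_0a826e_ag.R.KT
section
namespace Pool.Agent.Work.MP_0a826e_ag.R

open MvPolynomial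

variable {k : Type} [Field k]

variable {w : Fin 2 → ℕ} {d : ℕ} {f F : Fin 2 → A2 k} {P : A2 k}

/-- every zero class of the top form has a finite backward orbit -/
theorem kt [IsAlgClosed k] [CharZero k] (ι : k →+* ℂ) (hM : MAL k) (hw : Pos w) (hd : 2 ≤ d)
    (hf : Reg w d f F) (hB : Bad f P) {v : Pt k} (hv : v ≠ 0) (hz : eval v (top w P) = 0) :
    {z : k | ∃ n, Cls w v ((ev F)^[n] ![z, 1])}.Finite := by
  have hP0 : P ≠ 0 := hB.irr.ne_zero
  obtain ⟨u, c, hc, hu, hP⟩ := fl hw (isHom_top w P) (top_ne_zero hP0)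
  obtain ⟨n0, h⟩ := kt1 hM hw hd hf hB hu hc hP
  have hN0 := Nf_ne_zero hw hf hu n0
  obtain ⟨n, hn, c', hc', hNn⟩ := h (n0 + 1)
  have hzero : ∀ m x, x ≠ 0 → (eval x (Nf w F u m) = 0 ↔ ∃ j, Cls w ((ev F)^[m] (u j)) x) := by
    intro m x hx
    unfold Nf
    rw [map_prod, Finset.prod_eq_zero_iff]
    constructor
    · rintro ⟨j, -, hj⟩
      exact ⟨j, (eval_lu_eq_zero hw (hf.iterate_ne_zero (hu j) m) hx).1 hj⟩
    · rintro ⟨j, hj⟩
      exact ⟨j, Finset.mem_univ _, (eval_lu_eq_zero hw (hf.iterate_ne_zero (hu j) m) hx).2 hj⟩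
  have hinv : ∀ x, x ≠ 0 → eval x (Nf w F u n0) = 0 →
      eval ((ev F)^[n - n0] x) (Nf w F u n0) = 0 := by
    intro x hx h0
    obtain ⟨j, hj⟩ := (hzero n0 x hx).1 h0
    have h1 := hj.iterate hf.bnd (n - n0)
    rw [← Function.iterate_add_apply, Nat.sub_add_cancel (by omega)] at h1
    have h2 := (hzero n _ (hf.iterate_ne_zero hx (n - n0))).2 ⟨j, h1⟩
    rw [hNn, map_mul, eval_C] at h2
    exact (mul_eq_zero.1 h2).resolve_left hc'
  obtain ⟨j, hj⟩ := (fl_zero hw hc hu hP hv).1 hz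
  have hv' : (ev F)^[n0] v ≠ 0 := hf.iterate_ne_zero hv n0
  have hz' : eval ((ev F)^[n0] v) (Nf w F u n0) = 0 :=
    (hzero n0 _ hv').2 ⟨j, hj.iterate hf.bnd n0⟩
  have hfin := kt3 ι hw.pos hd hf (Nf_isHom w F u n0) hN0 (r := n - n0) (by omega) hinv
    (kt2 ι hM hw hd hf hB hu hc hP h) hv' hz'
  refine hfin.subset ?_
  rintro z ⟨m, hm⟩
  refine ⟨n0 + m, ?_⟩
  rw [Function.iterate_add_apply]
  exact hm.iterate hf.bnd n0

end Pool.Agent.Work.MP_0a826e_ag.R
end

-- merged part: Pool.Agent.Work.MP_0a826e_ag.R.Tf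
section
namespace Pool.Agent.Work.MP_0a826e_ag.R

open MvPolynomial

variable {k : Type} [Field k]

variable {w : Fin 2 → ℕ} {d : ℕ} {f F f' ψ ψ' : Fin 2 → A2 k} {P P' : A2 k}

/-- the linear map with matrix `L` -/
noncomputable def lin (L : Matrix (Fin 2) (Fin 2) k) : Fin 2 → A2 k :=
  fun i => ∑ j, C (L i j) * X j

/-- the swap of the coordinates -/
noncomputable def swp (k : Type) [Field k] : Fin 2 → A2 k := ![X 1, X 0]

/-- translation -/
noncomputable def trl (u : Pt k) : Fin 2 → A2 k := fun i => X i + C (u i)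

theorem ev_lin (L : Matrix (Fin 2) (Fin 2) k) (u : Pt k) : ev (lin L) u = L.mulVec u := by
  funext i
  simp [ev, lin, Matrix.mulVec, dotProduct]

theorem comp_lin (L L' : Matrix (Fin 2) (Fin 2) k) : comp (lin L) (lin L') = lin (L * L') := by
  funext i
  simp only [comp, lin, Matrix.mul_apply, Fin.sum_univ_two, map_add, map_mul, aeval_C, aeval_X,
    algebraMap_eq]
  ring

theorem lin_one : lin (1 : Matrix (Fin 2) (Fin 2) k) = X := by
  funext i
  fin_cases i <;> simp [lin, Matrix.one_apply]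

theorem reg_lin {L L' : Matrix (Fin 2) (Fin 2) k} (h : L' * L = 1) :
    Reg ![1, 1] 1 (lin L) (lin L) := by
  refine ⟨bnd_of_isHom fun i => ?_, fun u hu => ?_⟩
  · have e : 1 * ![1, 1] i = 1 := by fin_cases i <;> rfl
    rw [e, lin, Fin.sum_univ_two]
    exact ((isHom_X ![1, 1] 0).C_mul _).add ((isHom_X ![1, 1] 1).C_mul _)
  · rw [ev_lin] at hu
    rw [← Matrix.one_mulVec u, ← h, ← Matrix.mulVec_mulVec, hu, Matrix.mulVec_zero]

theorem reg_swp : Reg ![1, 1] 1 (swp k) (swp k) := by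
  refine ⟨bnd_of_isHom fun i => ?_, fun u hu => ?_⟩
  · fin_cases i
    exacts [isHom_X ![1, 1] 1, isHom_X ![1, 1] 0]
  · funext i
    fin_cases i
    · simpa [ev, swp] using congrFun hu 1
    · simpa [ev, swp] using congrFun hu 0

theorem comp_swp : comp (swp k) (swp k) = X := by
  funext i
  fin_cases i <;> simp [comp, swp]

theorem coeff_swp (P : A2 k) (a a' : Fin 2 →₀ ℕ) (h0 : a' 0 = a 1) (h1 : a' 1 = a 0) :
    coeff a' (aeval (swp k) P) = coeff a P := by
  have e : aeval (swp k) P = rename (Equiv.swap (0 : Fin 2) 1) P := by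
    rw [rename_eq_aeval]
    congr 2
    funext i
    fin_cases i <;> simp [swp]
  have e' : a' = a.mapDomain (Equiv.swap (0 : Fin 2) 1) := by
    ext i
    rw [Finsupp.mapDomain_equiv_apply]
    fin_cases i <;> simp [h0, h1]
  rw [e, e', coeff_rename_mapDomain _ (Equiv.injective _)]

theorem comp_trl (u : Pt k) : comp (trl u) (trl (-u)) = X ∧ comp (trl (-u)) (trl u) = X := by
  constructor <;> funext i <;> simp [comp, trl]

theorem Reg.conj {Ψ Ψ' : Fin 2 → A2 k} (hf : Reg w d f F) (hd : 1 ≤ d) (h : Reg w 1 ψ Ψ)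
    (h' : Reg w 1 ψ' Ψ') : Reg w d (comp ψ (comp f ψ')) (comp Ψ (comp F Ψ')) := by
  simpa using (h'.of_comp le_rfl hf).of_comp (by simpa using hd) h

theorem Bad.semi [Infinite k] (hB : Bad f P) (hinj : ∀ Q : A2 k, Q ≠ 0 → aeval ψ Q ≠ 0)
    (hs : ∀ z, ev ψ (ev f z) = ev f' (ev ψ z)) (hP' : Irreducible P')
    (hdvd : P ∣ aeval ψ P')
    (hinf : (ev ψ '' {z | eval z P = 0 ∧ Pre (ev f) z}).Infinite) : Bad f' P' := by
  have sc : ∀ n z, ev ψ ((ev f)^[n] z) = (ev f')^[n] (ev ψ z) := fun n =>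
    (show Function.Semiconj (ev ψ) (ev f) (ev f') from hs).iterate_right n
  have hz : ∀ z, eval z P = 0 → eval (ev ψ z) P' = 0 := fun z h => by
    obtain ⟨c, hc⟩ := hdvd
    rw [← eval_aeval_ev, hc, map_mul, h, zero_mul]
  refine ⟨hP', hinf.mono ?_, fun ⟨Q, hQ, h⟩ => hB.nc ⟨aeval ψ Q, hinj Q hQ, fun K => ?_⟩⟩
  · rintro _ ⟨z, ⟨a, b⟩, rfl⟩
    refine ⟨hz z a, (b.image (ev ψ)).subset ?_⟩
    rintro _ ⟨n, rfl⟩
    exact ⟨_, ⟨n, rfl⟩, sc n z⟩
  · obtain ⟨n, hn, h⟩ := h K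
    exact ⟨n, hn, fun z a => by rw [eval_aeval_ev, sc]; exact h _ (hz z a)⟩

theorem Bad.of_iter (hB : Bad f P) {n : ℕ} (hn : 1 ≤ n) : Bad (iter f n) P := by
  refine ⟨hB.irr, hB.inf.mono fun z hz => ⟨hz.1, hz.2.subset ?_⟩,
    fun ⟨Q, hQ, h⟩ => hB.nc ⟨Q, hQ, fun K => ?_⟩⟩
  · obtain ⟨m, hm, h⟩ := h K
    refine ⟨n * m, hm.trans (Nat.le_mul_of_pos_left m hn), fun z a => ?_⟩
    rw [Function.iterate_mul, ← ev_iter f n]
    exact h z a
  · rintro _ ⟨m, rfl⟩
    exact ⟨n * m, by simp only [ev_iter, Function.iterate_mul]⟩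

theorem Bad.conj [Infinite k] (hB : Bad f P) (h1 : comp ψ ψ' = X) (h2 : comp ψ' ψ = X) :
    Bad (comp ψ (comp f ψ')) (aeval ψ' P) := by
  have a : ∀ Q : A2 k, aeval ψ' (aeval ψ Q) = Q := fun Q => by
    rw [← aeval_comp, h1, aeval_X_left_apply]
  have b : ∀ Q : A2 k, aeval ψ (aeval ψ' Q) = Q := fun Q => by
    rw [← aeval_comp, h2, aeval_X_left_apply]
  have c : ∀ z, ev ψ' (ev ψ z) = z := fun z => by rw [← ev_comp, h2, ev_X]
  refine hB.semi (ψ := ψ) (fun Q hQ e => hQ (by rw [← a Q, e, map_zero]))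
    (fun z => by rw [ev_comp, ev_comp, c])
    (hB.irr.map (AlgEquiv.ofAlgHom (aeval ψ') (aeval ψ) (AlgHom.ext a) (AlgHom.ext b)))
    (by rw [b]) (hB.inf.image (Function.LeftInverse.injective c).injOn)

theorem Tf_aeval (z : Pt k) (i : Fin 2) (p : Polynomial k) :
    eval z (Polynomial.aeval (X i : A2 k) p) = p.eval (z i) := by
  induction p using Polynomial.induction_on' with
  | add p q hp hq => simp [hp, hq]
  | monomial n c => simp [Polynomial.aeval_monomial]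

theorem Tf_line (i j : Fin 2) (hij : i ≠ j) (hf : ∀ z z', z i = z' i → ev f z i = ev f z' i)
    (hP : ∀ z z' : Pt k, z i = z' i → eval z P = eval z' P) : ¬ Bad f P := by
  classical
  intro hB
  obtain ⟨u, h0, hu⟩ := hB.inf.nonempty
  have : Infinite k := by
    by_contra e
    rw [not_infinite_iff_finite] at e
    exact hB.inf (Set.toFinite _)
  have it : ∀ n z z', z i = z' i → (ev f)^[n] z i = (ev f)^[n] z' i := fun n => by
    induction n with
    | zero => exact fun _ _ e => e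
    | succ n ih => exact fun z z' e => ih _ _ (hf z z' e)
  obtain ⟨c, hc⟩ : P ∣ X i - C (u i) := by
    refine dvd_of_infinite hB.irr (Set.infinite_of_injective_forall_mem
      (f := fun t : k => Function.update u j t) (Function.update_injective u j) fun t => ?_)
    have e : Function.update u j t i = u i := Function.update_of_ne hij _ _
    exact ⟨(hP _ _ e).trans h0, by simp [e]⟩
  refine hB.nc ⟨∏ y ∈ hu.toFinset, (X i - C (y i)), Finset.prod_ne_zero_iff.2 fun y _ e => ?_,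
    fun K => ⟨K, le_rfl, fun z hz => ?_⟩⟩
  · have := congrArg (eval fun _ => y i + 1) e
    simp at this
  · have e : z i = u i := by
      have := congrArg (eval z) hc
      simpa [hz, sub_eq_zero] using this
    rw [map_prod]
    exact Finset.prod_eq_zero (hu.mem_toFinset.2 ⟨K, rfl⟩) (by simp [it K z u e])

/-- infinitely many preperiodic points share one `x` coordinate `x0`, so `P ∣ X 0 - x0`, and
`Q = ∏ (X 0 - orbit of x0)` works -/
theorem not_bad_vert (p : Polynomial k) (hf : f 0 = Polynomial.aeval (X 0 : A2 k) p)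
    (hP : ∀ a ∈ P.support, a 1 = 0) : ¬ Bad f P := by
  refine Tf_line 0 1 (by decide) (fun z z' e => by simp [ev, hf, Tf_aeval, e]) fun z z' e => ?_
  rw [eval_eq', eval_eq']
  exact Finset.sum_congr rfl fun a ha => by simp [hP a ha, e]

theorem not_bad_hor (q : Polynomial k) (hf : f 1 = Polynomial.aeval (X 1 : A2 k) q)
    (hP : ∀ a ∈ P.support, a 0 = 0) : ¬ Bad f P := by
  refine Tf_line 1 0 (by decide) (fun z z' e => by simp [ev, hf, Tf_aeval, e]) fun z z' e => ?_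
  rw [eval_eq', eval_eq']
  exact Finset.sum_congr rfl fun a ha => by simp [hP a ha, e]

end Pool.Agent.Work.MP_0a826e_ag.R
end

-- merged part: Pool.Agent.Work.MP_0a826e_ag.R.E2
section
namespace Pool.Agent.Work.MP_0a826e_ag.R

open MvPolynomial

variable {k : Type} [Field k]

variable {D : ℕ} {g G : Fin 2 → A2 k} {P : A2 k}

theorem E2_mono (a : Fin 2 →₀ ℕ) (c : k) :
    (monomial a c : A2 k) = C c * X 0 ^ a 0 * X 1 ^ a 1 := by
  rw [monomial_eq, Finsupp.prod_fintype _ _ (by simp), Fin.prod_univ_two, mul_assoc]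

theorem E2_wdeg_one (a : Fin 2 →₀ ℕ) : wdeg ![1, 1] a = a 0 + a 1 := by simp [wdeg]

theorem E2_ext {a b : Fin 2 →₀ ℕ} (h0 : a 0 = b 0) (h1 : a 1 = b 1) : a = b := by
  ext i
  fin_cases i
  exacts [h0, h1]

theorem E2_eval_axis {w : Fin 2 → ℕ} {φ : A2 k} (hw : 0 < w 0) (hφ : IsHom w (D * w 0) φ)
    {u : Pt k} (hu : u 1 = 0) : eval u φ = coeff (Finsupp.single 0 D) φ * u 0 ^ D := by
  rw [eval_eq', Finset.sum_eq_single (Finsupp.single 0 D)]
  · simp [Fin.prod_univ_two]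
  · intro a ha hne
    have h1 : a 1 ≠ 0 := fun e => hne (E2_ext (by
      have := hφ a ha
      rw [wdeg, e, mul_zero, add_zero, mul_comm] at this
      simpa using Nat.eq_of_mul_eq_mul_right hw this) (by simpa using e))
    simp [Fin.prod_univ_two, hu, h1]
  · intro h
    simp [notMem_support_iff.1 h]

/-- Choice of the weights: `w 0 / w 1` is the maximum of the numbers `a' 1 / (D - a' 0)`
(`a' ∈ s`, `a' 0 < D`) and `(a' 1 - a 1) / (a 0 - a' 0)` (`a' ∈ t`, `a' 0 < a 0`), if positive. -/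
theorem exists_weights (D : ℕ) (s t : Finset (Fin 2 →₀ ℕ)) (a : Fin 2 →₀ ℕ)
    (hs : ∀ a' ∈ s, (a' 0 = D ∧ a' 1 = 0) ∨ a' 0 + a' 1 < D)
    (ht : ∀ a' ∈ t, a' = a ∨ a' 0 + a' 1 < a 0 + a 1) :
    ((∀ a' ∈ s, a' 1 = 0) ∧ ∀ a' ∈ t, a' 1 ≤ a 1) ∨
      ∃ w : Fin 2 → ℕ, Pos w ∧ w 0 < w 1 ∧ (∀ a' ∈ s, wdeg w a' ≤ D * w 0) ∧
        (∀ a' ∈ t, wdeg w a' ≤ wdeg w a) ∧
        ((∃ a' ∈ s, a' 0 < D ∧ wdeg w a' = D * w 0) ∨
          ∃ a' ∈ t, a' 0 < a 0 ∧ wdeg w a' = wdeg w a) := by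
  classical
  by_cases h0 : (∀ a' ∈ s, a' 1 = 0) ∧ ∀ a' ∈ t, a' 1 ≤ a 1
  · exact .inl h0
  right
  let f : (Fin 2 →₀ ℕ) → ℚ := fun a' => (a' 1 : ℚ) / ((D : ℚ) - a' 0)
  let f' : (Fin 2 →₀ ℕ) → ℚ := fun a' => ((a' 1 : ℚ) - a 1) / ((a 0 : ℚ) - a' 0)
  let U : Finset ℚ := (s.filter fun a' => a' 0 < D).image f ∪ (t.filter fun a' => a' 0 < a 0).image f'
  have m1 : ∀ a' ∈ s, a' 0 < D → f a' ∈ U := fun a' h h' =>
    Finset.mem_union_left _ (Finset.mem_image_of_mem _ (Finset.mem_filter.2 ⟨h, h'⟩))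
  have m2 : ∀ a' ∈ t, a' 0 < a 0 → f' a' ∈ U := fun a' h h' =>
    Finset.mem_union_right _ (Finset.mem_image_of_mem _ (Finset.mem_filter.2 ⟨h, h'⟩))
  have d1 : ∀ {x y : ℕ}, x < y → (0 : ℚ) < (y : ℚ) - x := fun h => sub_pos.2 (by exact_mod_cast h)
  have hex : ∃ x ∈ U, 0 < x := by
    rw [not_and_or] at h0
    rcases h0 with h0 | h0
    · push Not at h0
      obtain ⟨a', h, h'⟩ := h0
      have e : a' 0 < D := by have := hs a' h; omega
      exact ⟨_, m1 a' h e, div_pos (by exact_mod_cast Nat.pos_of_ne_zero h') (d1 e)⟩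
    · push Not at h0
      obtain ⟨a', h, h'⟩ := h0
      have e : a' 0 < a 0 := by
        rcases ht a' h with rfl | e
        · omega
        · omega
      exact ⟨_, m2 a' h e, div_pos (d1 h') (d1 e)⟩
  obtain ⟨x, hx, hx0⟩ := hex
  obtain ⟨ρ, hρ, hmax⟩ := Finset.exists_max_image U id ⟨x, hx⟩
  have ρ0 : 0 < ρ := hx0.trans_le (hmax x hx)
  have hcase : (∃ a' ∈ s, a' 0 < D ∧ f a' = ρ) ∨ ∃ a' ∈ t, a' 0 < a 0 ∧ f' a' = ρ := by
    rcases Finset.mem_union.1 hρ with h | h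
    · obtain ⟨a', h, e⟩ := Finset.mem_image.1 h
      exact .inl ⟨a', (Finset.mem_filter.1 h).1, (Finset.mem_filter.1 h).2, e⟩
    · obtain ⟨a', h, e⟩ := Finset.mem_image.1 h
      exact .inr ⟨a', (Finset.mem_filter.1 h).1, (Finset.mem_filter.1 h).2, e⟩
  have ρ1 : ρ < 1 := by
    rcases hcase with ⟨a', h, h', rfl⟩ | ⟨a', h, h', rfl⟩
    · rw [div_lt_one (d1 h')]
      have : a' 0 + a' 1 < D := by have := hs a' h; omega
      have : (a' 0 : ℚ) + a' 1 < D := by exact_mod_cast this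
      linarith only [this]
    · rw [div_lt_one (d1 h')]
      have : a' 0 + a' 1 < a 0 + a 1 := by
        rcases ht a' h with rfl | e
        · omega
        · exact e
      have : (a' 0 : ℚ) + a' 1 < a 0 + a 1 := by exact_mod_cast this
      linarith only [this]
  obtain ⟨p, q, hq, hc, hpq⟩ : ∃ p q : ℕ, 0 < q ∧ Nat.Coprime p q ∧ (p : ℚ) = ρ * q :=
    ⟨ρ.num.natAbs, ρ.den, ρ.den_pos, ρ.reduced, by
      rw [Rat.mul_den_eq_num, Nat.cast_natAbs, abs_of_pos (Rat.num_pos.2 ρ0)]⟩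
  have hq' : (0 : ℚ) < q := by exact_mod_cast hq
  have hp : 0 < p := by
    have : (0 : ℚ) < p := hpq ▸ mul_pos ρ0 hq'
    exact_mod_cast this
  have hlt : p < q := by
    have : (p : ℚ) < q := by rw [hpq]; linarith only [ρ1, hq', mul_pos_of_neg_of_neg (Mathlib.Tactic.Linarith.sub_neg_of_lt ρ1) (Mathlib.Tactic.Linarith.sub_neg_of_lt hq')]
    exact_mod_cast this
  refine ⟨![p, q], ⟨fun i => by fin_cases i <;> simpa, hc⟩, hlt, fun a' h => ?_, fun a' h => ?_,
    hcase.imp ?_ ?_⟩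
  · show p * a' 0 + q * a' 1 ≤ D * p
    rcases hs a' h with ⟨e, e'⟩ | e
    · rw [e, e', mul_zero, add_zero, mul_comm]
    · have e1 : a' 0 < D := by omega
      have e2 : (a' 1 : ℚ) / ((D : ℚ) - a' 0) ≤ ρ := hmax _ (m1 a' h e1)
      rw [div_le_iff₀ (d1 e1)] at e2
      have : (p : ℚ) * a' 0 + q * a' 1 ≤ D * p := by rw [hpq]; linarith only [e2, mul_nonneg_of_nonpos_of_nonpos (Mathlib.Tactic.Linarith.sub_nonpos_of_le (Mathlib.Tactic.Linarith.natCast_nonneg ℚ q)) (Mathlib.Tactic.Linarith.sub_nonpos_of_le e2)]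
      exact_mod_cast this
  · show p * a' 0 + q * a' 1 ≤ p * a 0 + q * a 1
    rcases ht a' h with rfl | e
    · exact le_rfl
    · by_cases e1 : a' 0 < a 0
      · have e2 : ((a' 1 : ℚ) - a 1) / ((a 0 : ℚ) - a' 0) ≤ ρ := hmax _ (m2 a' h e1)
        rw [div_le_iff₀ (d1 e1)] at e2
        have : (p : ℚ) * a' 0 + q * a' 1 ≤ p * a 0 + q * a 1 := by rw [hpq]; linarith only [e2, mul_nonneg_of_nonpos_of_nonpos (Mathlib.Tactic.Linarith.sub_nonpos_of_le (Mathlib.Tactic.Linarith.natCast_nonneg ℚ q)) (Mathlib.Tactic.Linarith.sub_nonpos_of_le e2)]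
        exact_mod_cast this
      · obtain ⟨r, hr⟩ := Nat.exists_eq_add_of_le (not_lt.1 e1)
        obtain ⟨r', hr'⟩ : ∃ r', a 1 = a' 1 + r + r' := ⟨a 1 - a' 1 - r, by omega⟩
        rw [hr, hr']
        linarith only [hlt, Nat.mul_le_mul_right r hlt.le, mul_nonneg_of_nonpos_of_nonpos (Mathlib.Tactic.Linarith.sub_nonpos_of_le (Mathlib.Tactic.Linarith.natCast_nonneg ℤ q)) (Mathlib.Tactic.Linarith.sub_nonpos_of_le (Mathlib.Tactic.Linarith.natCast_nonneg ℤ r'))]
  · rintro ⟨a', h, h', e⟩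
    refine ⟨a', h, h', ?_⟩
    show p * a' 0 + q * a' 1 = D * p
    have e2 : (a' 1 : ℚ) = ρ * ((D : ℚ) - a' 0) := (div_eq_iff (d1 h').ne').1 e
    have : (p : ℚ) * a' 0 + q * a' 1 = D * p := by rw [hpq, e2]; ring
    exact_mod_cast this
  · rintro ⟨a', h, h', e⟩
    refine ⟨a', h, h', ?_⟩
    show p * a' 0 + q * a' 1 = p * a 0 + q * a 1
    have e2 : (a' 1 : ℚ) - a 1 = ρ * ((a 0 : ℚ) - a' 0) := (div_eq_iff (d1 h').ne').1 e
    have : (p : ℚ) * a' 0 + q * a' 1 = p * a 0 + q * a 1 := by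
      rw [hpq, sub_eq_iff_eq_add.1 e2]; ring
    exact_mod_cast this

/-- regularity for the new weights -/
theorem reg_weights [IsAlgClosed k] (hD : 2 ≤ D) (hg : Reg ![1, 1] D g G) {α : k} (hG : G 0 = C α * X 0 ^ D)
    {w : Fin 2 → ℕ} (hw : Pos w) (hlt : w 0 < w 1)
    (hs : ∀ a' ∈ (g 0).support, wdeg w a' ≤ D * w 0) :
    ∃ (G' : Fin 2 → A2 k) (β : k), β ≠ 0 ∧ Reg w D g G' ∧ G' 1 = C β * X 1 ^ D ∧
      (dh (G' 0)).natDegree = D ∧ (dh (G' 0)).coeff (D - 1) = 0 := by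
  have w0 := hw.pos 0
  have w1 := hw.pos 1
  have D0 : D ≠ 0 := by omega
  have hle : ∀ i, ∀ a ∈ (g i).support, a 0 + a 1 ≤ D := fun i a ha => by
    have := (wdeg_le_wt (w := ![1, 1]) ha).trans (hg.bnd.le i)
    rw [E2_wdeg_one] at this
    fin_cases i <;> simpa using this
  have hG1 : IsHom ![1, 1] D (G 1) := by simpa using hg.bnd.isHom 1
  have hα : α ≠ 0 := fun e => by
    obtain ⟨u, hu, hz⟩ := hG1.exists_zero pos_one.pos (by omega)
    refine hu (hg.nz u (funext fun i => ?_))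
    fin_cases i
    · simp [ev, hG, e]
    · exact hz
  have hb : Bnd w D g fun i => cmp w (D * w i) (g i) := ⟨fun i => wt_le_iff.2 fun a ha => by
    fin_cases i
    · exact hs a ha
    · have := hle 1 a ha
      show w 0 * a 0 + w 1 * a 1 ≤ D * w 1
      linarith only [hlt, this, Nat.mul_le_mul_right (a 0) hlt.le, Nat.mul_le_mul_left (w 1) this], fun _ => rfl⟩
  have cα : coeff (Finsupp.single 0 D) (cmp w (D * w 0) (g 0)) = α := by
    have e := congrArg (coeff (Finsupp.single 0 D)) ((hg.bnd.eq 0).symm.trans hG)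
    rw [coeff_cmp, if_pos (by simp [wdeg]), C_mul_X_pow_eq_monomial, coeff_monomial,
      if_pos rfl] at e
    rw [coeff_cmp, if_pos (by simp [wdeg, mul_comm]), e]
  have hβ : coeff (Finsupp.single 1 D) (g 1) ≠ 0 := fun e => by
    have e1 := hG1.coeff_dh (by simp) (a := Finsupp.single 1 D) (by simp [wdeg])
    rw [hg.bnd.eq 1, coeff_cmp, if_pos (by simp [wdeg]), e, ← hg.bnd.eq 1] at e1
    have e2 : eval ![0, 1] (G 1) = 0 := by
      rw [← eval_dh, ← Polynomial.coeff_zero_eq_eval_zero]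
      simpa using e1
    have := hg.nz ![0, 1] (funext fun i => by
      fin_cases i
      · simp [ev, hG, D0]
      · exact e2)
    simpa using congrFun this 1
  have e1 : cmp w (D * w 1) (g 1) = C (coeff (Finsupp.single 1 D) (g 1)) * X 1 ^ D := by
    ext a
    rw [C_mul_X_pow_eq_monomial, coeff_monomial, coeff_cmp]
    by_cases e : Finsupp.single 1 D = a
    · subst e
      rw [if_pos (by simp [wdeg, mul_comm]), if_pos rfl]
    · rw [if_neg e]
      split_ifs with h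
      · by_contra hne
        have h1 := hle 1 a (mem_support_iff.2 hne)
        have h2 : w 0 * a 0 + w 1 * a 1 = D * w 1 := h
        have h3 : a 0 = 0 := by
          by_contra h4
          have := Nat.mul_lt_mul_of_pos_right hlt (Nat.pos_of_ne_zero h4)
          linarith only [h2, this, h1, Nat.mul_le_mul_left (w 1) h1]
        rw [h3, mul_zero, zero_add, mul_comm] at h2
        exact e (E2_ext (by simp [h3]) (by simp [Nat.eq_of_mul_eq_mul_right w1 h2]))
      · rfl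
  have hsup : ∀ i, (dh (cmp w (D * w 0) (g 0))).coeff i ≠ 0 →
      ∃ j, w 0 * i + w 1 * j = D * w 0 := fun i hi => by
    obtain ⟨a, ha, rfl⟩ := exists_of_coeff_dh hi
    exact ⟨a 1, isHom_cmp _ _ _ a ha⟩
  refine ⟨_, _, hβ, ⟨hb, fun u hu => ?_⟩, e1, ?_, ?_⟩
  · have u1 : u 1 = 0 := by
      have : eval u (cmp w (D * w 1) (g 1)) = 0 := congrFun hu 1
      rw [e1] at this
      simpa [hβ, D0] using this
    have u0 : u 0 = 0 := by
      have : eval u (cmp w (D * w 0) (g 0)) = 0 := congrFun hu 0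
      rw [E2_eval_axis w0 (isHom_cmp _ _ _) u1, cα] at this
      simpa [hα, D0] using this
    funext i
    fin_cases i
    exacts [u0, u1]
  · refine Polynomial.natDegree_eq_of_le_of_coeff_ne_zero
      (Polynomial.natDegree_le_iff_coeff_eq_zero.2 fun i hi => ?_) ?_
    · by_contra h
      obtain ⟨j, hj⟩ := hsup i h
      linarith only [hj, hi, w0, Nat.mul_lt_mul_of_pos_left hi w0, Nat.zero_le (w 1 * j)]
    · have := (isHom_cmp w (D * w 0) (g 0)).coeff_dh w1 (a := Finsupp.single 0 D)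
        (by simp [wdeg, mul_comm])
      rw [cα, Finsupp.single_eq_same] at this
      exact this ▸ hα
  · by_contra h
    obtain ⟨j, hj⟩ := hsup _ h
    obtain ⟨E, rfl⟩ : ∃ E, D = E + 1 := ⟨D - 1, by omega⟩
    rw [Nat.add_sub_cancel] at hj
    rcases Nat.eq_zero_or_pos j with rfl | h1
    · linarith only [w0, hj]
    · linarith only [hlt, hj, h1, Nat.mul_le_mul_left (w 1) h1]

theorem exists_aeval_X0 {φ : A2 k} (h : ∀ a ∈ φ.support, a 1 = 0) :
    ∃ p : Polynomial k, φ = Polynomial.aeval (X 0 : A2 k) p := by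
  refine ⟨∑ a ∈ φ.support, Polynomial.monomial (a 0) (coeff a φ), ?_⟩
  rw [map_sum]
  conv_lhs => rw [φ.as_sum]
  refine Finset.sum_congr rfl fun a ha => ?_
  rw [E2_mono, h a ha, pow_zero, mul_one, Polynomial.aeval_monomial, algebraMap_eq]

/-- The Newton polygon lemma.  In the second case of `exists_weights`, if `a 0 > 0` then
`dh (top w P)` has degree `a 0`, hence a root; `kt` and `tri` show that all roots vanish and
that `dh (G' 0)` is a monomial, which contradicts both alternatives. -/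
theorem e2 [IsAlgClosed k] [CharZero k] (ι : k →+* ℂ) (hM : MAL k) (hD : 2 ≤ D)
    (hg : Reg ![1, 1] D g G) {α : k} (hG : G 0 = C α * X 0 ^ D) (hB : Bad g P)
    {a : Fin 2 →₀ ℕ} {c : k} (hc : c ≠ 0) (ht : top ![1, 1] P = monomial a c) :
    a 0 = 0 ∨ ((∃ p : Polynomial k, g 0 = Polynomial.aeval (X 0 : A2 k) p) ∧
      ∀ a' ∈ P.support, a' 1 ≤ a 1) := by
  have hs : ∀ a' ∈ (g 0).support, (a' 0 = D ∧ a' 1 = 0) ∨ a' 0 + a' 1 < D := fun a' ha => by
    have h1 := (wdeg_le_wt (w := ![1, 1]) ha).trans (hg.bnd.le 0)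
    rw [E2_wdeg_one] at h1
    have h2 : a' 0 + a' 1 ≤ D := by simpa using h1
    rcases h2.eq_or_lt with h3 | h3
    · left
      have e := congrArg (coeff a') ((hg.bnd.eq 0).symm.trans hG)
      rw [coeff_cmp, if_pos (by simp [wdeg, h3]), C_mul_X_pow_eq_monomial, coeff_monomial] at e
      split_ifs at e with h4
      · subst h4
        simp
      · exact absurd e (mem_support_iff.1 ha)
    · exact .inr h3
  have hc1 : ∀ a', coeff a' (monomial a c) =
      if wdeg ![1, 1] a' = wt ![1, 1] P then coeff a' P else 0 := fun a' => by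
    rw [← ht, top_eq_cmp, coeff_cmp]
  have ha : wdeg ![1, 1] a = wt ![1, 1] P ∧ coeff a P = c := by
    have := hc1 a
    rw [coeff_monomial, if_pos rfl] at this
    split_ifs at this with h
    · exact ⟨h, this.symm⟩
    · exact absurd this hc
  have ht' : ∀ a' ∈ P.support, a' = a ∨ a' 0 + a' 1 < a 0 + a 1 := fun a' ha' => by
    rcases (wdeg_le_wt (w := ![1, 1]) ha').eq_or_lt with h | h
    · left
      have := hc1 a'
      rw [if_pos h, coeff_monomial] at this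
      split_ifs at this with h'
      · exact h'.symm
      · exact absurd this.symm (mem_support_iff.1 ha')
    · right
      rwa [← ha.1, E2_wdeg_one, E2_wdeg_one] at h
  rcases exists_weights D _ _ a hs ht' with ⟨h1, h2⟩ | ⟨w, hw, hlt, h1, h2, h3⟩
  · exact .inr ⟨exists_aeval_X0 h1, h2⟩
  left
  by_contra a0
  obtain ⟨G', β, hβ, hr, e1, e2, e3⟩ := reg_weights hD hg hG hw hlt h1
  have aP : a ∈ P.support := mem_support_iff.2 (ha.2 ▸ hc)
  have hwt : wt w P = wdeg w a := le_antisymm (wt_le_iff.2 h2) (wdeg_le_wt aP)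
  have ctop : ∀ a', wdeg w a' = wdeg w a → coeff a' (top w P) = coeff a' P := fun a' h => by
    rw [top_eq_cmp, coeff_cmp, hwt, if_pos h]
  have root : ∀ z : k, eval ![z, 1] (top w P) = 0 → z = 0 ∧ ∀ i, i < D → (dh (G' 0)).coeff i = 0 :=
    fun z hz => tri hw.pos hD hr.bnd hβ e1 e2 e3 (kt ι hM hw hD hr hB
      (fun e => by simpa using congrFun e 1) hz)
  rcases h3 with ⟨a', h, h', e⟩ | ⟨a', h, h', e⟩
  · have c1 := (isHom_top w P).coeff_dh (hw.pos 1) hwt.symm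
    rw [ctop a rfl, ha.2] at c1
    have dg : (dh (top w P)).degree ≠ 0 := fun e => by
      have := Polynomial.le_natDegree_of_ne_zero (c1 ▸ hc)
      rw [Polynomial.natDegree_eq_zero_iff_degree_le_zero.2 e.le] at this
      omega
    obtain ⟨z, hz⟩ := IsAlgClosed.exists_root _ dg
    have c2 := (root z ((eval_dh _ _).symm.trans hz)).2 _ h'
    rw [(hr.bnd.isHom 0).coeff_dh (hw.pos 1) e, hr.bnd.eq 0, coeff_cmp, if_pos e] at c2
    exact mem_support_iff.1 h c2
  · obtain ⟨b, c', -, eb⟩ := (isHom_top w P).eq_monomial (hw.pos 1) (top_ne_zero hB.irr.ne_zero)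
      fun z hz => (root z hz).1
    have key : ∀ x ∈ P.support, wdeg w x = wdeg w a → b = x := fun x hx ex => by
      by_contra hne
      have := ctop x ex
      rw [eb, coeff_monomial, if_neg hne] at this
      exact mem_support_iff.1 hx this.symm
    rw [← key a aP rfl, ← key a' h e] at h'
    exact lt_irrefl _ h'

/-- `e2` after swapping the coordinates -/
theorem e2' [IsAlgClosed k] [CharZero k] (ι : k →+* ℂ) (hM : MAL k) (hD : 2 ≤ D)
    (hg : Reg ![1, 1] D g G) {β : k} (hG : G 1 = C β * X 1 ^ D) (hB : Bad g P)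
    {a : Fin 2 →₀ ℕ} {c : k} (hc : c ≠ 0) (ht : top ![1, 1] P = monomial a c) :
    a 1 = 0 ∨ ((∃ q : Polynomial k, g 1 = Polynomial.aeval (X 1 : A2 k) q) ∧
      ∀ a' ∈ P.support, a' 0 ≤ a 0) := by
  have s0 : aeval (swp k) (X 0 : A2 k) = X 1 := by simp [swp]
  have s1 : aeval (swp k) (X 1 : A2 k) = X 0 := by simp [swp]
  have c0 : ∀ F : Fin 2 → A2 k, comp (swp k) (comp F (swp k)) 0 = aeval (swp k) (F 1) :=
    fun F => by simp [comp, swp]
  let τ : (Fin 2 →₀ ℕ) → Fin 2 →₀ ℕ := fun b => Finsupp.single 0 (b 1) + Finsupp.single 1 (b 0)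
  have τ0 : ∀ b, τ b 0 = b 1 := fun b => by simp [τ]
  have τ1 : ∀ b, τ b 1 = b 0 := fun b => by simp [τ]
  have hm : aeval (swp k) (monomial a c : A2 k) = monomial (τ a) c := by
    rw [E2_mono, E2_mono, τ0, τ1, map_mul, map_mul, map_pow, map_pow, s0, s1, aeval_C,
      algebraMap_eq]
    ring
  have ht' : top ![1, 1] (aeval (swp k) P) = monomial (τ a) c := by
    obtain ⟨h1, h2⟩ := (reg_swp (k := k)).bnd.aeval_le (φ := P) (n := 1 * wt ![1, 1] P)
      (wt_sw 1 _ P).le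
    rw [cmp_sw le_rfl, ← top_eq_cmp, ht, hm] at h2
    rw [top_eq_cmp, le_antisymm h1 (le_wt_of_cmp_ne (by
      rw [h2]
      exact monomial_eq_zero.not.2 hc)), h2]
  have hG' : comp (swp k) (comp G (swp k)) 0 = C β * X 0 ^ D := by
    rw [c0, hG, map_mul, map_pow, s1, aeval_C, algebraMap_eq]
  rcases e2 ι hM hD (hg.conj (by omega) reg_swp reg_swp) hG' (hB.conj comp_swp comp_swp) hc ht'
    with h | ⟨⟨p, hp⟩, h⟩
  · exact .inl (τ0 a ▸ h)
  · refine .inr ⟨⟨p, ?_⟩, fun a' ha' => ?_⟩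
    · have e := congrArg (aeval (swp k)) hp
      rw [c0, ← aeval_comp, comp_swp, aeval_X_left_apply, ← Polynomial.aeval_algHom_apply,
        s0] at e
      exact e
    · have := h (τ a') (mem_support_iff.2 (by
        rw [coeff_swp P a' (τ a') (τ0 a') (τ1 a')]
        exact mem_support_iff.1 ha'))
      rwa [τ1, τ1] at this

end Pool.Agent.Work.MP_0a826e_ag.R
end

-- merged part: Pool.Agent.Work.MP_0a826e_ag.R.E4
section
namespace Pool.Agent.Work.MP_0a826e_ag.R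

open MvPolynomial

variable {k : Type} [Field k]

variable {p q : Polynomial k} {d : ℕ} {P : A2 k}

theorem E4_aeval_monomial (i : Fin 2) (d : ℕ) (α : k) :
    Polynomial.aeval (X i : A2 k) (Polynomial.monomial d α) = C α * X i ^ d := by
  rw [Polynomial.aeval_monomial]
  rfl

theorem E4_lm {α : k} (hα : α ≠ 0) (d : ℕ) :
    lm (Polynomial.monomial d α) = Polynomial.monomial d α := by
  unfold lm
  rw [Polynomial.natDegree_monomial_eq _ hα, Polynomial.leadingCoeff_monomial]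

/-- For a monomial map a counterexample has a corner monomial: `kt` and `tri` (weights `![1,1]`)
show that the top form is a monomial, then `e2`, `e2'`, `not_bad_vert`, `not_bad_hor`. -/
theorem corner_mono [IsAlgClosed k] [CharZero k] (ι : k →+* ℂ) (hM : MAL k) (hd : 2 ≤ d)
    {α β : k} (hα : α ≠ 0) (hβ : β ≠ 0)
    (hB : Bad (prodMap (Polynomial.monomial d α) (Polynomial.monomial d β)) P) :
    ∃ a ∈ P.support, ∀ a' ∈ P.support, a' 0 ≤ a 0 ∧ a' 1 ≤ a 1 := by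
  have hP0 : P ≠ 0 := hB.irr.ne_zero
  have hreg := reg_prodMap (p := Polynomial.monomial d α) (q := Polynomial.monomial d β)
    (D := d) (by omega) (by rw [Polynomial.natDegree_monomial_eq _ hα])
    (by rw [Polynomial.natDegree_monomial_eq _ hβ])
  rw [E4_lm hα, E4_lm hβ] at hreg
  have h0 : prodMap (Polynomial.monomial d α) (Polynomial.monomial d β) 0 = C α * X 0 ^ d :=
    E4_aeval_monomial 0 d α
  have h1 : prodMap (Polynomial.monomial d α) (Polynomial.monomial d β) 1 = C β * X 1 ^ d :=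
    E4_aeval_monomial 1 d β
  have hdh : dh (prodMap (Polynomial.monomial d α) (Polynomial.monomial d β) 0) =
      Polynomial.monomial d α := by
    rw [h0]
    unfold dh
    rw [map_mul, map_pow, aeval_C, aeval_X, ← Polynomial.C_mul_X_pow_eq_monomial]
    rfl
  obtain ⟨a, c, hc, htop⟩ := (isHom_top ![1, 1] P).eq_monomial (by simp) (top_ne_zero hP0) (by
    intro z hz
    have hne : (![z, 1] : Pt k) ≠ 0 := fun h => by simpa using congrFun h 1
    refine (tri pos_one.pos hd hreg.bnd hβ h1 ?_ ?_ (kt ι hM pos_one hd hreg hB hne hz)).1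
    · rw [hdh, Polynomial.natDegree_monomial_eq _ hα]
    · rw [hdh, Polynomial.coeff_monomial, if_neg (by omega)])
  have hwt : wdeg ![1, 1] a = wt ![1, 1] P := by
    apply isHom_top ![1, 1] P
    rw [htop, mem_support_iff, coeff_monomial, if_pos rfl]
    exact hc
  have haP : a ∈ P.support := by
    have h3 := coeff_cmp ![1, 1] (wt ![1, 1] P) P a
    rw [← top_eq_cmp, htop, coeff_monomial, if_pos rfl, if_pos hwt] at h3
    rw [mem_support_iff, ← h3]
    exact hc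
  refine ⟨a, haP, fun a' ha' => ?_⟩
  have hle : a' 0 + a' 1 ≤ a 0 + a 1 := by
    have h3 := wdeg_le_wt (w := ![1, 1]) ha'
    rw [← hwt] at h3
    simpa [wdeg] using h3
  rcases e2 ι hM hd hreg h0 hB hc htop with hx | ⟨-, hx⟩ <;>
    rcases e2' ι hM hd hreg h1 hB hc htop with hy | ⟨-, hy⟩
  · omega
  · have := hy a' ha'
    omega
  · have := hx a' ha'
    omega
  · exact ⟨hy a' ha', hx a' ha'⟩

/-- the action of the shear on exponents -/
noncomputable def shE (m : ℕ) (a : Fin 2 →₀ ℕ) : Fin 2 →₀ ℕ := a + Finsupp.single 1 (m * a 0)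

/-- the shear -/
noncomputable def shr (k : Type) [Field k] (m : ℕ) : Fin 2 → A2 k := ![X 0 * X 1 ^ m, X 1]

theorem shE_zero (m : ℕ) (a : Fin 2 →₀ ℕ) : shE m a 0 = a 0 := by simp [shE]

theorem shE_one (m : ℕ) (a : Fin 2 →₀ ℕ) : shE m a 1 = a 1 + m * a 0 := by simp [shE]

theorem shE_inj (m : ℕ) {a b : Fin 2 →₀ ℕ} (h : shE m a = shE m b) : a = b := by
  have h0 : a 0 = b 0 := by rw [← shE_zero m a, h, shE_zero]
  have h1 : a 1 + m * a 0 = b 1 + m * b 0 := by rw [← shE_one m a, h, shE_one]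
  rw [h0] at h1
  ext i
  fin_cases i
  · exact h0
  · exact Nat.add_right_cancel h1

theorem E4_monomial (a : Fin 2 →₀ ℕ) (c : k) :
    (monomial a c : A2 k) = C c * (X 0 ^ a 0 * X 1 ^ a 1) := by
  rw [monomial_eq, Finsupp.prod_fintype _ _ (by simp), Fin.prod_univ_two]

theorem shr_monomial (m : ℕ) (a : Fin 2 →₀ ℕ) (c : k) :
    aeval (shr k m) (monomial a c : A2 k) = monomial (shE m a) c := by
  rw [E4_monomial, E4_monomial, shE_zero, shE_one]
  simp only [map_mul, map_pow, aeval_C, aeval_X, shr, algebraMap_eq, Matrix.cons_val_zero,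
    Matrix.cons_val_one]
  ring

theorem coeff_shr (m : ℕ) (a : Fin 2 →₀ ℕ) (Q : A2 k) :
    coeff (shE m a) (aeval (shr k m) Q) = coeff a Q := by
  induction Q using MvPolynomial.induction_on' with
  | monomial b c =>
    rw [shr_monomial, coeff_monomial, coeff_monomial]
    by_cases h : b = a
    · simp [h]
    · rw [if_neg h, if_neg fun h' => h (shE_inj m h')]
  | add p q hp hq => rw [map_add, coeff_add, coeff_add, hp, hq]

theorem supp_shr (m : ℕ) {Q : A2 k} {b : Fin 2 →₀ ℕ} (hb : b ∈ (aeval (shr k m) Q).support) :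
    ∃ a ∈ Q.support, shE m a = b := by
  rw [mem_support_iff, Q.as_sum, map_sum, coeff_sum] at hb
  obtain ⟨a, ha, h⟩ := Finset.exists_ne_zero_of_sum_ne_zero hb
  refine ⟨a, ha, ?_⟩
  rw [shr_monomial, coeff_monomial] at h
  by_contra hn
  exact h (if_neg hn)

theorem shr_ne_zero (m : ℕ) (Q : A2 k) (h : Q ≠ 0) : aeval (shr k m) Q ≠ 0 := by
  obtain ⟨a, ha⟩ := ne_zero_iff.1 h
  exact ne_zero_iff.2 ⟨shE m a, by rwa [coeff_shr]⟩

theorem ev_shr (m : ℕ) (z : Pt k) : ev (shr k m) z = ![z 0 * z 1 ^ m, z 1] := by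
  funext i
  fin_cases i <;> simp [ev, shr]

theorem exists_shr (m : ℕ) (P : A2 k) :
    ∃ (P0 : A2 k) (n : ℕ), aeval (shr k m) P0 = P * X 1 ^ n := by
  refine ⟨∑ a ∈ P.support,
    monomial (a + Finsupp.single 1 (m * (P.totalDegree - a 0))) (coeff a P),
    m * P.totalDegree, ?_⟩
  rw [map_sum]
  conv_rhs => rw [P.as_sum, Finset.sum_mul]
  refine Finset.sum_congr rfl fun a ha => ?_
  have hle : a 0 ≤ P.totalDegree :=
    (monomial_le_degreeOf 0 ha).trans (degreeOf_le_totalDegree P 0)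
  rw [shr_monomial, X_pow_eq_monomial, monomial_mul, mul_one]
  congr 2
  ext i
  fin_cases i
  · simp [shE]
  · obtain ⟨e, he⟩ := Nat.exists_eq_add_of_le hle
    simp [shE, he]
    ring

/-- The shear `ψ = (x * y ^ m, y)`.  `P0 = ∑ coeff a P • x ^ a 0 * y ^ (a 1 + m * (i - a 0))`
satisfies `aeval ψ P0 = y ^ (m * i) * P`.  An irreducible factor `P'` of `P0` contains infinitely
many points of `ψ (S)`; then `P ∣ aeval ψ P' ∣ y ^ (m * i) * P`, so
`aeval ψ P' = C c * y ^ t * P`. -/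
theorem shear [IsAlgClosed k] {α β : k}
    (hB : Bad (prodMap (Polynomial.monomial d α) (Polynomial.monomial d β)) P)
    (hy : ¬ P ∣ X 1) (m : ℕ) :
    ∃ (P' : A2 k) (t : ℕ),
      Bad (prodMap (Polynomial.monomial d (α * β ^ m)) (Polynomial.monomial d β)) P' ∧
      (∀ a ∈ P.support, ∃ a' ∈ P'.support, a' 0 = a 0 ∧ a' 1 + m * a' 0 = a 1 + t) ∧
      ∀ a' ∈ P'.support, ∃ a ∈ P.support, a' 0 = a 0 ∧ a' 1 + m * a' 0 = a 1 + t := by
  have hP0 : P ≠ 0 := hB.irr.ne_zero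
  set S : Set (Pt k) := {z | eval z P = 0 ∧
    Pre (ev (prodMap (Polynomial.monomial d α) (Polynomial.monomial d β))) z} with hS
  have hinf : (ev (shr k m) '' S).Infinite := by
    have h1 : (S \ {z | eval z P = 0 ∧ eval z (X 1 : A2 k) = 0}).Infinite :=
      hB.inf.sdiff (finite_common hB.irr hy)
    refine (Set.Infinite.image ?_ h1).mono (Set.image_mono Set.sdiff_subset)
    intro z hz z' hz' h
    have hz1 : z 1 ≠ 0 := fun h0 => hz.2 ⟨hz.1.1, by simpa using h0⟩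
    rw [ev_shr, ev_shr] at h
    have e1 : z 1 = z' 1 := by simpa using congrFun h 1
    have e0 : z 0 * z 1 ^ m = z' 0 * z' 1 ^ m := by simpa using congrFun h 0
    rw [← e1] at e0
    funext i
    fin_cases i
    · exact mul_right_cancel₀ (pow_ne_zero m hz1) e0
    · exact e1
  obtain ⟨P0, n, hn⟩ := exists_shr m P
  have hP00 : P0 ≠ 0 := by
    rintro rfl
    rw [map_zero] at hn
    exact mul_ne_zero hP0 (pow_ne_zero n (X_ne_zero 1)) hn.symm
  obtain ⟨Q, hQ, hQd, hQi⟩ := exists_factor_infinite hP00 hinf (by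
    rintro _ ⟨z, hz, rfl⟩
    rw [← eval_aeval_ev, hn, map_mul, hz.1, zero_mul])
  have hdvd : P ∣ aeval (shr k m) Q := by
    refine dvd_of_infinite hB.irr fun hfin => hQi ((hfin.image (ev (shr k m))).subset ?_)
    rintro _ ⟨⟨z, hz, rfl⟩, h⟩
    exact ⟨z, ⟨hz.1, by rwa [eval_aeval_ev]⟩, rfl⟩
  have hbad : Bad (prodMap (Polynomial.monomial d (α * β ^ m)) (Polynomial.monomial d β)) Q := by
    refine hB.semi (shr_ne_zero m) (fun z => ?_) hQ hdvd hinf
    rw [ev_shr, ev_shr, ev_prodMap, ev_prodMap]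
    funext i
    fin_cases i
    · simp [Polynomial.eval_monomial]
      ring
    · simp [Polynomial.eval_monomial]
  obtain ⟨H, hH⟩ := hdvd
  have hHd : H ∣ (X 1 : A2 k) ^ n := by
    have h1 : aeval (shr k m) Q ∣ aeval (shr k m) P0 := map_dvd _ hQd
    rw [hH, hn] at h1
    exact (mul_dvd_mul_iff_left hP0).1 h1
  obtain ⟨t, -, u, hu⟩ := (dvd_prime_pow (X_prime (i := (1 : Fin 2)) (R := k)) n).1 hHd
  obtain ⟨c, hc, hcu⟩ := isUnit_iff_C.1 (u⁻¹).isUnit
  have hH' : H = monomial (Finsupp.single 1 t) c := by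
    rw [← mul_one c, ← C_mul_monomial, ← X_pow_eq_monomial, ← hcu, ← hu, mul_comm H,
      Units.inv_mul_cancel_left]
  rw [hH'] at hH
  refine ⟨Q, t, hbad, fun a ha => ?_, fun a' ha' => ?_⟩
  · have h1 : a + Finsupp.single 1 t ∈ (aeval (shr k m) Q).support := by
      rw [mem_support_iff, hH, coeff_mul_monomial]
      exact mul_ne_zero (mem_support_iff.1 ha) hc
    obtain ⟨a', ha', h2⟩ := supp_shr m h1
    refine ⟨a', ha', ?_, ?_⟩
    · rw [← shE_zero m a', h2]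
      simp
    · rw [← shE_one m a', h2]
      simp
  · have h1 := mem_support_iff.1 ha'
    rw [← coeff_shr m, hH, coeff_mul_monomial'] at h1
    split_ifs at h1 with hle
    · have h2 : t ≤ shE m a' 1 := by simpa using hle 1
      refine ⟨_, mem_support_iff.2 (left_ne_zero_of_mul h1), ?_, ?_⟩
      · simp [shE_zero]
      · rw [← shE_one]
        simp
        omega
    · exact absurd rfl h1

/-- No counterexample for a monomial map.  Take the corner `a` of `P`; `a 0, a 1 ≥ 1`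
(else a line).  `P` has a monomial `(0, j0)` since `X 0` does not divide `P`.  Shear with
`m = a 1 + 1`.  The corner `a''` of `P'` has `a'' 0 = a 0`, so `a'' 1 + m * a 0 ≤ a 1 + t` and
`a'' 1 < t`, but `(0, j0 + t)` is a monomial of `P'`. -/
theorem not_bad_mono [IsAlgClosed k] [CharZero k] (ι : k →+* ℂ) (hM : MAL k) (hd : 2 ≤ d)
    {α β : k} (hα : α ≠ 0) (hβ : β ≠ 0) :
    ¬ Bad (prodMap (Polynomial.monomial d α) (Polynomial.monomial d β)) P := by
  intro hB
  obtain ⟨a, ha, hc⟩ := corner_mono ι hM hd hα hβ hB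
  have ha1 : 1 ≤ a 1 := by
    by_contra h
    exact not_bad_vert (Polynomial.monomial d α) rfl
      (fun a' ha' => by have := hc a' ha'; omega) hB
  have ha0 : 1 ≤ a 0 := by
    by_contra h
    exact not_bad_hor (Polynomial.monomial d β) rfl
      (fun a' ha' => by have := hc a' ha'; omega) hB
  have hy : ¬ P ∣ X 1 := by
    intro h
    obtain ⟨c, hc0, h1⟩ := eq_C_mul_of_dvd hB.irr (X_prime (i := (1 : Fin 2)) (R := k)).irreducible h
    have h2 : coeff a (X 1 : A2 k) ≠ 0 := by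
      rw [h1, coeff_C_mul]
      exact mul_ne_zero hc0 (mem_support_iff.1 ha)
    rw [coeff_X] at h2
    have h3 : Finsupp.single 1 1 = a := by
      by_contra hn
      exact h2 (if_neg hn)
    rw [← h3] at ha0
    simp at ha0
  have hb : ∃ b ∈ P.support, b 0 = 0 := by
    by_contra hn
    have h : (X 0 : A2 k) ∣ P := by
      rw [P.as_sum]
      refine Finset.dvd_sum fun b hb => X_dvd_monomial.2 (Or.inr fun h0 => hn ⟨b, hb, h0⟩)
    obtain ⟨c, hc0, h1⟩ := eq_C_mul_of_dvd (X_prime (i := (0 : Fin 2)) (R := k)).irreducible hB.irr h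
    have h2 := mem_support_iff.1 ha
    rw [h1, coeff_C_mul, coeff_X] at h2
    have h3 : Finsupp.single 0 1 = a := by
      by_contra hn
      exact h2 (by rw [if_neg hn, mul_zero])
    rw [← h3] at ha1
    simp at ha1
  obtain ⟨b, hb, hb0⟩ := hb
  obtain ⟨P', t, hB', h1, h2⟩ := shear hB hy (a 1 + 1)
  obtain ⟨a'', ha'', hc''⟩ := corner_mono ι hM hd (mul_ne_zero hα (pow_ne_zero _ hβ)) hβ hB'
  obtain ⟨a', ha', e0, -⟩ := h1 a ha
  obtain ⟨b', hb', e1, e2⟩ := h1 b hb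
  obtain ⟨e, he, e3, e4⟩ := h2 a'' ha''
  have i1 := (hc'' a' ha').1
  have i2 := (hc'' b' hb').2
  have i3 := (hc e he).2
  have i4 : (a 1 + 1) * 1 ≤ (a 1 + 1) * a'' 0 := Nat.mul_le_mul_left _ (by omega)
  rw [e1, hb0] at e2
  omega

theorem bad_prod_swap [Infinite k] (hB : Bad (prodMap p q) P) :
    Bad (prodMap q p) (aeval (swp k) P) := by
  have h := hB.conj comp_swp comp_swp
  have e : comp (swp k) (comp (prodMap p q) (swp k)) = prodMap q p := by
    funext i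
    fin_cases i
    · simp [comp, swp, prodMap, ← Polynomial.aeval_algHom_apply]
    · simp [comp, swp, prodMap, ← Polynomial.aeval_algHom_apply]
  rwa [e] at h

theorem E4_exc [IsAlgClosed k] [CharZero k] (ι : k →+* ℂ) (hM : MAL k) (hd : 2 ≤ d)
    (hp : p.natDegree = d) (hq : q.natDegree = d) {a : Fin 2 →₀ ℕ} (ha : a ∈ P.support)
    (hc : ∀ a' ∈ P.support, a' 1 ≤ a 1) (ha0 : 1 ≤ a 0) (hB : Bad (prodMap p q) P) :
    ∃ ξ : k, p = Polynomial.C p.leadingCoeff * (Polynomial.X - Polynomial.C ξ) ^ d +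
      Polynomial.C ξ := by
  have hwt : a 1 = wt ![0, 1] P := by
    apply le_antisymm
    · simpa [wdeg] using wdeg_le_wt (w := ![0, 1]) ha
    · exact wt_le_iff.2 fun a' ha' => by simpa [wdeg] using hc a' ha'
  have h1 : (edge (wt ![0, 1] P) P).coeff (a 0) ≠ 0 := by
    rw [coeff_edge _ _ a hwt]
    exact mem_support_iff.1 ha
  have h2 : (edge (wt ![0, 1] P) P).degree ≠ 0 := by
    have h3 := Polynomial.le_natDegree_of_ne_zero h1
    exact (Polynomial.natDegree_pos_iff_degree_pos.1 (by omega)).ne'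
  obtain ⟨ξ, hξ⟩ := IsAlgClosed.exists_root _ h2
  refine ⟨ξ, ?_⟩
  have h4 := poly_exc p (by omega) ξ (ke ι hM hd hp hq hB hξ)
  rwa [hp] at h4

/-- With a corner monomial `a`, `a 0, a 1 ≥ 1`, the edge polynomials have roots; `ke` and
`poly_exc` make `p`, `q` monomial after a translation (`Bad.conj` with `trl`). -/
theorem not_bad_prod [IsAlgClosed k] [CharZero k] (ι : k →+* ℂ) (hM : MAL k) (hd : 2 ≤ d)
    (hp : p.natDegree = d) (hq : q.natDegree = d) {a : Fin 2 →₀ ℕ} (ha : a ∈ P.support)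
    (hc : ∀ a' ∈ P.support, a' 0 ≤ a 0 ∧ a' 1 ≤ a 1) : ¬ Bad (prodMap p q) P := by
  intro hB
  have ha1 : 1 ≤ a 1 := by
    by_contra h
    exact not_bad_vert p rfl (fun a' ha' => by have := hc a' ha'; omega) hB
  have ha0 : 1 ≤ a 0 := by
    by_contra h
    exact not_bad_hor q rfl (fun a' ha' => by have := hc a' ha'; omega) hB
  obtain ⟨ξ, hξ⟩ := E4_exc ι hM hd hp hq ha (fun a' ha' => (hc a' ha').2) ha0 hB
  obtain ⟨η, hη⟩ := E4_exc ι hM hd hq hp (P := aeval (swp k) P)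
    (a := Finsupp.single 0 (a 1) + Finsupp.single 1 (a 0))
    (by
      rw [mem_support_iff, coeff_swp P a _ (by simp) (by simp)]
      exact mem_support_iff.1 ha)
    (fun a' ha' => by
      rw [mem_support_iff, coeff_swp P (Finsupp.single 0 (a' 1) + Finsupp.single 1 (a' 0)) a'
        (by simp) (by simp)] at ha'
      simpa using (hc _ (mem_support_iff.2 ha')).1)
    (by simpa using ha1) (bad_prod_swap hB)
  have hp0 : p.leadingCoeff ≠ 0 := by
    rw [Polynomial.leadingCoeff_ne_zero]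
    rintro rfl
    simp at hp
    omega
  have hq0 : q.leadingCoeff ≠ 0 := by
    rw [Polynomial.leadingCoeff_ne_zero]
    rintro rfl
    simp at hq
    omega
  have h := hB.conj (comp_trl ![ξ, η]).2 (comp_trl ![ξ, η]).1
  have e : comp (trl (-![ξ, η])) (comp (prodMap p q) (trl ![ξ, η])) =
      prodMap (Polynomial.monomial d p.leadingCoeff) (Polynomial.monomial d q.leadingCoeff) := by
    generalize p.leadingCoeff = α at hξ
    generalize q.leadingCoeff = β at hη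
    subst hξ hη
    funext i
    fin_cases i
    · simp [comp, trl, prodMap]
    · simp [comp, trl, prodMap]
  rw [e] at h
  exact not_bad_mono ι hM hd hp0 hq0 h

end Pool.Agent.Work.MP_0a826e_ag.R
end

-- merged part: Pool.Agent.Work.MP_0a826e_ag.R.E1
section
namespace Pool.Agent.Work.MP_0a826e_ag.R

open MvPolynomial

variable {k : Type} [Field k]

variable {d M : ℕ} {f F : Fin 2 → A2 k} {Φ : A2 k}

theorem cls_one_iff {u v : Pt k} (hu : u ≠ 0) (hv : v ≠ 0) :
    Cls ![1, 1] u v ↔ u 1 * v 0 - u 0 * v 1 = 0 := by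
  constructor
  · rintro ⟨l, -, rfl⟩
    simp only [act, Matrix.cons_val_zero, Matrix.cons_val_one, pow_one]
    ring
  · intro h
    have key : ∀ l : k, v 0 = l * u 0 → v 1 = l * u 1 → Cls ![1, 1] u v := fun l a b => by
      refine ⟨l, ?_, funext fun i => ?_⟩
      · rintro rfl
        refine hv (funext fun i => ?_)
        fin_cases i
        · simpa using a
        · simpa using b
      · fin_cases i
        · simpa [act] using a
        · simpa [act] using b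
    by_cases a : u 0 = 0
    · have b : u 1 ≠ 0 := fun b => hu (funext fun i => by fin_cases i <;> simp [a, b])
      refine key (v 1 / u 1) ?_ (by field_simp)
      rw [a, zero_mul, sub_zero] at h
      rw [a, mul_zero]
      exact (mul_eq_zero.1 h).resolve_left b
    · refine key (v 0 / u 0) (by field_simp) ?_
      field_simp
      linear_combination -h

theorem E1_lu (u : Pt k) : lu ![1, 1] u = C (u 1) * X 0 - C (u 0) * X 1 := by
  simp [lu]

theorem E1_eval_lu (u v : Pt k) : eval v (lu ![1, 1] u) = u 1 * v 0 - u 0 * v 1 := by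
  simp [E1_lu]

/-- three pairwise independent linear forms have independent `d`-th powers: evaluate at
`b1 + t • b2` and look at the coefficient of `t`. -/
theorem three_forms [CharZero k] (hd : 2 ≤ d) {b1 b2 b3 : Pt k}
    (h12 : b1 1 * b2 0 - b1 0 * b2 1 ≠ 0) (h13 : b1 1 * b3 0 - b1 0 * b3 1 ≠ 0)
    (h23 : b2 1 * b3 0 - b2 0 * b3 1 ≠ 0) {c1 c2 c3 : k} (h3 : c3 ≠ 0) :
    C c1 * lu ![1, 1] b1 ^ d + C c2 * lu ![1, 1] b2 ^ d + C c3 * lu ![1, 1] b3 ^ d ≠ 0 := by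
  intro h
  obtain ⟨e, rfl⟩ := Nat.exists_eq_add_of_le' hd
  have a : ∀ b : Pt k, aeval (fun i => Polynomial.C (b1 i) + Polynomial.C (b2 i) * Polynomial.X)
      (lu ![1, 1] b) = Polynomial.C (b 1 * b1 0 - b 0 * b1 1) +
        Polynomial.C (b 1 * b2 0 - b 0 * b2 1) * Polynomial.X := fun b => by
    simp only [E1_lu, map_sub, map_mul, aeval_C, aeval_X, Polynomial.algebraMap_eq]
    ring
  have h' := congrArg (fun p => (Polynomial.derivative (aeval (fun i => Polynomial.C (b1 i) +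
    Polynomial.C (b2 i) * Polynomial.X) p)).eval 0) h
  simp only [map_add, map_mul, map_pow, aeval_C, a, Polynomial.algebraMap_eq, map_zero,
    Polynomial.derivative_C_mul, Polynomial.derivative_pow_succ, Polynomial.derivative_C,
    Polynomial.derivative_X, Polynomial.eval_add, Polynomial.eval_mul, Polynomial.eval_pow,
    Polynomial.eval_C, Polynomial.eval_X, Polynomial.eval_zero, mul_zero,
    add_zero, zero_add, mul_one] at h'
  have z1 : b1 1 * b1 0 - b1 0 * b1 1 = 0 := by ring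
  have z2 : b2 1 * b2 0 - b2 0 * b2 1 = 0 := by ring
  rw [z1, z2, zero_pow (by omega), mul_zero, mul_zero, zero_mul, mul_zero, mul_zero, zero_add,
    zero_add] at h'
  refine mul_ne_zero h3 (mul_ne_zero (mul_ne_zero ?_ (pow_ne_zero _ fun q => h13 ?_))
    fun q => h23 ?_) h'
  · exact_mod_cast Nat.succ_ne_zero (e + 1)
  · linear_combination -q
  · linear_combination -q

/-- classes of points -/
def E1_st (k : Type) [Field k] : Setoid (Pt k) :=
  ⟨Cls ![1, 1], Cls.refl _, Cls.symm, Cls.trans⟩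

theorem E1_pos : ∀ i : Fin 2, 0 < (![1, 1] : Fin 2 → ℕ) i := pos_one.pos

theorem E1_zero (hd : 2 ≤ d) (hf : Reg ![1, 1] d f F) (n : ℕ) : (ev F)^[n] 0 = 0 := by
  have z : ∀ u : Pt k, act ![1, 1] (0 : k) u = 0 := fun u => funext fun i => by
    simp [act, (E1_pos i).ne']
  have := hf.bnd.iterate_act 0 0 n
  rwa [z, zero_pow (pow_ne_zero _ (by omega)), z] at this

/-- a totally ramified class -/
theorem E1_ram [IsAlgClosed k] [CharZero k] (hd : 2 ≤ d) (hf : Reg ![1, 1] d f F) {b : Pt k}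
    (hb : b ≠ 0) (h : ∀ u, Cls ![1, 1] (ev F b) (ev F u) → Cls ![1, 1] b u) :
    ∃ c : k, c ≠ 0 ∧ aeval F (lu ![1, 1] (ev F b)) = C c * lu ![1, 1] b ^ d := by
  have nz : ∀ u : Pt k, u ≠ 0 → ev F u ≠ 0 := fun u hu e => hu (hf.nz u e)
  have := fl2 pos_one ((lu_isHom ![1, 1] (ev F b)).aeval_top hf.bnd (by omega))
    (hf.toTop.aeval_ne_zero E1_pos (by omega) (lu_ne_zero pos_one (nz b hb))) hb fun u hu e =>
      h u ((eval_lu_eq_zero pos_one (nz b hb) (nz u hu)).1 (by rwa [eval_aeval_ev] at e))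
  simpa using this

/-- three classes that are totally ramified with distinct images -/
theorem E1_three [IsAlgClosed k] [CharZero k] (hd : 2 ≤ d) (hf : Reg ![1, 1] d f F)
    {b1 b2 b3 : Pt k} (n1 : b1 ≠ 0) (n2 : b2 ≠ 0) (n3 : b3 ≠ 0)
    (h1 : ∀ u, Cls ![1, 1] (ev F b1) (ev F u) → Cls ![1, 1] b1 u)
    (h2 : ∀ u, Cls ![1, 1] (ev F b2) (ev F u) → Cls ![1, 1] b2 u)
    (h3 : ∀ u, Cls ![1, 1] (ev F b3) (ev F u) → Cls ![1, 1] b3 u) :
    Cls ![1, 1] b1 b2 ∨ Cls ![1, 1] b1 b3 ∨ Cls ![1, 1] b2 b3 := by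
  by_contra hc
  rw [not_or, not_or] at hc
  obtain ⟨c1, -, e1⟩ := E1_ram hd hf n1 h1
  obtain ⟨c2, -, e2⟩ := E1_ram hd hf n2 h2
  obtain ⟨c3, z3, e3⟩ := E1_ram hd hf n3 h3
  have nz : ∀ u : Pt k, u ≠ 0 → ev F u ≠ 0 := fun u hu e => hu (hf.nz u e)
  have a12 := mt (fun q => h1 b2 ((cls_one_iff (nz _ n1) (nz _ n2)).2 q)) hc.1
  generalize ev F b1 = a1 at *
  generalize ev F b2 = a2 at *
  generalize ev F b3 = a3 at *
  refine three_forms hd (mt (cls_one_iff n1 n2).2 hc.1) (mt (cls_one_iff n1 n3).2 hc.2.1)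
    (mt (cls_one_iff n2 n3).2 hc.2.2) (c1 := (a2 1 * a3 0 - a2 0 * a3 1) * c1)
    (c2 := (a3 1 * a1 0 - a3 0 * a1 1) * c2) (mul_ne_zero a12 z3) ?_
  have r : C (a2 1 * a3 0 - a2 0 * a3 1) * lu ![1, 1] a1 + C (a3 1 * a1 0 - a3 0 * a1 1) *
      lu ![1, 1] a2 + C (a1 1 * a2 0 - a1 0 * a2 1) * lu ![1, 1] a3 = (0 : A2 k) := by
    simp only [E1_lu, map_sub, map_mul]
    ring
  have := congrArg (aeval F) r
  simp only [map_add, map_mul (aeval F), aeval_C, algebraMap_eq, e1, e2, e3, map_zero] at this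
  rw [C_mul, C_mul, C_mul (a := a1 1 * a2 0 - a1 0 * a2 1), mul_assoc, mul_assoc, mul_assoc]
  exact this

/-- Let `B` be the set of classes (points of the quotient of nonzero vectors by `Cls`, or of
`Projectivization`) in the backward orbits of the zeros of `Φ`.  It is finite, `back_perm`
applies (`Reg.surjective`), `fl2` gives `aeval F (lu (F b)) = c * lu b ^ d` for `b ∈ B`, and the
linear relation between three linear forms together with `three_forms` shows that `B` has no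
three distinct elements.  So `F ∘ F` fixes every class in `B`. -/
theorem exc_one [IsAlgClosed k] [CharZero k] (hd : 2 ≤ d) (hf : Reg ![1, 1] d f F)
    (hfin : ∀ u, u ≠ 0 → eval u Φ = 0 →
      {z : k | ∃ n, Cls ![1, 1] u ((ev F)^[n] ![z, 1])}.Finite) (hΦ : IsHom ![1, 1] M Φ)
    (h0 : Φ ≠ 0) :
    (∀ b v, b ≠ 0 → v ≠ 0 → eval b Φ = 0 →
      (Cls ![1, 1] b ((ev F)^[2] v) ↔ Cls ![1, 1] b v)) ∧
    ∀ b1 b2 b3, b1 ≠ 0 → b2 ≠ 0 → b3 ≠ 0 → eval b1 Φ = 0 → eval b2 Φ = 0 → eval b3 Φ = 0 →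
      Cls ![1, 1] b1 b2 ∨ Cls ![1, 1] b1 b3 ∨ Cls ![1, 1] b2 b3 := by
  let π : Pt k → Quotient (E1_st k) := Quotient.mk _
  have eq : ∀ u v, π u = π v ↔ Cls ![1, 1] u v := fun u v => Quotient.eq
  let φ : Quotient (E1_st k) → Quotient (E1_st k) :=
    Quotient.map (ev F) fun _ _ h => Cls.map hf.bnd h
  have e1 : ∀ u, φ (π u) = π (ev F u) := fun u => rfl
  have en : ∀ n u, φ^[n] (π u) = π ((ev F)^[n] u) := fun n => by
    induction n with
    | zero => exact fun _ => rfl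
    | succ n ih => exact fun u => ih (ev F u)
  have hs : Function.Surjective φ := fun q => by
    obtain ⟨v, rfl⟩ := q.exists_rep
    obtain ⟨u, rfl⟩ := hf.toTop.surjective E1_pos (by omega) v
    exact ⟨π u, rfl⟩
  let B : Set (Quotient (E1_st k)) := {q | ∃ u, u ≠ 0 ∧ eval u Φ = 0 ∧ ∃ n, φ^[n] q = π u}
  have nzB : ∀ v, π v ∈ B → v ≠ 0 := by
    rintro v ⟨u, hu, -, n, e⟩ rfl
    rw [en, E1_zero hd hf] at e
    exact ((eq _ _).1 e.symm).ne_zero hu rfl
  have hB : B.Finite := by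
    obtain ⟨u, c, hc, hu, e⟩ := fl pos_one hΦ h0
    refine ((Set.finite_iUnion fun j => (hfin (u j) (hu j) ((fl_zero pos_one hc hu e (hu j)).2
      ⟨j, Cls.refl _ _⟩)).image fun z => π ![z, 1]).insert (π ![1, 0])).subset fun q hq => ?_
    obtain ⟨v, rfl⟩ := q.exists_rep
    rcases exists_cls E1_pos (nzB v hq) with ⟨z, h⟩ | h
    · obtain ⟨u', hu', e', n, e''⟩ := hq
      obtain ⟨j, hj⟩ := (fl_zero pos_one hc hu e hu').1 e'
      refine Or.inr (Set.mem_iUnion.2 ⟨j, z, ⟨n, ?_⟩, (eq _ _).2 h⟩)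
      exact hj.trans (((eq _ _).1 (e''.symm.trans (en n v))).trans (h.symm.iterate hf.bnd n))
    · exact Or.inl ((eq _ _).2 h.symm)
  obtain ⟨p1, p2⟩ := back_perm φ hs hB fun x ⟨u, hu, e, n, h⟩ => ⟨u, hu, e, n + 1, h⟩
  have three : ∀ b1 b2 b3, π b1 ∈ B → π b2 ∈ B → π b3 ∈ B →
      Cls ![1, 1] b1 b2 ∨ Cls ![1, 1] b1 b3 ∨ Cls ![1, 1] b2 b3 := fun b1 b2 b3 m1 m2 m3 => by
    have r : ∀ b, π b ∈ B → ∀ u, Cls ![1, 1] (ev F b) (ev F u) → Cls ![1, 1] b u :=
      fun b m u h => (eq _ _).1 (p2 _ m (π u) ((eq _ _).2 h.symm)).symm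
    exact E1_three hd hf (nzB _ m1) (nzB _ m2) (nzB _ m3) (r _ m1) (r _ m2) (r _ m3)
  have mem : ∀ b, b ≠ 0 → eval b Φ = 0 → π b ∈ B := fun b hb e => ⟨b, hb, e, 0, rfl⟩
  refine ⟨fun b v hb hv e => ?_, fun b1 b2 b3 n1 n2 n3 a1 a2 a3 =>
    three b1 b2 b3 (mem _ n1 a1) (mem _ n2 a2) (mem _ n3 a3)⟩
  have m0 := mem b hb e
  have m1 := p1 _ m0
  have fix : φ (φ (π b)) = π b := by
    rcases three b (ev F b) (ev F (ev F b)) m0 m1 (p1 _ m1) with h | h | h
    · have q : φ (π b) = π b := ((eq _ _).2 h).symm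
      rw [q, q]
    · exact ((eq _ _).2 h).symm
    · have q : φ (π b) = π b := p2 _ m0 _ ((eq _ _).2 h).symm
      rw [q, q]
  rw [← eq, ← eq, ← en]
  constructor
  · intro h
    exact (p2 _ m0 (π v) (p2 _ m1 (φ (π v)) (h.symm.trans fix.symm))).symm
  · intro h
    rw [← h]
    exact fix.symm

/-- a form whose zeros lie on a coordinate axis -/
theorem E1_pow [IsAlgClosed k] [CharZero k] {N : ℕ} {Ψ : A2 k} (h : IsHom ![1, 1] N Ψ) (i : Fin 2)
    (hz : ∀ v : Pt k, v ≠ 0 → eval v Ψ = 0 → v i = 0) : ∃ α : k, Ψ = C α * X i ^ N := by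
  by_cases h0 : Ψ = 0
  · exact ⟨0, by rw [h0, C_0, zero_mul]⟩
  fin_cases i
  · have n : (![0, 1] : Pt k) ≠ 0 := fun e => by simpa using congrFun e 1
    obtain ⟨c, -, e⟩ := fl2 pos_one h h0 n fun u hu e =>
      (cls_one_iff n hu).2 (by simpa using hz u hu e)
    exact ⟨c, by simpa [E1_lu] using e⟩
  · have n : (![1, 0] : Pt k) ≠ 0 := fun e => by simpa using congrFun e 0
    obtain ⟨c, -, e⟩ := fl2 pos_one h h0 n fun u hu e =>
      (cls_one_iff n hu).2 (by simpa using hz u hu e)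
    refine ⟨c * (-1) ^ N, ?_⟩
    have e' : Ψ = C c * (-X 1) ^ N := by simpa [E1_lu] using e
    rw [e', neg_pow, ← mul_assoc]
    simp

/-- Let `L'` have columns `b2`, `b1`, where `b1` is a zero of `Φ` and `b2` is a zero in another
class if there is one, any independent vector otherwise.  Use `IsHom.eq_monomial`. -/
theorem e1 [IsAlgClosed k] [CharZero k] (hd : 2 ≤ d) (hf : Reg ![1, 1] d f F)
    (hfin : ∀ u, u ≠ 0 → eval u Φ = 0 →
      {z : k | ∃ n, Cls ![1, 1] u ((ev F)^[n] ![z, 1])}.Finite) (hΦ : IsHom ![1, 1] M Φ)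
    (h0 : Φ ≠ 0) (hM : 1 ≤ M) :
    ∃ L L' : Matrix (Fin 2) (Fin 2) k, L * L' = 1 ∧ L' * L = 1 ∧
      (∃ α : k, comp (lin L) (comp (iter F 2) (lin L')) 0 = C α * X 0 ^ d ^ 2) ∧
      ∃ a c, c ≠ 0 ∧ aeval (lin L') Φ = monomial a c ∧
        (a 1 = 0 ∨ ∃ β : k, comp (lin L) (comp (iter F 2) (lin L')) 1 = C β * X 1 ^ d ^ 2) := by
  obtain ⟨x1, x2⟩ := exc_one hd hf hfin hΦ h0
  obtain ⟨b1, n1, z1⟩ := hΦ.exists_zero E1_pos hM
  obtain ⟨b2, hΔ, hb⟩ : ∃ b2 : Pt k, b1 1 * b2 0 - b1 0 * b2 1 ≠ 0 ∧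
      (eval b2 Φ = 0 ∨ ∀ u, u ≠ 0 → eval u Φ = 0 → Cls ![1, 1] b1 u) := by
    by_cases c : ∀ u, u ≠ 0 → eval u Φ = 0 → Cls ![1, 1] b1 u
    · by_cases a : b1 0 = 0
      · exact ⟨![1, 0], fun b => n1 (funext fun i => by
          fin_cases i
          exacts [a, by simpa using b]), Or.inr c⟩
      · exact ⟨![0, 1], by simpa using a, Or.inr c⟩
    · push Not at c
      obtain ⟨u, hu, e, h⟩ := c
      exact ⟨u, mt (cls_one_iff n1 hu).2 h, Or.inl e⟩
  have n2 : b2 ≠ 0 := fun e => hΔ (by simp [e])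
  obtain ⟨Δ, eΔ⟩ : ∃ Δ, Δ = b1 1 * b2 0 - b1 0 * b2 1 := ⟨_, rfl⟩
  have nΔ : Δ ≠ 0 := eΔ ▸ hΔ
  obtain ⟨L, eL⟩ : ∃ L : Matrix (Fin 2) (Fin 2) k,
      L = !![b1 1 / Δ, -b1 0 / Δ; -b2 1 / Δ, b2 0 / Δ] := ⟨_, rfl⟩
  obtain ⟨L', eL'⟩ : ∃ L' : Matrix (Fin 2) (Fin 2) k, L' = !![b2 0, b1 0; b2 1, b1 1] := ⟨_, rfl⟩
  have i1 : L * L' = 1 := by
    ext i j
    fin_cases i <;> fin_cases j <;> simp [eL, eL', Matrix.mul_apply] <;> field_simp <;>
      rw [eΔ] <;> ring
  have i2 : L' * L = 1 := mul_eq_one_comm.1 i1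
  have l0 : ∀ v : Pt k, L.mulVec v 0 = (b1 1 * v 0 - b1 0 * v 1) / Δ := fun v => by
    simp [eL, Matrix.mulVec, dotProduct]
    ring
  have l1 : ∀ v : Pt k, L.mulVec v 1 = -(b2 1 * v 0 - b2 0 * v 1) / Δ := fun v => by
    simp [eL, Matrix.mulVec, dotProduct]
    ring
  have back : ∀ v : Pt k, L.mulVec (L'.mulVec v) = v := fun v => by
    rw [Matrix.mulVec_mulVec, i1, Matrix.one_mulVec]
  have nz : ∀ v : Pt k, v ≠ 0 → L'.mulVec v ≠ 0 := fun v hv e =>
    hv (by rw [← back v, e, Matrix.mulVec_zero])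
  have c0 : ∀ v : Pt k, v ≠ 0 → (Cls ![1, 1] b1 v ↔ L.mulVec v 0 = 0) := fun v hv => by
    rw [cls_one_iff n1 hv, l0, div_eq_zero_iff, or_iff_left nΔ]
  have c1 : ∀ v : Pt k, v ≠ 0 → (Cls ![1, 1] b2 v ↔ L.mulVec v 1 = 0) := fun v hv => by
    rw [cls_one_iff n2 hv, l1, div_eq_zero_iff, or_iff_left nΔ, neg_eq_zero]
  have hG := (hf.toTop.of_iter (by omega) 2).conj (Nat.one_le_pow _ _ (by omega)) (reg_lin i2)
    (reg_lin i1)
  have eG : ∀ (v : Pt k) (i : Fin 2), eval v (comp (lin L) (comp (iter F 2) (lin L')) i) =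
      L.mulVec ((ev F)^[2] (L'.mulVec v)) i := fun v i => by
    show ev (comp (lin L) (comp (iter F 2) (lin L'))) v i = _
    rw [ev_comp, ev_comp, ev_iter, ev_lin, ev_lin]
  have hΨ : IsHom ![1, 1] M (aeval (lin L') Φ) := by
    simpa using hΦ.aeval_top (reg_lin i1).bnd le_rfl
  have nΨ : aeval (lin L') Φ ≠ 0 := (reg_lin i1).aeval_ne_zero E1_pos le_rfl h0
  have eΨ : ∀ v : Pt k, eval v (aeval (lin L') Φ) = eval (L'.mulVec v) Φ := fun v => by
    rw [eval_aeval_ev, ev_lin]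
  refine ⟨L, L', i1, i2, E1_pow (by simpa using hG.bnd.isHom 0) 0 fun v hv e => ?_, ?_⟩
  · rw [eG, ← c0 _ (hf.iterate_ne_zero (nz v hv) 2), x1 _ _ n1 (nz v hv) z1, c0 _ (nz v hv),
      back] at e
    exact e
  rcases hb with z2 | hb
  · obtain ⟨a, c, hc, e⟩ := hΨ.eq_monomial (by simp) nΨ fun z e => by
      have n : (![z, 1] : Pt k) ≠ 0 := fun e => by simpa using congrFun e 1
      rw [eΨ] at e
      rcases x2 b1 b2 _ n1 n2 (nz _ n) z1 z2 e with h | h | h
      · exact absurd ((cls_one_iff n1 n2).1 h) hΔ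
      · rw [c0 _ (nz _ n), back] at h
        exact h
      · rw [c1 _ (nz _ n), back] at h
        exact absurd h one_ne_zero
    refine ⟨a, c, hc, e, Or.inr (E1_pow (by simpa using hG.bnd.isHom 1) 1 fun v hv e => ?_)⟩
    rw [eG, ← c1 _ (hf.iterate_ne_zero (nz v hv) 2), x1 _ _ n2 (nz v hv) z2, c1 _ (nz v hv),
      back] at e
    exact e
  · obtain ⟨α, e⟩ := E1_pow hΨ 0 fun v hv e => by
      have := (c0 _ (nz v hv)).1 (hb _ (nz v hv) (by rwa [eΨ] at e))
      rwa [back] at this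
    refine ⟨Finsupp.single 0 M, α, fun q => nΨ ?_, ?_, Or.inl (by simp)⟩
    · rw [e, q, C_0, zero_mul]
    · rw [e, C_mul_X_pow_eq_monomial]

end Pool.Agent.Work.MP_0a826e_ag.R
end

-- merged part: Pool.Agent.Work.MP_0a826e_ag.R.E3
section
namespace Pool.Agent.Work.MP_0a826e_ag.R

open MvPolynomial

variable {k : Type} [Field k]

theorem E3_wt_aeval (r : Polynomial k) (i : Fin 2) :
    wt ![1, 1] (Polynomial.aeval (X i : A2 k) r) = r.natDegree := by
  have h1 : Hw ![1, 1] (Polynomial.aeval (X i : A2 k) r) =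
      (r.map (C : k →+* A2 k)).comp (Polynomial.C (X i : A2 k) * Polynomial.X) := by
    rw [← Polynomial.aeval_algHom_apply]
    have h2 : Hw ![1, 1] (X i : A2 k) = Polynomial.C (X i : A2 k) * Polynomial.X := by
      unfold Hw
      rw [aeval_X, ← Polynomial.C_mul_X_pow_eq_monomial]
      fin_cases i <;> simp
    rw [h2, Polynomial.comp, Polynomial.eval₂_map, Polynomial.aeval_def]
    rfl
  unfold wt
  rw [h1, Polynomial.natDegree_comp, Polynomial.natDegree_map_eq_of_injective (C_injective _ _),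
    Polynomial.natDegree_C_mul_X _ (X_ne_zero i), mul_one]

theorem not_bad [IsAlgClosed k] [CharZero k] (ι : k →+* ℂ) (hM : MAL k) {d : ℕ} (hd : 2 ≤ d)
    {f F : Fin 2 → A2 k} (hf : Reg ![1, 1] d f F) (P : A2 k) : ¬ Bad f P := by
  intro hB
  have hP0 : P ≠ 0 := hB.irr.ne_zero
  have hpos : ∀ {g : Fin 2 → A2 k} {Q : A2 k}, Bad g Q → 1 ≤ wt ![1, 1] Q := by
    intro g Q hQ
    by_contra hlt
    have h0 : wt ![1, 1] Q = 0 := by omega
    have h1 := eq_C_of_wt_eq_zero pos_one.pos h0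
    refine hQ.irr.not_isUnit (isUnit_iff_C.2 ⟨coeff 0 Q, fun h => hQ.irr.ne_zero ?_, h1⟩)
    rw [h1, h, map_zero]
  obtain ⟨L, L', h1, h2, ⟨α, hα⟩, a, c, hc, ha, hcase⟩ :=
    e1 hd hf (fun u hu hz => kt ι hM pos_one hd hf hB hu hz) (isHom_top _ P) (top_ne_zero hP0)
      (hpos hB)
  have hD : 2 ≤ d ^ 2 := by nlinarith only [hd]
  have hreg : Reg ![1, 1] (d ^ 2) (comp (lin L) (comp (iter f 2) (lin L')))
      (comp (lin L) (comp (iter F 2) (lin L'))) :=
    (hf.of_iter (by omega) 2).conj (by omega) (reg_lin h2) (reg_lin h1)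
  have hB' : Bad (comp (lin L) (comp (iter f 2) (lin L'))) (aeval (lin L') P) :=
    (hB.of_iter (n := 2) (by omega)).conj (by rw [comp_lin, h1, lin_one])
      (by rw [comp_lin, h2, lin_one])
  have htop : top ![1, 1] (aeval (lin L') P) = monomial a c := by
    rw [((reg_lin h1).top_aeval pos_one.pos le_rfl P).2, ha]
  generalize comp (lin L) (comp (iter f 2) (lin L')) = g at hreg hB'
  generalize comp (lin L) (comp (iter F 2) (lin L')) = G at hreg hα hcase
  generalize aeval (lin L') P = Q at hB' htop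
  have hwt : wdeg ![1, 1] a = wt ![1, 1] Q := by
    apply isHom_top ![1, 1] Q
    rw [htop, mem_support_iff, coeff_monomial, if_pos rfl]
    exact hc
  have haQ : a ∈ Q.support := by
    have h3 := coeff_cmp ![1, 1] (wt ![1, 1] Q) Q a
    rw [← top_eq_cmp, htop, coeff_monomial, if_pos rfl, if_pos hwt] at h3
    rw [mem_support_iff, ← h3]
    exact hc
  have hsum : 1 ≤ a 0 + a 1 := by
    have h3 := hpos hB'
    rw [← hwt] at h3
    simpa [wdeg] using h3
  have hx := e2 ι hM hD hreg hα hB' hc htop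
  rcases hcase with hj | ⟨β, hβ⟩
  · rcases hx with h0 | ⟨⟨p, hp⟩, hle⟩
    · omega
    · exact not_bad_vert p hp (fun a' ha' => by have := hle a' ha'; omega) hB'
  · have hy := e2' ι hM hD hreg hβ hB' hc htop
    rcases hx with h0 | ⟨⟨p, hp⟩, hle⟩
    · rcases hy with h0' | ⟨⟨q, hq⟩, hle'⟩
      · omega
      · exact not_bad_hor q hq (fun a' ha' => by have := hle' a' ha'; omega) hB'
    · rcases hy with h0' | ⟨⟨q, hq⟩, hle'⟩
      · exact not_bad_vert p hp (fun a' ha' => by have := hle a' ha'; omega) hB'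
      · have hg : g = prodMap p q := by
          funext i
          fin_cases i
          · exact hp
          · exact hq
        have hdeg : ∀ (r : Polynomial k) (i : Fin 2), g i = Polynomial.aeval (X i : A2 k) r →
            r.natDegree = d ^ 2 := by
          intro r i hr
          rw [← E3_wt_aeval r i, ← hr]
          have h3 := hreg.bnd.le i
          have h4 := hreg.bnd.eq i
          have h5 : (![1, 1] : Fin 2 → ℕ) i = 1 := by fin_cases i <;> rfl
          rw [h5, mul_one] at h3 h4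
          refine le_antisymm h3 (le_wt_of_cmp_ne ?_)
          rw [← h4]
          intro h6
          have hd0 : d ^ 2 ≠ 0 := by omega
          have h7 := hreg.nz (Pi.single i 1) (by
            funext j
            by_cases hj : j = i
            · subst hj
              simp [ev, h6]
            · fin_cases i <;> fin_cases j <;> simp_all [ev])
          simpa using congrFun h7 i
        exact not_bad_prod ι hM hD (hdeg p 0 hp) (hdeg q 1 hq) haQ
          (fun a' ha' => ⟨hle' a' ha', hle a' ha'⟩) (hg ▸ hB')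

end Pool.Agent.Work.MP_0a826e_ag.R
end

-- merged part: Pool.Agent.Work.MP_0a826e_ag.R.Tr
section
namespace Pool.Agent.Work.MP_0a826e_ag.R

open MvPolynomial

variable {k : Type} [Field k]

section Desc

variable {E : Type} [Field E] (ι : k →+* E) {w : Fin 2 → ℕ} {d : ℕ}

theorem Tr_cmp (w : Fin 2 → ℕ) (n : ℕ) (φ : A2 k) : map ι (cmp w n φ) = cmp w n (map ι φ) := by
  ext a
  rw [coeff_map, coeff_cmp, coeff_cmp, coeff_map]
  split_ifs
  · rfl
  · exact map_zero _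

theorem Tr_wt (w : Fin 2 → ℕ) (φ : A2 k) : wt w (map ι φ) = wt w φ := by
  refine eq_of_forall_ge_iff fun n => ?_
  rw [wt_le_iff, wt_le_iff, support_map_of_injective _ ι.injective]

theorem Tr_ev (g : Fin 2 → A2 k) (u : Pt k) :
    ev (fun i => map ι (g i)) (ι ∘ u) = ι ∘ ev g u :=
  funext fun i => (map_eval ι u (g i)).symm

theorem Tr_iterate (g : Fin 2 → A2 k) (u : Pt k) (n : ℕ) :
    (ev fun i => map ι (g i))^[n] (ι ∘ u) = ι ∘ (ev g)^[n] u := by
  induction n with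
  | zero => rfl
  | succ n ih => rw [Function.iterate_succ_apply', Function.iterate_succ_apply', ih, Tr_ev]

theorem Tr_aeval (g : Fin 2 → A2 k) (φ : A2 k) :
    map ι (aeval g φ) = aeval (fun i => map ι (g i)) (map ι φ) :=
  map_bind₁ ι g φ

theorem Tr_iter (g : Fin 2 → A2 k) (n : ℕ) :
    (fun i => map ι (iter g n i)) = iter (fun i => map ι (g i)) n := by
  induction n with
  | zero => exact funext fun i => map_X ι i
  | succ n ih =>
    funext i
    show map ι (aeval (iter g n) (g i)) = aeval (iter (fun i => map ι (g i)) n) (map ι (g i))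
    rw [Tr_aeval, ih]

theorem Tr_inj : Function.Injective fun u : Pt k => (ι ∘ u : Pt E) :=
  fun _ _ h => funext fun i => ι.injective (congrFun h i)

theorem Tr_reg {g : Fin 2 → A2 k} {F : Fin 2 → A2 E} (h : Reg w d (fun i => map ι (g i)) F) :
    Reg w d g fun i => cmp w (d * w i) (g i) := by
  refine ⟨⟨fun i => ?_, fun i => rfl⟩, fun u hu => ?_⟩
  · rw [← Tr_wt ι]; exact h.bnd.le i
  · have e : F = fun i => map ι (cmp w (d * w i) (g i)) :=
      funext fun i => by rw [Tr_cmp]; exact h.bnd.eq i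
    have h0 : (ι ∘ (0 : Pt k) : Pt E) = 0 := funext fun _ => map_zero ι
    have h1 := h.nz (ι ∘ u) (by rw [e, Tr_ev, hu, h0])
    exact Tr_inj ι (h1.trans h0.symm)

theorem Tr_unit {φ : A2 k} (h : IsUnit (map ι φ)) : IsUnit φ := by
  obtain ⟨c, hc, e⟩ := isUnit_iff_C.1 h
  have h1 : wt ![1, 1] φ = 0 := by rw [← Tr_wt ι, e, wt_C]
  have h2 := eq_C_of_wt_eq_zero pos_one.pos h1
  refine isUnit_iff_C.2 ⟨_, fun h0 => ?_, h2⟩
  rw [h2, h0, C_0, map_zero] at h
  exact not_isUnit_zero h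

theorem Tr_irr {φ : A2 k} (h : Irreducible (map ι φ)) : Irreducible φ := by
  refine ⟨fun hu => h.not_isUnit (hu.map _), fun a b hab => ?_⟩
  exact (h.isUnit_or_isUnit (by rw [hab, map_mul])).imp (Tr_unit ι) (Tr_unit ι)

theorem Tr_pre {g : Fin 2 → A2 k} {u : Pt k} (h : Pre (ev fun i => map ι (g i)) (ι ∘ u)) :
    Pre (ev g) u := by
  refine Set.Finite.of_finite_image (f := fun u : Pt k => (ι ∘ u : Pt E)) (Set.Finite.subset h ?_)
    (Tr_inj ι).injOn
  rintro _ ⟨_, ⟨n, rfl⟩, rfl⟩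
  exact ⟨n, Tr_iterate ι g u n⟩

theorem Tr_reg_sub {g G : Fin 2 → A2 k} (hw : ∀ i, 0 < w i) (hd : 2 ≤ d) (h : Reg w d g G)
    {m n : ℕ} (hmn : m < n) : Reg w (d ^ n) (fun i => iter g n i - iter g m i) (iter G n) := by
  have hn := h.of_iter (by omega) n
  have hm := h.of_iter (by omega) m
  have hlt : ∀ i, wt w (iter g m i) < d ^ n * w i := fun i =>
    (hm.bnd.le i).trans_lt (Nat.mul_lt_mul_of_pos_right (Nat.pow_lt_pow_right (by omega) hmn) (hw i))
  refine ⟨⟨fun i => wt_sub_le (hn.bnd.le i) (hlt i).le, fun i => ?_⟩, hn.nz⟩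
  rw [cmp_sub, cmp_eq_zero (hlt i), sub_zero]
  exact hn.bnd.eq i

theorem Tr_rat [IsAlgClosed k] {g G : Fin 2 → A2 k} (hw : ∀ i, 0 < w i) (hd : 2 ≤ d)
    (h : Reg w d g G) {z : Pt E} (hz : Pre (ev fun i => map ι (g i)) z) :
    ∃ u : Pt k, ι ∘ u = z := by
  let _ : Algebra k E := ι.toAlgebra
  obtain ⟨m, n, hmn, e⟩ := Set.Finite.exists_lt_map_eq_of_forall_mem
    (f := fun n : ℕ => (ev fun i => map ι (g i))^[n] z) (fun n => Set.mem_range_self n) hz
  obtain ⟨q, b, -, -, -, -, hs⟩ := (Tr_reg_sub hw hd h hmn).exists_fr_sp hw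
    (Nat.one_le_pow _ _ (by omega))
  have key : ∀ (l : ℕ) (i : Fin 2),
      aeval z (iter g l i) = (ev fun i => map ι (g i))^[l] z i := fun l i => by
    rw [← ev_iter, ← Tr_iter]
    exact (eval_map ι z _).symm
  have halg : ∀ i, IsAlgebraic k (z i) := hs.isAlgebraic z fun i => by
    rw [map_sub, key, key, sub_eq_zero]
    exact (congrFun e i).symm
  have hr : ∀ i, ∃ x : k, ι x = z i := fun i =>
    minpoly.mem_range_of_degree_eq_one k (z i)
      (IsAlgClosed.degree_eq_one_of_irreducible k (minpoly.irreducible (halg i).isIntegral))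
  choose u hu using hr
  exact ⟨u, funext hu⟩

theorem Tr_concl [IsAlgClosed k] {g : Fin 2 → A2 k} {φ : A2 k} (hφ : Irreducible φ)
    (h : Concl g φ) : Concl (fun i => map ι (g i)) (map ι φ) := by
  obtain ⟨Q, hQ, h⟩ := h
  refine ⟨map ι Q, fun h0 => hQ (map_injective ι ι.injective (h0.trans (map_zero _).symm)),
    fun K => ?_⟩
  obtain ⟨n, hn, h⟩ := h K
  refine ⟨n, hn, fun z hz => ?_⟩
  obtain ⟨R, hR⟩ : φ ∣ aeval (iter g n) Q := dvd_of_vanish hφ fun y hy => by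
    rw [eval_aeval_ev, ev_iter]; exact h y hy
  rw [← ev_iter, ← eval_aeval_ev, ← Tr_iter, ← Tr_aeval, hR, map_mul, map_mul, hz, zero_mul]

end Desc

/-- Descend `f`, `P` to a subfield `k` from `exists_subfield` containing all coefficients.
`Hw` commutes with `map`, so `Reg` descends.  Preperiodic points have coordinates in `k` by
`Sp.isAlgebraic` for `g = iter f n - iter f m` (regular with top part `iter F n`).  The conclusion
over `k` gives `P ∣ aeval (iter f n) Q` by `dvd_of_vanish`, which maps to `ℂ`. -/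
theorem concl_C {d : ℕ} (hd : 2 ≤ d) {f F : Fin 2 → A2 ℂ} (hf : Reg ![1, 1] d f F) {P : A2 ℂ}
    (hP : Irreducible P) (hinf : {z | eval z P = 0 ∧ Pre (ev f) z}.Infinite) : Concl f P := by
  classical
  obtain ⟨K, hT, hK, hM⟩ := exists_subfield ((f 0).coeffs ∪ (f 1).coeffs ∪ P.coeffs)
  have lift : ∀ φ : A2 ℂ, φ.coeffs ⊆ (f 0).coeffs ∪ (f 1).coeffs ∪ P.coeffs →
      ∃ ψ : A2 K, map K.subtype ψ = φ := fun φ h =>
    mem_range_map_iff_coeffs_subset.2 fun c hc => ⟨⟨c, hT c (h hc)⟩, rfl⟩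
  have hl : ∀ i, ∃ ψ : A2 K, map K.subtype ψ = f i := by
    refine Fin.forall_fin_two.2 ⟨lift _ ?_, lift _ ?_⟩
    · exact Finset.subset_union_left.trans Finset.subset_union_left
    · exact Finset.subset_union_right.trans Finset.subset_union_left
  choose g hg using hl
  obtain ⟨φ, rfl⟩ := lift P Finset.subset_union_right
  obtain rfl : f = fun i => map K.subtype (g i) := funext fun i => (hg i).symm
  have hr := Tr_reg K.subtype hf
  have hi := Tr_irr K.subtype hP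
  refine Tr_concl K.subtype hi ?_
  by_contra hc
  refine not_bad K.subtype hM hd hr φ ⟨hi, fun hfin => hinf ?_, hc⟩
  refine (hfin.image fun u : Pt K => (K.subtype ∘ u : Pt ℂ)).subset fun z hz => ?_
  obtain ⟨u, rfl⟩ := Tr_rat K.subtype pos_one.pos hd hr hz.2
  refine ⟨u, ⟨K.subtype.injective ?_, Tr_pre K.subtype hz.2⟩, rfl⟩
  rw [map_eval, map_zero]
  exact hz.1

/-- `Reg.exists_img`, `dvd_of_vanish`, `exists_assoc_of_dvd` -/
theorem affine_C {d : ℕ} (hd : 2 ≤ d) {f F : Fin 2 → A2 ℂ} (hf : Reg ![1, 1] d f F) {P : A2 ℂ}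
    (hP : Irreducible P) (hinf : {z | eval z P = 0 ∧ Pre (ev f) z}.Infinite) :
    ∃ (m n : ℕ) (Q : A2 ℂ), m < n ∧ Img (iter f m) P Q ∧ Img (iter f n) P Q := by
  obtain ⟨R, hR, h⟩ := concl_C hd hf hP hinf
  have hq : ∀ n, ∃ Q, Img (iter f n) P Q := fun n =>
    (hf.of_iter (by omega) n).exists_img pos_one.pos (Nat.one_le_pow _ _ (by omega)) hP
  choose Q hQ using hq
  obtain ⟨m, n, hmn, c, hc, e⟩ := exists_assoc_of_dvd hR Q (fun n => (hQ n).1) fun K => by
    obtain ⟨n, hn, h⟩ := h K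
    refine ⟨n, hn, dvd_of_vanish (hQ n).1 fun z hz => ?_⟩
    obtain ⟨y, hy, rfl⟩ := ((hQ n).2 z).1 hz
    rw [ev_iter]
    exact h y hy
  refine ⟨m, n, Q m, hmn, hQ m, (hQ m).1, fun z => ?_⟩
  rw [← (hQ n).2 z, e, map_mul, eval_C, mul_eq_zero, or_iff_right hc]

end Pool.Agent.Work.MP_0a826e_ag.R
end

-- merged part: Pool.Agent.Work.MP_0a826e_ag.R.Pj3
section
namespace Pool.Agent.Work.MP_0a826e_ag.R

open MvPolynomial
open scoped LinearAlgebra.Projectivization

theorem Pj3_aff {f : Fin 2 → A2 ℂ} {φ : P2 → P2} (h1 : ∀ z, φ (aff z) = aff (ev f z)) (n : ℕ)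
    (z : Pt ℂ) : φ^[n] (aff z) = aff ((ev f)^[n] z) :=
  (Function.Semiconj.iterate_right (f := aff) (fun z => (h1 z).symm) n z).symm

theorem Pj3_inf {d : ℕ} {f G : Fin 2 → A2 ℂ} (hf : Reg ![1, 1] d f G) {φ : P2 → P2}
    (h2 : ∀ u (hu : u ≠ 0) (hu' : ev G u ≠ 0), φ (inf u hu) = inf (ev G u) hu') (n : ℕ)
    (u : Pt ℂ) (hu : u ≠ 0) :
    φ^[n] (inf u hu) = inf ((ev G)^[n] u) (hf.iterate_ne_zero hu n) := by
  induction n generalizing u with
  | zero => rfl
  | succ n ih =>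
    rw [Function.iterate_succ_apply, h2 u hu (hf.iterate_ne_zero hu 1)]
    exact ih _ _

/-- `top_img_zero` for the points at infinity -/
theorem image_Cv {d : ℕ} (hd : 2 ≤ d) {f G : Fin 2 → A2 ℂ} (hf : Reg ![1, 1] d f G)
    {φ : P2 → P2} (h1 : ∀ z, φ (aff z) = aff (ev f z))
    (h2 : ∀ u (hu : u ≠ 0) (hu' : ev G u ≠ 0), φ (inf u hu) = inf (ev G u) hu')
    {P Q : A2 ℂ} (hP : Irreducible P) {n : ℕ} (hQ : Img (iter f n) P Q) :
    φ^[n] '' Cv P = Cv Q := by
  have hd1 : 1 ≤ d := by omega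
  have ht := fun v (hv : v ≠ 0) =>
    top_img_zero pos_one (Nat.one_le_pow n d hd1) (hf.of_iter hd1 n) hP hQ hv
  have ha := hQ.2
  rw [ev_iter] at ht ha
  ext p
  constructor
  · rintro ⟨_, ⟨z, hz, rfl⟩ | ⟨u, hu, hz, rfl⟩, rfl⟩
    · exact Or.inl ⟨_, (ha _).2 ⟨z, hz, rfl⟩, Pj3_aff h1 n z⟩
    · exact Or.inr ⟨_, hf.iterate_ne_zero hu n,
        (ht _ (hf.iterate_ne_zero hu n)).2 ⟨u, hu, hz, Cls.refl _ _⟩, Pj3_inf hf h2 n u hu⟩
  · rintro (⟨z, hz, rfl⟩ | ⟨v, hv, hz, rfl⟩)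
    · obtain ⟨y, hy, rfl⟩ := (ha z).1 hz
      exact ⟨_, Or.inl ⟨y, hy, rfl⟩, Pj3_aff h1 n y⟩
    · obtain ⟨u, hu, hz', hc⟩ := (ht v hv).1 hz
      exact ⟨_, Or.inr ⟨u, hu, hz', rfl⟩, (Pj3_inf hf h2 n u hu).trans ((inf_eq_iff _ _).2 hc)⟩

theorem Pj3_fix {X : Type} {φ : X → X} {Y : Set X} (h : φ '' Y = Y) : PreSet φ Y :=
  ⟨0, 1, le_rfl, h.trans (Set.image_id Y).symm⟩

theorem Pj3_Linf {d : ℕ} (hd : 1 ≤ d) {f G : Fin 2 → A2 ℂ} (hf : Reg ![1, 1] d f G) {φ : P2 → P2}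
    (h2 : ∀ u (hu : u ≠ 0) (hu' : ev G u ≠ 0), φ (inf u hu) = inf (ev G u) hu') :
    φ '' Linf = Linf := by
  ext p
  constructor
  · rintro ⟨_, ⟨u, hu, rfl⟩, rfl⟩
    exact ⟨_, hf.iterate_ne_zero hu 1, h2 u hu _⟩
  · rintro ⟨v, hv, rfl⟩
    obtain ⟨u, rfl⟩ := hf.toTop.surjective pos_one.pos hd v
    have hu : u ≠ 0 := by
      rintro rfl
      have h := hf.bnd.ev_act 0 0
      refine hv (funext fun i => ?_)
      have e : ∀ (l : ℂ) (u : Pt ℂ), l = 0 → act ![1, 1] l u = 0 := fun l u hl => by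
        funext j
        fin_cases j <;> simp [act, hl]
      rw [e 0 0 rfl, e _ _ (zero_pow (by omega))] at h
      rw [h]
    exact ⟨_, ⟨u, hu, rfl⟩, h2 u hu hv⟩

theorem proj_coord {d : ℕ} (hd : 2 ≤ d) {F : Fin 3 → A3} (hF : ∀ v, v ≠ 0 → evalMap F v ≠ 0)
    (hom : ∀ i, (F i).IsHomogeneous d) (h0 : ∀ v, evalMap F v 0 = 0 ↔ v 0 = 0) {Y S : Set P2}
    (hY : ∀ p : P2, (∀ g ∈ idealOf Y, eval p.rep g = 0) → p ∈ Y) (hSY : S ⊆ Y)
    (hdense : idealOf S = idealOf Y) (hpre : ∀ x ∈ S, Pre (projMap F hF) x) :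
    PreSet (projMap F hF) Y := by
  have hd1 : 1 ≤ d := by omega
  obtain ⟨f, G, hf, h1, h2⟩ := exists_affine hd hF hom h0
  have hL := Pj3_Linf hd1 hf h2
  by_cases hne : Y = Set.univ
  · refine Pj3_fix ?_
    rw [hne]
    refine Set.eq_univ_of_forall fun p => ?_
    rcases aff_or_inf p with ⟨z, rfl⟩ | hp
    · obtain ⟨y, rfl⟩ := hf.surjective pos_one.pos hd1 z
      exact ⟨_, Set.mem_univ _, h1 y⟩
    · exact Set.image_mono (Set.subset_univ _) (hL.ge hp)
  obtain ⟨I, E, L, hI, hI', hE, hES, hL', rfl⟩ := closed_structure hY hSY hdense hne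
  refine ((preSet_biUnion hI _ fun P hP => ?_).union
    (preSet_finite hE fun x hx => hpre x (hES hx))).union ?_
  · have hp : ∀ z, aff z ∈ S → Pre (ev f) z := fun z hz => by
      refine Set.Finite.of_finite_image (f := aff) ((hpre _ hz).subset ?_) aff_injective.injOn
      rintro _ ⟨_, ⟨n, rfl⟩, rfl⟩
      exact ⟨n, Pj3_aff h1 n z⟩
    obtain ⟨m, n, Q, hmn, hm, hn⟩ := affine_C hd hf (hI' P hP).1
      ((hI' P hP).2.mono fun z hz => ⟨hz.1, hp z hz.2⟩)
    refine ⟨m, n - m, by omega, ?_⟩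
    rw [Nat.add_sub_cancel' hmn.le, image_Cv hd hf h1 h2 (hI' P hP).1 hm,
      image_Cv hd hf h1 h2 (hI' P hP).1 hn]
  · rcases hL' with rfl | rfl
    exacts [preSet_empty _, Pj3_fix hL]

end Pool.Agent.Work.MP_0a826e_ag.R
end

-- merged part: Pool.Agent.Work.MP_0a826e_ag.R.Pj4
section
namespace Pool.Agent.Work.MP_0a826e_ag.R

open MvPolynomial
open scoped LinearAlgebra.Projectivization

theorem exists_matrix (l : (Fin 3 → ℂ) →ₗ[ℂ] ℂ) (hl : l ≠ 0) :
    ∃ M M' : Matrix (Fin 3) (Fin 3) ℂ, M * M' = 1 ∧ M' * M = 1 ∧ ∀ v, M.mulVec v 0 = l v := by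
  obtain ⟨r, hr⟩ : ∃ r : Fin 3 → ℂ, ∀ v, l v = r 0 * v 0 + r 1 * v 1 + r 2 * v 2 := by
    refine ⟨fun i => l (Pi.single i 1), fun v => ?_⟩
    conv_lhs => rw [pi_eq_sum_univ' v]
    simp only [Fin.sum_univ_three, map_add, map_smul, smul_eq_mul]
    ring
  have key : ∀ M : Matrix (Fin 3) (Fin 3) ℂ, M.det ≠ 0 → M 0 = r →
      ∃ M M' : Matrix (Fin 3) (Fin 3) ℂ, M * M' = 1 ∧ M' * M = 1 ∧
        ∀ v, M.mulVec v 0 = l v := fun M h h' => by
    refine ⟨M, M⁻¹, Matrix.mul_nonsing_inv M h.isUnit, Matrix.nonsing_inv_mul M h.isUnit,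
      fun v => ?_⟩
    change M 0 ⬝ᵥ v = l v
    rw [h', hr, dotProduct, Fin.sum_univ_three]
  have e : ![r 0, r 1, r 2] = r := by
    funext i
    fin_cases i <;> rfl
  by_cases h0 : r 0 = 0
  · by_cases h1 : r 1 = 0
    · have h2 : r 2 ≠ 0 := fun h2 => hl (LinearMap.ext fun v => by simp [hr, h0, h1, h2])
      exact key !![r 0, r 1, r 2; 1, 0, 0; 0, 1, 0] (by simpa [Matrix.det_fin_three] using h2) e
    · exact key !![r 0, r 1, r 2; 1, 0, 0; 0, 0, 1] (by simpa [Matrix.det_fin_three] using h1) e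
  · exact key !![r 0, r 1, r 2; 0, 1, 0; 0, 0, 1] (by simpa [Matrix.det_fin_three] using h0) e

/-- the linear forms given by the rows of a matrix -/
noncomputable def Pj4_lin (M : Matrix (Fin 3) (Fin 3) ℂ) : Fin 3 → A3 :=
  fun a => ∑ b, C (M a b) * X b

theorem Pj4_lin_hom (M : Matrix (Fin 3) (Fin 3) ℂ) (a : Fin 3) : (Pj4_lin M a).IsHomogeneous 1 :=
  IsHomogeneous.sum _ _ _ fun b _ => isHomogeneous_C_mul_X _ b

theorem Pj4_eval_aeval (M : Matrix (Fin 3) (Fin 3) ℂ) (v : Fin 3 → ℂ) (g : A3) :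
    eval v (aeval (Pj4_lin M) g) = eval (M.mulVec v) g := by
  induction g using MvPolynomial.induction_on with
  | C a => simp
  | add p q hp hq => simp only [map_add, hp, hq]
  | mul_X p i hp =>
    simp only [map_mul, hp, aeval_X, eval_X, Pj4_lin, map_sum, eval_C]
    rfl

theorem Pj4_rep (M : Matrix (Fin 3) (Fin 3) ℂ) (hM : Function.Injective M.mulVecLin) (p : P2) :
    ∃ a : ℂ, a ≠ 0 ∧ (Projectivization.map M.mulVecLin hM p).rep = a • M.mulVec p.rep := by
  have h : Projectivization.map M.mulVecLin hM p = Projectivization.mk ℂ (M.mulVec p.rep)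
      ((map_ne_zero_iff M.mulVecLin hM).2 p.rep_nonzero) := by
    conv_lhs => rw [← p.mk_rep]
    rfl
  obtain ⟨a, ha⟩ := Projectivization.exists_smul_eq_mk_rep ℂ (M.mulVec p.rep)
    ((map_ne_zero_iff M.mulVecLin hM).2 p.rep_nonzero)
  exact ⟨a, a.ne_zero, by rw [h, ← ha, Units.smul_def]⟩

theorem Pj4_mem (M : Matrix (Fin 3) (Fin 3) ℂ) (hM : Function.Injective M.mulVecLin)
    (Z : Set P2) (g : A3) : g ∈ idealOf (Projectivization.map M.mulVecLin hM '' Z) ↔
      aeval (Pj4_lin M) g ∈ idealOf Z := by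
  rw [mem_idealOf, mem_idealOf]
  constructor
  · intro h p hp c
    obtain ⟨a, ha, e⟩ := Pj4_rep M hM p
    have := h _ ⟨p, hp, rfl⟩ (c * a⁻¹)
    rwa [e, smul_smul, mul_assoc, inv_mul_cancel₀ ha, mul_one, ← Matrix.mulVec_smul,
      ← Pj4_eval_aeval] at this
  · rintro h _ ⟨p, hp, rfl⟩ c
    obtain ⟨a, -, e⟩ := Pj4_rep M hM p
    rw [e, smul_smul, ← Matrix.mulVec_smul, ← Pj4_eval_aeval]
    exact h p hp _

/-- Conjugate by the matrix `M`: `F' i = ∑ j, C (M i j) * aeval (fun a => ∑ b, C (M' a b) * X b) (F j)`,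
transport `Y`, `S` along `Θ [v] = [M v]`, and apply `proj_coord`. -/
theorem proj_line {d : ℕ} (hd : 2 ≤ d) {F : Fin 3 → A3} (hF : ∀ v, v ≠ 0 → evalMap F v ≠ 0)
    (hom : ∀ i, (F i).IsHomogeneous d) (l : (Fin 3 → ℂ) →ₗ[ℂ] ℂ) (hl : l ≠ 0)
    (hinv : projMap F hF ⁻¹' {p | l p.rep = 0} = {p | l p.rep = 0}) {Y S : Set P2}
    (hY : ∀ p : P2, (∀ g ∈ idealOf Y, eval p.rep g = 0) → p ∈ Y) (hSY : S ⊆ Y)
    (hdense : idealOf S = idealOf Y) (hpre : ∀ x ∈ S, Pre (projMap F hF) x) :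
    PreSet (projMap F hF) Y := by
  obtain ⟨M, M', hM, hM', hMl⟩ := exists_matrix l hl
  have c1 : ∀ v, M.mulVec (M'.mulVec v) = v := fun v => by
    rw [Matrix.mulVec_mulVec, hM, Matrix.one_mulVec]
  have c2 : ∀ v, M'.mulVec (M.mulVec v) = v := fun v => by
    rw [Matrix.mulVec_mulVec, hM', Matrix.one_mulVec]
  have i1 : Function.Injective M.mulVecLin := Function.LeftInverse.injective c2
  have i2 : Function.Injective M'.mulVecLin := Function.LeftInverse.injective c1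
  let F' : Fin 3 → A3 := fun i => ∑ j, C (M i j) * aeval (Pj4_lin M') (F j)
  have eF : ∀ v, evalMap F' v = M.mulVec (evalMap F (M'.mulVec v)) := fun v => by
    funext i
    simp only [evalMap, F', map_sum, map_mul, eval_C, Pj4_eval_aeval]
    rfl
  have hF' : ∀ v, v ≠ 0 → evalMap F' v ≠ 0 := fun v hv => by
    rw [eF]
    exact (map_ne_zero_iff M.mulVecLin i1).2 (hF _ ((map_ne_zero_iff M'.mulVecLin i2).2 hv))
  have hom' : ∀ i, (F' i).IsHomogeneous d := fun i => by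
    refine IsHomogeneous.sum _ _ _ fun j _ => IsHomogeneous.C_mul ?_ _
    simpa using (hom j).aeval (Pj4_lin M') (Pj4_lin_hom M')
  have hrep : ∀ (v : Fin 3 → ℂ) (hv : v ≠ 0),
      l (Projectivization.mk ℂ v hv).rep = 0 ↔ l v = 0 := fun v hv => by
    obtain ⟨a, ha⟩ := Projectivization.exists_smul_eq_mk_rep ℂ v hv
    rw [← ha, Units.smul_def, map_smul, smul_eq_zero, or_iff_right a.ne_zero]
  have hl0 : ∀ u, l (evalMap F u) = 0 ↔ l u = 0 := fun u => by
    by_cases hu : u = 0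
    · have : evalMap F u = 0 := by
        funext i
        rw [hu, evalMap, eval_zero, constantCoeff_eq]
        exact (hom i).coeff_eq_zero (by rw [map_zero]; omega)
      rw [this, hu]
    · have := Set.ext_iff.1 hinv (Projectivization.mk ℂ u hu)
      rw [Set.mem_preimage, projMap_mk hF hom, Set.mem_ofPred_eq, Set.mem_ofPred_eq, hrep,
        hrep] at this
      exact this
  have h0 : ∀ v, evalMap F' v 0 = 0 ↔ v 0 = 0 := fun v => by
    rw [eF, hMl, hl0, ← hMl, c1]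
  let Θ : P2 → P2 := Projectivization.map M.mulVecLin i1
  have hΘ : Function.Injective Θ := Projectivization.map_injective _ i1
  have hsc : Function.Semiconj Θ (projMap F hF) (projMap F' hF') := fun p => by
    induction p using Projectivization.ind with
    | h v hv =>
      simp only [Θ]
      rw [projMap_mk hF hom, Projectivization.map_mk, Projectivization.map_mk,
        projMap_mk hF' hom']
      simp only [Matrix.mulVecLin_apply, eF, c2]
  have hid : ∀ (Z : Set P2) (g : A3), g ∈ idealOf (Θ '' Z) ↔ aeval (Pj4_lin M) g ∈ idealOf Z :=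
    fun Z g => Pj4_mem M i1 Z g
  have key := proj_coord hd hF' hom' h0 (Y := Θ '' Y) (S := Θ '' S) (fun p hp => by
      obtain ⟨a, -, ha⟩ := Pj4_rep M' i2 p
      refine ⟨Projectivization.map M'.mulVecLin i2 p, hY _ fun h hh => ?_, ?_⟩
      · have := hp (aeval (Pj4_lin (a • M')) h) ((hid Y _).2 (mem_idealOf.2 fun y hy c => by
          rw [Pj4_eval_aeval, Pj4_eval_aeval, Matrix.smul_mulVec, c2, smul_smul]
          exact mem_idealOf.1 hh y hy _))
        rwa [Pj4_eval_aeval, Matrix.smul_mulVec, ← ha] at this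
      · induction p using Projectivization.ind with
        | h v hv =>
          simp only [Θ]
          rw [Projectivization.map_mk, Projectivization.map_mk]
          simp only [Matrix.mulVecLin_apply, c1])
    (Set.image_mono hSY) (Ideal.ext fun g => by rw [hid, hid, hdense]) (by
      rintro _ ⟨x, hx, rfl⟩
      refine ((hpre x hx).image Θ).subset ?_
      rintro _ ⟨n, rfl⟩
      exact ⟨_, ⟨n, rfl⟩, hsc.iterate_right n x⟩)
  obtain ⟨m, t, ht, e⟩ := key
  refine ⟨m, t, ht, hΘ.image_injective ?_⟩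
  have e1 := (hsc.iterate_right (m + t)).set_image Y
  have e2 := (hsc.iterate_right m).set_image Y
  exact e1.trans (e.trans e2.symm)

end Pool.Agent.Work.MP_0a826e_ag.R
end
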